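import Mathlib

/-!
# Codes of closed sets of sequences of strings

A code `z` has a set `A` of places, a function `f` which gives the values outside of `A`, cut
points `e 0 < e 1 < ...` and finite sets `D j` of strings of length `e (j + 1)`.  Its points are
the sequences `c` with `c n = f n` for `n` outside of `A`, such that for each `j` some `t` in `D j`
satisfies `c n = t ↾ n` for all `n` in `A` with `e j ≤ n < e (j + 1)`.
-/

namespace Pool.Agent.MF45

/-- the entries of a code -/
@[ext] structure Yb where
  /-- is the place in the set `A` -/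
  a : Bool
  /-- the value outside of `A` -/
  f : List Bool
  /-- the cut point -/
  e : ℕ
  /-- the finite set of strings -/
  d : Finset (List Bool)

instance : MeasurableSpace Yb := ⊤

instance : DiscreteMeasurableSpace Yb := ⟨fun _ => trivial⟩

instance : Countable Yb := by
  have h : Function.Injective fun y : Yb => (y.a, y.f, y.e, y.d) := by
    intro x y h
    simp only [Prod.mk.injEq] at h
    exact Yb.ext h.1 h.2.1 h.2.2.1 h.2.2.2
  exact h.countable

instance instMsStr : MeasurableSpace (List Bool) := ⊤

instance : DiscreteMeasurableSpace (List Bool) := ⟨fun _ => trivial⟩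

instance instMsFinStr : MeasurableSpace (Finset (List Bool)) := ⊤

/-- codes -/
abbrev Cz : Type := ℕ → Yb

/-- well formed codes -/
structure WF (z : Cz) : Prop where
  /-- the cut points are strictly increasing -/
  mono : StrictMono fun j => (z j).e
  /-- there are no places of `A` below the first cut point -/
  init : ∀ n, n < (z 0).e → (z n).a = false
  /-- the value at `n` has length `n` -/
  len : ∀ n, (z n).f.length = n
  /-- the strings in `D j` have length `e (j + 1)` -/
  dlen : ∀ j, ∀ t ∈ (z j).d, t.length = (z (j + 1)).e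
  /-- `D j` is not empty -/
  dne : ∀ j, (z j).d.Nonempty
  /-- each string in `D j` is extended by a string in `D (j + 1)` -/
  ext : ∀ j, ∀ t ∈ (z j).d, ∃ t' ∈ (z (j + 1)).d, t <+: t'
  /-- each string is extended by a string in some `D j` -/
  dense : ∀ s : List Bool, ∃ j, ∃ t ∈ (z j).d, s <+: t

/-- the points of a code -/
def Pt (z : Cz) : Set (ℕ → List Bool) :=
  {c | (∀ n, (z n).a = false → c n = (z n).f) ∧
    ∀ j, ∃ t ∈ (z j).d, ∀ n, (z j).e ≤ n → n < (z (j + 1)).e → (z n).a = true → c n = t.take n}

/-- the strings of length `n` -/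
def strs (n : ℕ) : Finset (List Bool) := (Finset.univ : Finset (Fin n → Bool)).image List.ofFn

/-- the weakest code -/
def topc : Cz := fun n => ⟨true, List.replicate n false, n, strs (n + 1)⟩

/-- the code `z'` is stronger than `z` for the places `≥ m` -/
def Tl (m : ℕ) (z' z : Cz) : Prop := ∀ c ∈ Pt z', ∃ c' ∈ Pt z, ∀ n, m ≤ n → c n = c' n

/-- the first set of strings meets all cones of length `M` -/
def Cone (M : ℕ) (z : Cz) : Prop := ∀ s : List Bool, s.length = M → ∃ t ∈ (z 0).d, s <+: t

/-- the code `z` with the values `u n` at the places `n < m` -/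
def Upd (m : ℕ) (u : ℕ → List Bool) (z : Cz) : Cz := fun n =>
  if n < m then { z n with a := false, f := u n } else z n

/-- the code `z` with the values `c n` at the places `n` below the cut point `e k` -/
def fixk (k : ℕ) (c : ℕ → List Bool) (z : Cz) : Cz := fun n =>
  ⟨decide ((z k).e ≤ n) && (z n).a, if n < (z k).e then c n else (z n).f, (z (k + n)).e,
    (z (k + n)).d⟩

/-- a choice of an element of a finite set of strings -/
noncomputable def dsel (D : Finset (List Bool)) : List Bool :=
  open Classical in if h : D.Nonempty then h.choose else []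

/-- the number `j` of the class of the place `n`: `e j ≤ n < e (j + 1)` -/
noncomputable def jc (z : Cz) (n : ℕ) : ℕ :=
  open Classical in Nat.findGreatest (fun j => (z j).e ≤ n) n

/-- a point of `z` -/
noncomputable def pt (z : Cz) : ℕ → List Bool := fun n =>
  if (z n).a = true then (dsel (z (jc z n)).d).take n else (z n).f

/-- fix all values below some cut point `≥ m` -/
noncomputable def fixm (m : ℕ) (z : Cz) : Cz := fixk (sInf {k | m ≤ (z k).e}) (pt z) z

/-- fix values so that the first cut point is `≥ M` and the first set of strings meets all cones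
of length `M` -/
noncomputable def coneOp (M : ℕ) (z : Cz) : Cz :=
  fixk (sInf {j | M ≤ (z j).e ∧ ∀ s : List Bool, s.length = M → ∃ t ∈ (z j).d, s <+: t}) (pt z) z

/-- patterns of length `M` -/
def Pat (M : ℕ) : Set (ℕ → List Bool) :=
  {u | (∀ n, n < M → (u n).length = n) ∧ ∀ n, M ≤ n → u n = []}

/-- the first `M` values of `c` -/
def cutf (M : ℕ) (c : ℕ → List Bool) : ℕ → List Bool := fun n => if n < M then c n else []

/-- `S` is a nowhere dense tree -/
def Nwd (S : Set (List Bool)) : Prop :=
  (∀ s t : List Bool, s <+: t → t ∈ S → s ∈ S) ∧ ∀ s : List Bool, ∃ t, s <+: t ∧ t ∉ S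

/-- remove `S` from the sets of strings -/
noncomputable def exr (S : Set (List Bool)) (z : Cz) : Cz := fun n =>
  open Classical in { z n with d := (z n).d.filter fun t => t.take (z n).e ∉ S }

/-- exclude the nowhere dense tree `S` -/
noncomputable def exc (S : Set (List Bool)) (z : Cz) : Cz :=
  exr S (fixk (sInf {j | ∃ t ∈ (z j).d, t.take (z j).e ∉ S}) (pt z) z)

/-- the indices of the new cut points -/
noncomputable def sig (g : ℕ → ℕ) (z : Cz) : ℕ → ℕ
  | 0 => 0
  | i + 1 => sInf {k | sig g z i < k ∧ g (z (sig g z i)).e ≤ (z k).e}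

/-- the strings of length `e l` which are compatible with the sets `D j` for `k ≤ j < l` -/
noncomputable def blkD (z : Cz) (k l : ℕ) : Finset (List Bool) :=
  open Classical in
  (strs (z l).e).filter fun t => ∀ j, k ≤ j → j < l → t.take (z (j + 1)).e ∈ (z j).d

/-- unite classes, so that each class which begins at `x` reaches beyond `g x` -/
noncomputable def mrg (g : ℕ → ℕ) (z : Cz) : Cz := fun n =>
  ⟨(z n).a, (z n).f, (z (sig g z n)).e, blkD z (sig g z n) (sig g z (n + 1))⟩

/-- `u` gives the values of a point of `z` at the places below `M` -/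
def Ext (z : Cz) (M : ℕ) (u : ℕ → List Bool) : Prop := ∃ c ∈ Pt z, ∀ n, n < M → c n = u n

/-- the sequence given by a list -/
def lst (l : List (List Bool)) : ℕ → List Bool := fun n => l.getD n []

/-- the list `l` gives values below the cut point `e k` of a point of `z`, but of no point
of `z'` -/
def SepR (z z' : Cz) (k : ℕ) (l : List (List Bool)) : Prop :=
  l.length = (z k).e ∧ Ext z (z k).e (lst l) ∧ ¬ Ext z' (z k).e (lst l)

/-- an enumeration of all finite lists of strings -/
noncomputable def sepl (n : ℕ) : List (List Bool) :=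
  (Encodable.decode (α := List (List Bool)) n.unpair.2).getD []

/-- a stronger code than `z` which has no point in common with `z'` -/
noncomputable def sepc (z z' : Cz) : Cz :=
  fixk (sInf {n | SepR z z' n.unpair.1 (sepl n)}).unpair.1
    (lst (sepl (sInf {n | SepR z z' n.unpair.1 (sepl n)}))) z

/-- the first `k` bits of `b` -/
def bt (b : ℕ → Bool) (k : ℕ) : List Bool := (List.range k).map b

/-! ### fusion -/

/-- the least cut point `≥ m` -/
noncomputable def cg (z : Cz) (m : ℕ) : ℕ := (z (sInf {k | m ≤ (z k).e})).e

/-- a number from which on `y` is contained in the set `A` of `ζ m` -/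
noncomputable def hh (ζ : ℕ → Cz) (y : ℕ → Bool) (m : ℕ) : ℕ :=
  sInf {k | ∀ n, k ≤ n → y n = true → (ζ m n).a = true}

/-- a bound for the least cut points `≥ m` of the first codes -/
noncomputable def kap (ζ : ℕ → Cz) (m : ℕ) : ℕ :=
  (Finset.range (m + 1)).sup fun k => cg (ζ k) m

/-- the gap function -/
noncomputable def gg (ζ : ℕ → Cz) (y : ℕ → Bool) (m : ℕ) : ℕ :=
  1 + (Finset.range (kap ζ m + 1)).sup (hh ζ y)

/-- the cut points of the fusion -/
noncomputable def eps (ζ : ℕ → Cz) (y y' : ℕ → Bool) : ℕ → ℕ
  | 0 => 0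
  | i + 1 => cg (ζ (eps ζ y y' i)) (sInf {m | (ζ (eps ζ y y' i) 0).e < m ∧ eps ζ y y' i < m ∧
      ∀ n, m ≤ n → n < gg ζ y m → y' n = false})

/-- the number of the block of `n` -/
noncomputable def bi (ζ : ℕ → Cz) (y y' : ℕ → Bool) (n : ℕ) : ℕ :=
  open Classical in Nat.findGreatest (fun i => eps ζ y y' i ≤ n) n

/-- the fusion of the sequence `ζ` -/
noncomputable def flp (ζ : ℕ → Cz) (y y' : ℕ → Bool) : Cz := fun n =>
  open Classical in
  ⟨(ζ (eps ζ y y' (bi ζ y y' n)) n).a, (ζ (eps ζ y y' (bi ζ y y' n)) n).f, eps ζ y y' n,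
    (strs (eps ζ y y' (n + 1))).filter fun t => ∀ j,
      (ζ (eps ζ y y' n) (j + 1)).e ≤ eps ζ y y' (n + 1) →
        t.take (ζ (eps ζ y y' n) (j + 1)).e ∈ (ζ (eps ζ y y' n) j).d⟩

end Pool.Agent.MF45
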