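import Pool.Agent.MF45.Cz

/-!
# Codes: basic facts

Paper proofs.  `WF z` says `e` is strictly increasing, hence `j ≤ e j` (`StrictMono.id_le`), and
each `n ≥ e 0` lies in exactly one class `e j ≤ n < e (j + 1)`; `jc z n` is its index.  All points
have `(c n).length = n`: outside of `A` by `WF.len`, inside because `c n = t.take n` for a string
`t` of length `e (j + 1) > n`.  `pt z` takes the chosen string of `D j` in the class `j`.
-/

namespace Pool.Agent.MF45

theorem mem_strs {n : ℕ} {t : List Bool} : t ∈ strs n ↔ t.length = n := by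
  unfold strs
  rw [Finset.mem_image]
  constructor
  · rintro ⟨f, -, rfl⟩
    exact List.length_ofFn
  · intro h
    subst h
    exact ⟨t.get, Finset.mem_univ _, List.ofFn_get t⟩

theorem WF.le_e {z : Cz} (hz : WF z) (j : ℕ) : j ≤ (z j).e := by
  exact hz.mono.le_apply

private theorem cza_mono {z : Cz} (hz : WF z) {i j : ℕ} (h : i ≤ j) : (z i).e ≤ (z j).e :=
  hz.mono.monotone h

/-- the classes are disjoint -/
theorem WF.class_unique {z : Cz} (hz : WF z) {n j k : ℕ} (h1 : (z j).e ≤ n)
    (h2 : n < (z (j + 1)).e) (h3 : (z k).e ≤ n) (h4 : n < (z (k + 1)).e) : j = k := by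
  rcases lt_trichotomy j k with h | h | h
  · have := cza_mono hz (show j + 1 ≤ k by omega)
    omega
  · exact h
  · have := cza_mono hz (show k + 1 ≤ j by omega)
    omega

theorem WF.jc_spec {z : Cz} (hz : WF z) {n : ℕ} (h : (z 0).e ≤ n) :
    (z (jc z n)).e ≤ n ∧ n < (z (jc z n + 1)).e := by
  classical
  have hjc : jc z n = Nat.findGreatest (fun j => (z j).e ≤ n) n := by
    unfold jc
    congr
  rw [hjc]
  refine ⟨Nat.findGreatest_spec (P := fun j => (z j).e ≤ n) (Nat.zero_le n) h, ?_⟩
  by_contra hcon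
  rw [not_lt] at hcon
  have h1 := hz.le_e (Nat.findGreatest (fun j => (z j).e ≤ n) n + 1)
  exact Nat.findGreatest_is_greatest (P := fun j => (z j).e ≤ n)
    (Nat.lt_succ_self (Nat.findGreatest (fun j => (z j).e ≤ n) n)) (by omega) hcon

theorem WF.jc_eq {z : Cz} (hz : WF z) {n j : ℕ} (h1 : (z j).e ≤ n) (h2 : n < (z (j + 1)).e) :
    jc z n = j := by
  have h3 := hz.jc_spec (n := n) ((cza_mono hz (Nat.zero_le j)).trans h1)
  exact hz.class_unique h3.1 h3.2 h1 h2

/-- places of `A` are `≥ e 0` -/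
theorem WF.le_of_a {z : Cz} (hz : WF z) {n : ℕ} (h : (z n).a = true) : (z 0).e ≤ n := by
  by_contra hcon
  rw [hz.init n (not_le.1 hcon)] at h
  exact absurd h (by simp)

theorem wf_topc : WF topc where
  mono := strictMono_id
  init := fun n h => absurd h (Nat.not_lt_zero n)
  len := fun n => List.length_replicate
  dlen := fun j t ht => mem_strs.1 ht
  dne := fun j => ⟨List.replicate (j + 1) false, mem_strs.2 List.length_replicate⟩
  ext := fun j t ht => ⟨t ++ [false], mem_strs.2 (by
    rw [List.length_append, mem_strs.1 ht]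
    rfl), List.prefix_append _ _⟩
  dense := fun s => ⟨s.length, s ++ [false], mem_strs.2 (by
    rw [List.length_append]
    rfl), List.prefix_append _ _⟩

theorem mem_pt_topc {c : ℕ → List Bool} : c ∈ Pt topc ↔ ∀ n, (c n).length = n := by
  constructor
  · rintro ⟨-, h⟩ n
    obtain ⟨t, ht, h1⟩ := h n
    rw [h1 n le_rfl (Nat.lt_succ_self n) rfl, List.length_take, mem_strs.1 ht]
    omega
  · intro h
    refine ⟨fun n hn => absurd hn (by simp [topc]), fun j => ⟨c j ++ [false], ?_, ?_⟩⟩
    · exact mem_strs.2 (by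
        rw [List.length_append, h j]
        rfl)
    · intro n h1 h2 _
      have h3 : n = j := by
        have h4 : j ≤ n := h1
        have h5 : n < j + 1 := h2
        omega
      rw [h3, List.take_left' (h j)]

theorem WF.length {z : Cz} (hz : WF z) {c : ℕ → List Bool} (hc : c ∈ Pt z) (n : ℕ) :
    (c n).length = n := by
  by_cases ha : (z n).a = true
  · obtain ⟨h1, h2⟩ := hz.jc_spec (hz.le_of_a ha)
    obtain ⟨t, ht, h3⟩ := hc.2 (jc z n)
    rw [h3 n h1 h2 ha, List.length_take, hz.dlen _ t ht]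
    omega
  · rw [hc.1 n (by simpa using ha)]
    exact hz.len n

theorem WF.pt_sub_topc {z : Cz} (hz : WF z) : Pt z ⊆ Pt topc := by
  intro c hc
  exact mem_pt_topc.2 (hz.length hc)

private theorem cza_dsel {D : Finset (List Bool)} (h : D.Nonempty) : dsel D ∈ D := by
  unfold dsel
  rw [dif_pos h]
  exact h.choose_spec

theorem WF.pt_mem {z : Cz} (hz : WF z) : pt z ∈ Pt z := by
  refine ⟨fun n hn => ?_, fun j => ⟨dsel (z j).d, cza_dsel (hz.dne j), fun n h1 h2 ha => ?_⟩⟩
  · unfold pt
    rw [if_neg (by rw [hn]; simp)]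
  · unfold pt
    rw [if_pos ha, hz.jc_eq h1 h2]

/-- a string in `D j` can be extended through the classes up to `k` -/
theorem WF.ext_through {z : Cz} (hz : WF z) {j k : ℕ} (hjk : j ≤ k) {t : List Bool}
    (ht : t ∈ (z j).d) : ∃ t' ∈ (z k).d, t <+: t' ∧
      ∀ i, j ≤ i → i ≤ k → t'.take (z (i + 1)).e ∈ (z i).d := by
  induction k, hjk using Nat.le_induction with
  | base =>
    refine ⟨t, ht, List.prefix_refl t, fun i h1 h2 => ?_⟩
    obtain rfl : i = j := le_antisymm h2 h1
    rw [List.take_of_length_le (hz.dlen _ t ht).le]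
    exact ht
  | succ k hk ih =>
    obtain ⟨t', ht', h1, h2⟩ := ih
    obtain ⟨t'', ht'', h3⟩ := hz.ext k t' ht'
    refine ⟨t'', ht'', h1.trans h3, fun i h4 h5 => ?_⟩
    rcases Nat.lt_or_ge k i with h6 | h6
    · obtain rfl : i = k + 1 := by omega
      rw [List.take_of_length_le (hz.dlen _ t'' ht'').le]
      exact ht''
    · have h7 : t''.take (z (i + 1)).e = t'.take (z (i + 1)).e := by
        obtain ⟨r, rfl⟩ := h3
        refine List.take_append_of_le_length ?_
        rw [hz.dlen _ t' ht']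
        exact cza_mono hz (by omega)
      rw [h7]
      exact h2 i h4 h6

/-- each string is extended by a string in `D j` for all large `j` -/
theorem WF.dense_ev {z : Cz} (hz : WF z) (s : List Bool) :
    ∃ j₀, ∀ j, j₀ ≤ j → ∃ t ∈ (z j).d, s <+: t := by
  obtain ⟨j₀, t, ht, hst⟩ := hz.dense s
  refine ⟨j₀, fun j hj => ?_⟩
  obtain ⟨t', ht', h1, -⟩ := hz.ext_through hj ht
  exact ⟨t', ht', hst.trans h1⟩

/-- all strings of length `M` are extended by strings in `D j` for all large `j` -/
theorem WF.dense_all {z : Cz} (hz : WF z) (M : ℕ) :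
    ∃ j₀, ∀ j, j₀ ≤ j → ∀ s : List Bool, s.length = M → ∃ t ∈ (z j).d, s <+: t := by
  choose g hg using hz.dense_ev
  refine ⟨(strs M).sup g, fun j hj s hs => hg s j (le_trans ?_ hj)⟩
  exact Finset.le_sup (f := g) (mem_strs.2 hs)

end Pool.Agent.MF45
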