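import Pool.Agent.MF45.CzA

/-!
# Codes: points, tails and updates

Paper proofs.  The conditions on a point concern the places outside of `A` one by one and the
classes one by one.  So one can splice two points at a cut point (`splice`).  For `cpt` choose for
each class `j` the string `t` which is given by the hypothesis for `N = e (j + 1)` and define `c'`
by these strings (with `c' n = (z n).f` outside of `A`).  `mem_pt_upd`: for the direction from
left to right the classes below `m` give no condition, choose arbitrary strings (`dne`) there.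
-/

namespace Pool.Agent.MF45

theorem WF.splice {z : Cz} (hz : WF z) {c c' : ℕ → List Bool} (hc : c ∈ Pt z) (hc' : c' ∈ Pt z)
    (k : ℕ) : (fun n => if n < (z k).e then c n else c' n) ∈ Pt z := by
  refine ⟨?_, ?_⟩
  · intro n hn
    by_cases h : n < (z k).e
    · simp only [h, if_true]
      exact hc.1 n hn
    · simp only [h, if_false]
      exact hc'.1 n hn
  · intro j
    by_cases hj : j < k
    · obtain ⟨t, ht, h⟩ := hc.2 j
      refine ⟨t, ht, ?_⟩
      intro n h1 h2 h3
      have h4 : (z (j + 1)).e ≤ (z k).e := hz.mono.monotone (by omega)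
      have h5 : n < (z k).e := by omega
      simp only [h5, if_true]
      exact h n h1 h2 h3
    · obtain ⟨t, ht, h⟩ := hc'.2 j
      refine ⟨t, ht, ?_⟩
      intro n h1 h2 h3
      have h4 : (z k).e ≤ (z j).e := hz.mono.monotone (by omega)
      have h5 : ¬ n < (z k).e := by omega
      simp only [h5, if_false]
      exact h n h1 h2 h3

theorem WF.cpt {z : Cz} (hz : WF z) {c : ℕ → List Bool} {m : ℕ}
    (h : ∀ N, ∃ c' ∈ Pt z, ∀ n, m ≤ n → n < N → c n = c' n) :
    ∃ c' ∈ Pt z, ∀ n, m ≤ n → c n = c' n := by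
  have key : ∀ j, ∃ t ∈ (z j).d, ∀ n, m ≤ n → (z j).e ≤ n → n < (z (j + 1)).e →
      (z n).a = true → c n = t.take n := by
    intro j
    obtain ⟨c', hc', h'⟩ := h (z (j + 1)).e
    obtain ⟨t, ht, h2⟩ := hc'.2 j
    refine ⟨t, ht, ?_⟩
    intro n h3 h4 h5 h6
    rw [h' n h3 h5]
    exact h2 n h4 h5 h6
  choose T hT hT2 using key
  refine ⟨fun n => if (z n).a = true then (T (jc z n)).take n else (z n).f, ⟨?_, ?_⟩, ?_⟩
  · intro n hn
    simp [hn]
  · intro j
    refine ⟨T j, hT j, ?_⟩
    intro n h1 h2 h3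
    simp only [h3, if_true]
    rw [hz.jc_eq h1 h2]
  · intro n hn
    by_cases ha : (z n).a = true
    · simp only [ha, if_true]
      obtain ⟨h1, h2⟩ := hz.jc_spec (hz.le_of_a ha)
      exact hT2 _ n hn h1 h2 ha
    · have hb : (z n).a = false := by simpa using ha
      simp only [ha, if_false]
      obtain ⟨c', hc', h'⟩ := h (n + 1)
      rw [h' n hn (by omega)]
      exact hc'.1 n hb

theorem WF.closed {z : Cz} (hz : WF z) {c : ℕ → List Bool}
    (h : ∀ N, ∃ c' ∈ Pt z, ∀ n, n < N → c n = c' n) : c ∈ Pt z := by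
  obtain ⟨c', hc', h'⟩ := hz.cpt (m := 0) (c := c) (by
    intro N
    obtain ⟨c', hc', h'⟩ := h N
    exact ⟨c', hc', fun n _ hn => h' n hn⟩)
  have : c = c' := funext fun n => h' n (Nat.zero_le n)
  rw [this]
  exact hc'

theorem WF.closed_ext {z : Cz} (hz : WF z) {c : ℕ → List Bool} (h : ∀ N, Ext z N c) :
    c ∈ Pt z := by
  refine hz.closed ?_
  intro N
  obtain ⟨c', hc', h'⟩ := h N
  exact ⟨c', hc', fun n hn => (h' n hn).symm⟩

theorem wf_upd {z : Cz} (hz : WF z) {m : ℕ} {u : ℕ → List Bool}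
    (hu : ∀ n, n < m → (u n).length = n) : WF (Upd m u z) := by
  have he : ∀ j, (Upd m u z j).e = (z j).e := by
    intro j
    unfold Upd
    split_ifs <;> rfl
  have hd : ∀ j, (Upd m u z j).d = (z j).d := by
    intro j
    unfold Upd
    split_ifs <;> rfl
  refine ⟨?_, ?_, ?_, ?_, ?_, ?_, ?_⟩
  · intro i j hij
    simp only [he]
    exact hz.mono hij
  · intro n hn
    rw [he] at hn
    unfold Upd
    split_ifs
    · rfl
    · exact hz.init n hn
  · intro n
    unfold Upd
    split_ifs with h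
    · exact hu n h
    · exact hz.len n
  · intro j t ht
    rw [hd] at ht
    rw [he]
    exact hz.dlen j t ht
  · intro j
    rw [hd]
    exact hz.dne j
  · intro j t ht
    rw [hd] at ht
    rw [hd]
    exact hz.ext j t ht
  · intro s
    obtain ⟨j, t, ht, hs⟩ := hz.dense s
    exact ⟨j, t, by rw [hd]; exact ht, hs⟩

theorem mem_pt_upd {z : Cz} (hz : WF z) {m : ℕ} {u c : ℕ → List Bool} :
    c ∈ Pt (Upd m u z) ↔ (∀ n, n < m → c n = u n) ∧ ∃ c' ∈ Pt z, ∀ n, m ≤ n → c n = c' n := by
  have he : ∀ j, (Upd m u z j).e = (z j).e := by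
    intro j
    unfold Upd
    split_ifs <;> rfl
  have hd : ∀ j, (Upd m u z j).d = (z j).d := by
    intro j
    unfold Upd
    split_ifs <;> rfl
  have hlt : ∀ n, n < m → (Upd m u z n).a = false ∧ (Upd m u z n).f = u n := by
    intro n hn
    unfold Upd
    simp [hn]
  have hge : ∀ n, m ≤ n → Upd m u z n = z n := by
    intro n hn
    unfold Upd
    simp [Nat.not_lt.mpr hn]
  constructor
  · rintro ⟨h1, h2⟩
    refine ⟨?_, ?_⟩
    · intro n hn
      rw [h1 n (hlt n hn).1, (hlt n hn).2]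
    · simp only [hd, he] at h2
      choose T hT hT2 using h2
      refine ⟨fun n => if m ≤ n then c n else
        if (z n).a = true then (T (jc z n)).take n else (z n).f, ⟨?_, ?_⟩, ?_⟩
      · intro n hn
        by_cases hm : m ≤ n
        · simp only [hm, if_true]
          have := h1 n
          rw [hge n hm] at this
          exact this hn
        · simp [hm, hn]
      · intro j
        refine ⟨T j, hT j, ?_⟩
        intro n h3 h4 h5
        by_cases hm : m ≤ n
        · simp only [hm, if_true]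
          exact hT2 j n h3 h4 (by rw [hge n hm]; exact h5)
        · simp only [hm, if_false, h5, if_true]
          rw [hz.jc_eq h3 h4]
      · intro n hm
        simp only [hm, if_true]
  · rintro ⟨h1, c', hc', h2⟩
    refine ⟨?_, ?_⟩
    · intro n hn
      by_cases hm : n < m
      · rw [h1 n hm, (hlt n hm).2]
      · have hm' : m ≤ n := Nat.not_lt.mp hm
        rw [hge n hm'] at hn ⊢
        rw [h2 n hm']
        exact hc'.1 n hn
    · intro j
      obtain ⟨t, ht, h3⟩ := hc'.2 j
      refine ⟨t, by rw [hd]; exact ht, ?_⟩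
      intro n h4 h5 h6
      rw [he] at h4 h5
      by_cases hm : n < m
      · rw [(hlt n hm).1] at h6
        exact absurd h6 (by simp)
      · have hm' : m ≤ n := Nat.not_lt.mp hm
        rw [hge n hm'] at h6
        rw [h2 n hm']
        exact h3 n h4 h5 h6

theorem upd_congr {z : Cz} {m : ℕ} {u v : ℕ → List Bool} (h : ∀ n, n < m → u n = v n) :
    Upd m u z = Upd m v z := by
  funext n
  unfold Upd
  split_ifs with hn
  · rw [h n hn]
  · rfl

theorem upd_zero (u : ℕ → List Bool) (z : Cz) : Upd 0 u z = z := by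
  funext n
  simp [Upd]

theorem tl_zero {z' z : Cz} : Tl 0 z' z ↔ Pt z' ⊆ Pt z := by
  constructor
  · intro h c hc
    obtain ⟨c', hc', h'⟩ := h c hc
    have : c = c' := funext fun n => h' n (Nat.zero_le n)
    rw [this]
    exact hc'
  · intro h c hc
    exact ⟨c, h hc, fun _ _ => rfl⟩

theorem Tl.trans {m : ℕ} {z₁ z₂ z₃ : Cz} (h : Tl m z₁ z₂) (h' : Tl m z₂ z₃) : Tl m z₁ z₃ := by
  intro c hc
  obtain ⟨c', hc', h1⟩ := h c hc
  obtain ⟨c'', hc'', h2⟩ := h' c' hc'
  exact ⟨c'', hc'', fun n hn => (h1 n hn).trans (h2 n hn)⟩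

theorem Tl.mono {m m' : ℕ} (hm : m ≤ m') {z₁ z₂ : Cz} (h : Tl m z₁ z₂) : Tl m' z₁ z₂ := by
  intro c hc
  obtain ⟨c', hc', h1⟩ := h c hc
  exact ⟨c', hc', fun n hn => h1 n (hm.trans hn)⟩

theorem tl_of_sub {m : ℕ} {z' z : Cz} (h : Pt z' ⊆ Pt z) : Tl m z' z := by
  exact fun c hc => ⟨c, h hc, fun _ _ => rfl⟩

theorem tl_of_upd {m : ℕ} {u : ℕ → List Bool} {z' z : Cz} (hz : WF z)
    (h : Pt z' ⊆ Pt (Upd m u z)) : Tl m z' z := by
  exact fun c hc => ((mem_pt_upd hz).1 (h hc)).2

/-- updates are monotone for the tail relation -/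
theorem upd_sub_upd {m : ℕ} {u : ℕ → List Bool} {z' z : Cz} (hz' : WF z') (hz : WF z)
    (h : Tl m z' z) : Pt (Upd m u z') ⊆ Pt (Upd m u z) := by
  intro c hc
  obtain ⟨h1, c', hc', h2⟩ := (mem_pt_upd hz').1 hc
  obtain ⟨c'', hc'', h3⟩ := h c' hc'
  exact (mem_pt_upd hz).2 ⟨h1, c'', hc'', fun n hn => (h2 n hn).trans (h3 n hn)⟩

/-- a tail of a code whose points all begin with `u` -/
theorem upd_sub_of_tl {m : ℕ} {u : ℕ → List Bool} {z' z : Cz} (hz' : WF z') (hz : WF z)
    (h : Tl m z' z) (hu : ∀ c ∈ Pt z, ∀ n, n < m → c n = u n) : Pt (Upd m u z') ⊆ Pt z := by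
  intro c hc
  obtain ⟨h1, c', hc', h2⟩ := (mem_pt_upd hz').1 hc
  obtain ⟨c'', hc'', h3⟩ := h c' hc'
  have : c = c'' := by
    funext n
    by_cases hn : n < m
    · rw [h1 n hn, hu c'' hc'' n hn]
    · have hn' : m ≤ n := Nat.not_lt.mp hn
      exact (h2 n hn').trans (h3 n hn')
  rw [this]
  exact hc''

theorem cutf_mem {z : Cz} (hz : WF z) {c : ℕ → List Bool} (hc : c ∈ Pt z) (M : ℕ) :
    cutf M c ∈ Pat M := by
  refine ⟨?_, ?_⟩
  · intro n hn
    unfold cutf
    simp only [hn, if_true]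
    exact hz.length hc n
  · intro n hn
    unfold cutf
    simp [Nat.not_lt.mpr hn]

theorem finite_pat (M : ℕ) : (Pat M).Finite := by
  refine Set.Finite.subset (Set.finite_range (fun g : (∀ n : Fin M, List.Vector Bool n.1) =>
    fun n : ℕ => if h : n < M then (g ⟨n, h⟩).1 else [])) ?_
  rintro u ⟨h1, h2⟩
  refine ⟨fun n => ⟨u n.1, h1 n.1 n.2⟩, ?_⟩
  funext n
  by_cases hn : n < M
  · simp [hn]
  · simp only [hn, dite_false]
    exact (h2 n (Nat.not_lt.mp hn)).symm

end Pool.Agent.MF45
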