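import Pool.Agent.MF45.CzB

/-!
# Codes: fixing values

Paper proofs.  `fixk k c z` has the cut points `e k < e (k + 1) < ...` of `z`, the places of `A`
which are `≥ e k`, and the value `c n` for `n < e k`.  If `c` is (below `e k`) a point of `z`,
then the points of `fixk k c z` are the points of `z` which agree with `c` below `e k`
(use `WF.splice`).
-/

namespace Pool.Agent.MF45

private theorem czc_a {z : Cz} {k : ℕ} {c : ℕ → List Bool} {n : ℕ} (hn : (z k).e ≤ n) :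
    (fixk k c z n).a = (z n).a := by
  simp only [fixk, hn, decide_true, Bool.true_and]

private theorem czc_a' {z : Cz} {k : ℕ} {c : ℕ → List Bool} {n : ℕ} (hn : n < (z k).e) :
    (fixk k c z n).a = false := by
  simp only [fixk, not_le.2 hn, decide_false, Bool.false_and]

private theorem czc_f {z : Cz} {k : ℕ} {c : ℕ → List Bool} {n : ℕ} (hn : (z k).e ≤ n) :
    (fixk k c z n).f = (z n).f := by
  simp only [fixk, not_lt.2 hn, if_false]

private theorem czc_f' {z : Cz} {k : ℕ} {c : ℕ → List Bool} {n : ℕ} (hn : n < (z k).e) :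
    (fixk k c z n).f = c n := by
  simp only [fixk, hn, if_true]

theorem wf_fixk {z : Cz} (hz : WF z) {k : ℕ} {c : ℕ → List Bool}
    (hc : ∀ n, n < (z k).e → (c n).length = n) : WF (fixk k c z) := by
  constructor
  · intro i j hij
    exact hz.mono (Nat.add_lt_add_left hij k)
  · intro n hn
    exact czc_a' hn
  · intro n
    rcases lt_or_ge n (z k).e with h | h
    · rw [czc_f' h]
      exact hc n h
    · rw [czc_f h]
      exact hz.len n
  · intro j t ht
    exact hz.dlen (k + j) t ht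
  · intro j
    exact hz.dne (k + j)
  · intro j t ht
    exact hz.ext (k + j) t ht
  · intro s
    obtain ⟨j₀, hj⟩ := hz.dense_ev s
    obtain ⟨t, ht, hs⟩ := hj (k + j₀) (Nat.le_add_left _ _)
    exact ⟨j₀, t, ht, hs⟩

theorem mem_pt_fixk {z : Cz} (hz : WF z) {k : ℕ} {c : ℕ → List Bool} (hc : Ext z (z k).e c)
    {c' : ℕ → List Bool} :
    c' ∈ Pt (fixk k c z) ↔ c' ∈ Pt z ∧ ∀ n, n < (z k).e → c' n = c n := by
  obtain ⟨c0, ⟨h01, h02⟩, h0⟩ := hc
  constructor
  · rintro ⟨h1, h2⟩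
    have hlow : ∀ n, n < (z k).e → c' n = c n := by
      intro n hn
      rw [h1 n (czc_a' hn), czc_f' hn]
    refine ⟨⟨fun n hn => ?_, fun j => ?_⟩, hlow⟩
    · rcases lt_or_ge n (z k).e with h | h
      · rw [hlow n h, ← h0 n h]
        exact h01 n hn
      · rw [h1 n (by rw [czc_a h]; exact hn), czc_f h]
    · rcases lt_or_ge j k with hjk | hjk
      · obtain ⟨t, ht, h3⟩ := h02 j
        refine ⟨t, ht, fun n hn hn' ha => ?_⟩
        have hle : (z (j + 1)).e ≤ (z k).e := hz.mono.monotone hjk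
        have hnk : n < (z k).e := lt_of_lt_of_le hn' hle
        rw [hlow n hnk, ← h0 n hnk]
        exact h3 n hn hn' ha
      · obtain ⟨i, rfl⟩ := Nat.exists_eq_add_of_le hjk
        obtain ⟨t, ht, h3⟩ := h2 i
        refine ⟨t, ht, fun n hn hn' ha => ?_⟩
        have hle : (z k).e ≤ (z (k + i)).e := hz.mono.monotone (Nat.le_add_right _ _)
        exact h3 n hn hn' (by rw [czc_a (hle.trans hn)]; exact ha)
  · rintro ⟨⟨h1, h2⟩, hlow⟩
    refine ⟨fun n hn => ?_, fun j => ?_⟩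
    · rcases lt_or_ge n (z k).e with h | h
      · rw [hlow n h, czc_f' h]
      · rw [czc_f h]
        exact h1 n (by rw [← czc_a (c := c) h]; exact hn)
    · obtain ⟨t, ht, h3⟩ := h2 (k + j)
      refine ⟨t, ht, fun n hn hn' ha => ?_⟩
      have hle : (z k).e ≤ (z (k + j)).e := hz.mono.monotone (Nat.le_add_right _ _)
      exact h3 n hn hn' (by rw [← czc_a (c := c) (hle.trans hn)]; exact ha)

theorem wf_fixk' {z : Cz} (hz : WF z) {k : ℕ} {c : ℕ → List Bool} (hc : Ext z (z k).e c) :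
    WF (fixk k c z) := by
  obtain ⟨c0, h0, h1⟩ := hc
  refine wf_fixk hz fun n hn => ?_
  rw [← h1 n hn]
  exact hz.length h0 n

theorem ext_pt {z : Cz} (hz : WF z) (M : ℕ) : Ext z M (pt z) := by
  exact ⟨pt z, hz.pt_mem, fun _ _ => rfl⟩

theorem fixk_a {z : Cz} {k : ℕ} {c : ℕ → List Bool} {n : ℕ} (hn : (z k).e ≤ n) :
    (fixk k c z n).a = (z n).a := by
  exact czc_a hn

theorem wf_fixm {z : Cz} (hz : WF z) (m : ℕ) : WF (fixm m z) := by
  exact wf_fixk' hz (ext_pt hz _)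

theorem fixm_sub {z : Cz} (hz : WF z) (m : ℕ) : Pt (fixm m z) ⊆ Pt z := by
  intro c hc
  exact ((mem_pt_fixk hz (ext_pt hz _)).1 hc).1

private theorem czc_ms {z : Cz} (hz : WF z) (m : ℕ) : m ≤ (z (sInf {k | m ≤ (z k).e})).e := by
  have h : (sInf {k | m ≤ (z k).e}) ∈ {k | m ≤ (z k).e} := Nat.sInf_mem ⟨m, hz.le_e m⟩
  exact h

theorem fixm_val {z : Cz} (hz : WF z) {m : ℕ} {c : ℕ → List Bool} (hc : c ∈ Pt (fixm m z))
    {n : ℕ} (hn : n < m) : c n = pt z n := by
  exact ((mem_pt_fixk hz (ext_pt hz _)).1 hc).2 n (lt_of_lt_of_le hn (czc_ms hz m))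

theorem fixm_a {z : Cz} (hz : WF z) (m : ℕ) : ∃ N, ∀ n, N ≤ n → (fixm m z n).a = (z n).a := by
  exact ⟨_, fun n hn => czc_a hn⟩

private theorem czc_cs {z : Cz} (hz : WF z) (M : ℕ) :
    (sInf {j | M ≤ (z j).e ∧ ∀ s : List Bool, s.length = M → ∃ t ∈ (z j).d, s <+: t}) ∈
      {j | M ≤ (z j).e ∧ ∀ s : List Bool, s.length = M → ∃ t ∈ (z j).d, s <+: t} := by
  obtain ⟨j₀, hj⟩ := hz.dense_all M
  refine Nat.sInf_mem ⟨max j₀ M, ?_, hj _ (le_max_left _ _)⟩
  exact (le_max_right _ _).trans (hz.le_e _)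

theorem wf_coneOp {z : Cz} (hz : WF z) (M : ℕ) : WF (coneOp M z) := by
  exact wf_fixk' hz (ext_pt hz _)

theorem coneOp_sub {z : Cz} (hz : WF z) (M : ℕ) : Pt (coneOp M z) ⊆ Pt z := by
  intro c hc
  exact ((mem_pt_fixk hz (ext_pt hz _)).1 hc).1

theorem coneOp_e {z : Cz} (hz : WF z) (M : ℕ) : M ≤ (coneOp M z 0).e := by
  exact (czc_cs hz M).1

theorem coneOp_cone {z : Cz} (hz : WF z) (M : ℕ) : Cone M (coneOp M z) := by
  exact (czc_cs hz M).2

theorem coneOp_a {z : Cz} (hz : WF z) (M : ℕ) :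
    ∃ N, ∀ n, N ≤ n → (coneOp M z n).a = (z n).a := by
  exact ⟨_, fun n hn => czc_a hn⟩

end Pool.Agent.MF45
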