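import Pool.Agent.MF45.CzC

/-!
# Codes: separation

Paper proof.  Let `c` be a point of `z` which is not a point of `z'`.  By `WF.closed` for `z'`
there is an `N` with `¬ Ext z' N c`; take `k` with `N ≤ (z k).e` (`WF.le_e`) and let `l` be the
list of the values `c n` for `n < (z k).e`.  Then `SepR z z' k l`, and `(k, l)` is
`(n.unpair.1, sepl n)` for some `n`, so the infimum in the definition of `sepc` has the property
(`Nat.sInf_mem`).  By `mem_pt_fixk` the points of `sepc z z'` are the points of `z` which are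
given by the list below `(z k).e`; none of them is a point of `z'`.
-/

namespace Pool.Agent.MF45

theorem exists_sepR {z z' : Cz} (hz : WF z) (hz' : WF z') (h : ¬ Pt z ⊆ Pt z') :
    ∃ n : ℕ, SepR z z' n.unpair.1 (sepl n) := by
  obtain ⟨c, hc, hc'⟩ := Set.not_subset.1 h
  have h1 : ∃ N, ¬ Ext z' N c := by
    by_contra hcon
    push Not at hcon
    exact hc' (hz'.closed_ext hcon)
  obtain ⟨N, hN⟩ := h1
  obtain ⟨l, hl⟩ : ∃ l : List (List Bool), l = (List.range (z N).e).map c := ⟨_, rfl⟩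
  have hlen : l.length = (z N).e := by rw [hl, List.length_map, List.length_range]
  have hval : ∀ n, n < (z N).e → lst l n = c n := by
    intro n hn
    unfold lst
    rw [List.getD_eq_getElem _ _ (by rw [hlen]; exact hn)]
    simp [hl]
  refine ⟨Nat.pair N (Encodable.encode l), ?_⟩
  have e1 : (Nat.pair N (Encodable.encode l)).unpair.1 = N := by rw [Nat.unpair_pair]
  have e2 : sepl (Nat.pair N (Encodable.encode l)) = l := by
    unfold sepl
    rw [Nat.unpair_pair, Encodable.encodek]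
    rfl
  rw [e1, e2]
  refine ⟨hlen, ⟨c, hc, fun n hn => (hval n hn).symm⟩, ?_⟩
  rintro ⟨c', hc1, hc2⟩
  exact hN ⟨c', hc1, fun n hn => by
    have hn' := lt_of_lt_of_le hn (hz.le_e N)
    rw [hc2 n hn', hval n hn']⟩

private theorem sepc_spec {z z' : Cz} (hz : WF z) (hz' : WF z') (h : ¬ Pt z ⊆ Pt z') :
    SepR z z' (sInf {n : ℕ | SepR z z' n.unpair.1 (sepl n)}).unpair.1
      (sepl (sInf {n : ℕ | SepR z z' n.unpair.1 (sepl n)})) :=
  Nat.sInf_mem (s := {n : ℕ | SepR z z' n.unpair.1 (sepl n)}) (exists_sepR hz hz' h)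

theorem wf_sepc {z z' : Cz} (hz : WF z) (hz' : WF z') (h : ¬ Pt z ⊆ Pt z') :
    WF (sepc z z') :=
  wf_fixk' hz (sepc_spec hz hz' h).2.1

theorem sepc_sub {z z' : Cz} (hz : WF z) (hz' : WF z') (h : ¬ Pt z ⊆ Pt z') :
    Pt (sepc z z') ⊆ Pt z := fun _ hc =>
  ((mem_pt_fixk hz (sepc_spec hz hz' h).2.1).1 hc).1

theorem sepc_disj {z z' : Cz} (hz : WF z) (hz' : WF z') (h : ¬ Pt z ⊆ Pt z')
    {c : ℕ → List Bool} (hc : c ∈ Pt (sepc z z')) : c ∉ Pt z' := fun hc' =>
  (sepc_spec hz hz' h).2.2 ⟨c, hc', ((mem_pt_fixk hz (sepc_spec hz hz' h).2.1).1 hc).2⟩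

theorem sepc_a {z z' : Cz} (hz : WF z) (hz' : WF z') (h : ¬ Pt z ⊆ Pt z') :
    ∃ N, ∀ n, N ≤ n → (sepc z z' n).a = (z n).a :=
  ⟨_, fun _ hn => fixk_a hn⟩

end Pool.Agent.MF45
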