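import Pool.Agent.MF45.CzC

/-!
# Codes: excluding a nowhere dense tree

Paper proof.  Let `S` be a nowhere dense tree.  For `s = []` there is `s' ∉ S`; by `WF.dense_ev`
for all large `j` some `t ∈ D j` extends `s'`, and `t.take (e j)` extends `s'` once
`s'.length ≤ e j`, so it is not in `S`.  Hence the index `j₀` in the definition of `exc` is an
index such that `D j₀` has a string `t` with `t.take (e j₀) ∉ S`.  After fixing, `z₁ = fixk j₀ ..`
has this property at `j = 0`.  `exr S z₁` is well formed: `dne 0` by this, `ext`: if `t ∈ D j`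
with `t.take (e j) ∉ S` and `t'` in `D (j + 1)` extends `t` (length `e (j + 1)`), then
`t'.take (e (j + 1)) = t ∉ S` as `S` is a tree; `dne j` follows from `dne 0` and `ext`; `dense`:
given `s` take `s' ∉ S` extending `s` and a large `j` as above.  If `c` is a point of `exc S z`,
`n` in `A` is in the class `j` and `c n = t.take n` with `t.take (e j) ∉ S`; if all `bt b k` are
in `S` then `bt b (e j) ≠ t.take (e j)`, so `c n ≠ bt b n` (as `e j ≤ n`).
-/

namespace Pool.Agent.MF45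

private theorem czE_mem {S : Set (List Bool)} {z : Cz} {n : ℕ} {t : List Bool} :
    t ∈ (exr S z n).d ↔ t ∈ (z n).d ∧ t.take (z n).e ∉ S := by
  unfold exr
  simp only [Finset.mem_filter]

private theorem czE_dense {z : Cz} (hz : WF z) {S : Set (List Bool)} (hS : Nwd S)
    (s : List Bool) : ∃ j, ∃ t ∈ (z j).d, s <+: t ∧ t.take (z j).e ∉ S := by
  obtain ⟨s', hs', hs'S⟩ := hS.2 s
  obtain ⟨j₀, hj⟩ := hz.dense_ev s'
  obtain ⟨t, ht, hst⟩ := hj (max j₀ s'.length) (le_max_left _ _)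
  refine ⟨max j₀ s'.length, t, ht, hs'.trans hst, fun hmem => hs'S (hS.1 _ _ ?_ hmem)⟩
  rw [List.prefix_take_iff]
  exact ⟨hst, (le_max_right _ _).trans (hz.le_e _)⟩

private theorem czE_J {z : Cz} (hz : WF z) {S : Set (List Bool)} (hS : Nwd S) :
    sInf {j | ∃ t ∈ (z j).d, t.take (z j).e ∉ S} ∈ {j | ∃ t ∈ (z j).d, t.take (z j).e ∉ S} := by
  obtain ⟨j, t, ht, -, h⟩ := czE_dense hz hS []
  exact Nat.sInf_mem ⟨j, t, ht, h⟩

private theorem czE_step {z : Cz} (hz : WF z) {S : Set (List Bool)} (hS : Nwd S) {j : ℕ}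
    {t : List Bool} (ht : t ∈ (exr S z j).d) : ∃ t' ∈ (exr S z (j + 1)).d, t <+: t' := by
  obtain ⟨h1, h2⟩ := czE_mem.1 ht
  obtain ⟨t', ht', h3⟩ := hz.ext j t h1
  refine ⟨t', czE_mem.2 ⟨ht', fun h4 => h2 (hS.1 _ _ ?_ h4)⟩, h3⟩
  obtain ⟨r, rfl⟩ := h3
  have h5 : (t ++ r).take (z (j + 1)).e = t := by
    rw [← hz.dlen j t h1]
    exact List.take_left
  rw [h5]
  exact List.take_prefix _ _

private theorem czE_wf {z : Cz} (hz : WF z) {S : Set (List Bool)} (hS : Nwd S)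
    (h0 : ∃ t ∈ (z 0).d, t.take (z 0).e ∉ S) : WF (exr S z) := by
  refine ⟨fun i j hij => hz.mono hij, fun n hn => hz.init n hn, fun n => hz.len n,
    fun j t ht => hz.dlen j t (czE_mem.1 ht).1, fun j => ?_, fun j t ht => czE_step hz hS ht,
    fun s => ?_⟩
  · induction j with
    | zero =>
      obtain ⟨t, ht, h⟩ := h0
      exact ⟨t, czE_mem.2 ⟨ht, h⟩⟩
    | succ j ih =>
      obtain ⟨t, ht⟩ := ih
      obtain ⟨t', ht', -⟩ := czE_step hz hS ht
      exact ⟨t', ht'⟩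
  · obtain ⟨j, t, ht, hs, h⟩ := czE_dense hz hS s
    exact ⟨j, t, czE_mem.2 ⟨ht, h⟩, hs⟩

private theorem czE_sub {z : Cz} {S : Set (List Bool)} : Pt (exr S z) ⊆ Pt z := by
  rintro c ⟨h1, h2⟩
  refine ⟨fun n hn => h1 n hn, fun j => ?_⟩
  obtain ⟨t, ht, h3⟩ := h2 j
  exact ⟨t, (czE_mem.1 ht).1, fun n hn hn' ha => h3 n hn hn' ha⟩

theorem wf_exc {z : Cz} (hz : WF z) {S : Set (List Bool)} (hS : Nwd S) : WF (exc S z) := by
  unfold exc
  refine czE_wf (wf_fixk' hz (ext_pt hz _)) hS ?_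
  obtain ⟨t, ht, h⟩ := czE_J hz hS
  exact ⟨t, ht, h⟩

theorem exc_sub {z : Cz} (hz : WF z) {S : Set (List Bool)} (hS : Nwd S) :
    Pt (exc S z) ⊆ Pt z := by
  have _ := hS
  unfold exc
  intro c hc
  exact ((mem_pt_fixk hz (ext_pt hz _)).1 (czE_sub hc)).1

theorem exc_a {z : Cz} (hz : WF z) {S : Set (List Bool)} (hS : Nwd S) :
    ∃ N, ∀ n, N ≤ n → (exc S z n).a = (z n).a := by
  have _ := hz
  have _ := hS
  unfold exc
  refine ⟨(z (sInf {j | ∃ t ∈ (z j).d, t.take (z j).e ∉ S})).e, fun n hn => ?_⟩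
  exact fixk_a (c := pt z) hn

private theorem czE_bt (b : ℕ → Bool) {k n : ℕ} (h : k ≤ n) : (bt b n).take k = bt b k := by
  unfold bt
  rw [← List.map_take, List.take_range, min_eq_left h]

theorem exc_ne {z : Cz} (hz : WF z) {S : Set (List Bool)} (hS : Nwd S) {c : ℕ → List Bool}
    (hc : c ∈ Pt (exc S z)) {n : ℕ} (hn : (exc S z n).a = true) {b : ℕ → Bool}
    (hb : ∀ k, bt b k ∈ S) : c n ≠ bt b n := by
  intro heq
  have hw := wf_exc hz hS
  obtain ⟨h1, h2⟩ := hw.jc_spec (hw.le_of_a hn)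
  obtain ⟨t, ht, h3⟩ := hc.2 (jc (exc S z) n)
  have h4 := h3 n h1 h2 hn
  have h5 : t.take (exc S z (jc (exc S z) n)).e ∉ S := (czE_mem.1 ht).2
  have h6 : t.take (exc S z (jc (exc S z) n)).e = bt b (exc S z (jc (exc S z) n)).e := by
    rw [← czE_bt b h1, ← heq, h4, List.take_take, min_eq_left h1]
  rw [h6] at h5
  exact h5 (hb _)

end Pool.Agent.MF45
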