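import Pool.Agent.MF45.CzC

/-!
# Codes: uniting classes

Paper proof.  Let `σ = sig g z`; it is strictly increasing with `σ 0 = 0` and
`g (e (σ i)) ≤ e (σ (i + 1))` (the infimum is over a nonempty set since `j ≤ e j`).  The code
`mrg g z` has the same `A` and `f`, the cut points `e (σ i)` and `D' i` = the set of all `t` of
length `e (σ (i + 1))` with `t.take (e (j + 1)) ∈ D j` for `σ i ≤ j < σ (i + 1)`.  `D' i` is
nonempty, and strings of `D' i` extend to `D' (i + 1)`, and density: by `WF.ext_through` (and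
`WF.ext`).  A point `c` of `mrg g z` satisfies `c n = t.take n` for the `n` in `A` in the class
`i`, so it is a point of `z`.  Last statement: the interval `[n, g n)` meets at most two classes
of `mrg g z` (if `e' i ≤ n < e' (i + 1)` then `g n ≤ g (e' (i + 1)) ≤ e' (i + 2)`; if `n < e' 0`
then `g n ≤ g (e' 0) ≤ e' 1` and there are no places of `A` below `e' 0`); let `b₁`, `b₂` extend
the strings `t` of the two classes.
-/

namespace Pool.Agent.MF45

private theorem czf_sig {z : Cz} (hz : WF z) (g : ℕ → ℕ) (i : ℕ) :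
    sig g z i < sig g z (i + 1) ∧ g (z (sig g z i)).e ≤ (z (sig g z (i + 1))).e := by
  have h : sig g z (i + 1) ∈ {k | sig g z i < k ∧ g (z (sig g z i)).e ≤ (z k).e} := by
    have h1 : sig g z (i + 1) = sInf {k | sig g z i < k ∧ g (z (sig g z i)).e ≤ (z k).e} := rfl
    rw [h1]
    refine Nat.sInf_mem ⟨max (sig g z i + 1) (g (z (sig g z i)).e), ?_, ?_⟩
    · exact lt_of_lt_of_le (Nat.lt_succ_self _) (le_max_left _ _)
    · exact (le_max_right _ _).trans (hz.le_e _)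
  exact h

private theorem czf_mono {z : Cz} (hz : WF z) (g : ℕ → ℕ) : StrictMono (sig g z) :=
  strictMono_nat_of_lt_succ fun i => (czf_sig hz g i).1

private theorem czf_mem {z : Cz} {k l : ℕ} {t : List Bool} : t ∈ blkD z k l ↔
    t.length = (z l).e ∧ ∀ j, k ≤ j → j < l → t.take (z (j + 1)).e ∈ (z j).d := by
  classical
  unfold blkD
  rw [Finset.mem_filter, mem_strs]

private theorem czf_ext {z : Cz} (hz : WF z) {k l : ℕ} (hkl : k < l) {t : List Bool}
    (ht : t ∈ (z k).d) : ∃ t' ∈ blkD z k l, t <+: t' := by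
  obtain ⟨m, rfl⟩ : ∃ m, l = m + 1 := ⟨l - 1, by omega⟩
  obtain ⟨t', h1, h2, h3⟩ := hz.ext_through (Nat.lt_succ_iff.1 hkl) ht
  refine ⟨t', czf_mem.2 ⟨hz.dlen m t' h1, ?_⟩, h2⟩
  intro j hj hj'
  exact h3 j hj (Nat.lt_succ_iff.1 hj')

private theorem czf_find {z : Cz} (hz : WF z) (g : ℕ → ℕ) (j : ℕ) :
    ∃ i, sig g z i ≤ j ∧ j < sig g z (i + 1) := by
  classical
  have hmono := czf_mono hz g
  have h1 : ∃ m, j < sig g z m := ⟨j + 1, lt_of_lt_of_le (Nat.lt_succ_self j) hmono.le_apply⟩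
  obtain ⟨m, hm, hmin⟩ : ∃ m, j < sig g z m ∧ ∀ m' < m, ¬ j < sig g z m' :=
    ⟨Nat.find h1, Nat.find_spec h1, fun m' h => Nat.find_min h1 h⟩
  rcases m with _ | i
  · exact absurd hm (Nat.not_lt_zero _)
  · exact ⟨i, Nat.not_lt.1 (hmin i (Nat.lt_succ_self i)), hm⟩

private theorem czf_bt {t : List Bool} {k : ℕ} (hk : k ≤ t.length) :
    bt (fun m => t.getD m false) k = t.take k := by
  unfold bt
  refine List.ext_getElem ?_ ?_
  · simp [hk]
  · intro i h1 h2
    have h3 : i < k := by simpa using h1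
    have h4 : i < t.length := lt_of_lt_of_le h3 hk
    simp [List.getD_eq_getElem?_getD, h4]

theorem wf_mrg {z : Cz} (hz : WF z) {g : ℕ → ℕ} : WF (mrg g z) := by
  have hmono := czf_mono hz g
  constructor
  · intro i j hij
    exact hz.mono (hmono hij)
  · intro n hn
    exact hz.init n hn
  · intro n
    exact hz.len n
  · intro j t ht
    exact (czf_mem.1 ht).1
  · intro j
    obtain ⟨t, ht⟩ := hz.dne (sig g z j)
    obtain ⟨t', ht', -⟩ := czf_ext hz (hmono (Nat.lt_succ_self j)) ht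
    exact ⟨t', ht'⟩
  · intro j t ht
    obtain ⟨h1, h2⟩ := czf_mem.1 ht
    have hlt : sig g z j < sig g z (j + 1) := hmono (Nat.lt_succ_self j)
    obtain ⟨m, hm⟩ : ∃ m, sig g z (j + 1) = m + 1 := ⟨sig g z (j + 1) - 1, by omega⟩
    have h3 : t ∈ (z m).d := by
      have h4 := h2 m (by omega) (by omega)
      rw [← hm, ← h1, List.take_length] at h4
      exact h4
    obtain ⟨t₁, ht₁, h5⟩ := hz.ext m t h3
    rw [← hm] at ht₁
    obtain ⟨t', ht', h6⟩ := czf_ext hz (hmono (Nat.lt_succ_self (j + 1))) ht₁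
    exact ⟨t', ht', h5.trans h6⟩
  · intro s
    obtain ⟨j₀, hj⟩ := hz.dense_ev s
    obtain ⟨t, ht, hs⟩ := hj (sig g z j₀) hmono.le_apply
    obtain ⟨t', ht', h6⟩ := czf_ext hz (hmono (Nat.lt_succ_self j₀)) ht
    exact ⟨j₀, t', ht', hs.trans h6⟩

theorem mrg_sub {z : Cz} (hz : WF z) {g : ℕ → ℕ} : Pt (mrg g z) ⊆ Pt z := by
  rintro c ⟨h1, h2⟩
  refine ⟨h1, fun j => ?_⟩
  obtain ⟨i, hi1, hi2⟩ := czf_find hz g j
  obtain ⟨t, ht, h3⟩ := h2 i
  obtain ⟨h4, h5⟩ := czf_mem.1 ht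
  refine ⟨t.take (z (j + 1)).e, h5 j hi1 hi2, fun n hn hn' ha => ?_⟩
  rw [List.take_take, min_eq_left hn'.le]
  refine h3 n ?_ ?_ ha
  · exact (hz.mono.monotone hi1).trans hn
  · exact lt_of_lt_of_le hn' (hz.mono.monotone hi2)

theorem mrg_a {z : Cz} {g : ℕ → ℕ} (n : ℕ) : (mrg g z n).a = (z n).a := by
  rfl

theorem mrg_two {z : Cz} (hz : WF z) {g : ℕ → ℕ} (hg : Monotone g) {c : ℕ → List Bool}
    (hc : c ∈ Pt (mrg g z)) (n : ℕ) : ∃ b₁ b₂ : ℕ → Bool, ∀ k, n ≤ k → k < g n →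
      (mrg g z k).a = true → c k = bt b₁ k ∨ c k = bt b₂ k := by
  have hw := wf_mrg hz (g := g)
  have hg' : ∀ i, g (mrg g z i).e ≤ (mrg g z (i + 1)).e := fun i => (czf_sig hz g i).2
  -- the string of a class
  have hone : ∀ i, ∃ b : ℕ → Bool, ∀ k, (mrg g z i).e ≤ k → k < (mrg g z (i + 1)).e →
      (mrg g z k).a = true → c k = bt b k := by
    intro i
    obtain ⟨t, ht, h⟩ := hc.2 i
    refine ⟨fun m => t.getD m false, fun k hk hk' ha => ?_⟩
    rw [czf_bt (by rw [hw.dlen i t ht]; exact hk'.le)]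
    exact h k hk hk' ha
  rcases lt_or_ge n (mrg g z 0).e with hn | hn
  · obtain ⟨b, hb⟩ := hone 0
    refine ⟨b, b, fun k _ hk' ha => Or.inl (hb k (hw.le_of_a ha) ?_ ha)⟩
    exact lt_of_lt_of_le hk' ((hg hn.le).trans (hg' 0))
  · obtain ⟨h1, h2⟩ := hw.jc_spec hn
    obtain ⟨b₁, hb₁⟩ := hone (jc (mrg g z) n)
    obtain ⟨b₂, hb₂⟩ := hone (jc (mrg g z) n + 1)
    refine ⟨b₁, b₂, fun k hk hk' ha => ?_⟩
    rcases lt_or_ge k (mrg g z (jc (mrg g z) n + 1)).e with h | h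
    · exact Or.inl (hb₁ k (h1.trans hk) h ha)
    · refine Or.inr (hb₂ k h ?_ ha)
      exact lt_of_lt_of_le hk' ((hg h2.le).trans (hg' _))

end Pool.Agent.MF45
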