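import Pool.Agent.MF45.CzB

/-!
# Codes: the fusion lemma

Let `ζ m` be well formed codes with `m ≤ e 0 (ζ m)`, such that `D 0 (ζ m)` meets all cones of
length `m`, and `Tl (m + 1) (ζ (m + 1)) (ζ m)`; let `y` be almost contained in all sets `A (ζ m)`,
and let `y'` have infinitely many gaps `[m, gg ζ y m)`.  Write `ε = eps ζ y y'`, `w i = ζ (ε i)`
and `z* = flp ζ y y'`.

Paper proof.  By the gaps, the infimum `m_i` in the definition of `ε (i + 1)` is attained:
`e 0 (w i) < m_i`, `ε i < m_i`, `y'` vanishes on `[m_i, gg ζ y m_i)`, and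
`ε (i + 1) = cg (w i) m_i ≥ m_i` is a cut point of `w i`; so `ε` is strictly increasing.

Well formed: `e* i = ε i`; `D* i` is the set of all strings `t` of length `ε (i + 1)` such that
`t.take (e (j + 1)) ∈ D j` for all classes `j` of `w i` with `e (j + 1) ≤ ε (i + 1)`.  Given any
string `s` of length `ε i`, some `t ∈ D 0 (w i)` extends `s` (cones), and `WF.ext_through` for
`w i` up to the cut point `ε (i + 1)` gives an element of `D* i` which extends `s`.  This gives
`dne`, `ext` and `dense`.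

`flp_upd`: fix `K ≥ k`.  By downward induction on `i ≤ K` there is a point `c'` of `w i` with
`c' n = c n` for `ε i ≤ n < ε (K + 1)`.  For `i = K` take the string `t` of `D* K` for `c`: the
conditions of `w K` on the classes in the block `[ε K, ε (K + 1))` hold, choose the rest
arbitrarily (`WF.splice` with any point).  For `i < K`, from the point `c''` of `w (i + 1)` the
tail relation (iterated, `Tl (ε (i + 1)) (w (i + 1)) (w i)`) gives a point of `w i` which agrees
with `c''` for `n ≥ ε (i + 1)`; splice at the cut point `ε (i + 1)` of `w i` with a point of `w i`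
which agrees with `c` on the block `i`.  As `K` is arbitrary, `WF.cpt` gives a point of `w k`
which agrees with `c` for all `n ≥ ε k`; use `mem_pt_upd`.

`flp_a`: let `n ≥ ε 1` with `y n` and `y' n`, say `ε i ≤ n < ε (i + 1)` with `i ≥ 1`.  Then
`ε i = cg (w (i - 1)) m ≤ kap ζ m` for `m = m_(i-1)`, so `gg ζ y m > hh ζ y (ε i)`; as `m ≤ n` and
`y'` vanishes on `[m, gg ζ y m)`, `n ≥ gg ζ y m > hh ζ y (ε i)`, so `n` is in `A (w i)`.
-/

namespace Pool.Agent.MF45

/-- the hypotheses of the fusion lemma -/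
structure FH (ζ : ℕ → Cz) (y y' : ℕ → Bool) : Prop where
  wf : ∀ m, WF (ζ m)
  le : ∀ m, m ≤ (ζ m 0).e
  cone : ∀ m, Cone m (ζ m)
  tl : ∀ m, Tl (m + 1) (ζ (m + 1)) (ζ m)
  sub : ∀ m, ∃ k, ∀ n, k ≤ n → y n = true → (ζ m n).a = true
  gap : ∀ N, ∃ m, N ≤ m ∧ ∀ n, m ≤ n → n < gg ζ y m → y' n = false

variable {ζ : ℕ → Cz} {y y' : ℕ → Bool}

/-- the choice of the next cut point -/
private theorem FH.key (h : FH ζ y y') (i : ℕ) : ∃ K m, 1 ≤ K ∧
    eps ζ y y' (i + 1) = (ζ (eps ζ y y' i) K).e ∧ (ζ (eps ζ y y' i) 0).e < m ∧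
    eps ζ y y' i < m ∧ m ≤ eps ζ y y' (i + 1) ∧
    (∀ n, m ≤ n → n < gg ζ y m → y' n = false) ∧
    eps ζ y y' (i + 1) = cg (ζ (eps ζ y y' i)) m := by
  have hne : {m | (ζ (eps ζ y y' i) 0).e < m ∧ eps ζ y y' i < m ∧
      ∀ n, m ≤ n → n < gg ζ y m → y' n = false}.Nonempty := by
    obtain ⟨m, hm, hg⟩ := h.gap ((ζ (eps ζ y y' i) 0).e + eps ζ y y' i + 1)
    exact ⟨m, by omega, by omega, hg⟩
  obtain ⟨h1, h2, h3⟩ := Nat.sInf_mem hne
  have heq : eps ζ y y' (i + 1) = cg (ζ (eps ζ y y' i)) (sInf {m | (ζ (eps ζ y y' i) 0).e < m ∧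
      eps ζ y y' i < m ∧ ∀ n, m ≤ n → n < gg ζ y m → y' n = false}) := by
    rw [eps]
  generalize sInf {m | (ζ (eps ζ y y' i) 0).e < m ∧
      eps ζ y y' i < m ∧ ∀ n, m ≤ n → n < gg ζ y m → y' n = false} = m at h1 h2 h3 heq
  have hz := h.wf (eps ζ y y' i)
  have hne2 : {k | m ≤ (ζ (eps ζ y y' i) k).e}.Nonempty := ⟨m, hz.le_e m⟩
  have h4 := Nat.sInf_mem hne2
  have h5 : eps ζ y y' (i + 1) =
      (ζ (eps ζ y y' i) (sInf {k | m ≤ (ζ (eps ζ y y' i) k).e})).e := heq
  generalize sInf {k | m ≤ (ζ (eps ζ y y' i) k).e} = K at h4 h5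
  have h4' : m ≤ (ζ (eps ζ y y' i) K).e := h4
  refine ⟨K, m, ?_, h5, h1, h2, by omega, h3, heq⟩
  by_contra hK
  have hK0 : K = 0 := by omega
  rw [hK0] at h4'
  omega

theorem FH.eps_lt (h : FH ζ y y') (i : ℕ) : eps ζ y y' i < eps ζ y y' (i + 1) := by
  obtain ⟨K, m, -, -, -, h1, h2, -, -⟩ := h.key i
  omega

theorem FH.le_eps (h : FH ζ y y') (i : ℕ) : i ≤ eps ζ y y' i := by
  induction i with
  | zero => exact Nat.zero_le _
  | succ i ih =>
    have := h.eps_lt i
    omega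

private theorem FH.eps_strictMono (h : FH ζ y y') : StrictMono (eps ζ y y') :=
  strictMono_nat_of_lt_succ h.eps_lt

private theorem FH.bi_eq (h : FH ζ y y') {i n : ℕ} (h1 : eps ζ y y' i ≤ n)
    (h2 : n < eps ζ y y' (i + 1)) : bi ζ y y' n = i := by
  classical
  unfold bi
  rw [Nat.findGreatest_eq_iff]
  refine ⟨(h.le_eps i).trans h1, fun _ => h1, ?_⟩
  intro j hj _ hle
  have : eps ζ y y' (i + 1) ≤ eps ζ y y' j := h.eps_strictMono.monotone hj
  omega

private theorem FH.bi_spec (h : FH ζ y y') (n : ℕ) :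
    eps ζ y y' (bi ζ y y' n) ≤ n ∧ n < eps ζ y y' (bi ζ y y' n + 1) := by
  classical
  constructor
  · have h0 : eps ζ y y' 0 ≤ n := by
      rw [eps]
      exact Nat.zero_le _
    exact Nat.findGreatest_spec (P := fun i => eps ζ y y' i ≤ n) (Nat.zero_le n) h0
  · by_contra hcon
    push Not at hcon
    have h1 : bi ζ y y' n + 1 ≤ n := (h.le_eps _).trans hcon
    have h2 : bi ζ y y' n + 1 ≤ bi ζ y y' n :=
      Nat.le_findGreatest (P := fun i => eps ζ y y' i ≤ n) h1 hcon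
    omega

private theorem flp_e (n : ℕ) : (flp ζ y y' n).e = eps ζ y y' n := rfl

private theorem mem_flp_d {n : ℕ} {t : List Bool} : t ∈ (flp ζ y y' n).d ↔
    t.length = eps ζ y y' (n + 1) ∧ ∀ j,
      (ζ (eps ζ y y' n) (j + 1)).e ≤ eps ζ y y' (n + 1) →
        t.take (ζ (eps ζ y y' n) (j + 1)).e ∈ (ζ (eps ζ y y' n) j).d := by
  classical
  show t ∈ (strs (eps ζ y y' (n + 1))).filter (fun t => ∀ j,
      (ζ (eps ζ y y' n) (j + 1)).e ≤ eps ζ y y' (n + 1) →
        t.take (ζ (eps ζ y y' n) (j + 1)).e ∈ (ζ (eps ζ y y' n) j).d) ↔ _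
  rw [Finset.mem_filter, mem_strs]

/-- every string is extended by a string of the next block -/
private theorem FH.ext_str (h : FH ζ y y') {i : ℕ} {s : List Bool}
    (hs : s.length = eps ζ y y' i) : ∃ t ∈ (flp ζ y y' i).d, s <+: t := by
  obtain ⟨K, m, hK, hK1, -⟩ := h.key i
  have hz := h.wf (eps ζ y y' i)
  obtain ⟨t₀, ht₀, hst₀⟩ := h.cone (eps ζ y y' i) s hs
  obtain ⟨t, ht, htt, hall⟩ := hz.ext_through (Nat.zero_le (K - 1)) ht₀
  refine ⟨t, mem_flp_d.2 ⟨?_, ?_⟩, hst₀.trans htt⟩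
  · rw [hz.dlen _ t ht, hK1]
    congr 2
    omega
  · intro j hj
    refine hall j (Nat.zero_le j) ?_
    rw [hK1] at hj
    have := hz.mono.le_iff_le.1 hj
    omega

theorem FH.wf_flp (h : FH ζ y y') : WF (flp ζ y y') where
  mono := h.eps_strictMono
  init n hn := by
    rw [flp_e, eps] at hn
    omega
  len n := (h.wf _).len n
  dlen j t ht := (mem_flp_d.1 ht).1
  dne j := by
    obtain ⟨t, ht, -⟩ := h.ext_str (i := j) (s := List.replicate (eps ζ y y' j) false)
      (List.length_replicate ..)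
    exact ⟨t, ht⟩
  ext j t ht := h.ext_str (mem_flp_d.1 ht).1
  dense s := by
    refine ⟨s.length, ?_⟩
    obtain ⟨t, ht, hst⟩ := h.ext_str (i := s.length)
      (s := s ++ List.replicate (eps ζ y y' s.length - s.length) false) (by
        rw [List.length_append, List.length_replicate]
        have := h.le_eps s.length
        omega)
    exact ⟨t, ht, (List.prefix_append _ _).trans hst⟩

/-- one block -/
private theorem FH.block (h : FH ζ y y') {c : ℕ → List Bool} (hc : c ∈ Pt (flp ζ y y')) (i : ℕ) :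
    ∃ c' ∈ Pt (ζ (eps ζ y y' i)), ∀ n, eps ζ y y' i ≤ n → n < eps ζ y y' (i + 1) → c n = c' n := by
  obtain ⟨K, m, hK, hK1, -⟩ := h.key i
  have hz := h.wf (eps ζ y y' i)
  obtain ⟨hc1, hc2⟩ := hc
  obtain ⟨t, ht, htc⟩ := hc2 i
  obtain ⟨ht1, ht2⟩ := mem_flp_d.1 ht
  obtain ⟨hp1, hp2⟩ := hz.pt_mem
  refine ⟨fun n => if n < eps ζ y y' (i + 1) then
    (if (ζ (eps ζ y y' i) n).a = true then t.take n else (ζ (eps ζ y y' i) n).f)
    else pt (ζ (eps ζ y y' i)) n, ⟨?_, ?_⟩, ?_⟩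
  · intro n hn
    show (if n < eps ζ y y' (i + 1) then
      (if (ζ (eps ζ y y' i) n).a = true then t.take n else (ζ (eps ζ y y' i) n).f)
      else pt (ζ (eps ζ y y' i)) n) = _
    by_cases h1 : n < eps ζ y y' (i + 1)
    · rw [if_pos h1, if_neg (by rw [hn]; simp)]
    · rw [if_neg h1]
      exact hp1 n hn
  · intro j
    by_cases hj : (ζ (eps ζ y y' i) (j + 1)).e ≤ eps ζ y y' (i + 1)
    · refine ⟨_, ht2 j hj, ?_⟩
      intro n hn1 hn2 hna
      show (if n < eps ζ y y' (i + 1) then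
        (if (ζ (eps ζ y y' i) n).a = true then t.take n else (ζ (eps ζ y y' i) n).f)
        else pt (ζ (eps ζ y y' i)) n) = _
      rw [if_pos (by omega), if_pos hna, List.take_take, min_eq_left (by omega)]
    · obtain ⟨t', ht', htp⟩ := hp2 j
      refine ⟨t', ht', ?_⟩
      intro n hn1 hn2 hna
      have hKj : K ≤ j := by
        rw [hK1] at hj
        have h1 : ¬ j + 1 ≤ K := fun h2 => hj (hz.mono.monotone h2)
        omega
      have h2 : (ζ (eps ζ y y' i) K).e ≤ (ζ (eps ζ y y' i) j).e := hz.mono.monotone hKj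
      show (if n < eps ζ y y' (i + 1) then
        (if (ζ (eps ζ y y' i) n).a = true then t.take n else (ζ (eps ζ y y' i) n).f)
        else pt (ζ (eps ζ y y' i)) n) = _
      rw [if_neg (by omega)]
      exact htp n hn1 hn2 hna
  · intro n hn1 hn2
    have hbi := h.bi_eq hn1 hn2
    have ha : (flp ζ y y' n).a = (ζ (eps ζ y y' i) n).a := by
      show (ζ (eps ζ y y' (bi ζ y y' n)) n).a = _
      rw [hbi]
    have hf : (flp ζ y y' n).f = (ζ (eps ζ y y' i) n).f := by
      show (ζ (eps ζ y y' (bi ζ y y' n)) n).f = _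
      rw [hbi]
    show c n = (if n < eps ζ y y' (i + 1) then
        (if (ζ (eps ζ y y' i) n).a = true then t.take n else (ζ (eps ζ y y' i) n).f)
        else pt (ζ (eps ζ y y' i)) n)
    rw [if_pos hn2]
    by_cases hna : (ζ (eps ζ y y' i) n).a = true
    · rw [if_pos hna]
      exact htc n hn1 hn2 (by rw [ha]; exact hna)
    · rw [if_neg hna, ← hf]
      exact hc1 n (by rw [ha]; simpa using hna)

private theorem FH.tail (h : FH ζ y y') (a d : ℕ) : Tl (a + d) (ζ (a + d)) (ζ a) := by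
  induction d with
  | zero => exact tl_of_sub (Set.Subset.refl _)
  | succ d ih => exact (h.tl (a + d)).trans (ih.mono (Nat.le_succ _))

private theorem FH.blocks (h : FH ζ y y') {c : ℕ → List Bool} (hc : c ∈ Pt (flp ζ y y')) (d : ℕ) :
    ∀ i, ∃ c' ∈ Pt (ζ (eps ζ y y' i)), ∀ n, eps ζ y y' i ≤ n → n < eps ζ y y' (i + d + 1) →
      c n = c' n := by
  induction d with
  | zero => exact fun i => h.block hc i
  | succ d ih =>
    intro i
    obtain ⟨K, m, hK, hK1, -⟩ := h.key i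
    have hz := h.wf (eps ζ y y' i)
    obtain ⟨c₁, hc₁, h₁⟩ := ih (i + 1)
    obtain ⟨c₀, hc₀, h₀⟩ := h.block hc i
    have htl : Tl (eps ζ y y' (i + 1)) (ζ (eps ζ y y' (i + 1))) (ζ (eps ζ y y' i)) := by
      have := h.tail (eps ζ y y' i) (eps ζ y y' (i + 1) - eps ζ y y' i)
      have h2 : eps ζ y y' i + (eps ζ y y' (i + 1) - eps ζ y y' i) = eps ζ y y' (i + 1) := by
        have := h.eps_lt i
        omega
      rw [h2] at this
      exact this
    obtain ⟨c₂, hc₂, h₂⟩ := htl c₁ hc₁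
    refine ⟨_, hz.splice hc₀ hc₂ K, ?_⟩
    intro n hn1 hn2
    show c n = if n < (ζ (eps ζ y y' i) K).e then c₀ n else c₂ n
    rw [← hK1]
    by_cases hn : n < eps ζ y y' (i + 1)
    · rw [if_pos hn]
      exact h₀ n hn1 hn
    · rw [if_neg hn, ← h₂ n (by omega)]
      refine h₁ n (by omega) ?_
      have h3 : i + 1 + d + 1 = i + (d + 1) + 1 := by omega
      rw [h3]
      exact hn2

theorem FH.flp_upd (h : FH ζ y y') {c : ℕ → List Bool} (hc : c ∈ Pt (flp ζ y y')) (k : ℕ) :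
    c ∈ Pt (Upd (eps ζ y y' k) c (ζ (eps ζ y y' k))) := by
  have hz := h.wf (eps ζ y y' k)
  rw [mem_pt_upd hz]
  refine ⟨fun _ _ => rfl, hz.cpt ?_⟩
  intro N
  obtain ⟨c', hc', h1⟩ := h.blocks hc N k
  refine ⟨c', hc', fun n hn1 hn2 => h1 n hn1 ?_⟩
  have := h.le_eps (k + N + 1)
  omega

theorem FH.flp_a (h : FH ζ y y') :
    ∃ N, ∀ n, N ≤ n → y n = true → y' n = true → (flp ζ y y' n).a = true := by
  refine ⟨eps ζ y y' 1, ?_⟩
  intro n hn hy hy'
  obtain ⟨hb1, hb2⟩ := h.bi_spec n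
  show (ζ (eps ζ y y' (bi ζ y y' n)) n).a = true
  generalize bi ζ y y' n = i at hb1 hb2
  have hi : 1 ≤ i := by
    by_contra hcon
    have h0 : i = 0 := by omega
    rw [h0, zero_add] at hb2
    omega
  obtain ⟨j, rfl⟩ : ∃ j, i = j + 1 := ⟨i - 1, by omega⟩
  obtain ⟨K, m, -, -, -, hm1, hm2, hm3, hm4⟩ := h.key j
  have h1 : eps ζ y y' (j + 1) ≤ kap ζ m := by
    rw [hm4]
    exact Finset.le_sup (f := fun k => cg (ζ k) m) (Finset.mem_range.2 (by omega))
  have h2 : hh ζ y (eps ζ y y' (j + 1)) ≤ (Finset.range (kap ζ m + 1)).sup (hh ζ y) :=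
    Finset.le_sup (f := hh ζ y) (Finset.mem_range.2 (by omega))
  have h3 : ¬ n < gg ζ y m := by
    intro hlt
    have := hm3 n (by omega) hlt
    rw [hy'] at this
    exact Bool.noConfusion this
  have h4 : hh ζ y (eps ζ y y' (j + 1)) ≤ n := by
    unfold gg at h3
    omega
  exact Nat.sInf_mem (h.sub (eps ζ y y' (j + 1))) n h4 hy

end Pool.Agent.MF45
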