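import Pool.Agent.MF45.CzA

/-!
# Codes: measurability of well formedness and of the operations `fixm`, `coneOp`, `exc`, `Upd`

All these are functions of (or predicates on) countably many coordinates with values in countable
discrete spaces, defined with countable quantifiers and least numbers.  Useful: `measurable_pi_iff`,
`measurable_to_countable'`, `Measurable.ite`, `MeasurableSet.iUnion`, `MeasurableSet.iInter`,
`measurable_from_top` / `Measurable.of_discrete`, and the lemma `measurable_sInf_nat` below.
-/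

namespace Pool.Agent.MF45

private theorem czm_one {β : Type*} [MeasurableSpace β] (g : Yb → β) (n : ℕ) :
    Measurable fun z : Cz => g (z n) :=
  (Measurable.of_discrete (f := g)).comp (measurable_pi_apply n)

private theorem czm_set (P : Yb → Prop) (n : ℕ) : MeasurableSet {z : Cz | P (z n)} :=
  measurable_pi_apply n (MeasurableSet.of_discrete (s := {y : Yb | P y}))

private theorem czm_set2 (P : Yb → Yb → Prop) (n m : ℕ) :
    MeasurableSet {z : Cz | P (z n) (z m)} := by
  have h : Measurable fun z : Cz => (z n, z m) :=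
    (measurable_pi_apply n).prodMk (measurable_pi_apply m)
  exact h (MeasurableSet.of_discrete (s := {y : Yb × Yb | P y.1 y.2}))

/-- the least number with a measurable property -/
theorem measurable_sInf_nat {Ω : Type*} [MeasurableSpace Ω] {R : Ω → ℕ → Prop}
    (h : ∀ k, MeasurableSet {x | R x k}) : Measurable fun x => sInf {k | R x k} := by
  classical
  refine measurable_to_countable' fun m => ?_
  have e : (fun x => sInf {k | R x k}) ⁻¹' {m} =
      ({x | R x m} ∩ ⋂ k : ℕ, ⋂ _ : k < m, {x | R x k}ᶜ) ∪
        ({_x | m = 0} ∩ ⋂ k : ℕ, {x | R x k}ᶜ) := by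
    ext x
    simp only [Set.mem_preimage, Set.mem_singleton_iff, Set.mem_union, Set.mem_inter_iff,
      Set.mem_iInter, Set.mem_compl_iff, Set.mem_ofPred_eq]
    by_cases hx : ∃ k, R x k
    · have hs : sInf {k | R x k} = Nat.find hx := Nat.sInf_def (s := {k | R x k}) hx
      rw [hs, Nat.find_eq_iff]
      constructor
      · rintro ⟨h1, h2⟩
        exact Or.inl ⟨h1, fun k hk => h2 k hk⟩
      · rintro (⟨h1, h2⟩ | ⟨-, h2⟩)
        · exact ⟨h1, fun k hk => h2 k hk⟩
        · obtain ⟨k, hk⟩ := hx
          exact absurd hk (h2 k)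
    · push Not at hx
      have hs : sInf {k | R x k} = 0 := by
        have : {k | R x k} = ∅ := by
          ext k
          simp [hx k]
        rw [this, Nat.sInf_empty]
      rw [hs]
      constructor
      · intro h0
        exact Or.inr ⟨h0.symm, hx⟩
      · rintro (⟨h1, -⟩ | ⟨h1, -⟩)
        · exact absurd h1 (hx m)
        · exact h1.symm
  rw [e]
  refine MeasurableSet.union ?_ ?_
  · exact (h m).inter (MeasurableSet.iInter fun k => MeasurableSet.iInter fun _ => (h k).compl)
  · exact (MeasurableSet.const _).inter (MeasurableSet.iInter fun k => (h k).compl)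

/-- evaluation of a sequence at a measurable place -/
theorem measurable_eval {Ω α : Type*} [MeasurableSpace Ω] [MeasurableSpace α] {f : Ω → ℕ → α}
    (hf : Measurable f) {k : Ω → ℕ} (hk : Measurable k) : Measurable fun x => f x (k x) := by
  intro S hS
  have e : (fun x => f x (k x)) ⁻¹' S = ⋃ n : ℕ, (k ⁻¹' {n}) ∩ {x | f x n ∈ S} := by
    ext x
    simp
  rw [e]
  exact MeasurableSet.iUnion fun n =>
    (hk (measurableSet_singleton n)).inter ((measurable_pi_iff.1 hf n) hS)

theorem measurableSet_wf : MeasurableSet {z : Cz | WF z} := by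
  have e : {z : Cz | WF z} =
      (⋂ j : ℕ, {z : Cz | (z j).e < (z (j + 1)).e}) ∩
      ((⋂ n : ℕ, {z : Cz | n < (z 0).e → (z n).a = false}) ∩
      ((⋂ n : ℕ, {z : Cz | (z n).f.length = n}) ∩
      ((⋂ j : ℕ, {z : Cz | ∀ t ∈ (z j).d, t.length = (z (j + 1)).e}) ∩
      ((⋂ j : ℕ, {z : Cz | (z j).d.Nonempty}) ∩
      ((⋂ j : ℕ, {z : Cz | ∀ t ∈ (z j).d, ∃ t' ∈ (z (j + 1)).d, t <+: t'}) ∩
      (⋂ s : List Bool, ⋃ j : ℕ, {z : Cz | ∃ t ∈ (z j).d, s <+: t})))))) := by
    ext z
    simp only [Set.mem_inter_iff, Set.mem_iInter, Set.mem_iUnion, Set.mem_ofPred_eq]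
    constructor
    · intro h
      exact ⟨fun j => h.mono (Nat.lt_succ_self j), h.init, h.len, h.dlen, h.dne, h.ext, h.dense⟩
    · rintro ⟨h1, h2, h3, h4, h5, h6, h7⟩
      exact ⟨strictMono_nat_of_lt_succ h1, h2, h3, h4, h5, h6, h7⟩
  rw [e]
  refine (MeasurableSet.iInter fun j => ?_).inter ((MeasurableSet.iInter fun n => ?_).inter
    ((MeasurableSet.iInter fun n => ?_).inter ((MeasurableSet.iInter fun j => ?_).inter
    ((MeasurableSet.iInter fun j => ?_).inter ((MeasurableSet.iInter fun j => ?_).inter
    (MeasurableSet.iInter fun s => MeasurableSet.iUnion fun j => ?_))))))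
  · exact czm_set2 (fun x y => x.e < y.e) j (j + 1)
  · exact czm_set2 (fun x y => n < x.e → y.a = false) 0 n
  · exact czm_set (fun x => x.f.length = n) n
  · exact czm_set2 (fun x y => ∀ t ∈ x.d, t.length = y.e) j (j + 1)
  · exact czm_set (fun x => x.d.Nonempty) j
  · exact czm_set2 (fun x y => ∀ t ∈ x.d, ∃ t' ∈ y.d, t <+: t') j (j + 1)
  · exact czm_set (fun x => ∃ t ∈ x.d, s <+: t) j

theorem measurable_a (n : ℕ) : Measurable fun z : Cz => (z n).a := czm_one Yb.a n

theorem measurable_jc (n : ℕ) : Measurable fun z : Cz => jc z n := by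
  unfold jc
  exact measurable_findGreatest (p := fun (z : Cz) j => (z j).e ≤ n)
    fun k _ => czm_set (fun x => x.e ≤ n) k

theorem measurable_pt : Measurable (pt : Cz → ℕ → List Bool) := by
  refine measurable_pi_iff.2 fun n => ?_
  have h1 : Measurable fun z : Cz => z (jc z n) := measurable_eval measurable_id (measurable_jc n)
  have h2 : Measurable fun z : Cz => (dsel (z (jc z n)).d).take n :=
    (Measurable.of_discrete (f := fun y : Yb => (dsel y.d).take n)).comp h1
  exact Measurable.ite (czm_set (fun x => x.a = true) n) h2 (czm_one Yb.f n)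

theorem measurable_fixk : Measurable fun p : ℕ × (ℕ → List Bool) × Cz => fixk p.1 p.2.1 p.2.2 := by
  refine measurable_pi_iff.2 fun n => ?_
  have hz : Measurable fun p : ℕ × (ℕ → List Bool) × Cz => p.2.2 :=
    measurable_snd.comp measurable_snd
  have hc : Measurable fun p : ℕ × (ℕ → List Bool) × Cz => p.2.1 n :=
    (measurable_pi_apply n).comp (measurable_fst.comp measurable_snd)
  have h1 : Measurable fun p : ℕ × (ℕ → List Bool) × Cz => p.2.2 p.1 :=
    measurable_eval hz measurable_fst
  have h2 : Measurable fun p : ℕ × (ℕ → List Bool) × Cz => p.2.2 n :=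
    (measurable_pi_apply n).comp hz
  have h3 : Measurable fun p : ℕ × (ℕ → List Bool) × Cz => p.2.2 (p.1 + n) :=
    measurable_eval hz ((Measurable.of_discrete (f := fun k : ℕ => k + n)).comp measurable_fst)
  have h4 : Measurable fun p : ℕ × (ℕ → List Bool) × Cz =>
      (p.2.2 p.1, p.2.2 n, p.2.1 n, p.2.2 (p.1 + n)) :=
    h1.prodMk (h2.prodMk (hc.prodMk h3))
  exact (Measurable.of_discrete (f := fun q : Yb × Yb × List Bool × Yb =>
    (⟨decide (q.1.e ≤ n) && q.2.1.a, if n < q.1.e then q.2.2.1 else q.2.1.f, q.2.2.2.e,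
      q.2.2.2.d⟩ : Yb))).comp h4

theorem measurable_fixm (m : ℕ) : Measurable (fixm m) := by
  have h1 : Measurable fun z : Cz => sInf {k | m ≤ (z k).e} :=
    measurable_sInf_nat (R := fun (z : Cz) k => m ≤ (z k).e) fun k => czm_set (fun x => m ≤ x.e) k
  exact measurable_fixk.comp (h1.prodMk (measurable_pt.prodMk measurable_id))

theorem measurable_coneOp (M : ℕ) : Measurable (coneOp M) := by
  have h1 : Measurable fun z : Cz =>
      sInf {j | M ≤ (z j).e ∧ ∀ s : List Bool, s.length = M → ∃ t ∈ (z j).d, s <+: t} :=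
    measurable_sInf_nat
      (R := fun (z : Cz) j => M ≤ (z j).e ∧ ∀ s : List Bool, s.length = M → ∃ t ∈ (z j).d, s <+: t)
      fun k => czm_set
        (fun x => M ≤ x.e ∧ ∀ s : List Bool, s.length = M → ∃ t ∈ x.d, s <+: t) k
  exact measurable_fixk.comp (h1.prodMk (measurable_pt.prodMk measurable_id))

theorem measurable_exc (S : Set (List Bool)) : Measurable (exc S) := by
  have h1 : Measurable fun z : Cz => sInf {j | ∃ t ∈ (z j).d, t.take (z j).e ∉ S} :=
    measurable_sInf_nat (R := fun (z : Cz) j => ∃ t ∈ (z j).d, t.take (z j).e ∉ S)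
      fun k => czm_set (fun x => ∃ t ∈ x.d, t.take x.e ∉ S) k
  have h2 : Measurable (exr S) := by
    refine measurable_pi_iff.2 fun n => ?_
    unfold exr
    exact czm_one (fun y : Yb => open Classical in
      ({ y with d := y.d.filter fun t => t.take y.e ∉ S } : Yb)) n
  exact h2.comp (measurable_fixk.comp (h1.prodMk (measurable_pt.prodMk measurable_id)))

theorem measurable_upd (m : ℕ) : Measurable fun p : (ℕ → List Bool) × Cz => Upd m p.1 p.2 := by
  refine measurable_pi_iff.2 fun n => ?_
  have h1 : Measurable fun p : (ℕ → List Bool) × Cz => (p.1 n, p.2 n) :=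
    ((measurable_pi_apply n).comp measurable_fst).prodMk
      ((measurable_pi_apply n).comp measurable_snd)
  exact (Measurable.of_discrete (f := fun q : List Bool × Yb =>
    if n < m then ({ q.2 with a := false, f := q.1 } : Yb) else q.2)).comp h1

theorem measurableSet_cone (M : ℕ) : MeasurableSet {z : Cz | Cone M z} :=
  czm_set (fun x => ∀ s : List Bool, s.length = M → ∃ t ∈ x.d, s <+: t) 0

end Pool.Agent.MF45
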