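import Pool.Agent.MF45.CzM1
import Pool.Agent.MF45.CzC

/-!
# Codes: measurability of `Ext`, of the tail relation and of `sepc`

Paper proofs.  For a well formed `z` and `u : ℕ → List Bool`, `Ext z M u` is equivalent to:
for all `n < M` with `(z n).a = false`, `u n = (z n).f`, and for all `j` there is `t ∈ (z j).d`
with `u n = t.take n` for all `n < M` with `e j ≤ n < e (j + 1)` and `(z n).a = true`.  This is a
countable combination of conditions on finitely many coordinates.
For well formed `z'` and `z`, `Tl m z' z` is equivalent to: for all `N` and all lists `l` (a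
countable set) with `Ext z' N (lst l)` there is a list `l'` with `Ext z N (lst l')` and
`lst l n = lst l' n` for `m ≤ n < N`; for the direction from right to left use `WF.cpt`.
-/

namespace Pool.Agent.MF45

private theorem czm2_lst {c : ℕ → List Bool} {N n : ℕ} (hn : n < N) :
    lst ((List.range N).map c) n = c n := by
  unfold lst
  rw [List.getD_eq_getElem _ _ (by simpa using hn)]
  simp

private theorem czm2_sOne {Ω α : Type*} [MeasurableSpace Ω] [MeasurableSpace α]
    [DiscreteMeasurableSpace α] {f : Ω → α} (hf : Measurable f) (P : α → Prop) :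
    MeasurableSet {x | P (f x)} :=
  hf (MeasurableSet.of_discrete (s := {a | P a}))

private theorem czm2_sTwo {Ω α β : Type*} [MeasurableSpace Ω] [MeasurableSpace α]
    [MeasurableSpace β] [DiscreteMeasurableSpace α] [DiscreteMeasurableSpace β] [Countable α]
    [Countable β] {f : Ω → α} {g : Ω → β} (hf : Measurable f)
    (hg : Measurable g) (P : α → β → Prop) : MeasurableSet {x | P (f x) (g x)} :=
  czm2_sOne (hf.prodMk hg) fun p => P p.1 p.2

private theorem czm2_z {Ω : Type*} [MeasurableSpace Ω] {F : Ω → Cz} (hF : Measurable F) (n : ℕ) :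
    Measurable fun x => F x n :=
  (measurable_pi_apply n).comp hF

theorem WF.ext_iff {z : Cz} (hz : WF z) {M : ℕ} {u : ℕ → List Bool} : Ext z M u ↔
    (∀ n, n < M → (z n).a = false → u n = (z n).f) ∧ ∀ j, ∃ t ∈ (z j).d,
      ∀ n, n < M → (z j).e ≤ n → n < (z (j + 1)).e → (z n).a = true → u n = t.take n := by
  constructor
  · rintro ⟨c, ⟨h1, h2⟩, h3⟩
    refine ⟨fun n hn ha => ?_, fun j => ?_⟩
    · rw [← h3 n hn]
      exact h1 n ha
    · obtain ⟨t, ht, h4⟩ := h2 j
      refine ⟨t, ht, fun n hn h5 h6 ha => ?_⟩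
      rw [← h3 n hn]
      exact h4 n h5 h6 ha
  · rintro ⟨h1, h2⟩
    choose T hT hT2 using h2
    refine ⟨fun n => if n < M then u n else
      if (z n).a = true then (T (jc z n)).take n else (z n).f, ⟨?_, ?_⟩, ?_⟩
    · intro n ha
      by_cases hn : n < M
      · simp only [hn, if_true]
        exact h1 n hn ha
      · simp [hn, ha]
    · intro j
      refine ⟨T j, hT j, fun n h3 h4 ha => ?_⟩
      by_cases hn : n < M
      · simp only [hn, if_true]
        exact hT2 j n hn h3 h4 ha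
      · simp only [hn, if_false, ha, if_true]
        rw [hz.jc_eq h3 h4]
    · intro n hn
      simp only [hn, if_true]

theorem WF.tl_iff {z' z : Cz} (hz' : WF z') (hz : WF z) {m : ℕ} : Tl m z' z ↔
    ∀ (N : ℕ) (l : List (List Bool)), Ext z' N (lst l) → ∃ l' : List (List Bool),
      Ext z N (lst l') ∧ ∀ n, m ≤ n → n < N → lst l n = lst l' n := by
  constructor
  · rintro h N l ⟨c, hc, h1⟩
    obtain ⟨c', hc', h2⟩ := h c hc
    refine ⟨(List.range N).map c', ⟨c', hc', fun n hn => (czm2_lst hn).symm⟩, fun n hm hn => ?_⟩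
    rw [czm2_lst hn, ← h1 n hn]
    exact h2 n hm
  · intro h c hc
    refine hz.cpt fun N => ?_
    obtain ⟨l', ⟨c', hc', h1⟩, h2⟩ := h N ((List.range N).map c)
      ⟨c, hc, fun n hn => (czm2_lst hn).symm⟩
    refine ⟨c', hc', fun n hm hn => ?_⟩
    rw [h1 n hn, ← h2 n hm hn, czm2_lst hn]

theorem measurableSet_ext (M : ℕ) :
    MeasurableSet {p : Cz × (ℕ → List Bool) | WF p.1 ∧ Ext p.1 M p.2} := by
  have e : {p : Cz × (ℕ → List Bool) | WF p.1 ∧ Ext p.1 M p.2} =
      {p : Cz × (ℕ → List Bool) | WF p.1} ∩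
        ({p : Cz × (ℕ → List Bool) |
            ∀ n, n < M → (p.1 n).a = false → p.2 n = (p.1 n).f} ∩
          {p : Cz × (ℕ → List Bool) | ∀ j, ∃ t : List Bool, t ∈ (p.1 j).d ∧
            ∀ n, n < M → (p.1 j).e ≤ n → n < (p.1 (j + 1)).e → (p.1 n).a = true →
              p.2 n = t.take n}) := by
    ext p
    constructor
    · rintro ⟨h1, h2⟩
      obtain ⟨h3, h4⟩ := h1.ext_iff.1 h2
      exact ⟨h1, h3, h4⟩
    · rintro ⟨h1, h3, h4⟩
      exact ⟨h1, h1.ext_iff.2 ⟨h3, h4⟩⟩
  have hz : ∀ n : ℕ, Measurable fun p : Cz × (ℕ → List Bool) => p.1 n :=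
    fun n => czm2_z measurable_fst n
  have hu : ∀ n : ℕ, Measurable fun p : Cz × (ℕ → List Bool) => p.2 n :=
    fun n => (measurable_pi_apply n).comp measurable_snd
  rw [e]
  refine (measurable_fst measurableSet_wf).inter (MeasurableSet.inter ?_ ?_)
  · have e2 : {p : Cz × (ℕ → List Bool) |
        ∀ n, n < M → (p.1 n).a = false → p.2 n = (p.1 n).f} =
        ⋂ n : ℕ, {p : Cz × (ℕ → List Bool) |
          n < M → (p.1 n).a = false → p.2 n = (p.1 n).f} := by
      ext p
      simp only [Set.mem_setOf_eq, Set.mem_iInter]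
    rw [e2]
    refine MeasurableSet.iInter fun n => ?_
    exact czm2_sTwo (hz n) (hu n) fun y v => n < M → y.a = false → v = y.f
  · have e3 : {p : Cz × (ℕ → List Bool) | ∀ j, ∃ t : List Bool, t ∈ (p.1 j).d ∧
            ∀ n, n < M → (p.1 j).e ≤ n → n < (p.1 (j + 1)).e → (p.1 n).a = true →
              p.2 n = t.take n} =
        ⋂ j : ℕ, ⋃ t : List Bool, ({p : Cz × (ℕ → List Bool) | t ∈ (p.1 j).d} ∩
          ⋂ n : ℕ, {p : Cz × (ℕ → List Bool) | n < M → (p.1 j).e ≤ n →
            n < (p.1 (j + 1)).e → (p.1 n).a = true → p.2 n = t.take n}) := by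
      ext p
      simp only [Set.mem_setOf_eq, Set.mem_iInter, Set.mem_iUnion, Set.mem_inter_iff]
    rw [e3]
    refine MeasurableSet.iInter fun j => MeasurableSet.iUnion fun t => MeasurableSet.inter ?_
      (MeasurableSet.iInter fun n => ?_)
    · exact czm2_sOne (hz j) fun y => t ∈ y.d
    · exact czm2_sTwo ((hz j).prodMk (hz (j + 1))) ((hz n).prodMk (hu n))
        fun y w => n < M → y.1.e ≤ n → n < y.2.e → w.1.a = true → w.2 = t.take n

private theorem czm2_ext {Ω : Type*} [MeasurableSpace Ω] {F : Ω → Cz} (hF : Measurable F)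
    (M : ℕ) (u : ℕ → List Bool) : MeasurableSet {x | WF (F x) ∧ Ext (F x) M u} := by
  have h : Measurable fun x => (F x, u) := hF.prodMk measurable_const
  exact h (measurableSet_ext M)

theorem measurableSet_tl (m : ℕ) :
    MeasurableSet {p : Cz × Cz | WF p.1 ∧ WF p.2 ∧ Tl m p.1 p.2} := by
  have e : {p : Cz × Cz | WF p.1 ∧ WF p.2 ∧ Tl m p.1 p.2} =
      {p : Cz × Cz | WF p.1} ∩ ({p : Cz × Cz | WF p.2} ∩
        ⋂ N : ℕ, ⋂ l : List (List Bool), ({p : Cz × Cz | WF p.1 ∧ Ext p.1 N (lst l)}ᶜ ∪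
          ⋃ l' : List (List Bool), ({p : Cz × Cz | WF p.2 ∧ Ext p.2 N (lst l')} ∩
            {_p : Cz × Cz | ∀ n, m ≤ n → n < N → lst l n = lst l' n}))) := by
    ext p
    simp only [Set.mem_setOf_eq, Set.mem_inter_iff, Set.mem_iInter, Set.mem_union,
      Set.mem_compl_iff, Set.mem_iUnion]
    constructor
    · rintro ⟨h1, h2, h3⟩
      refine ⟨h1, h2, fun N l => ?_⟩
      by_cases h : Ext p.1 N (lst l)
      · obtain ⟨l', h4, h5⟩ := (h1.tl_iff h2).1 h3 N l h
        exact Or.inr ⟨l', ⟨h2, h4⟩, h5⟩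
      · exact Or.inl fun h' => h h'.2
    · rintro ⟨h1, h2, h3⟩
      refine ⟨h1, h2, (h1.tl_iff h2).2 fun N l h => ?_⟩
      rcases h3 N l with h4 | ⟨l', h5, h6⟩
      · exact absurd ⟨h1, h⟩ h4
      · exact ⟨l', h5.2, h6⟩
  rw [e]
  refine (measurable_fst measurableSet_wf).inter ((measurable_snd measurableSet_wf).inter
    (MeasurableSet.iInter fun N => MeasurableSet.iInter fun l => MeasurableSet.union ?_
      (MeasurableSet.iUnion fun l' => MeasurableSet.inter ?_ (MeasurableSet.const _))))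
  · exact (czm2_ext measurable_fst N (lst l)).compl
  · exact czm2_ext measurable_snd N (lst l')

theorem measurableSet_sub : MeasurableSet {p : Cz × Cz | WF p.1 ∧ WF p.2 ∧ Pt p.1 ⊆ Pt p.2} := by
  have h := measurableSet_tl 0
  simp only [tl_zero] at h
  exact h

/-- `sepc`, made trivial for codes which are not well formed, is measurable -/
theorem measurable_sepc :
    Measurable fun p : {p : Cz × Cz // WF p.1 ∧ WF p.2} => sepc p.1.1 p.1.2 := by
  have h1 : Measurable fun p : {p : Cz × Cz // WF p.1 ∧ WF p.2} => p.1.1 :=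
    measurable_fst.comp measurable_subtype_coe
  have h2 : Measurable fun p : {p : Cz × Cz // WF p.1 ∧ WF p.2} => p.1.2 :=
    measurable_snd.comp measurable_subtype_coe
  have hR : ∀ n : ℕ, MeasurableSet {p : {p : Cz × Cz // WF p.1 ∧ WF p.2} |
      SepR p.1.1 p.1.2 n.unpair.1 (sepl n)} := by
    intro n
    have e : {p : {p : Cz × Cz // WF p.1 ∧ WF p.2} |
        SepR p.1.1 p.1.2 n.unpair.1 (sepl n)} =
        {p : {p : Cz × Cz // WF p.1 ∧ WF p.2} | (sepl n).length = (p.1.1 n.unpair.1).e} ∩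
          ({p : {p : Cz × Cz // WF p.1 ∧ WF p.2} |
              WF p.1.1 ∧ Ext p.1.1 (sepl n).length (lst (sepl n))} ∩
            {p : {p : Cz × Cz // WF p.1 ∧ WF p.2} |
              WF p.1.2 ∧ Ext p.1.2 (sepl n).length (lst (sepl n))}ᶜ) := by
      ext p
      simp only [SepR, Set.mem_setOf_eq, Set.mem_inter_iff, Set.mem_compl_iff]
      constructor
      · rintro ⟨h3, h4, h5⟩
        rw [← h3] at h4 h5
        exact ⟨h3, ⟨p.2.1, h4⟩, fun h => h5 h.2⟩
      · rintro ⟨h3, h4, h5⟩
        rw [← h3]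
        exact ⟨rfl, h4.2, fun h => h5 ⟨p.2.2, h⟩⟩
    rw [e]
    refine MeasurableSet.inter ?_ (MeasurableSet.inter (czm2_ext h1 _ _) (czm2_ext h2 _ _).compl)
    exact czm2_sOne (czm2_z h1 n.unpair.1) fun y => (sepl n).length = y.e
  have hI := measurable_sInf_nat hR
  have hk : Measurable fun p : {p : Cz × Cz // WF p.1 ∧ WF p.2} =>
      (sInf {n : ℕ | SepR p.1.1 p.1.2 n.unpair.1 (sepl n)}).unpair.1 :=
    (Measurable.of_discrete (f := fun n : ℕ => n.unpair.1)).comp hI
  have hl : Measurable fun p : {p : Cz × Cz // WF p.1 ∧ WF p.2} =>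
      lst (sepl (sInf {n : ℕ | SepR p.1.1 p.1.2 n.unpair.1 (sepl n)})) :=
    (Measurable.of_discrete (f := fun n : ℕ => lst (sepl n))).comp hI
  exact measurable_fixk.comp (hk.prodMk (hl.prodMk h1))

end Pool.Agent.MF45
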