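import Pool.Agent.MF45.CzM1

/-!
# Codes: measurability of `mrg` and of the fusion

See `CzM1` for the tools.
-/

namespace Pool.Agent.MF45

private theorem disc_fin : DiscreteMeasurableSpace (Finset (List Bool)) := ⟨fun _ => trivial⟩

attribute [local instance] disc_fin

private theorem meas_coord {α : Type*} [MeasurableSpace α] (f : Yb → α) (n : ℕ) :
    Measurable fun z : Cz => f (z n) :=
  (Measurable.of_discrete (f := f)).comp (measurable_pi_apply n)

private theorem meas_seqf {α : Type*} [MeasurableSpace α] (f : Yb → α) :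
    Measurable fun (z : Cz) (n : ℕ) => f (z n) :=
  measurable_pi_iff.2 fun n => meas_coord f n

private theorem measSet_one {Ω α : Type*} [MeasurableSpace Ω] [MeasurableSpace α]
    [DiscreteMeasurableSpace α] {f : Ω → α} (hf : Measurable f) (P : α → Prop) :
    MeasurableSet {x | P (f x)} :=
  hf (MeasurableSet.of_discrete (s := {a | P a}))

/-- a function of a measurable function with values in a discrete space -/
private theorem meas_one {Ω α β : Type*} [MeasurableSpace Ω] [MeasurableSpace α]
    [DiscreteMeasurableSpace α] [MeasurableSpace β] {f : Ω → α} (hf : Measurable f) (g : α → β) :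
    Measurable fun x => g (f x) :=
  (Measurable.of_discrete (f := g)).comp hf

private theorem meas_two {Ω α β γ : Type*} [MeasurableSpace Ω] [MeasurableSpace α]
    [MeasurableSpace β] [DiscreteMeasurableSpace α] [DiscreteMeasurableSpace β] [Countable α]
    [Countable β] [MeasurableSpace γ] {f : Ω → α} {g : Ω → β} (hf : Measurable f)
    (hg : Measurable g) (h : α → β → γ) : Measurable fun x => h (f x) (g x) :=
  (Measurable.of_discrete (f := fun p : α × β => h p.1 p.2)).comp (hf.prodMk hg)

private theorem measSet_two {Ω α β : Type*} [MeasurableSpace Ω] [MeasurableSpace α]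
    [MeasurableSpace β] [DiscreteMeasurableSpace α] [DiscreteMeasurableSpace β] [Countable α]
    [Countable β] {f : Ω → α} {g : Ω → β} (hf : Measurable f)
    (hg : Measurable g) (P : α → β → Prop) : MeasurableSet {x | P (f x) (g x)} :=
  measSet_one (hf.prodMk hg) fun p => P p.1 p.2

/-- a function with values in the finite sets of strings -/
private theorem meas_finset {Ω : Type*} [MeasurableSpace Ω] {F : Ω → Finset (List Bool)}
    (h : ∀ t, MeasurableSet {x | t ∈ F x}) : Measurable F := by
  apply measurable_to_countable'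
  intro D
  have : F ⁻¹' {D} = ⋂ t : List Bool, {x | t ∈ F x ↔ t ∈ D} := by
    ext x
    simp only [Set.mem_preimage, Set.mem_singleton_iff, Set.mem_iInter, Set.mem_setOf_eq,
      Finset.ext_iff]
  rw [this]
  refine MeasurableSet.iInter fun t => ?_
  by_cases ht : t ∈ D
  · simpa only [ht, iff_true] using h t
  · have h1 : {x | t ∈ F x ↔ t ∈ D} = {x | t ∈ F x}ᶜ := by
      ext x
      simp only [ht, iff_false, Set.mem_setOf_eq, Set.mem_compl_iff]
    rw [h1]
    exact (h t).compl

/-- a function with values in the entries of codes -/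
private theorem meas_yb {Ω : Type*} [MeasurableSpace Ω] {a : Ω → Bool} {f : Ω → List Bool}
    {e : Ω → ℕ} {d : Ω → Finset (List Bool)} (ha : Measurable a) (hf : Measurable f)
    (he : Measurable e) (hd : Measurable d) :
    Measurable fun x => (⟨a x, f x, e x, d x⟩ : Yb) := by
  have h1 := (ha.prodMk hf).prodMk (he.prodMk hd)
  exact meas_one h1 fun p => (⟨p.1.1, p.1.2, p.2.1, p.2.2⟩ : Yb)

/-- evaluation of an entry at a measurable place -/
private theorem meas_ent {Ω α : Type*} [MeasurableSpace Ω] [MeasurableSpace α] {Z : Ω → Cz}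
    (hZ : Measurable Z) {k : Ω → ℕ} (hk : Measurable k) (f : Yb → α) :
    Measurable fun x => f (Z x (k x)) :=
  meas_one (measurable_eval hZ hk) f

private theorem meas_imp {Ω : Type*} [MeasurableSpace Ω] {P Q : Ω → Prop}
    (hP : MeasurableSet {x | P x}) (hQ : MeasurableSet {x | Q x}) :
    MeasurableSet {x | P x → Q x} := by
  have e3 : {x | P x → Q x} = {x | P x}ᶜ ∪ {x | Q x} := by
    ext x
    simp only [Set.mem_setOf_eq, Set.mem_union, Set.mem_compl_iff]
    tauto
  rw [e3]
  exact hP.compl.union hQ

theorem measurable_sig (g : ℕ → ℕ) (i : ℕ) : Measurable fun z : Cz => sig g z i := by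
  induction i with
  | zero => exact measurable_const
  | succ i ih =>
    simp only [sig]
    apply measurable_sInf_nat
    intro k
    have h1 : Measurable fun z : Cz => (z (sig g z i)).e :=
      measurable_eval (meas_seqf fun y => y.e) ih
    have h2 : Measurable fun z : Cz => (z k).e := meas_coord (fun y => y.e) k
    exact (measSet_one ih fun m => m < k).inter (measSet_two h1 h2 fun a b => g a ≤ b)

theorem measurable_mrg (g : ℕ → ℕ) : Measurable (mrg g) := by
  refine measurable_pi_iff.2 fun n => ?_
  have hs := measurable_sig g n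
  have hs' := measurable_sig g (n + 1)
  refine meas_yb (meas_coord (fun y => y.a) n) (meas_coord (fun y => y.f) n)
    (meas_ent measurable_id hs fun y => y.e) (meas_finset fun t => ?_)
  simp only [blkD, Finset.mem_filter]
  have h1 : Measurable fun z : Cz => (z (sig g z (n + 1))).e :=
    meas_ent measurable_id hs' fun y => y.e
  refine (measSet_one h1 fun l => t ∈ strs l).inter ?_
  have h3 : MeasurableSet (⋂ j : ℕ, {z : Cz | (sig g z n ≤ j ∧ j < sig g z (n + 1)) →
      t.take (z (j + 1)).e ∈ (z j).d}) := by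
    refine MeasurableSet.iInter fun j => meas_imp ?_ ?_
    · exact measSet_two hs hs' fun a b => a ≤ j ∧ j < b
    · exact measSet_two (meas_coord (fun y => y.e) (j + 1)) (meas_coord (fun y => y.d) j)
        fun a b => t.take a ∈ b
  have e3 : {z : Cz | ∀ j, sig g z n ≤ j → j < sig g z (n + 1) →
      t.take (z (j + 1)).e ∈ (z j).d} =
      ⋂ j : ℕ, {z : Cz | (sig g z n ≤ j ∧ j < sig g z (n + 1)) →
      t.take (z (j + 1)).e ∈ (z j).d} := by
    ext z
    simp only [Set.mem_iInter, Set.mem_setOf_eq, and_imp]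
  rw [← e3] at h3
  exact h3

/-- least upper bounds of finitely many numbers -/
private theorem meas_sup {Ω : Type*} [MeasurableSpace Ω] {f : Ω → ℕ → ℕ} (hf : Measurable f)
    {N : Ω → ℕ} (hN : Measurable N) : Measurable fun x => (Finset.range (N x)).sup (f x) := by
  have h1 : Measurable fun (x : Ω) (M : ℕ) => (Finset.range M).sup (f x) := by
    refine measurable_pi_iff.2 fun M => ?_
    induction M with
    | zero => simp
    | succ M ih =>
      simp only [Finset.range_add_one, Finset.sup_insert]
      exact meas_two (measurable_pi_iff.1 hf M) ih fun a b => a ⊔ b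
  exact measurable_eval h1 hN

private theorem meas_cg {Ω : Type*} [MeasurableSpace Ω] {Z : Ω → Cz} (hZ : Measurable Z)
    {M : Ω → ℕ} (hM : Measurable M) : Measurable fun x => cg (Z x) (M x) := by
  have h1 : Measurable fun x => sInf {k | M x ≤ (Z x k).e} := by
    apply measurable_sInf_nat
    intro k
    exact measSet_two hM (meas_ent hZ measurable_const fun y => y.e) fun a b => a ≤ b
  exact meas_ent hZ h1 fun y => y.e

private theorem meas_hh {Ω : Type*} [MeasurableSpace Ω] {Z : Ω → ℕ → Cz} (hZ : Measurable Z)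
    {Y : Ω → ℕ → Bool} (hY : Measurable Y) : Measurable fun x => hh (Z x) (Y x) := by
  refine measurable_pi_iff.2 fun m => ?_
  apply measurable_sInf_nat
  intro k
  simp only [Set.setOf_forall]
  refine MeasurableSet.iInter fun n => ?_
  have h2 := measSet_two (measurable_pi_iff.1 hY n)
    (meas_ent (measurable_pi_iff.1 hZ m) (measurable_const (a := n)) fun y => y.a)
    fun a b => k ≤ n → a = true → b = true
  simpa only [Set.setOf_forall] using h2

private theorem meas_kap {Ω : Type*} [MeasurableSpace Ω] {Z : Ω → ℕ → Cz} (hZ : Measurable Z)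
    (m : ℕ) : Measurable fun x => kap (Z x) m := by
  refine meas_sup (f := fun x k => cg (Z x k) m) (N := fun _ => m + 1) ?_ measurable_const
  exact measurable_pi_iff.2 fun k => meas_cg (measurable_pi_iff.1 hZ k) measurable_const

private theorem meas_gg {Ω : Type*} [MeasurableSpace Ω] {Z : Ω → ℕ → Cz} (hZ : Measurable Z)
    {Y : Ω → ℕ → Bool} (hY : Measurable Y) : Measurable fun x => gg (Z x) (Y x) := by
  refine measurable_pi_iff.2 fun m => ?_
  have h1 : Measurable fun x => (Finset.range (kap (Z x) m + 1)).sup (hh (Z x) (Y x)) :=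
    meas_sup (meas_hh hZ hY) (meas_one (meas_kap hZ m) fun a => a + 1)
  exact meas_one h1 fun a => 1 + a

theorem measurable_gg : Measurable fun p : (ℕ → Cz) × (ℕ → Bool) => gg p.1 p.2 :=
  meas_gg measurable_fst measurable_snd

theorem measurable_eps (i : ℕ) :
    Measurable fun p : (ℕ → Cz) × (ℕ → Bool) × (ℕ → Bool) => eps p.1 p.2.1 p.2.2 i := by
  induction i with
  | zero => exact measurable_const
  | succ i ih =>
    simp only [eps]
    have hz : Measurable fun p : (ℕ → Cz) × (ℕ → Bool) × (ℕ → Bool) =>
        p.1 (eps p.1 p.2.1 p.2.2 i) := measurable_eval measurable_fst ih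
    refine meas_cg hz ?_
    apply measurable_sInf_nat
    intro m
    have hy : Measurable fun p : (ℕ → Cz) × (ℕ → Bool) × (ℕ → Bool) => p.2.1 :=
      measurable_fst.comp measurable_snd
    have hy' : Measurable fun p : (ℕ → Cz) × (ℕ → Bool) × (ℕ → Bool) => p.2.2 :=
      measurable_snd.comp measurable_snd
    have hg : Measurable fun p : (ℕ → Cz) × (ℕ → Bool) × (ℕ → Bool) => gg p.1 p.2.1 m :=
      measurable_pi_iff.1 (meas_gg measurable_fst hy) m
    refine (measSet_one (meas_ent hz (measurable_const (a := 0)) fun y => y.e)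
      fun a => a < m).inter ((measSet_one ih fun a => a < m).inter ?_)
    have h3 : MeasurableSet (⋂ n : ℕ, {p : (ℕ → Cz) × (ℕ → Bool) × (ℕ → Bool) |
        m ≤ n → n < gg p.1 p.2.1 m → p.2.2 n = false}) := by
      refine MeasurableSet.iInter fun n => ?_
      exact measSet_two hg (measurable_pi_iff.1 hy' n)
        fun a b => m ≤ n → n < a → b = false
    have e3 : {p : (ℕ → Cz) × (ℕ → Bool) × (ℕ → Bool) |
        ∀ n, m ≤ n → n < gg p.1 p.2.1 m → p.2.2 n = false} =
        ⋂ n : ℕ, {p : (ℕ → Cz) × (ℕ → Bool) × (ℕ → Bool) |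
        m ≤ n → n < gg p.1 p.2.1 m → p.2.2 n = false} := by
      ext p
      simp only [Set.mem_iInter, Set.mem_setOf_eq]
    rw [← e3] at h3
    exact h3

private theorem meas_bi (n : ℕ) :
    Measurable fun p : (ℕ → Cz) × (ℕ → Bool) × (ℕ → Bool) => bi p.1 p.2.1 p.2.2 n := by
  unfold bi
  apply measurable_findGreatest
  intro k _
  exact measSet_one (measurable_eps k) fun a => a ≤ n

theorem measurable_flp :
    Measurable fun p : (ℕ → Cz) × (ℕ → Bool) × (ℕ → Bool) => flp p.1 p.2.1 p.2.2 := by
  refine measurable_pi_iff.2 fun n => ?_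
  have hb : Measurable fun p : (ℕ → Cz) × (ℕ → Bool) × (ℕ → Bool) =>
      p.1 (eps p.1 p.2.1 p.2.2 (bi p.1 p.2.1 p.2.2 n)) := by
    refine measurable_eval measurable_fst ?_
    exact measurable_eval (f := fun (p : (ℕ → Cz) × (ℕ → Bool) × (ℕ → Bool)) i =>
      eps p.1 p.2.1 p.2.2 i) (measurable_pi_iff.2 measurable_eps) (meas_bi n)
  have hz : Measurable fun p : (ℕ → Cz) × (ℕ → Bool) × (ℕ → Bool) =>
      p.1 (eps p.1 p.2.1 p.2.2 n) := measurable_eval measurable_fst (measurable_eps n)
  refine meas_yb (meas_ent hb (measurable_const (a := n)) fun y => y.a)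
    (meas_ent hb (measurable_const (a := n)) fun y => y.f)
    (measurable_eps n) (meas_finset fun t => ?_)
  simp only [Finset.mem_filter]
  refine (measSet_one (measurable_eps (n + 1)) fun l => t ∈ strs l).inter ?_
  have h3 : MeasurableSet (⋂ j : ℕ, {p : (ℕ → Cz) × (ℕ → Bool) × (ℕ → Bool) |
      (p.1 (eps p.1 p.2.1 p.2.2 n) (j + 1)).e ≤ eps p.1 p.2.1 p.2.2 (n + 1) →
        t.take (p.1 (eps p.1 p.2.1 p.2.2 n) (j + 1)).e ∈ (p.1 (eps p.1 p.2.1 p.2.2 n) j).d}) := by
    refine MeasurableSet.iInter fun j => meas_imp ?_ ?_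
    · exact measSet_two (meas_ent hz (measurable_const (a := j + 1)) fun y => y.e)
        (measurable_eps (n + 1)) fun a b => a ≤ b
    · exact measSet_two (meas_ent hz (measurable_const (a := j + 1)) fun y => y.e)
        (meas_ent hz (measurable_const (a := j)) fun y => y.d) fun a b => t.take a ∈ b
  have e3 : {p : (ℕ → Cz) × (ℕ → Bool) × (ℕ → Bool) | ∀ j,
      (p.1 (eps p.1 p.2.1 p.2.2 n) (j + 1)).e ≤ eps p.1 p.2.1 p.2.2 (n + 1) →
        t.take (p.1 (eps p.1 p.2.1 p.2.2 n) (j + 1)).e ∈ (p.1 (eps p.1 p.2.1 p.2.2 n) j).d} =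
      ⋂ j : ℕ, {p : (ℕ → Cz) × (ℕ → Bool) × (ℕ → Bool) |
      (p.1 (eps p.1 p.2.1 p.2.2 n) (j + 1)).e ≤ eps p.1 p.2.1 p.2.2 (n + 1) →
        t.take (p.1 (eps p.1 p.2.1 p.2.2 n) (j + 1)).e ∈
          (p.1 (eps p.1 p.2.1 p.2.2 n) j).d} := by
    ext p
    simp only [Set.mem_iInter, Set.mem_setOf_eq]
  rw [← e3] at h3
  exact h3

end Pool.Agent.MF45
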