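import Pool.Agent.BVM.Notions

/-!
# Filters on `ω`, their coideals, and the Menger property, inside a structure of set theory

`E x y` is read `x ∈ y`.  All notions are relativized to the structure: all quantifiers range
over `M`, so that for a model `(M, E)` of ZFC they express that `(M, E)` satisfies the
corresponding statement of set theory.  Here `w` is always `ω`.
-/

namespace Pool.Agent.MF45

open Pool.Agent.BVM (FunOn CardLE Rel)

section

variable {M : Type*} (E : M → M → Prop)

/-- `x ⊆ y` -/
def Sub (x y : M) : Prop := ∀ z, E z x → E z y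

/-- `F` is a filter on `w = ω` -/
structure IsFilter (w F : M) : Prop where
  /-- the elements of `F` are subsets of `ω` -/
  sub : ∀ A, E A F → Sub E A w
  /-- `F` is closed under intersections -/
  inter : ∀ A B C, E A F → E B F → (∀ n, E n C ↔ (E n A ∧ E n B)) → E C F
  /-- `F` is closed under supersets -/
  mono : ∀ A B, E A F → Sub E A B → Sub E B w → E B F
  /-- the empty set is not in `F` -/
  ne : ∀ A, E A F → ∃ n, E n A
  /-- every cofinite subset of `ω` (it contains all `m ∈ ω ∖ n`, for some `n`) is in `F` -/
  cofin : ∀ A n, Sub E A w → E n w → (∀ m, E m w → ¬ E m n → E m A) → E A F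

/-- `X` is the coideal `F⁺` of the filter `F`: the set of all subsets of `ω` which meet all
elements of `F` -/
def IsCoideal (w F X : M) : Prop :=
  ∀ A, E A X ↔ (Sub E A w ∧ ∀ B, E B F → ∃ n, E n A ∧ E n B)

/-- `U` is an open subset of the set `X` of subsets of `ω`, in the subspace topology of the Cantor
space: for each `x` in `U` there is a natural number `n` (the set of its predecessors) such
that each `y` in `X` with `y ∩ n = x ∩ n` is in `U` -/
def OpenIn (w X U : M) : Prop := Sub E U X ∧ ∀ x, E x U → ∃ n, E n w ∧ ∀ y, E y X →
  (∀ m, E m n → (E m x ↔ E m y)) → E y U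

/-- `C` is an open cover of `X` -/
def OpenCover (w X C : M) : Prop :=
  (∀ U, E U C → OpenIn E w X U) ∧ ∀ x, E x X → ∃ U, E U C ∧ E x U

/-- `V` is finite -/
def Finite (w V : M) : Prop := ∃ k, E k w ∧ CardLE E V k

/-- the space `X` is Menger: for each sequence `s` of open covers of `X` there is a sequence `t`
of finite sets `t(n) ⊆ s(n)` such that the union of all `t(n)` covers `X` -/
def Menger (w X : M) : Prop := ∀ s, FunOn E s w → (∀ n C, Rel E s n C → OpenCover E w X C) →
  ∃ t, FunOn E t w ∧ (∀ n C V, Rel E s n C → Rel E t n V → Sub E V C ∧ Finite E w V) ∧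
    ∀ x, E x X → ∃ n V U, Rel E t n V ∧ E U V ∧ E x U

end

end Pool.Agent.MF45
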