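import Pool.Agent.MF45.PsB

/-!
# Names of filters whose coideal is Menger

`FoM X p₀ Fo` collects the properties of the relation `Fo s y` : `s ≤ p₀` forces that the name `y`
is in a filter whose coideal is Menger.

Paper proof of `pseudo`.  Apply `menger` to `W h n m a` : some `j ∈ a` satisfies `n ≤ j`, `j < m`
and `y k h j = true` for all `k ≤ n`.  For a positive `A` below `s' ≤ s` and each `n` the name of
`{j | n ≤ j} ∩ y 0 ∩ ... ∩ y n` is in `Fo s'` (`inter`, `up`), so `s'` forces that it meets `A`.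
This gives `g`.  Let `B h j = true` iff there is `n` with `n ≤ j < g h n` and `y k h j = true` for all
`k ≤ n`.  By `menger`, `B` meets (is forced to meet) all positive `A`.  `Fo s B`: otherwise, by
`loc`, there is `s' ≤ s` with `¬ Fo s'' B` for all `s'' ≤ s'`.  The complement `A` of `B` is positive
below `s'`: if `s'' ≤ s'`, `Fo s'' y'` and `s''` does not force that `A` meets `y'`, then some
`s₃ ≤ s''` forces that `y' ⊆ B`, so `Fo s₃ B` by `up`, contradiction.  So `B` meets its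
complement, contradiction.  Finally `B` is almost contained in `y k`: if `B h j = true` and
`j ≥ g h n` for all `n < k`, then the `n` for `j` is `≥ k`.
-/

namespace Pool.Agent.MF45

universe u

variable {P : Type u}

/-- the elements of `y` below `m` -/
def fs (y : ℕ → Bool) (m : ℕ) : Finset ℕ := (Finset.range m).filter fun j => y j = true

/-- `s` forces that `y` meets all elements of the filter -/
def Pos (X : Pst P) (Fo : P → (Set P → ℕ → Bool) → Prop) (s : P) (y : Set P → ℕ → Bool) : Prop :=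
  Ms X y ∧ ∀ (s' : P) (y' : Set P → ℕ → Bool), X.le s' s → Fo s' y' →
    Forc X s' fun h => ∃ n, y h n = true ∧ y' h n = true

/-- below `p₀`, `Fo` is a name of a filter whose coideal is Menger -/
structure FoM (X : Pst P) (p₀ : P) (Fo : P → (Set P → ℕ → Bool) → Prop) : Prop where
  ms : ∀ {s : P} {y : Set P → ℕ → Bool}, X.le s p₀ → Fo s y → Ms X y
  mono : ∀ {s s' : P} {y : Set P → ℕ → Bool}, X.le s p₀ → X.le s' s → Fo s y → Fo s' y
  loc : ∀ {s : P} {y : Set P → ℕ → Bool}, X.le s p₀ → Ms X y →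
    (∀ s', X.le s' s → ∃ s'', X.le s'' s' ∧ Fo s'' y) → Fo s y
  univ : ∀ {s : P}, X.le s p₀ → Fo s fun _ _ => true
  up : ∀ {s : P} {y y' : Set P → ℕ → Bool}, X.le s p₀ → Fo s y → Ms X y' →
    Forc X s (fun h => ∃ N, ∀ n, N ≤ n → y h n = true → y' h n = true) → Fo s y'
  inter : ∀ {s : P} {y y' : Set P → ℕ → Bool}, X.le s p₀ → Fo s y → Fo s y' →
    Fo s fun h n => y h n && y' h n
  ne : ∀ {s : P} {y : Set P → ℕ → Bool}, X.le s p₀ → Fo s y →
    Forc X s fun h => ∃ n, y h n = true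
  menger : ∀ (W : Set P → ℕ → ℕ → Finset ℕ → Prop), (∀ n m a, Dec X fun h => W h n m a) →
    ∀ s, X.le s p₀ → (∀ (s' : P) (y : Set P → ℕ → Bool), X.le s' s → Pos X Fo s' y →
      Forc X s' fun h => ∀ n, ∃ m, W h n m (fs (y h) m)) →
    ∃ g : Set P → ℕ → ℕ, Ms X g ∧ ∀ (s' : P) (y : Set P → ℕ → Bool), X.le s' s → Pos X Fo s' y →
      Forc X s' fun h => ∃ n, ∃ m, m ≤ g h n ∧ W h n m (fs (y h) m)

variable {X : Pst P} {p₀ : P} {Fo : P → (Set P → ℕ → Bool) → Prop}

private theorem ms_cut {y : Set P → ℕ → Bool} (hy : Ms X y) (N : ℕ) :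
    Ms X fun h n => y h n && decide (N ≤ n) := by
  refine Ms.comp (f := fun (z : ℕ → Bool) n => z n && decide (N ≤ n)) ?_ hy
  exact measurable_pi_iff.2 fun n => Measurable.comp (g := fun b : Bool => b && decide (N ≤ n))
    (measurable_of_countable _) (measurable_pi_apply n)

private theorem ms_neg {y : Set P → ℕ → Bool} (hy : Ms X y) : Ms X fun h n => !(y h n) := by
  refine Ms.comp (f := fun (z : ℕ → Bool) n => !(z n)) ?_ hy
  exact measurable_pi_iff.2 fun n => Measurable.comp (g := fun b : Bool => !b)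
    (measurable_of_countable _) (measurable_pi_apply n)

private theorem dec_tt {y : Set P → ℕ → Bool} (hy : Ms X y) (n : ℕ) :
    Dec X fun h => y h n = true := ms_countable.1 (ms_pi.1 hy n) true

private theorem FoM.cut (H : FoM X p₀ Fo) {s : P} (hs : X.le s p₀) {y : Set P → ℕ → Bool}
    (hy : Fo s y) (N : ℕ) : Fo s fun h n => y h n && decide (N ≤ n) := by
  refine H.up hs hy (ms_cut (H.ms hs hy) N) (Forc.of_all fun h _ _ => ⟨N, fun n hn h1 => ?_⟩)
  simp [h1, hn]

/-- intersections of finitely many names -/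
private def cap (y : ℕ → Set P → ℕ → Bool) : ℕ → Set P → ℕ → Bool
  | 0 => y 0
  | n + 1 => fun h j => cap y n h j && y (n + 1) h j

private theorem cap_iff (y : ℕ → Set P → ℕ → Bool) (n : ℕ) (h : Set P) (j : ℕ) :
    cap y n h j = true ↔ ∀ k, k ≤ n → y k h j = true := by
  induction n with
  | zero => simp [cap]
  | succ n ih =>
    simp only [cap, Bool.and_eq_true, ih]
    constructor
    · rintro ⟨h1, h2⟩ k hk
      rcases Nat.lt_or_ge k (n + 1) with h3 | h3
      · exact h1 k (by omega)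
      · have : k = n + 1 := by omega
        rw [this]
        exact h2
    · intro h1
      exact ⟨fun k hk => h1 k (by omega), h1 (n + 1) le_rfl⟩

private theorem FoM.cap (H : FoM X p₀ Fo) {s : P} (hs : X.le s p₀) {y : ℕ → Set P → ℕ → Bool}
    (hy : ∀ k, Fo s (y k)) (n : ℕ) : Fo s (MF45.cap y n) := by
  induction n with
  | zero => exact hy 0
  | succ n ih => exact H.inter hs ih (hy (n + 1))

/-- elements of the filter are infinite -/
theorem FoM.inf (H : FoM X p₀ Fo) {s : P} (hs : X.le s p₀) {y : Set P → ℕ → Bool}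
    (hy : Fo s y) : Forc X s fun h => ∀ N, ∃ n, N ≤ n ∧ y h n = true := by
  refine Forc.all fun N => (H.ne hs (H.cut hs hy N)).imp ?_
  rintro h - - ⟨n, hn⟩
  rw [Bool.and_eq_true, decide_eq_true_eq] at hn
  exact ⟨n, hn.2, hn.1⟩

/-- positive sets are infinite -/
theorem FoM.pos_inf (H : FoM X p₀ Fo) {s : P} (hs : X.le s p₀) {y : Set P → ℕ → Bool}
    (hy : Pos X Fo s y) : Forc X s fun h => ∀ N, ∃ n, N ≤ n ∧ y h n = true := by
  refine Forc.all fun N => (hy.2 s _ (X.left hs) (H.cut hs (H.univ hs) N)).imp ?_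
  rintro h - - ⟨n, hn1, hn2⟩
  rw [Bool.and_eq_true, decide_eq_true_eq] at hn2
  exact ⟨n, hn2.2, hn1⟩

theorem FoM.pos_mono {s s' : P} (hs : X.le s' s) {y : Set P → ℕ → Bool}
    (hy : Pos X Fo s y) : Pos X Fo s' y := by
  exact ⟨hy.1, fun s'' y' hs'' hy' => hy.2 s'' y' (X.trans hs'' hs) hy'⟩

/-- elements of the filter are positive -/
theorem FoM.pos (H : FoM X p₀ Fo) {s : P} (hs : X.le s p₀) {y : Set P → ℕ → Bool}
    (hy : Fo s y) : Pos X Fo s y := by
  refine ⟨H.ms hs hy, fun s' y' hs' hy' => ?_⟩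
  have h1 : X.le s' p₀ := X.trans hs' hs
  refine (H.ne h1 (H.inter h1 (H.mono hs hs' hy) hy')).imp ?_
  rintro h - - ⟨n, hn⟩
  rw [Bool.and_eq_true] at hn
  exact ⟨n, hn.1, hn.2⟩

/-- the filter is a P-filter -/
theorem FoM.pseudo (H : FoM X p₀ Fo) {s : P} (hs : X.le s p₀) {y : ℕ → Set P → ℕ → Bool}
    (hy : ∀ k, Fo s (y k)) : ∃ B : Set P → ℕ → Bool, Fo s B ∧
      Forc X s fun h => ∀ k, ∃ N, ∀ n, N ≤ n → B h n = true → y k h n = true := by
  classical
  have hyd : ∀ k j, Dec X fun h => y k h j = true := fun k j => dec_tt (H.ms hs (hy k)) j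
  let W : Set P → ℕ → ℕ → Finset ℕ → Prop := fun h n m a =>
    ∃ j, (j ∈ a ∧ n ≤ j ∧ j < m) ∧ ∀ k, k ≤ n → y k h j = true
  have hW : ∀ n m a, Dec X fun h => W h n m a := fun n m a => Dec.ex fun j =>
    (Dec.const _).and (Dec.all fun k => (Dec.const (k ≤ n)).imp (hyd k j))
  obtain ⟨g, hg, hgW⟩ := H.menger W hW s hs (by
    intro s' A hs' hA
    have h1 : X.le s' p₀ := X.trans hs' hs
    refine Forc.all fun n => ?_
    refine (hA.2 s' _ (X.left hs') (H.cut h1 (H.cap h1 (fun k => H.mono hs hs' (hy k)) n)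
      n)).imp ?_
    rintro h - - ⟨j, hj1, hj2⟩
    rw [Bool.and_eq_true, decide_eq_true_eq, cap_iff] at hj2
    refine ⟨j + 1, j, ⟨?_, hj2.2, Nat.lt_succ_self j⟩, hj2.1⟩
    rw [fs, Finset.mem_filter, Finset.mem_range]
    exact ⟨Nat.lt_succ_self j, hj1⟩)
  let φ : ℕ → Set P → Prop := fun j h => ∃ n, (n ≤ j ∧ j < g h n) ∧ ∀ k, k ≤ n → y k h j = true
  have hφ : ∀ j, Dec X (φ j) := fun j => Dec.ex fun n =>
    ((Dec.const (n ≤ j)).and ((ms_pi.1 hg n).dec (A := Set.Ioi j) measurableSet_Ioi)).and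
      (Dec.all fun k => (Dec.const (k ≤ n)).imp (hyd k j))
  let B : Set P → ℕ → Bool := fun h j => decide (φ j h)
  have hBφ : ∀ h j, B h j = true ↔ φ j h := fun h j => decide_eq_true_iff
  have hB : Ms X B := by
    refine ms_pi.2 fun j => ms_countable.2 fun b => ?_
    cases b with
    | false =>
      refine (hφ j).not.congr fun h _ => ?_
      rw [← hBφ h j, Bool.not_eq_true]
    | true => exact (hφ j).congr fun h _ => (hBφ h j).symm
  -- `B` meets all positive sets
  have hmeet : ∀ (s' : P) (A : Set P → ℕ → Bool), X.le s' s → Pos X Fo s' A →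
      Forc X s' fun h => ∃ j, A h j = true ∧ B h j = true := by
    intro s' A hs' hA
    refine (hgW s' A hs' hA).imp ?_
    rintro h - - ⟨n, m, hm, j, ⟨hj1, hj2, hj3⟩, hj4⟩
    rw [fs, Finset.mem_filter] at hj1
    exact ⟨j, hj1.2, (hBφ h j).2 ⟨n, ⟨hj2, lt_of_lt_of_le hj3 hm⟩, hj4⟩⟩
  refine ⟨B, H.loc hs hB ?_, Forc.of_all fun h _ _ k => ?_⟩
  · by_contra hcon
    push Not at hcon
    obtain ⟨s', hs', hnot⟩ := hcon
    have h1 : X.le s' p₀ := X.trans hs' hs
    have hA : Pos X Fo s' fun h n => !(B h n) := by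
      refine ⟨ms_neg hB, fun s'' y' hs'' hy' => ?_⟩
      have h2 : X.le s'' p₀ := X.trans hs'' h1
      have hd : Dec X fun h => ∃ n, (!(B h n)) = true ∧ y' h n = true :=
        Dec.ex fun n => (dec_tt (ms_neg hB) n).and (dec_tt (H.ms h2 hy') n)
      by_contra hn
      obtain ⟨s₃, hs₃, h3⟩ := hd.neg hn
      refine hnot s₃ (X.trans hs₃ hs'') (H.up (X.trans hs₃ h2) (H.mono h2 hs₃ hy') hB
        (h3.imp fun h _ _ h4 => ⟨0, fun n _ h5 => ?_⟩))
      by_contra h6
      exact h4 ⟨n, by simpa using h6, h5⟩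
    refine Forc.not_false (X.left hs') ((hmeet s' _ hs' hA).imp ?_)
    rintro h - - ⟨j, hj1, hj2⟩
    rw [hj2] at hj1
    exact absurd hj1 (by decide)
  · refine ⟨∑ n ∈ Finset.range k, g h n, fun j hj hBj => ?_⟩
    obtain ⟨n, ⟨-, hn2⟩, hn3⟩ := (hBφ h j).1 hBj
    refine hn3 k ?_
    by_contra hk
    have h1 : g h n ≤ ∑ n ∈ Finset.range k, g h n :=
      Finset.single_le_sum (f := fun n => g h n) (fun _ _ => Nat.zero_le _)
        (Finset.mem_range.2 (by omega))
    omega

end Pool.Agent.MF45
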