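import Pool.Agent.MF45.FinA

/-!
# Names of filters whose coideal is Menger: the filter is not meager

Paper proof.  Let `J 0 = 0` and `J (l + 1) > J l` with `g (J l) ≤ J (l + 1)`.  Apply `menger` to
`W h n m a` : at least `n + 1` of the intervals `[J l, J (l + 1))` meet `a`
(it does not depend on `h`).
Positive sets are infinite (`pos_inf`), so the hypothesis holds; we get `g'`, and by `hB` there are
`s₁ ≤ s` and `G` such that `s₁` forces `g' h n ≤ G n`.  Choose `l 0 < l 1 < ...` with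
`G n ≤ J (l k)` for all `n ≤ k`, and let `A₀` be the union of the intervals `[J (l k), J (l k + 1))`
(a set of the ground model).  For `m ≤ G n` only the intervals with `k < n` meet
`fs A₀ m`, so at most `n`.  Hence `A₀` is not positive below `s₁` (otherwise `s₁` forces a false
statement), so there are `s₂ ≤ s₁` and `y'` with `Fo s₂ y'`, and (`Dec.neg`) `s' ≤ s₂` which
forces that `y'` is disjoint from `A₀`.  For `m = J (l k)` the interval `[m, g m)` is contained in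
`[J (l k), J (l k + 1))`.
-/

namespace Pool.Agent.MF45

universe u

variable {P : Type u} {X : Pst P} {p₀ : P} {Fo : P → (Set P → ℕ → Bool) → Prop}

/-- the cut points of the intervals -/
private def fbJ (g : ℕ → ℕ) : ℕ → ℕ
  | 0 => 0
  | l + 1 => max (fbJ g l + 1) (g (fbJ g l))

private theorem fbJ_lt (g : ℕ → ℕ) (l : ℕ) : fbJ g l < fbJ g (l + 1) := by
  have h : fbJ g (l + 1) = max (fbJ g l + 1) (g (fbJ g l)) := rfl
  rw [h]
  exact lt_of_lt_of_le (Nat.lt_succ_self _) (le_max_left _ _)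

private theorem fbJ_g (g : ℕ → ℕ) (l : ℕ) : g (fbJ g l) ≤ fbJ g (l + 1) := by
  have h : fbJ g (l + 1) = max (fbJ g l + 1) (g (fbJ g l)) := rfl
  rw [h]
  exact le_max_right _ _

private theorem fbJ_mono (g : ℕ → ℕ) : StrictMono (fbJ g) := strictMono_nat_of_lt_succ (fbJ_lt g)

private theorem fbJ_index (g : ℕ → ℕ) (j : ℕ) : ∃ l, fbJ g l ≤ j ∧ j < fbJ g (l + 1) := by
  classical
  have hex : ∃ k, j < fbJ g k :=
    ⟨j + 1, lt_of_lt_of_le (Nat.lt_succ_self j) ((fbJ_mono g).le_apply)⟩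
  have h1 := Nat.find_spec hex
  have h2 : Nat.find hex ≠ 0 := by
    intro h0
    rw [h0] at h1
    have h3 : fbJ g 0 = 0 := rfl
    omega
  obtain ⟨l, hl⟩ := Nat.exists_eq_succ_of_ne_zero h2
  refine ⟨l, ?_, ?_⟩
  · by_contra h3
    have h4 := Nat.find_min hex (m := l) (by omega)
    exact h4 (not_le.1 h3)
  · rw [hl] at h1
    exact h1

private theorem fbJ_unique (g : ℕ → ℕ) {j a b : ℕ} (h1 : fbJ g a ≤ j) (h2 : j < fbJ g (a + 1))
    (h3 : fbJ g b ≤ j) (h4 : j < fbJ g (b + 1)) : a = b := by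
  have h5 : a < b + 1 := (fbJ_mono g).lt_iff_lt.1 (lt_of_le_of_lt h1 h4)
  have h6 : b < a + 1 := (fbJ_mono g).lt_iff_lt.1 (lt_of_le_of_lt h3 h2)
  omega

private theorem fb_many (g : ℕ → ℕ) {y : ℕ → Bool} (hy : ∀ N, ∃ n, N ≤ n ∧ y n = true) (c : ℕ) :
    ∃ (m : ℕ) (L : Finset ℕ), L.card = c ∧
      ∀ l ∈ L, ∃ j ∈ fs y m, fbJ g l ≤ j ∧ j < fbJ g (l + 1) := by
  classical
  induction c with
  | zero => exact ⟨0, ∅, rfl, fun l hl => absurd hl (Finset.notMem_empty l)⟩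
  | succ c ih =>
    obtain ⟨m, L, hL, h⟩ := ih
    obtain ⟨j, hj1, hj2⟩ := hy (fbJ g (L.sup id + 1))
    obtain ⟨l, hl1, hl2⟩ := fbJ_index g j
    have hlL : l ∉ L := by
      intro hc
      have h1 : l ≤ L.sup id := Finset.le_sup (f := id) hc
      have h2 : fbJ g (l + 1) ≤ fbJ g (L.sup id + 1) := (fbJ_mono g).monotone (by omega)
      omega
    refine ⟨max m (j + 1), insert l L, by rw [Finset.card_insert_of_notMem hlL, hL], ?_⟩
    intro k hk
    rcases Finset.mem_insert.1 hk with hk | hk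
    · subst hk
      refine ⟨j, ?_, hl1, hl2⟩
      rw [fs, Finset.mem_filter, Finset.mem_range]
      exact ⟨lt_of_lt_of_le (Nat.lt_succ_self j) (le_max_right _ _), hj2⟩
    · obtain ⟨i, hi, hi1, hi2⟩ := h k hk
      refine ⟨i, ?_, hi1, hi2⟩
      rw [fs, Finset.mem_filter, Finset.mem_range] at hi ⊢
      exact ⟨lt_of_lt_of_le hi.1 (le_max_left _ _), hi.2⟩

theorem FoM.gap (H : FoM X p₀ Fo)
    (hB : ∀ f : Set P → ℕ → ℕ, Ms X f → ∀ p, X.le p p → ∃ q, X.le q p ∧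
      ∃ F : ℕ → ℕ, Forc X q fun h => ∀ n, f h n ≤ F n) {s : P} (hs : X.le s p₀) (g : ℕ → ℕ) :
    ∃ s', X.le s' s ∧ ∃ y : Set P → ℕ → Bool, Fo s' y ∧
      Forc X s' fun h => ∀ N, ∃ m, N ≤ m ∧ ∀ n, m ≤ n → n < g m → y h n = false := by
  classical
  have hss : X.le s s := X.left hs
  obtain ⟨g', hg', hW⟩ := H.menger
    (fun _ n _ a => ∃ L : Finset ℕ, L.card = n + 1 ∧
      ∀ l ∈ L, ∃ j ∈ a, fbJ g l ≤ j ∧ j < fbJ g (l + 1))
    (fun n m a => Dec.const _) s hs (by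
      intro s' y hs' hy
      refine (H.pos_inf (X.trans hs' hs) hy).imp ?_
      intro h _ _ h1 n
      obtain ⟨m, L, h2, h3⟩ := fb_many g h1 (n + 1)
      exact ⟨m, L, h2, h3⟩)
  obtain ⟨s₁, hs₁, G, hG⟩ := hB g' hg' s hss
  obtain ⟨lk, hlk⟩ : ∃ lk : ℕ → ℕ, lk = fun k => ∑ n ∈ Finset.range (k + 1), (G n + 1) :=
    ⟨_, rfl⟩
  have hlkm : StrictMono lk := by
    refine strictMono_nat_of_lt_succ fun k => ?_
    rw [hlk]
    simp only
    rw [Finset.sum_range_succ _ (k + 1)]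
    omega
  have hlkG : ∀ n k, n ≤ k → G n ≤ fbJ g (lk k) := by
    intro n k hnk
    have h1 : G n + 1 ≤ lk k := by
      rw [hlk]
      exact Finset.single_le_sum (f := fun n => G n + 1) (fun _ _ => Nat.zero_le _)
        (Finset.mem_range.2 (by omega))
    have h2 : lk k ≤ fbJ g (lk k) := (fbJ_mono g).le_apply
    omega
  obtain ⟨A, hA⟩ : ∃ A : ℕ → Bool, ∀ j, A j = true ↔
      ∃ k, fbJ g (lk k) ≤ j ∧ j < fbJ g (lk k + 1) :=
    ⟨fun j => decide (∃ k, fbJ g (lk k) ≤ j ∧ j < fbJ g (lk k + 1)),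
      fun j => decide_eq_true_iff⟩
  have hnot : ¬ Pos X Fo s₁ (fun _ => A) := by
    intro hpos
    have h1 := (hW s₁ (fun _ => A) hs₁ hpos).and hG
    refine Forc.not_false (X.left hs₁) (h1.imp ?_)
    rintro h - - ⟨⟨n, m, hm, L, hL, h2⟩, h3⟩
    have h4 : m ≤ G n := hm.trans (h3 n)
    have h5 : L ⊆ (Finset.range n).image lk := by
      intro l hl
      obtain ⟨j, hj, hj1, hj2⟩ := h2 l hl
      rw [fs, Finset.mem_filter, Finset.mem_range] at hj
      obtain ⟨k, hk1, hk2⟩ := (hA j).1 hj.2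
      have h6 : l = lk k := fbJ_unique g hj1 hj2 hk1 hk2
      rw [Finset.mem_image]
      refine ⟨k, ?_, h6.symm⟩
      rw [Finset.mem_range]
      by_contra h7
      have h8 := hlkG n k (by omega)
      omega
    have h6 := Finset.card_le_card h5
    have h7 : ((Finset.range n).image lk).card ≤ n :=
      Finset.card_image_le.trans (Finset.card_range n).le
    omega
  have hex : ∃ (s₂ : P) (y' : Set P → ℕ → Bool), X.le s₂ s₁ ∧ Fo s₂ y' ∧
      ¬ Forc X s₂ fun h => ∃ n, A n = true ∧ y' h n = true := by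
    by_contra hcon
    push Not at hcon
    exact hnot ⟨Ms.const A, fun s' y' hs' hy' => hcon s' y' hs' hy'⟩
  obtain ⟨s₂, y', hs₂, hy', hn⟩ := hex
  have h2p : X.le s₂ p₀ := X.trans hs₂ (X.trans hs₁ hs)
  have hd : Dec X fun h => ∃ n, A n = true ∧ y' h n = true :=
    Dec.ex fun n => (Dec.const _).and (ms_countable.1 (ms_pi.1 (H.ms h2p hy') n) true)
  obtain ⟨s', hs', h3⟩ := hd.neg hn
  refine ⟨s', X.trans hs' (X.trans hs₂ hs₁), y', H.mono h2p hs' hy', h3.imp ?_⟩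
  intro h _ _ h4 N
  refine ⟨fbJ g (lk N), (hlkm.le_apply).trans (fbJ_mono g).le_apply, fun n h5 h6 => ?_⟩
  have h7 : A n = true := (hA n).2 ⟨N, h5, lt_of_lt_of_le h6 (fbJ_g g (lk N))⟩
  by_contra h8
  exact h4 ⟨n, h7, by simpa using h8⟩

end Pool.Agent.MF45
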