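import Pool.Agent.MF45.PsB
import Pool.Agent.MF45.Cz

/-!
# Iterations: definitions

`Raw ι P` is a set `P` of conditions: a condition `p` has a countable support `supp p ⊆ ι`, and
for each coordinate `i` a function `nm p i` of sets `h` of conditions, with codes as values, which
depends only on the trace of `h` on the conditions with support in `Iio i`.
-/

namespace Pool.Agent.MF45

universe u

open Set

/-- raw conditions -/
structure Raw (ι P : Type u) [LinearOrder ι] where
  /-- the support -/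
  supp : P → Set ι
  cnt : ∀ p, (supp p).Countable
  /-- the entries -/
  nm : P → ι → Set P → Cz
  dep : ∀ p i h, nm p i h = nm p i {q ∈ h | supp q ⊆ Iio i}
  cr : ∀ S : Set ι, S.Countable → ∀ x : ι → Set P → Cz,
    ∃ p, supp p = S ∧ ∀ i ∈ S, ∀ h, nm p i h = x i {q ∈ h | supp q ⊆ Iio i}
  ext : ∀ p q, supp p = supp q → (∀ i ∈ supp p, nm p i = nm q i) → p = q

section

variable {ι P : Type u} [LinearOrder ι] (R : Raw ι P)

namespace Raw

/-- the trace of a filter on the conditions with support below `i` -/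
def tr (i : ι) (h : Set P) : Set P := {q ∈ h | R.supp q ⊆ Iio i}

/-- the restriction of `p` to the coordinates below `i` -/
noncomputable def res (i : ι) (p : P) : P :=
  (R.cr (R.supp p ∩ Iio i) ((R.cnt p).mono inter_subset_left) (R.nm p)).choose

/-- `s` below `i` and `p` from `i` on -/
noncomputable def glue (i : ι) (s p : P) : P :=
  (R.cr ((R.supp s ∩ Iio i) ∪ (R.supp p ∩ Ici i))
    (((R.cnt s).mono inter_subset_left).union ((R.cnt p).mono inter_subset_left))
    (fun j => if j < i then R.nm s j else R.nm p j)).choose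

/-- `s` below `i`, then `x` at `i` and `p` above `i` -/
noncomputable def rep (i : ι) (s : P) (x : Set P → Cz) (p : P) : P :=
  (R.cr (((R.supp s ∩ Iio i) ∪ {i}) ∪ (R.supp p ∩ Ioi i))
    ((((R.cnt s).mono inter_subset_left).union (countable_singleton i)).union
      ((R.cnt p).mono inter_subset_left))
    (fun j => if j < i then R.nm s j else if j = i then x else R.nm p j)).choose

/-- the empty condition -/
noncomputable def one : P := (R.cr ∅ countable_empty (fun _ _ => topc)).choose

/-- the entry of `p` at `i`, made total -/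
noncomputable def cv (p : P) (i : ι) (h : Set P) : Cz :=
  open Classical in if i ∈ R.supp p ∧ WF (R.nm p i h) then R.nm p i h else topc

/-- the set `A` of the entry of `p` at `i` -/
noncomputable def cva (p : P) (i : ι) (h : Set P) (n : ℕ) : Bool := (R.cv p i h n).a

/-- `p` is a condition of the stage `i` -/
def Mem (X : ι → Pst P) (Fo : ι → P → (Set P → ℕ → Bool) → Prop) (i : ι) (p : P) : Prop :=
  R.supp p ⊆ Iio i ∧ ∀ j ∈ R.supp p, Ms (X j) (R.nm p j) ∧ Fo j (R.res j p) (R.cva p j)

end Raw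

end

/-- the axioms for a name of a filter of subsets of `ℕ`, which is a nonmeager P-filter or
improper -/
structure FoAx {P : Type u} (X : Pst P) (Fo : P → (Set P → ℕ → Bool) → Prop) : Prop where
  ms : ∀ {s : P} {y : Set P → ℕ → Bool}, Fo s y → Ms X y
  univ : ∀ s, Fo s fun _ _ => true
  mono : ∀ {s s' : P} {y : Set P → ℕ → Bool}, X.le s' s → Fo s y → Fo s' y
  loc : ∀ {s : P} {y : Set P → ℕ → Bool}, Ms X y →
    (∀ s', X.le s' s → ∃ s'', X.le s'' s' ∧ Fo s'' y) → Fo s y
  up : ∀ {s : P} {y y' : Set P → ℕ → Bool}, Fo s y → Ms X y' →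
    Forc X s (fun h => ∃ N, ∀ n, N ≤ n → y h n = true → y' h n = true) → Fo s y'
  pseudo : ∀ {s : P} {y : ℕ → Set P → ℕ → Bool}, (∀ k, Fo s (y k)) →
    ∃ y' : Set P → ℕ → Bool, Fo s y' ∧
    Forc X s fun h => ∀ k, ∃ N, ∀ n, N ≤ n → y' h n = true → y k h n = true
  gap : ∀ (s : P) {g : Set P → ℕ → ℕ}, Ms X g → ∃ y : Set P → ℕ → Bool, Fo s y ∧
    Forc X s fun h => ∀ N, ∃ m, N ≤ m ∧ ∀ n, m ≤ n → n < g h m → y h n = false

/-- an iteration -/
structure Itn {ι P : Type u} [LinearOrder ι] (R : Raw ι P) where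
  /-- the stages -/
  X : ι → Pst P
  /-- the filters -/
  Fo : ι → P → (Set P → ℕ → Bool) → Prop
  ax : ∀ j, FoAx (X j) (Fo j)
  le_iff : ∀ {i : ι} {q p : P}, (X i).le q p ↔ R.Mem X Fo i q ∧ R.Mem X Fo i p ∧
    ∀ j ∈ R.supp p, Forc (X j) (R.res j q) fun h => Pt (R.cv q j h) ⊆ Pt (R.cv p j h)

/-- `p` is a condition of the stage `i` -/
def Itn.M {ι P : Type u} [LinearOrder ι] {R : Raw ι P} (T : Itn R) (i : ι) (p : P) : Prop :=
  R.Mem T.X T.Fo i p

end Pool.Agent.MF45
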