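import Pool.Agent.MF45.PsC
import Pool.Agent.MF45.Itn

/-!
# The filter given by a label

A label is a set `L` of pairs `(t, Y)`.  `fo0 X L s y` says that `s` forces that `y` almost
contains `Y` for some `(t, Y)` in `L` with `t` in the generic filter.

Paper proof of `foAx_foL`.  `ms`, `mono`, `loc` are immediate.  `fo0` is local and monotone, and
upwards closed as in `up`; `good` is open.  If `good s` then `FoL s y` iff `fo0 s y`: densely below
`s` some `s''` satisfies `good s'' ∧ fo0 s'' y`, since the second alternative is impossible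
below `s`.  If no extension of `s` is good, then `FoL s y` for all names `y`.  For `univ`, `pseudo`
and `gap` note that the `s''` which are good or have no good extension are dense, and use
`exists_full` (for the property `Ψ s y'`: `FoL s y'` and `s` forces the statement about `y'`); on
a good `s''` use the clauses of `good`, and otherwise take `y' = fun _ _ => false`.
-/

namespace Pool.Agent.MF45

universe u

variable {P : Type u}

/-- `y` is in the filter generated by the label `L` -/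
def fo0 (X : Pst P) (L : Set (P × (Set P → ℕ → Bool))) (s : P) (y : Set P → ℕ → Bool) : Prop :=
  Ms X y ∧ ∀ s', X.le s' s → ∃ s'', X.le s'' s' ∧ ∃ t ∈ L, X.le s'' t.1 ∧
    Forc X s'' fun h => ∃ N, ∀ n, N ≤ n → t.2 h n = true → y h n = true

/-- below `s` the label `L` gives a nonmeager P-filter -/
def good (X : Pst P) (L : Set (P × (Set P → ℕ → Bool))) (s : P) : Prop :=
  ∀ s', X.le s' s → fo0 X L s' (fun _ _ => true) ∧
    (∀ y : ℕ → Set P → ℕ → Bool, (∀ k, fo0 X L s' (y k)) →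
      ∃ y' : Set P → ℕ → Bool, fo0 X L s' y' ∧
        Forc X s' fun h => ∀ k, ∃ N, ∀ n, N ≤ n → y' h n = true → y k h n = true) ∧
    ∀ g : Set P → ℕ → ℕ, Ms X g → ∃ y : Set P → ℕ → Bool, fo0 X L s' y ∧
      Forc X s' fun h => ∀ N, ∃ m, N ≤ m ∧ ∀ n, m ≤ n → n < g h m → y h n = false

/-- the filter given by a label: it is improper where the label is not good -/
def FoL (X : Pst P) (L : Set (P × (Set P → ℕ → Bool))) (s : P) (y : Set P → ℕ → Bool) : Prop :=
  Ms X y ∧ ∀ s', X.le s' s → ∃ s'', X.le s'' s' ∧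
    ((good X L s'' ∧ fo0 X L s'' y) ∨ ∀ s₃, X.le s₃ s'' → ¬ good X L s₃)

private theorem fo0_mono {X : Pst P} {L : Set (P × (Set P → ℕ → Bool))} {s s' : P}
    {y : Set P → ℕ → Bool} (hs : X.le s' s) (h : fo0 X L s y) : fo0 X L s' y :=
  ⟨h.1, fun s₁ h1 => h.2 s₁ (X.trans h1 hs)⟩

private theorem fo0_loc {X : Pst P} {L : Set (P × (Set P → ℕ → Bool))} {s : P}
    {y : Set P → ℕ → Bool} (hy : Ms X y)
    (h : ∀ s', X.le s' s → ∃ s'', X.le s'' s' ∧ fo0 X L s'' y) : fo0 X L s y := by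
  refine ⟨hy, fun s' hs' => ?_⟩
  obtain ⟨s₁, h1, h2⟩ := h s' hs'
  obtain ⟨s₂, h3, h4⟩ := h2.2 s₁ (X.left h1)
  exact ⟨s₂, X.trans h3 h1, h4⟩

private theorem fo0_up {X : Pst P} {L : Set (P × (Set P → ℕ → Bool))} {s : P}
    {y y' : Set P → ℕ → Bool} (h : fo0 X L s y) (hy : Ms X y')
    (hf : Forc X s fun h => ∃ N, ∀ n, N ≤ n → y h n = true → y' h n = true) :
    fo0 X L s y' := by
  refine ⟨hy, fun s' hs' => ?_⟩
  obtain ⟨s₁, h1, t, ht, h2, h3⟩ := h.2 s' hs'
  refine ⟨s₁, h1, t, ht, h2, (h3.and (hf.mono (X.trans h1 hs'))).imp ?_⟩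
  rintro k - - ⟨⟨N, hN⟩, M, hM⟩
  exact ⟨max N M, fun n hn htn => hM n ((le_max_right _ _).trans hn)
    (hN n ((le_max_left _ _).trans hn) htn)⟩

private theorem good_mono {X : Pst P} {L : Set (P × (Set P → ℕ → Bool))} {s s' : P}
    (hs : X.le s' s) (h : good X L s) : good X L s' :=
  fun s₁ h1 => h s₁ (X.trans h1 hs)

theorem foL_iff {X : Pst P} {L : Set (P × (Set P → ℕ → Bool))} {s : P}
    (hs : good X L s) {y : Set P → ℕ → Bool} : FoL X L s y ↔ fo0 X L s y := by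
  constructor
  · intro h
    refine fo0_loc h.1 fun s' hs' => ?_
    obtain ⟨s₁, h1, h2 | h2⟩ := h.2 s' hs'
    · exact ⟨s₁, h1, h2.2⟩
    · exact absurd (good_mono (X.trans h1 hs') hs) (h2 s₁ (X.left h1))
  · intro h
    exact ⟨h.1, fun s' hs' => ⟨s', X.left hs', Or.inl ⟨good_mono hs' hs, fo0_mono hs' h⟩⟩⟩

private theorem foL_mono {X : Pst P} {L : Set (P × (Set P → ℕ → Bool))} {s s' : P}
    {y : Set P → ℕ → Bool} (hs : X.le s' s) (h : FoL X L s y) : FoL X L s' y :=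
  ⟨h.1, fun s₁ h1 => h.2 s₁ (X.trans h1 hs)⟩

private theorem foL_loc {X : Pst P} {L : Set (P × (Set P → ℕ → Bool))} {s : P}
    {y : Set P → ℕ → Bool} (hy : Ms X y)
    (h : ∀ s', X.le s' s → ∃ s'', X.le s'' s' ∧ FoL X L s'' y) : FoL X L s y := by
  refine ⟨hy, fun s' hs' => ?_⟩
  obtain ⟨s₁, h1, h2⟩ := h s' hs'
  obtain ⟨s₂, h3, h4⟩ := h2.2 s₁ (X.left h1)
  exact ⟨s₂, X.trans h3 h1, h4⟩

private theorem foL_up {X : Pst P} {L : Set (P × (Set P → ℕ → Bool))} {s : P}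
    {y y' : Set P → ℕ → Bool} (h : FoL X L s y) (hy : Ms X y')
    (hf : Forc X s fun h => ∃ N, ∀ n, N ≤ n → y h n = true → y' h n = true) :
    FoL X L s y' := by
  refine ⟨hy, fun s' hs' => ?_⟩
  obtain ⟨s₁, h1, h2 | h2⟩ := h.2 s' hs'
  · exact ⟨s₁, h1, Or.inl ⟨h2.1, fo0_up h2.2 hy (hf.mono (X.trans h1 hs'))⟩⟩
  · exact ⟨s₁, h1, Or.inr h2⟩

private theorem foL_of_not {X : Pst P} {L : Set (P × (Set P → ℕ → Bool))} {s : P}
    (hs : ¬ ∃ s', X.le s' s ∧ good X L s') {y : Set P → ℕ → Bool} (hy : Ms X y) :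
    FoL X L s y :=
  ⟨hy, fun s' hs' => ⟨s', X.left hs', Or.inr fun s₃ h3 hg => hs ⟨s₃, X.trans h3 hs', hg⟩⟩⟩

/-- the filter contains a name with a property which is forced -/
private theorem foL_full {X : Pst P} {L : Set (P × (Set P → ℕ → Bool))} {s : P}
    {φ : (ℕ → Bool) → Set P → Prop}
    (h0 : ∀ h, φ (fun _ => false) h)
    (h : ∀ s', X.le s' s → good X L s' →
      ∃ x : Set P → ℕ → Bool, fo0 X L s' x ∧ Forc X s' fun h => φ (x h) h) :
    ∃ x : Set P → ℕ → Bool, FoL X L s x ∧ Forc X s fun h => φ (x h) h := by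
  obtain ⟨x, -, h1⟩ := exists_full (X := X) (α := ℕ → Bool)
    (Ψ := fun s x => FoL X L s x ∧ Forc X s fun h => φ (x h) h) (s := s)
    (fun s s' x hs hx => ⟨foL_mono hs hx.1, hx.2.mono hs⟩)
    (fun s x x' hx' he hx => ⟨foL_up hx.1 hx' (he.imp fun k _ _ hk => ⟨0, fun n _ hn => by
      rw [hk]; exact hn⟩), (hx.2.and he).imp fun k _ _ hk => by
      rw [hk.2]; exact hk.1⟩)
    (fun s x hx hl => ⟨foL_loc hx fun s' hs' => by
        obtain ⟨s₁, h1, h2⟩ := hl s' hs'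
        exact ⟨s₁, h1, h2.1⟩, Forc.loc fun s' hs' => by
        obtain ⟨s₁, h1, h2⟩ := hl s' hs'
        exact ⟨s₁, h1, h2.2⟩⟩)
    (fun s' hs' => by
      by_cases H : ∃ s₁, X.le s₁ s' ∧ good X L s₁
      · obtain ⟨s₁, h1, h2⟩ := H
        obtain ⟨x, hx1, hx2⟩ := h s₁ (X.trans h1 hs') h2
        exact ⟨s₁, h1, x, hx1.1, (foL_iff h2).2 hx1, hx2⟩
      · exact ⟨s', X.left hs', fun _ _ => false, Ms.const _, foL_of_not H (Ms.const _),
          Forc.of_all fun k _ _ => h0 k⟩)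
  exact ⟨x, h1⟩

theorem foAx_foL (X : Pst P) (L : Set (P × (Set P → ℕ → Bool))) : FoAx X (FoL X L) where
  ms h := h.1
  univ s := by
    refine ⟨Ms.const _, fun s' hs' => ?_⟩
    by_cases H : ∃ s₁, X.le s₁ s' ∧ good X L s₁
    · obtain ⟨s₁, h1, h2⟩ := H
      exact ⟨s₁, h1, Or.inl ⟨h2, (h2 s₁ (X.left h1)).1⟩⟩
    · exact ⟨s', X.left hs', Or.inr fun s₃ h3 hg => H ⟨s₃, h3, hg⟩⟩
  mono := foL_mono
  loc := foL_loc
  up := foL_up
  pseudo := by
    intro s y hy
    exact foL_full (φ := fun x h => ∀ k, ∃ N, ∀ n, N ≤ n → x n = true → y k h n = true)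
      (fun h k => ⟨0, fun n _ hn => by simp at hn⟩)
      (fun s' hs' hg => (hg s' (X.left hs')).2.1 y fun k => (foL_iff hg).1 (foL_mono hs' (hy k)))
  gap := by
    intro s g hg
    exact foL_full (φ := fun x h => ∀ N, ∃ m, N ≤ m ∧ ∀ n, m ≤ n → n < g h m → x n = false)
      (fun h N => ⟨N, le_rfl, fun n _ _ => rfl⟩)
      (fun s' hs' hgd => (hgd s' (X.left hs')).2.2 g hg)

end Pool.Agent.MF45
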