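import Pool.Agent.MF45.RefC
import Pool.Agent.MF45.LabA

/-!
# The label of a reflecting stage is good at later stages

Paper proof.  Write `X = T.X δ`, `ℓ = lab T p₀ Fo i`; `p₀` is a condition of the stage `i ≤ δ`.  Let
`s ≤ p₀` at the stage `δ` (so also at the stage `⊤`, `le_mono`).
`fo0 X ℓ s univ`: `(p₀, fun _ _ => true) ∈ ℓ` (`Refl.mem`, `FoM.univ`).
Second clause: let `fo0 X ℓ s (y n)` for all `n`.  By `exists_full` it suffices that for each
`s' ≤ s` there are `s'' ≤ s'` and a name `y'` with `fo0 X ℓ s'' y'` such that `s''` forces that `y'`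
is almost contained in all `y n`.  Let `D n` be the set of all `a` of the stage `δ` which are
incompatible with `s'` or for which there is `(t, Y) ∈ ℓ` with `a ≤ t` such that `a` forces that `Y`
is almost contained in `y n`; it is dense.  Let `N` be good with `δ ∈ N.o`, `s' ∈ N.c`,
`D n ∈ N.d`, and `q ≤ s'` generic for `δ` (`exists_gen`).  Choose a countable `C ⊆ ℓ` which
contains for each `n` and `a ∈ D n ∩ N.c` compatible with `s'` a pair `(t, Y)` as above.  For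
`c = (t, Y) ∈ C` let `Z c h = Y h` if `t ∈ h`, and `fun _ => true` otherwise.  By `Refl.uc` there is
one `k < i` such that `t` is a condition and `Y`, `Z c` are names at the stage `k`, for all
`c ∈ C`, and `res i q` is a condition of the stage `k`.  `Fo p₀ (Z c)` by `FoM.loc`: a condition
`s₁ ≤ p₀` compatible with `t` has an extension `s₂ ≤ t`, `Fo s₂ Y` and `FoM.up`; otherwise `s₁`
forces `t ∉ h`, `FoM.univ` and `FoM.up`.  Apply `Refl.ps` to `res i q ≤ p₀` and the (enumerated)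
names `Z c`; this gives `k' < i`, `t' ≤ res i q` and `B` with `(t', B) ∈ ℓ`.  Let
`s'' = glue i t' q`.  Then `s'' ≤ q ≤ s'`, `s'' ≤ t'`, so `fo0 X ℓ s'' B`.  `s''` forces at the
stage `δ` that `B` is almost contained in all `Z c` (`forc_down` from `⊤` to `δ` for `t'`), and that
for each `n` there is `a ∈ h ∩ D n ∩ N.c`; `a` is compatible with `s' ∈ h`, so there is
`(t, Y) ∈ C` with `t ∈ h` and `Y h` almost contained in `y n h`.
Third clause: by `exists_full` and `Itn.bd` for `δ` we may assume that `s' ≤ s` forces `g h m ≤ F m`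
for a function `F`; apply `Refl.gp` to `res i s'` and `F` and glue.
-/

namespace Pool.Agent.MF45

open Set

variable {P : Type 1} {R : Raw (WithTop Ordinal.{0}) P} (T : Itn R)

/-- `Y` is almost contained in `y` -/
private def Alm (Y y : Set P → ℕ → Bool) (h : Set P) : Prop :=
  ∃ N, ∀ n, N ≤ n → Y h n = true → y h n = true

private theorem fd_dec_alm {X : Pst P} {Y y : Set P → ℕ → Bool} (hY : Ms X Y) (hy : Ms X y) :
    Dec X (Alm Y y) :=
  Dec.ex fun _ => Dec.all fun n => (Dec.const _).imp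
    (((ms_countable.1 (ms_pi.1 hY n)) true).imp ((ms_countable.1 (ms_pi.1 hy n)) true))

private theorem fd_mono {X : Pst P} {L : Set (P × (Set P → ℕ → Bool))} {s s' : P}
    {y : Set P → ℕ → Bool} (hs : X.le s' s) (h : fo0 X L s y) : fo0 X L s' y :=
  ⟨h.1, fun s₁ h1 => h.2 s₁ (X.trans h1 hs)⟩

private theorem fd_loc {X : Pst P} {L : Set (P × (Set P → ℕ → Bool))} {s : P}
    {y : Set P → ℕ → Bool} (hy : Ms X y)
    (h : ∀ s', X.le s' s → ∃ s'', X.le s'' s' ∧ fo0 X L s'' y) : fo0 X L s y := by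
  refine ⟨hy, fun s' hs' => ?_⟩
  obtain ⟨s₁, h1, h2⟩ := h s' hs'
  obtain ⟨s₂, h3, h4⟩ := h2.2 s₁ (X.left h1)
  exact ⟨s₂, X.trans h3 h1, h4⟩

private theorem fd_up {X : Pst P} {L : Set (P × (Set P → ℕ → Bool))} {s : P}
    {y y' : Set P → ℕ → Bool} (h : fo0 X L s y) (hy : Ms X y')
    (hf : Forc X s fun h => y' h = y h) :
    fo0 X L s y' := by
  refine ⟨hy, fun s' hs' => ?_⟩
  obtain ⟨s₁, h1, t, ht, h2, h3⟩ := h.2 s' hs'
  refine ⟨s₁, h1, t, ht, h2, (h3.and (hf.mono (X.trans h1 hs'))).imp ?_⟩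
  rintro k - - ⟨⟨N, hN⟩, hM⟩
  exact ⟨N, fun n hn htn => by rw [hM]; exact hN n hn htn⟩

/-- a name with a property, from densely many names -/
private theorem fd_full {X : Pst P} {L : Set (P × (Set P → ℕ → Bool))} {s : P}
    {φ : (ℕ → Bool) → Set P → Prop}
    (h : ∀ s', X.le s' s → ∃ s'', X.le s'' s' ∧
      ∃ x : Set P → ℕ → Bool, fo0 X L s'' x ∧ Forc X s'' fun h => φ (x h) h) :
    ∃ x : Set P → ℕ → Bool, fo0 X L s x ∧ Forc X s fun h => φ (x h) h := by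
  obtain ⟨x, -, h1⟩ := exists_full (X := X) (α := ℕ → Bool)
    (Ψ := fun s x => fo0 X L s x ∧ Forc X s fun h => φ (x h) h) (s := s)
    (fun s s' x hs hx => ⟨fd_mono hs hx.1, hx.2.mono hs⟩)
    (fun s x x' hx' he hx => ⟨fd_up hx.1 hx' he, (hx.2.and he).imp fun k _ _ hk => by
      rw [hk.2]; exact hk.1⟩)
    (fun s x hx hl => ⟨fd_loc hx fun s' hs' => by
        obtain ⟨s₁, h1, h2⟩ := hl s' hs'
        exact ⟨s₁, h1, h2.1⟩, Forc.loc fun s' hs' => by
        obtain ⟨s₁, h1, h2⟩ := hl s' hs'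
        exact ⟨s₁, h1, h2.2⟩⟩)
    (fun s' hs' => by
      obtain ⟨s₁, h1, x, hx1, hx2⟩ := h s' hs'
      exact ⟨s₁, h1, x, hx1.1, hx1, hx2⟩)
  exact ⟨x, h1⟩

private theorem fd_nam_mono {k k' : WithTop Ordinal.{0}} (hk : k ≤ k') {y : Set P → ℕ → Bool}
    (hy : T.Nam k y) : T.Nam k' y := by
  refine ⟨?_, fun h => ?_⟩
  · have h1 := T.ms_up hk hy.1
    have h2 : (fun h => y (R.tr k h)) = y := funext hy.2
    rwa [h2] at h1
  · rw [← hy.2 (R.tr k' h), R.tr_tr_of_le hk, hy.2]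

/-- the name which is `Y` if `t` is in the filter -/
private noncomputable def Zn (c : P × (Set P → ℕ → Bool)) (h : Set P) : ℕ → Bool :=
  open Classical in if c.1 ∈ h then c.2 h else fun _ => true

private theorem fd_zn {k : WithTop Ordinal.{0}} {c : P × (Set P → ℕ → Bool)} (h1 : T.M k c.1)
    (h2 : T.Nam k c.2) : T.Nam k (Zn c) := by
  refine ⟨Ms.ite (Dec.mem c.1) h2.1 (Ms.const _), fun h => ?_⟩
  have h3 : c.1 ∈ R.tr k h ↔ c.1 ∈ h := ⟨fun h4 => h4.1, fun h4 => ⟨h4, T.M_supp h1⟩⟩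
  unfold Zn
  rw [h2.2]
  by_cases h4 : c.1 ∈ h
  · rw [if_pos h4, if_pos (h3.2 h4)]
  · rw [if_neg h4, if_neg fun h5 => h4 (h3.1 h5)]

private theorem fd_fo_zn {p₀ : P} {Fo : P → (Set P → ℕ → Bool) → Prop} (hp : T.M ⊤ p₀)
    (H : FoM (T.X ⊤) p₀ Fo) {k : WithTop Ordinal.{0}} {c : P × (Set P → ℕ → Bool)}
    (h1 : T.M k c.1) (h2 : T.Nam k c.2) (h3 : (T.X ⊤).le c.1 p₀) (h4 : Fo c.1 c.2) :
    Fo p₀ (Zn c) := by
  have hpp := T.le_self.2 hp
  have hZ : Ms (T.X ⊤) (Zn c) := (fd_nam_mono T le_top (fd_zn T h1 h2)).1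
  refine H.loc hpp hZ fun s₁ hs₁ => ?_
  by_cases hc : Comp (T.X ⊤) s₁ c.1
  · obtain ⟨r, hr1, hr2⟩ := hc
    refine ⟨r, hr1, H.up ((T.X ⊤).trans hr2 h3) (H.mono h3 hr2 h4) hZ ?_⟩
    refine (Forc.mem_of_le hr2).imp fun h _ _ h5 => ⟨0, fun n _ hn => ?_⟩
    unfold Zn
    rw [if_pos h5]
    exact hn
  · have hs₁' := (T.X ⊤).left hs₁
    refine ⟨s₁, hs₁', H.up hs₁ (H.univ hs₁) hZ ?_⟩
    refine (Forc.not_mem hc).imp fun h _ _ h5 => ⟨0, fun n _ hn => ?_⟩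
    unfold Zn
    rw [if_neg h5]

/-- gluing a condition in the label to a condition of a later stage -/
private theorem fd_glue {p₀ : P} {Fo : P → (Set P → ℕ → Bool) → Prop}
    {i δ : Ordinal.{0}} (hδ : i ≤ δ) {q s t : P} (hq : (T.X δ).le q s)
    {k' : Ordinal.{0}} (hk' : k' < i) (ht : T.M k' t) (htq : (T.X ⊤).le t (R.res i q))
    (hqp : (T.X ⊤).le (R.res i q) p₀)
    {B : Set P → ℕ → Bool} (hB : T.Nam k' B) (hF : Fo t B) :
    ∃ s'', (T.X δ).le s'' q ∧ (T.X δ).le s'' t ∧ fo0 (T.X δ) (lab T p₀ Fo i) s'' B := by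
  have hδ' : (i : WithTop Ordinal.{0}) ≤ δ := WithTop.coe_le_coe.2 hδ
  have hk : (k' : WithTop Ordinal.{0}) ≤ i := (WithTop.coe_lt_coe.2 hk').le
  have hti : (T.X i).le t (R.res i q) := by
    refine T.le_of_supp htq ((T.M_supp ht).trans (Iio_subset_Iio hk)) ?_
    exact T.M_supp (T.M_res (T.M_left hq) i)
  have h1 := T.glue_le hδ' (T.M_left hq) hti
  have h2 : (T.X δ).le (R.glue i t q) t := by
    have h3 := T.le_res hδ' (T.M_left h1)
    rwa [T.res_glue hti] at h3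
  refine ⟨R.glue i t q, h1, h2, (fd_nam_mono T (hk.trans hδ') hB).1, fun s₁ hs₁ => ?_⟩
  refine ⟨s₁, (T.X δ).left hs₁, (t, B), ⟨k', hk', ht, (T.X ⊤).trans htq hqp, hB, hF⟩,
    (T.X δ).trans hs₁ h2, Forc.of_all fun h _ _ => ⟨0, fun n _ hn => hn⟩⟩

/-- what a condition of an earlier stage forces at the last stage about names of earlier stages -/
private theorem fd_down {δ : WithTop Ordinal.{0}} {s t : P} (ht : T.M δ t) (hs : (T.X δ).le s t)
    {φ : Set P → Prop} (hd : Dec (T.X δ) φ) (hφ : ∀ h, φ (R.tr δ h) ↔ φ h)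
    (h : Forc (T.X ⊤) t φ) : Forc (T.X δ) s φ := by
  have h1 : Forc (T.X δ) (R.res δ t) φ := T.forc_down le_top (T.M_mono le_top ht) hd
    (h.imp fun g _ _ hg => (hφ g).2 hg)
  rw [T.res_self ht] at h1
  exact h1.mono hs

private theorem fd_res_p {p₀ : P} {Fo : P → (Set P → ℕ → Bool) → Prop}
    {i : Ordinal.{0}} (hi : Refl T p₀ Fo i) {δ : Ordinal.{0}}
    {q : P} (hq : (T.X δ).le q p₀) : (T.X ⊤).le (R.res i q) p₀ := by
  obtain ⟨k, hk, hkp⟩ := hi.mem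
  have h1 : T.M i p₀ := T.M_mono (WithTop.coe_lt_coe.2 hk).le hkp
  have h2 := T.res_le hq i
  rw [T.res_self h1] at h2
  exact T.le_mono le_top h2

theorem good_lab {p₀ : P} {Fo : P → (Set P → ℕ → Bool) → Prop} (hp : T.M ⊤ p₀)
    (H : FoM (T.X ⊤) p₀ Fo) {i : Ordinal.{0}} (hi : Refl T p₀ Fo i) {δ : Ordinal.{0}}
    (hδ : i ≤ δ) : good (T.X δ) (lab T p₀ Fo i) p₀ := by
  classical
  have hδ' : (i : WithTop Ordinal.{0}) ≤ δ := WithTop.coe_le_coe.2 hδ
  have hmem : (p₀, fun _ _ => true) ∈ lab T p₀ Fo i := by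
    obtain ⟨k, hk, hkp⟩ := hi.mem
    exact ⟨k, hk, hkp, T.le_self.2 hp, ⟨Ms.const _, fun _ => rfl⟩, H.univ (T.le_self.2 hp)⟩
  intro s hs
  refine ⟨⟨Ms.const _, fun s' hs' => ⟨s', (T.X δ).left hs', _, hmem,
    (T.X δ).trans hs' hs, Forc.of_all fun h _ _ => ⟨0, fun _ _ _ => rfl⟩⟩⟩, ?_, ?_⟩
  · intro y hy
    refine fd_full (φ := fun x h => ∀ k, ∃ N, ∀ n, N ≤ n → x n = true → y k h n = true)
      fun s' hs' => ?_
    let D : ℕ → Set P := fun n => {a | ¬ Comp (T.X δ) a s' ∨ ∃ t ∈ lab T p₀ Fo i,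
      (T.X δ).le a t.1 ∧ Forc (T.X δ) a (Alm t.2 (y n))}
    have hD : ∀ n, Dns (T.X δ) (D n) := by
      intro n p hpp
      by_cases hc : Comp (T.X δ) p s'
      · obtain ⟨r, hr1, hr2⟩ := hc
        obtain ⟨r', hr', t, ht, h1, h2⟩ := (hy n).2 r ((T.X δ).trans hr2 hs')
        exact ⟨r', Or.inr ⟨t, ht, h1, h2⟩, (T.X δ).trans hr' hr1⟩
      · exact ⟨p, Or.inl hc, hpp⟩
    have : Nonempty (WithTop Ordinal.{0}) := ⟨⊤⟩
    obtain ⟨N, hN, ho, hc, hd⟩ := T.exists_good (fun _ _ => 0)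
      (o₀ := {(δ : WithTop Ordinal.{0})}) (countable_singleton _)
      (c₀ := {s'}) (countable_singleton _) (d₀ := Set.range D) (countable_range D)
    have hδN : (δ : WithTop Ordinal.{0}) ∈ N.o := ho rfl
    have hsN : s' ∈ N.c := hc rfl
    obtain ⟨q, hq, hqs⟩ := T.exists_gen hN hδN hsN (T.M_left hs')
    have hqp : (T.X δ).le q p₀ := (T.X δ).trans ((T.X δ).trans hqs hs') hs
    -- the choice of the pairs
    have hcx : ∀ n a, ∃ t ∈ lab T p₀ Fo i, a ∈ D n → Comp (T.X δ) a s' →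
        (T.X δ).le a t.1 ∧ Forc (T.X δ) a (Alm t.2 (y n)) := by
      intro n a
      by_cases h1 : ∃ t ∈ lab T p₀ Fo i, (T.X δ).le a t.1 ∧ Forc (T.X δ) a (Alm t.2 (y n))
      · obtain ⟨t, ht, h2⟩ := h1
        exact ⟨t, ht, fun _ _ => h2⟩
      · refine ⟨_, hmem, fun h2 h3 => ?_⟩
        rcases h2 with h2 | h2
        · exact absurd h3 h2
        · exact absurd h2 h1
    choose c hcl hcp using hcx
    obtain ⟨e, he⟩ := hN.cc.exists_eq_range ⟨s', hsN⟩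
    let cs : ℕ → P × (Set P → ℕ → Bool) := fun m => c m.unpair.1 (e m.unpair.2)
    have hcs : ∀ m, cs m ∈ lab T p₀ Fo i := fun m => hcl _ _
    choose km hkm hM hle hNam hFo using hcs
    obtain ⟨k, hk, hkS⟩ := hi.uc
      (Set.range (fun m => (km m : WithTop Ordinal.{0})) ∪ (R.supp q ∩ Iio (i : WithTop Ordinal.{0})))
      ((countable_range _).union ((R.cnt q).mono inter_subset_left))
      (by
        rintro x (⟨m, rfl⟩ | hx)
        · exact WithTop.coe_lt_coe.2 (hkm m)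
        · exact hx.2)
    have hkm' : ∀ m, (km m : WithTop Ordinal.{0}) ≤ k := fun m => (hkS (Or.inl ⟨m, rfl⟩)).le
    have hMk : T.M k (R.res i q) := by
      refine T.M_of_supp (T.M_res (T.M_left hqs) i) ?_
      rw [R.supp_res]
      exact fun x hx => hkS (Or.inr hx)
    have hrp := fd_res_p T hi hqp
    have hZk : ∀ m, T.Nam k (Zn (cs m)) := fun m =>
      fd_zn T (T.M_mono (hkm' m) (hM m)) (fd_nam_mono T (hkm' m) (hNam m))
    have hZF : ∀ m, Fo (R.res i q) (Zn (cs m)) := fun m =>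
      H.mono (T.le_self.2 hp) hrp (fd_fo_zn T hp H (hM m) (hNam m) (hle m) (hFo m))
    obtain ⟨k', hk', t', ht', htq, B, hB, hFB, hforc⟩ := hi.ps k hk _ hMk hrp _ hZk hZF
    obtain ⟨s'', h1, h2, h3⟩ := fd_glue T hδ hqs hk' ht' htq hrp hB hFB
    have hk'δ : (k' : WithTop Ordinal.{0}) ≤ δ := ((WithTop.coe_lt_coe.2 hk').le).trans hδ'
    have hkδ : (k : WithTop Ordinal.{0}) ≤ δ := ((WithTop.coe_lt_coe.2 hk).le).trans hδ'
    refine ⟨s'', (T.X δ).trans h1 hqs, B, h3, ?_⟩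
    have f1 : Forc (T.X δ) s'' fun h => ∀ m, Alm B (Zn (cs m)) h := by
      refine fd_down T (T.M_mono hk'δ ht') h2 ?_ ?_ (hforc.imp fun h _ _ hh => hh)
      · exact Dec.all fun m => fd_dec_alm (fd_nam_mono T hk'δ hB).1
          (fd_nam_mono T hkδ (hZk m)).1
      · intro h
        have e1 : B (R.tr δ h) = B h := (fd_nam_mono T hk'δ hB).2 h
        have e2 : ∀ m, Zn (cs m) (R.tr δ h) = Zn (cs m) h := fun m =>
          (fd_nam_mono T hkδ (hZk m)).2 h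
        simp only [Alm, e1, e2]
    have f2 : Forc (T.X δ) s'' fun h => ∀ n, ∃ a ∈ h, a ∈ D n ∧ a ∈ N.c :=
      Forc.all fun n => (hq.2 (D n) (hd ⟨n, rfl⟩) (hD n)).mono h1
    have f3 : Forc (T.X δ) s'' fun h => s' ∈ h := Forc.mem_of_le ((T.X δ).trans h1 hqs)
    have f4 : Forc (T.X δ) s'' fun h => ∀ (n j : ℕ), e j ∈ D n → Comp (T.X δ) (e j) s' →
        e j ∈ h → Alm (c n (e j)).2 (y n) h := by
      refine Forc.all fun n => Forc.all fun j => ?_
      by_cases h4 : e j ∈ D n ∧ Comp (T.X δ) (e j) s'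
      · exact (forc_imp_of (hcp n (e j) h4.1 h4.2).2).imp fun h _ _ h5 _ _ => h5
      · exact Forc.of_all fun h _ _ h5 h6 => absurd ⟨h5, h6⟩ h4
    refine (((f1.and f2).and f3).and f4).imp ?_
    rintro h hh - ⟨⟨⟨g1, g2⟩, g3⟩, g4⟩ n
    obtain ⟨a, ha, haD, haN⟩ := g2 n
    rw [he] at haN
    obtain ⟨j, rfl⟩ := haN
    obtain ⟨r, -, hr1, hr2⟩ := hh.dir ha g3
    have hcomp : Comp (T.X δ) (e j) s' := ⟨r, hr1, hr2⟩
    have h5 := (hcp n (e j) haD hcomp).1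
    have h6 : (c n (e j)).1 ∈ h := hh.up ha h5
    obtain ⟨N1, hN1⟩ := g4 n j haD hcomp ha
    obtain ⟨N2, hN2⟩ := g1 (Nat.pair n j)
    have h7 : cs (Nat.pair n j) = c n (e j) := by
      simp only [cs, Nat.unpair_pair]
    refine ⟨max N1 N2, fun m hm hBm => hN1 m ((le_max_left _ _).trans hm) ?_⟩
    have h8 := hN2 m ((le_max_right _ _).trans hm) hBm
    rw [h7] at h8
    unfold Zn at h8
    rw [if_pos h6] at h8
    exact h8
  · intro g hg
    refine fd_full (φ := fun x h => ∀ N, ∃ m, N ≤ m ∧ ∀ n, m ≤ n → n < g h m → x n = false)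
      fun s' hs' => ?_
    obtain ⟨q, hqs, F, hF⟩ := T.bd (δ : WithTop Ordinal.{0}) g hg s' (T.M_left hs')
    have hqp : (T.X δ).le q p₀ := (T.X δ).trans ((T.X δ).trans hqs hs') hs
    obtain ⟨k, hk, hkS⟩ := hi.uc (R.supp q ∩ Iio (i : WithTop Ordinal.{0}))
      ((R.cnt q).mono inter_subset_left) inter_subset_right
    have hMk : T.M k (R.res i q) := by
      refine T.M_of_supp (T.M_res (T.M_left hqs) i) ?_
      rw [R.supp_res]
      exact hkS
    have hrp := fd_res_p T hi hqp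
    obtain ⟨k', hk', t', ht', htq, B, hB, hFB, hforc⟩ := hi.gp k hk _ hMk hrp F
    obtain ⟨s'', h1, h2, h3⟩ := fd_glue T hδ hqs hk' ht' htq hrp hB hFB
    have hk'δ : (k' : WithTop Ordinal.{0}) ≤ δ := ((WithTop.coe_lt_coe.2 hk').le).trans hδ'
    refine ⟨s'', (T.X δ).trans h1 hqs, B, h3, ?_⟩
    have hBδ := fd_nam_mono T hk'δ hB
    have f1 : Forc (T.X δ) s'' fun h => ∀ N, ∃ m, N ≤ m ∧ ∀ n, m ≤ n → n < F m →
        B h n = false := by
      refine fd_down T (T.M_mono hk'δ ht') h2 ?_ ?_ hforc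
      · exact Dec.all fun N => Dec.ex fun m => (Dec.const _).and (Dec.all fun n =>
          (Dec.const _).imp ((Dec.const _).imp (ms_countable.1 (ms_pi.1 hBδ.1 n) false)))
      · intro h
        rw [hBδ.2 h]
    refine (f1.and (hF.mono h1)).imp ?_
    rintro h - - ⟨g1, g2⟩ N
    obtain ⟨m, hm, hm2⟩ := g1 N
    exact ⟨m, hm, fun n h4 h5 => hm2 n h4 (h5.trans_le (g2 m))⟩

/-- elements of the filter at the coordinate `δ` are in the filter `Fo` -/
theorem fo_of_lab {p₀ : P} {Fo : P → (Set P → ℕ → Bool) → Prop} (hp : T.M ⊤ p₀)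
    (H : FoM (T.X ⊤) p₀ Fo) {i : Ordinal.{0}} (hi : Refl T p₀ Fo i) {δ : Ordinal.{0}}
    (hδ : i ≤ δ) {s : P} (hs : (T.X ⊤).le s p₀) {y : Set P → ℕ → Bool}
    (hy : FoL (T.X δ) (lab T p₀ Fo i) (R.res δ s) y) : Fo s fun h => y (R.tr δ h) := by
  have hδ' : (i : WithTop Ordinal.{0}) ≤ δ := WithTop.coe_le_coe.2 hδ
  obtain ⟨k₀, hk₀, hkp⟩ := hi.mem
  have hpδ : T.M δ p₀ := T.M_mono (((WithTop.coe_lt_coe.2 hk₀).le).trans hδ') hkp
  have hsδ : (T.X δ).le (R.res δ s) p₀ := by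
    have h1 := T.res_le hs (δ : WithTop Ordinal.{0})
    rwa [T.res_self hpδ] at h1
  have hg : good (T.X δ) (lab T p₀ Fo i) (R.res δ s) := fun s₁ h1 =>
    good_lab T hp H hi hδ s₁ ((T.X δ).trans h1 hsδ)
  have hy0 := (foL_iff hg).1 hy
  have hms : Ms (T.X ⊤) fun h => y (R.tr δ h) := T.ms_up le_top hy0.1
  refine H.loc hs hms fun s₁ hs₁ => ?_
  obtain ⟨s'', h1, t, ht, h2, h3⟩ := hy0.2 _ (T.res_le hs₁ (δ : WithTop Ordinal.{0}))
  obtain ⟨k, hk, hkM, hkle, hkN, hkF⟩ := ht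
  have hkδ : (k : WithTop Ordinal.{0}) ≤ δ := ((WithTop.coe_lt_coe.2 hk).le).trans hδ'
  have g1 := T.glue_le (i := ⊤) le_top (T.M_left hs₁) h1
  have g2 : (T.X ⊤).le (R.glue δ s'' s₁) s'' := by
    have h4 := T.le_res (i := ⊤) (j := (δ : WithTop Ordinal.{0})) le_top (T.M_left g1)
    rwa [T.res_glue h1] at h4
  have g3 : (T.X ⊤).le (R.glue δ s'' s₁) t.1 := (T.X ⊤).trans g2 (T.le_mono le_top h2)
  refine ⟨R.glue δ s'' s₁, g1, H.up ((T.X ⊤).trans g3 hkle) (H.mono hkle g3 hkF) hms ?_⟩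
  have h5 : Forc (T.X ⊤) (R.glue δ s'' s₁) fun h => Alm t.2 y (R.tr δ h) := by
    refine T.forc_up' (φ := Alm t.2 y) le_top (T.M_left g1) ?_
    rw [T.res_glue h1]
    exact h3
  refine h5.imp ?_
  rintro h - - ⟨N, hN⟩
  refine ⟨N, fun n hn htn => hN n hn ?_⟩
  rw [(fd_nam_mono T hkδ hkN).2 h]
  exact htn

end Pool.Agent.MF45
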