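import Pool.Agent.MF45.PsB
import Pool.Agent.MF45.Cz

/-!
# Reals are in nowhere dense sets of the ground model

Paper proof.  Some `s₀ ≤ s` decides whether `b h` takes the value `true` infinitely often
(a densely decided statement).  If not, some `s₁ ≤ s₀` decides a number `N` with `b h n = false` for
`n ≥ N`, and the values `b h n` for `n < N`; so `s₁` forces `b h = b₀` for some `b₀`, and
`S = {bt b₀ k | k}` is a nowhere dense tree.  If yes, let `f h n` be the least `k ≥ n` with
`b h k = true` (`0` if there is none), a name; let `s₁ ≤ s₀` force `f h n ≤ F n` for all `n`.  Let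
`S` be the set of all strings `t` such that for all `n` with `F n < t.length` there is `k` with
`n ≤ k`, `k ≤ F n` and `t[k] = true`.  It is closed under initial segments, and nowhere dense:
extend `t` by `false` to a string longer than `F t.length`.  `s₁` forces that all `bt (b h) k` are
in `S`.
-/

namespace Pool.Agent.MF45

universe u

variable {P : Type u} {X : Pst P}

private lemma bt_length (b : ℕ → Bool) (k : ℕ) : (bt b k).length = k := by
  simp [bt]

private lemma bt_get (b : ℕ → Bool) {m k : ℕ} (h : m < k) : (bt b k)[m]? = some (b m) := by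
  simp [bt, h]

private lemma nwd_bt (b : ℕ → Bool) : Nwd {t | ∃ k, t = bt b k} := by
  constructor
  · rintro s t hst ⟨k, rfl⟩
    refine ⟨s.length, ?_⟩
    have h1 : s.length ≤ k := by
      have := hst.length_le
      rwa [bt_length] at this
    have h2 := List.prefix_iff_eq_take.1 hst
    have h3 : List.take s.length (bt b k) = bt b s.length := by
      rw [bt, bt, ← List.map_take, List.take_range, min_eq_left h1]
    exact h2.trans h3
  · intro s
    refine ⟨s ++ [! b s.length], List.prefix_append _ _, ?_⟩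
    rintro ⟨k, hk⟩
    have h1 : k = s.length + 1 := by
      have := congrArg List.length hk
      rw [bt_length] at this
      simpa using this.symm
    have h2 : (s ++ [! b s.length])[s.length]? = (bt b k)[s.length]? := by rw [hk]
    rw [bt_get b (by omega)] at h2
    simp at h2

theorem exists_nwd
    (hB : ∀ f : Set P → ℕ → ℕ, Ms X f → ∀ p, X.le p p → ∃ q, X.le q p ∧
      ∃ F : ℕ → ℕ, Forc X q fun h => ∀ n, f h n ≤ F n) {b : Set P → ℕ → Bool} (hb : Ms X b)
    {s : P} (hs : X.le s s) : ∃ s₁, X.le s₁ s ∧ ∃ S : Set (List Bool), Nwd S ∧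
      Forc X s₁ fun h => ∀ k, bt (b h) k ∈ S := by
  have hd : ∀ n v, Dec X fun h => b h n = v := fun n v => ms_countable.1 (ms_pi.1 hb n) v
  have hinf : Dec X fun h => ∀ n, ∃ k, n ≤ k ∧ b h k = true :=
    Dec.all fun n => Dec.ex fun k => (Dec.const (n ≤ k)).and (hd k true)
  obtain ⟨s₀, hs₀, h1 | h1⟩ := hinf s hs
  · have hf : Ms X fun h => fun n => sInf {k | n ≤ k ∧ b h k = true} :=
      ms_pi.2 fun n => ms_sInf (R := fun h k => n ≤ k ∧ b h k = true)
        fun k => (Dec.const (n ≤ k)).and (hd k true)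
    obtain ⟨q, hq, F, hF⟩ := hB _ hf s₀ (X.left hs₀)
    refine ⟨q, X.trans hq hs₀,
      {t | ∀ n, F n < t.length → ∃ k, n ≤ k ∧ k ≤ F n ∧ t[k]? = some true}, ⟨?_, ?_⟩, ?_⟩
    · rintro s' t hst ht n hn
      obtain ⟨k, hk1, hk2, hk3⟩ := ht n (hn.trans_le hst.length_le)
      refine ⟨k, hk1, hk2, ?_⟩
      obtain ⟨u, rfl⟩ := hst
      rwa [List.getElem?_append_left (by omega)] at hk3
    · intro s'
      refine ⟨s' ++ List.replicate (F s'.length + 1) false, List.prefix_append _ _, fun hc => ?_⟩
      obtain ⟨k, hk1, hk2, hk3⟩ := hc s'.length (by simp; omega)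
      rw [List.getElem?_append_right hk1, List.getElem?_replicate] at hk3
      split_ifs at hk3
      simp at hk3
    · refine ((h1.mono hq).and hF).imp ?_
      rintro g - - ⟨h2, h3⟩ k n hn
      rw [bt_length] at hn
      have h4 := Nat.sInf_mem (h2 n)
      have h5 := h3 n
      refine ⟨sInf {k | n ≤ k ∧ b g k = true}, h4.1, h5, ?_⟩
      rw [bt_get _ (lt_of_le_of_lt h5 hn)]
      exact congrArg some h4.2
  · have h2 : Forc X s₀ fun h => ∃ N, ∀ k, N ≤ k → b h k = false := by
      refine h1.imp fun g _ _ h2 => ?_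
      push Not at h2
      obtain ⟨n, hn⟩ := h2
      exact ⟨n, fun k hk => by simpa using hn k hk⟩
    obtain ⟨s₁, hs₁, N, hN⟩ := Forc.decide (φ := fun N h => ∀ k, N ≤ k → b h k = false)
      (fun N => Dec.all fun k => (Dec.const (N ≤ k)).imp (hd k false)) (X.left hs₀) h2
    obtain ⟨s₂, hs₂, v, hv⟩ := Forc.decide (ι := Fin N → Bool)
      (φ := fun v h => ∀ n : Fin N, b h n = v n)
      (fun v => Dec.all fun n => hd n (v n)) (X.left hs₁)
      (Forc.of_all fun g _ _ => ⟨fun n => b g n, fun _ => rfl⟩)
    refine ⟨s₂, X.trans hs₂ (X.trans hs₁ hs₀), _,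
      nwd_bt (fun n => if h : n < N then v ⟨n, h⟩ else false), ?_⟩
    refine ((hN.mono hs₂).and hv).imp ?_
    rintro g - - ⟨h3, h4⟩ k
    refine ⟨k, ?_⟩
    congr 1
    funext n
    by_cases h : n < N
    · rw [dif_pos h]
      exact h4 ⟨n, h⟩
    · rw [dif_neg h]
      exact h3 n (not_lt.1 h)

end Pool.Agent.MF45
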