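import Pool.Agent.MF45.ItE

/-!
# Iterations: the generic sequence at a coordinate

Paper proof.  For a string `v`, `Vx T i δ n v` is the set of conditions `p` of the stage `i` such
that `res δ p` forces that all points of `cv p δ h` have the value `v` at `n`.  A filter `h` meets
`Vx n v` for at most one `v`: if `p ∈ h ∩ Vx n v` and `p' ∈ h ∩ Vx n v'`, let `r ∈ h` be a common
extension; then `res δ r` forces that the points of `cv r δ h` (there are some) have the value
`v` and `v'` at `n`, so `v = v'`.  So `cd h n = v` iff `h` meets `Vx n v`, or (`v = []` and `h` meets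
none), and `cd` is a name by `Dec.meet` (the strings are countable).
`cd_mem`: it suffices that `p` forces, for each `N`, that there is a point of `cv p δ` which agrees
with `cd h` below `N` (`WF.closed`).  Let `p' ≤ p`.  Let `x h = fixm N (cv p' δ h)` and take
`s ≤ res δ p'` which decides the values `u n = pt (cv p' δ h) n` for all `n < N` (`Ms.decide`,
finitely many values).  Let `r = rep δ s x p'`.  Then `r ∈ Vx n (u n)` for all `n < N`, and `s`
forces that `pt (x h)` is a point of `cv p δ h` with the values `u n` below `N`.  So `r` forces the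
statement; use `Forc.loc`.
-/

namespace Pool.Agent.MF45

universe u

open Set

variable {ι P : Type u} [LinearOrder ι] [WellFoundedLT ι] {R : Raw ι P} (T : Itn R)

namespace Itn

/-- the conditions which fix the value `v` at the place `n` of the coordinate `δ` -/
def Vx (i δ : ι) (n : ℕ) (v : List Bool) : Set P :=
  {p | T.M i p ∧ Forc (T.X δ) (R.res δ p) fun h => ∀ c ∈ Pt (R.cv p δ h), c n = v}

/-- the generic sequence at the coordinate `δ` -/
noncomputable def cd (i δ : ι) (h : Set P) (n : ℕ) : List Bool :=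
  open Classical in if H : ∃ v, ∃ p ∈ h, p ∈ T.Vx i δ n v then H.choose else []

private theorem itg_unique {i δ : ι} (hδ : δ < i) {h : Set P} (hh : Fil (T.X i) h) {n : ℕ}
    {v v' : List Bool} {p p' : P} (hp : p ∈ h) (hv : p ∈ T.Vx i δ n v) (hp' : p' ∈ h)
    (hv' : p' ∈ T.Vx i δ n v') : v = v' := by
  obtain ⟨r, -, h1, h2⟩ := hh.dir hp hp'
  have h3 := hv.2.mono (T.res_le h1 δ)
  have h4 := hv'.2.mono (T.res_le h2 δ)
  have h5 := T.forc_le h1 hδ
  have h6 := T.forc_le h2 hδ
  have h7 : Forc (T.X δ) (R.res δ r) fun _ => v = v' := by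
    refine ((h3.and h4).and (h5.and h6)).imp fun k _ _ hk => ?_
    obtain ⟨⟨h8, h9⟩, h10, h11⟩ := hk
    have h12 := (R.wf_cv r δ k).pt_mem
    rw [← h8 _ (h10 h12), ← h9 _ (h11 h12)]
  exact h7.const ((T.X δ).left (T.res_le h1 δ))

theorem cd_eq {i δ : ι} (hδ : δ < i) {h : Set P} (hh : Fil (T.X i) h) {n : ℕ} {v : List Bool}
    {p : P} (hp : p ∈ h) (hv : p ∈ T.Vx i δ n v) : T.cd i δ h n = v := by
  have H : ∃ v, ∃ p ∈ h, p ∈ T.Vx i δ n v := ⟨v, p, hp, hv⟩
  have h1 : T.cd i δ h n = H.choose := dif_pos H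
  obtain ⟨p', hp', hv'⟩ := H.choose_spec
  rw [h1]
  exact T.itg_unique hδ hh hp' hv' hp hv

theorem ms_cd {i δ : ι} (hδ : δ < i) : Ms (T.X i) (T.cd i δ) := by
  refine ms_pi.2 fun n => ms_countable.2 fun v => ?_
  have h1 : Dec (T.X i) fun h => (∃ p ∈ h, p ∈ T.Vx i δ n v) ∨
      (v = [] ∧ ∀ v' : List Bool, ¬ ∃ p ∈ h, p ∈ T.Vx i δ n v') :=
    (Dec.meet _).or ((Dec.const _).and (Dec.all fun v' => (Dec.meet _).not))
  refine h1.congr fun h hh => ?_
  constructor
  · rintro (⟨p, hp, hv⟩ | ⟨rfl, h2⟩)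
    · exact T.cd_eq hδ hh hp hv
    · have H : ¬ ∃ v, ∃ p ∈ h, p ∈ T.Vx i δ n v := fun ⟨v', h3⟩ => h2 v' h3
      exact dif_neg H
  · intro h2
    by_cases H : ∃ v, ∃ p ∈ h, p ∈ T.Vx i δ n v
    · obtain ⟨v', p, hp, hv⟩ := H
      left
      rw [T.cd_eq hδ hh hp hv] at h2
      subst h2
      exact ⟨p, hp, hv⟩
    · right
      have h3 : T.cd i δ h n = [] := dif_neg H
      exact ⟨h2.symm.trans h3, fun v' h4 => H ⟨v', h4⟩⟩

theorem cd_mem {i δ : ι} (hδ : δ < i) {p : P} (hp : T.M i p) :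
    Forc (T.X i) p fun h => T.cd i δ h ∈ Pt (R.cv p δ h) := by
  have key : ∀ N : ℕ, Forc (T.X i) p fun h => ∃ c' ∈ Pt (R.cv p δ h), ∀ n, n < N →
      T.cd i δ h n = c' n := by
    intro N
    refine Forc.loc fun p' hp' => ?_
    have hM' := T.M_left hp'
    have hms := T.ms_cv hM' δ
    have hpt : Ms (T.X δ) fun h => pt (R.cv p' δ h) := Ms.comp measurable_pt hms
    obtain ⟨s, hs, l, hl⟩ := Forc.decide (X := T.X δ)
      (φ := fun (l : List (List Bool)) h => ∀ n, n < N → pt (R.cv p' δ h) n = lst l n)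
      (fun l => Dec.all fun n => (Dec.const _).imp (ms_countable.1 (ms_pi.1 hpt n) _))
      (T.le_self.2 (T.M_res hM' δ))
      (Forc.of_all fun k _ _ => ⟨(List.range N).map (pt (R.cv p' δ k)), fun n hn => by
        unfold lst
        rw [List.getD_eq_getElem _ _ (by simpa using hn)]
        simp⟩)
    let x : Set P → Cz := fun h => fixm N (R.cv p' δ h)
    have hx : Ms (T.X δ) x := Ms.comp (measurable_fixm N) hms
    have hw : Forc (T.X δ) s fun h => WF (x h) :=
      Forc.of_all fun k _ _ => wf_fixm (R.wf_cv p' δ k) N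
    have hF : T.Fo δ s fun h n => (x h n).a := by
      refine (T.ax δ).up ((T.ax δ).mono hs (T.fo_cva hM' δ)) ?_ ?_
      · exact ms_pi.2 fun n => Ms.comp (measurable_a n) hx
      · refine Forc.of_all fun k _ _ => ?_
        obtain ⟨N', h1⟩ := fixm_a (R.wf_cv p' δ k) N
        exact ⟨N', fun n hn h2 => by
          show (fixm N (R.cv p' δ k) n).a = true
          rw [h1 n hn]
          exact h2⟩
    have hle : Forc (T.X δ) s fun h => Pt (x h) ⊆ Pt (R.cv p' δ h) :=
      Forc.of_all fun k _ _ => fixm_sub (R.wf_cv p' δ k) N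
    have hM := T.M_rep hδ hM' hs hx hw hF hle
    have hrle := T.rep_le hδ hM' hs hx hw hF hle
    have hcv := T.cv_rep hδ hM' hs hw
    have hres : R.res δ (R.rep δ s x p') = s := T.res_rep hs
    have hV : ∀ n, n < N → R.rep δ s x p' ∈ T.Vx i δ n (lst l n) := by
      intro n hn
      refine ⟨hM, ?_⟩
      rw [hres]
      refine (hl.and hcv).imp fun k _ _ hk c hc => ?_
      obtain ⟨h1, h2⟩ := hk
      rw [h2] at hc
      rw [fixm_val (R.wf_cv p' δ k) hc hn]
      exact h1 n hn
    refine ⟨R.rep δ s x p', hrle, ?_⟩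
    have h1 : Forc (T.X δ) (R.res δ (R.rep δ s x p')) fun h => ∃ c' ∈ Pt (R.cv p δ h),
        ∀ n, n < N → lst l n = c' n := by
      rw [hres]
      refine (hl.and ((T.forc_le hp' hδ).mono hs)).imp fun k _ _ hk => ?_
      obtain ⟨h2, h3⟩ := hk
      have h4 := (wf_fixm (R.wf_cv p' δ k) N).pt_mem
      refine ⟨_, h3 (fixm_sub (R.wf_cv p' δ k) N h4), fun n hn => ?_⟩
      rw [fixm_val (R.wf_cv p' δ k) h4 hn]
      exact (h2 n hn).symm
    refine (T.forc_up' hδ.le hM h1).imp fun k hk hrk h2 => ?_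
    obtain ⟨c', hc', h3⟩ := h2
    rw [R.cv_tr le_rfl] at hc'
    refine ⟨c', hc', fun n hn => ?_⟩
    rw [T.cd_eq hδ hk hrk (hV n hn)]
    exact h3 n hn
  exact (Forc.all key).imp fun k _ _ hk => (R.wf_cv p δ k).closed hk

end Itn

end Pool.Agent.MF45
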