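import Pool.Agent.MF45.FinD
import Pool.Agent.MF45.ItG
import Pool.Agent.MF45.CzE
import Pool.Agent.MF45.CzF
import Pool.Agent.MF45.CzM3
import Pool.Agent.MF45.FinH

/-!
# The two properties of the generic sequence at the coordinate `δ`

Let `hF` say that the filter at the coordinate `δ` consists of elements of `Fo`.
Paper proofs.  `two`: let `x h = mrg g (cv s δ h)` and `s' = rep δ (res δ s) x s` (a condition
`≤ s`, since `mrg` does not change the set `A`), and let `y h = cva s δ h`.  `Fo s y` by `fo_cva`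
and `hF`.  By `cd_mem`, `s'` forces `cd h ∈ Pt (cv s' δ h) = Pt (mrg g (cv s δ h))` (the entry of
`s'`: `cv_rep`, transferred to the stage `⊤` by `forc_up'`); use `mrg_two`, `mrg_a`.
`avoid`: take `s₁ ≤ s` and `S` by `exists_nwd`, let `x h = exc S (cv s₁ δ h)`,
`s' = rep δ (res δ s₁) x s₁`, `y h n = (x h n).a`; use `exc_a` and `FoAx.up` to see that
`T.Fo δ (res δ s₁) y`; then `exc_ne`.
-/

namespace Pool.Agent.MF45

open Set

variable {P : Type 1} {R : Raw (WithTop Ordinal.{0}) P} (T : Itn R)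

theorem Itn.two {p₀ : P} {Fo : P → (Set P → ℕ → Bool) → Prop} (H : FoM (T.X ⊤) p₀ Fo)
    {δ : Ordinal.{0}} (hF : ∀ {s : P} {y : Set P → ℕ → Bool}, (T.X ⊤).le s p₀ →
      T.Fo δ (R.res δ s) y → Fo s fun h => y (R.tr δ h)) {s : P} (hs : (T.X ⊤).le s p₀)
    {g : ℕ → ℕ} (hg : Monotone g) : ∃ s', (T.X ⊤).le s' s ∧ ∃ y : Set P → ℕ → Bool, Fo s' y ∧
      Forc (T.X ⊤) s' fun h => ∀ n, ∃ b₁ b₂ : ℕ → Bool, ∀ k, n ≤ k → k < g n → y h k = true →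
        T.cd ⊤ δ h k = bt b₁ k ∨ T.cd ⊤ δ h k = bt b₂ k := by
  have hji : (δ : WithTop Ordinal.{0}) < ⊤ := WithTop.coe_lt_top δ
  have hM : T.M ⊤ s := T.M_left hs
  have hrs : (T.X δ).le (R.res δ s) (R.res δ s) := T.le_self.2 (T.M_res hM δ)
  let x : Set P → Cz := fun h => mrg g (R.cv s δ h)
  have hx : Ms (T.X δ) x := Ms.comp (measurable_mrg g) (T.ms_cv hM δ)
  have hw : Forc (T.X δ) (R.res δ s) fun h => WF (x h) :=
    Forc.of_all fun h _ _ => wf_mrg (R.wf_cv s δ h)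
  have hFx : T.Fo δ (R.res δ s) fun h n => (x h n).a := T.fo_cva hM δ
  have hle : Forc (T.X δ) (R.res δ s) fun h => Pt (x h) ⊆ Pt (R.cv s δ h) :=
    Forc.of_all fun h _ _ => mrg_sub (R.wf_cv s δ h)
  have hM' : T.M ⊤ (R.rep δ (R.res δ s) x s) := T.M_rep hji hM hrs hx hw hFx hle
  have hle' : (T.X ⊤).le (R.rep δ (R.res δ s) x s) s := T.rep_le hji hM hrs hx hw hFx hle
  refine ⟨R.rep δ (R.res δ s) x s, hle', fun h => R.cva s δ (R.tr δ h),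
    H.mono hs hle' (hF hs (T.fo_cva hM δ)), ?_⟩
  have h1 : Forc (T.X ⊤) (R.rep δ (R.res δ s) x s) fun h =>
      R.cv (R.rep δ (R.res δ s) x s) δ (R.tr δ h) = x (R.tr δ h) := by
    refine T.forc_up' hji.le hM'
      (φ := fun h => R.cv (R.rep δ (R.res δ s) x s) δ h = x h) ?_
    rw [T.res_rep hrs]
    exact T.cv_rep hji hM hrs hw
  refine ((T.cd_mem hji hM').and h1).imp ?_
  rintro h - - ⟨h2, h3⟩ n
  rw [R.cv_tr le_rfl h] at h3
  rw [h3] at h2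
  obtain ⟨b₁, b₂, hb⟩ := mrg_two (R.wf_cv s δ (R.tr δ h)) hg h2 n
  exact ⟨b₁, b₂, fun k hk hk' hy => hb k hk hk' hy⟩

theorem Itn.avoid {p₀ : P} {Fo : P → (Set P → ℕ → Bool) → Prop} (H : FoM (T.X ⊤) p₀ Fo)
    {δ : Ordinal.{0}} (hF : ∀ {s : P} {y : Set P → ℕ → Bool}, (T.X ⊤).le s p₀ →
      T.Fo δ (R.res δ s) y → Fo s fun h => y (R.tr δ h)) {s : P} (hs : (T.X ⊤).le s p₀)
    {b : Set P → ℕ → Bool} (hb : Ms (T.X ⊤) b) :
    ∃ s', (T.X ⊤).le s' s ∧ ∃ y : Set P → ℕ → Bool, Fo s' y ∧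
      Forc (T.X ⊤) s' fun h => ∀ k, y h k = true → T.cd ⊤ δ h k ≠ bt (b h) k := by
  have hji : (δ : WithTop Ordinal.{0}) < ⊤ := WithTop.coe_lt_top δ
  obtain ⟨s₁, hs₁, S, hS, hbS⟩ := exists_nwd (X := T.X ⊤)
    (fun f hf p hp => T.bd ⊤ f hf p (T.le_self.1 hp)) hb ((T.X ⊤).left hs)
  have hM : T.M ⊤ s₁ := T.M_left hs₁
  have hs₁p : (T.X ⊤).le s₁ p₀ := (T.X ⊤).trans hs₁ hs
  have hrs : (T.X δ).le (R.res δ s₁) (R.res δ s₁) := T.le_self.2 (T.M_res hM δ)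
  let x : Set P → Cz := fun h => exc S (R.cv s₁ δ h)
  have hx : Ms (T.X δ) x := Ms.comp (measurable_exc S) (T.ms_cv hM δ)
  have hw : Forc (T.X δ) (R.res δ s₁) fun h => WF (x h) :=
    Forc.of_all fun h _ _ => wf_exc (R.wf_cv s₁ δ h) hS
  have hFx : T.Fo δ (R.res δ s₁) fun h n => (x h n).a := by
    refine (T.ax δ).up (T.fo_cva hM δ) (ms_pi.2 fun n => Ms.comp (measurable_a n) hx) ?_
    refine Forc.of_all fun h _ _ => ?_
    obtain ⟨N, hN⟩ := exc_a (R.wf_cv s₁ δ h) hS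
    refine ⟨N, fun n hn h1 => ?_⟩
    rw [hN n hn]
    exact h1
  have hle : Forc (T.X δ) (R.res δ s₁) fun h => Pt (x h) ⊆ Pt (R.cv s₁ δ h) :=
    Forc.of_all fun h _ _ => exc_sub (R.wf_cv s₁ δ h) hS
  have hM' : T.M ⊤ (R.rep δ (R.res δ s₁) x s₁) := T.M_rep hji hM hrs hx hw hFx hle
  have hle' : (T.X ⊤).le (R.rep δ (R.res δ s₁) x s₁) s₁ :=
    T.rep_le hji hM hrs hx hw hFx hle
  refine ⟨R.rep δ (R.res δ s₁) x s₁, (T.X ⊤).trans hle' hs₁,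
    fun h n => (x (R.tr δ h) n).a, H.mono hs₁p hle' (hF hs₁p hFx), ?_⟩
  have h1 : Forc (T.X ⊤) (R.rep δ (R.res δ s₁) x s₁) fun h =>
      R.cv (R.rep δ (R.res δ s₁) x s₁) δ (R.tr δ h) = x (R.tr δ h) := by
    refine T.forc_up' hji.le hM'
      (φ := fun h => R.cv (R.rep δ (R.res δ s₁) x s₁) δ h = x h) ?_
    rw [T.res_rep hrs]
    exact T.cv_rep hji hM hrs hw
  refine (((T.cd_mem hji hM').and h1).and (hbS.mono hle')).imp ?_
  rintro h - - ⟨⟨h2, h3⟩, h4⟩ k hk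
  rw [R.cv_tr le_rfl h] at h3
  rw [h3] at h2
  exact exc_ne (R.wf_cv s₁ δ (R.tr δ h)) hS h2 hk h4

end Pool.Agent.MF45
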