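import Pool.Agent.MF45.CzM1

/-!
# Measurable choice of two branches

Paper proof.  For `(A, c, n)` and strings `t₁, t₂` of the same length `l` let
`G (A, c, n, t₁, t₂)` say: for all `m` there are strings `t₁', t₂'` of length `m` (at least `l`)
which extend `t₁` and `t₂` such that for all `k` with `n ≤ k < m` and `A k = true`, `c k = t₁'.take k`
or `c k = t₂'.take k`.  This is a countable combination of measurable conditions.  By König's
lemma, if `G` holds for `t₁, t₂` then for some bits `i₁, i₂` it holds for `t₁ ++ [i₁]`,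
`t₂ ++ [i₂]` (there are four possibilities, and the statements for `m` are decreasing in `m`).
Let `sel` follow the first possibility (in a fixed order of the four pairs of bits) at each
step, starting with the empty strings; if there is none take `(false, false)`.
-/

namespace Pool.Agent.MF45

private abbrev FinI_O : Type := (ℕ → Bool) × (ℕ → List Bool) × ℕ

private abbrev FinI_T : Type := List Bool × List Bool

/-- the condition for one `m` -/
private def FinI_H (x : FinI_O) (t : FinI_T) (m : ℕ) : Prop :=
  ∃ l : FinI_T, t.1 <+: l.1 ∧ t.2 <+: l.2 ∧ m ≤ l.1.length ∧ m ≤ l.2.length ∧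
    ∀ k, x.2.2 ≤ k → k < m → x.1 k = true → x.2.1 k = l.1.take k ∨ x.2.1 k = l.2.take k

private def FinI_G (x : FinI_O) (t : FinI_T) : Prop := ∀ m, FinI_H x t m

private theorem FinI_H_mono {x : FinI_O} {t : FinI_T} {m m' : ℕ} (h : m ≤ m')
    (h' : FinI_H x t m') : FinI_H x t m := by
  obtain ⟨l, h1, h2, h3, h4, h5⟩ := h'
  exact ⟨l, h1, h2, h.trans h3, h.trans h4, fun k hk hk' => h5 k hk (lt_of_lt_of_le hk' h)⟩

private theorem FinI_meas (t : FinI_T) : MeasurableSet {x : FinI_O | FinI_G x t} := by
  have e : {x : FinI_O | FinI_G x t} = ⋂ m : ℕ, ⋃ l : FinI_T,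
      ({_x : FinI_O | t.1 <+: l.1 ∧ t.2 <+: l.2 ∧ m ≤ l.1.length ∧ m ≤ l.2.length} ∩
        ⋂ k : ℕ, ({x : FinI_O | ¬ x.2.2 ≤ k} ∪ ({_x : FinI_O | ¬ k < m} ∪
          ({x : FinI_O | ¬ x.1 k = true} ∪ ({x : FinI_O | x.2.1 k = l.1.take k} ∪
            {x : FinI_O | x.2.1 k = l.2.take k}))))) := by
    ext x
    simp only [FinI_G, FinI_H, Set.mem_ofPred_eq, Set.mem_iInter, Set.mem_iUnion, Set.mem_inter_iff,
      Set.mem_union]
    refine forall_congr' fun m => exists_congr fun l => ?_
    constructor
    · rintro ⟨h1, h2, h3, h4, h5⟩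
      refine ⟨⟨h1, h2, h3, h4⟩, fun k => ?_⟩
      by_cases hk : x.2.2 ≤ k
      · by_cases hk' : k < m
        · by_cases ha : x.1 k = true
          · exact Or.inr (Or.inr (Or.inr (h5 k hk hk' ha)))
          · exact Or.inr (Or.inr (Or.inl ha))
        · exact Or.inr (Or.inl hk')
      · exact Or.inl hk
    · rintro ⟨⟨h1, h2, h3, h4⟩, h5⟩
      refine ⟨h1, h2, h3, h4, fun k hk hk' ha => ?_⟩
      rcases h5 k with h6 | h6 | h6 | h6
      · exact absurd hk h6
      · exact absurd hk' h6
      · exact absurd ha h6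
      · exact h6
  rw [e]
  have hm2 : Measurable fun x : FinI_O => x.2.2 := measurable_snd.comp measurable_snd
  have hm1 : ∀ k, Measurable fun x : FinI_O => x.1 k := fun k =>
    (measurable_pi_apply k).comp measurable_fst
  have hmc : ∀ k, Measurable fun x : FinI_O => x.2.1 k := fun k =>
    (measurable_pi_apply k).comp (measurable_fst.comp measurable_snd)
  refine MeasurableSet.iInter fun m => MeasurableSet.iUnion fun l =>
    (MeasurableSet.const _).inter (MeasurableSet.iInter fun k => ?_)
  refine MeasurableSet.union ?_ (MeasurableSet.union (MeasurableSet.const _)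
    (MeasurableSet.union ?_ (MeasurableSet.union ?_ ?_)))
  · exact hm2 (MeasurableSet.of_discrete (s := {n : ℕ | ¬ n ≤ k}))
  · exact hm1 k (MeasurableSet.of_discrete (s := {b : Bool | ¬ b = true}))
  · exact hmc k (MeasurableSet.of_discrete (s := {s : List Bool | s = l.1.take k}))
  · exact hmc k (MeasurableSet.of_discrete (s := {s : List Bool | s = l.2.take k}))

private def FinI_add (t : FinI_T) (i j : Bool) : FinI_T := (t.1 ++ [i], t.2 ++ [j])

open Classical in
private noncomputable def FinI_step (x : FinI_O) (t : FinI_T) : FinI_T :=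
  if FinI_G x (FinI_add t false false) then FinI_add t false false
  else if FinI_G x (FinI_add t false true) then FinI_add t false true
  else if FinI_G x (FinI_add t true false) then FinI_add t true false
  else FinI_add t true true

private theorem FinI_step_eq (x : FinI_O) (t : FinI_T) :
    ∃ i j, FinI_step x t = FinI_add t i j := by
  unfold FinI_step
  split_ifs
  · exact ⟨_, _, rfl⟩
  · exact ⟨_, _, rfl⟩
  · exact ⟨_, _, rfl⟩
  · exact ⟨_, _, rfl⟩

private theorem FinI_konig {x : FinI_O} {t : FinI_T} (h : FinI_G x t) :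
    FinI_G x (FinI_add t false false) ∨ FinI_G x (FinI_add t false true) ∨
      FinI_G x (FinI_add t true false) ∨ FinI_G x (FinI_add t true true) := by
  by_contra hcon
  simp only [not_or, FinI_G, not_forall] at hcon
  obtain ⟨⟨m1, h1⟩, ⟨m2, h2⟩, ⟨m3, h3⟩, ⟨m4, h4⟩⟩ := hcon
  obtain ⟨M, hM⟩ : ∃ M, M = m1 + m2 + m3 + m4 + t.1.length + t.2.length + 1 := ⟨_, rfl⟩
  obtain ⟨l, h5, h6, h7, h8, h9⟩ := h M
  have key : ∀ s u : List Bool, s <+: u → s.length < u.length → ∃ i, s ++ [i] <+: u := by
    rintro s u ⟨v, rfl⟩ hlt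
    cases v with
    | nil => simp at hlt
    | cons i v => exact ⟨i, v, by simp⟩
  obtain ⟨i, hi⟩ := key _ _ h5 (by omega)
  obtain ⟨j, hj⟩ := key _ _ h6 (by omega)
  have h10 : FinI_H x (FinI_add t i j) M := ⟨l, hi, hj, h7, h8, h9⟩
  cases i <;> cases j
  · exact h1 (FinI_H_mono (by omega) h10)
  · exact h2 (FinI_H_mono (by omega) h10)
  · exact h3 (FinI_H_mono (by omega) h10)
  · exact h4 (FinI_H_mono (by omega) h10)

private theorem FinI_G_step {x : FinI_O} {t : FinI_T} (h : FinI_G x t) :
    FinI_G x (FinI_step x t) := by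
  unfold FinI_step
  split_ifs with h1 h2 h3
  · exact h1
  · exact h2
  · exact h3
  · rcases FinI_konig h with h4 | h4 | h4 | h4
    · exact absurd h4 h1
    · exact absurd h4 h2
    · exact absurd h4 h3
    · exact h4

private noncomputable def FinI_st (x : FinI_O) : ℕ → FinI_T
  | 0 => ([], [])
  | j + 1 => FinI_step x (FinI_st x j)

private theorem FinI_st_meas (j : ℕ) : Measurable fun x : FinI_O => FinI_st x j := by
  induction j with
  | zero => exact measurable_const
  | succ j ih =>
    refine measurable_to_countable' fun s => ?_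
    have e : (fun x : FinI_O => FinI_st x (j + 1)) ⁻¹' {s} =
        ⋃ t : FinI_T, ((fun x : FinI_O => FinI_st x j) ⁻¹' {t} ∩
          (fun x : FinI_O => FinI_step x t) ⁻¹' {s}) := by
      ext x
      simp [FinI_st]
    rw [e]
    refine MeasurableSet.iUnion fun t => (ih (measurableSet_singleton t)).inter ?_
    have h1 : Measurable fun x : FinI_O => FinI_step x t := by
      unfold FinI_step
      exact Measurable.ite (FinI_meas _) measurable_const (Measurable.ite (FinI_meas _)
        measurable_const (Measurable.ite (FinI_meas _) measurable_const measurable_const))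
    exact h1 (measurableSet_singleton s)

private theorem FinI_len (x : FinI_O) (j : ℕ) :
    (FinI_st x j).1.length = j ∧ (FinI_st x j).2.length = j := by
  induction j with
  | zero => exact ⟨rfl, rfl⟩
  | succ j ih =>
    obtain ⟨i, i', h⟩ := FinI_step_eq x (FinI_st x j)
    have h1 : FinI_st x (j + 1) = FinI_add (FinI_st x j) i i' := h
    rw [h1]
    simp [FinI_add, ih.1, ih.2]

private theorem FinI_bt_succ (b : ℕ → Bool) (k : ℕ) : bt b (k + 1) = bt b k ++ [b k] := by
  simp [bt, List.range_succ]

private theorem FinI_bt (x : FinI_O) (j : ℕ) :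
    bt (fun j => (FinI_st x (j + 1)).1.getD j false) j = (FinI_st x j).1 ∧
      bt (fun j => (FinI_st x (j + 1)).2.getD j false) j = (FinI_st x j).2 := by
  induction j with
  | zero => exact ⟨rfl, rfl⟩
  | succ j ih =>
    obtain ⟨i, i', h⟩ := FinI_step_eq x (FinI_st x j)
    have h1 : FinI_st x (j + 1) = FinI_add (FinI_st x j) i i' := h
    have h2 := FinI_len x j
    rw [FinI_bt_succ, FinI_bt_succ, ih.1, ih.2]
    simp only [h1, FinI_add]
    constructor
    · congr 2
      rw [List.getD_append_right _ _ _ _ h2.1.le, h2.1]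
      simp
    · congr 2
      rw [List.getD_append_right _ _ _ _ h2.2.le, h2.2]
      simp

private theorem FinI_bt_take (b : ℕ → Bool) {k m : ℕ} (h : k ≤ m) :
    (bt b m).take k = bt b k := by
  unfold bt
  rw [← List.map_take, List.take_range, min_eq_left h]

theorem exists_sel : ∃ sel : (ℕ → Bool) × (ℕ → List Bool) × ℕ → (ℕ → Bool) × (ℕ → Bool),
    Measurable sel ∧ ∀ (A : ℕ → Bool) (c : ℕ → List Bool) (n : ℕ),
      (∀ m, ∃ b₁ b₂ : ℕ → Bool, ∀ k, n ≤ k → k < m → A k = true →
        c k = bt b₁ k ∨ c k = bt b₂ k) →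
      ∀ k, n ≤ k → A k = true →
        c k = bt (sel (A, c, n)).1 k ∨ c k = bt (sel (A, c, n)).2 k := by
  refine ⟨fun x => (fun j => (FinI_st x (j + 1)).1.getD j false,
    fun j => (FinI_st x (j + 1)).2.getD j false), ?_, ?_⟩
  · refine Measurable.prodMk (measurable_pi_iff.2 fun j => ?_) (measurable_pi_iff.2 fun j => ?_)
    · exact (Measurable.of_discrete (f := fun t : FinI_T => t.1.getD j false)).comp
        (FinI_st_meas (j + 1))
    · exact (Measurable.of_discrete (f := fun t : FinI_T => t.2.getD j false)).comp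
        (FinI_st_meas (j + 1))
  · intro A c n h k hk ha
    have h0 : FinI_G (A, c, n) ([], []) := by
      intro m
      obtain ⟨b₁, b₂, hb⟩ := h m
      refine ⟨(bt b₁ m, bt b₂ m), List.nil_prefix, List.nil_prefix, by simp [bt], by simp [bt],
        fun k hk hkm ha => ?_⟩
      rw [FinI_bt_take b₁ hkm.le, FinI_bt_take b₂ hkm.le]
      exact hb k hk hkm ha
    have h1 : ∀ j, FinI_G (A, c, n) (FinI_st (A, c, n) j) := by
      intro j
      induction j with
      | zero => exact h0
      | succ j ih => exact FinI_G_step ih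
    obtain ⟨l, h2, h3, -, -, h4⟩ := h1 k (k + 1)
    have h5 := h4 k hk (Nat.lt_succ_self k) ha
    have h6 := FinI_len (A, c, n) k
    have h7 : l.1.take k = (FinI_st (A, c, n) k).1 := by
      rw [List.prefix_iff_eq_take, h6.1] at h2
      exact h2.symm
    have h8 : l.2.take k = (FinI_st (A, c, n) k).2 := by
      rw [List.prefix_iff_eq_take, h6.2] at h3
      exact h3.symm
    rw [h7, h8] at h5
    have h9 := FinI_bt (A, c, n) k
    change c k = bt (fun j => (FinI_st (A, c, n) (j + 1)).1.getD j false) k ∨
      c k = bt (fun j => (FinI_st (A, c, n) (j + 1)).2.getD j false) k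
    rw [h9.1, h9.2]
    exact h5

end Pool.Agent.MF45
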