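import Pool.Agent.MF45.Itn
import Pool.Agent.MF45.CzA

/-!
# Raw conditions: restriction, gluing, replacing one entry

Paper proofs.  All statements follow from the specification of the chosen conditions
(`Exists.choose_spec`) and `Raw.ext`.  Note that `nm` of a chosen condition at `j` is
`fun h => x j (tr j h)`; for `x = R.nm p` this is `R.nm p j` by `Raw.dep`.
-/

namespace Pool.Agent.MF45

universe u

open Set

variable {ι P : Type u} [LinearOrder ι] (R : Raw ι P)

namespace Raw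

theorem nm_tr {p : P} {i : ι} (h : Set P) : R.nm p i (R.tr i h) = R.nm p i h := by
  exact (R.dep p i h).symm

theorem tr_tr (i j : ι) (h : Set P) : R.tr i (R.tr j h) = R.tr (min i j) h := by
  ext q
  constructor
  · rintro ⟨⟨h1, h2⟩, h3⟩
    exact ⟨h1, fun x hx => lt_min (h3 hx) (h2 hx)⟩
  · rintro ⟨h1, h2⟩
    exact ⟨⟨h1, fun x hx => (lt_min_iff.1 (h2 hx)).2⟩, fun x hx => (lt_min_iff.1 (h2 hx)).1⟩

theorem tr_tr_of_le {i j : ι} (hij : i ≤ j) (h : Set P) : R.tr i (R.tr j h) = R.tr i h := by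
  rw [tr_tr, min_eq_left hij]

theorem wf_cv (p : P) (i : ι) (h : Set P) : WF (R.cv p i h) := by
  unfold cv
  split_ifs with h1
  · exact h1.2
  · exact wf_topc

theorem cv_tr {p : P} {i j : ι} (hij : i ≤ j) (h : Set P) : R.cv p i (R.tr j h) = R.cv p i h := by
  have e : R.nm p i (R.tr j h) = R.nm p i h := by
    rw [← R.nm_tr (R.tr j h), R.tr_tr_of_le hij, R.nm_tr]
  unfold cv
  rw [e]

theorem cv_not_mem {p : P} {i : ι} (hi : i ∉ R.supp p) (h : Set P) : R.cv p i h = topc := by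
  unfold cv
  rw [if_neg fun h1 => hi h1.1]

theorem cva_not_mem {p : P} {i : ι} (hi : i ∉ R.supp p) : R.cva p i = fun _ _ => true := by
  funext h n
  unfold cva
  rw [R.cv_not_mem hi]
  rfl

/-! ### restriction -/

theorem supp_res (i : ι) (p : P) : R.supp (R.res i p) = R.supp p ∩ Iio i := by
  exact (R.cr (R.supp p ∩ Iio i) ((R.cnt p).mono inter_subset_left) (R.nm p)).choose_spec.1

theorem nm_res {i j : ι} {p : P} (hj : j ∈ R.supp p) (hji : j < i) :
    R.nm (R.res i p) j = R.nm p j := by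
  funext h
  exact ((R.cr (R.supp p ∩ Iio i) ((R.cnt p).mono inter_subset_left)
    (R.nm p)).choose_spec.2 j ⟨hj, hji⟩ h).trans (R.dep p j h).symm

private theorem cv_congr {p q : P} {j : ι} (h1 : j ∈ R.supp p ↔ j ∈ R.supp q)
    (h2 : j ∈ R.supp p → R.nm p j = R.nm q j) : R.cv p j = R.cv q j := by
  by_cases hj : j ∈ R.supp p
  · funext h
    unfold cv
    rw [h2 hj]
    by_cases hw : WF (R.nm q j h)
    · rw [if_pos ⟨hj, hw⟩, if_pos ⟨h1.1 hj, hw⟩]
    · rw [if_neg fun h3 => hw h3.2, if_neg fun h3 => hw h3.2]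
  · funext h
    rw [R.cv_not_mem hj, R.cv_not_mem fun h => hj (h1.2 h)]

theorem cv_res {i j : ι} (hji : j < i) (p : P) : R.cv (R.res i p) j = R.cv p j := by
  refine cv_congr R ?_ fun hj => ?_
  · rw [R.supp_res]
    exact ⟨fun h => h.1, fun h => ⟨h, hji⟩⟩
  · rw [R.supp_res] at hj
    exact R.nm_res hj.1 hji

theorem cva_res {i j : ι} (hji : j < i) (p : P) : R.cva (R.res i p) j = R.cva p j := by
  unfold cva
  rw [R.cv_res hji]

theorem res_res (i j : ι) (p : P) : R.res i (R.res j p) = R.res (min i j) p := by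
  refine R.ext _ _ ?_ fun k hk => ?_
  · rw [R.supp_res, R.supp_res, R.supp_res, inter_assoc, Iio_inter_Iio, inf_comm]
  · rw [R.supp_res, R.supp_res] at hk
    obtain ⟨⟨h1, h2⟩, h3⟩ := hk
    rw [R.nm_res (R.supp_res j p ▸ ⟨h1, h2⟩ : k ∈ R.supp (R.res j p)) h3, R.nm_res h1 h2,
      R.nm_res h1 (lt_min h3 h2)]

theorem res_res_of_le {i j : ι} (hij : i ≤ j) (p : P) : R.res i (R.res j p) = R.res i p := by
  rw [R.res_res, min_eq_left hij]

theorem res_eq_self {i : ι} {p : P} (hp : R.supp p ⊆ Iio i) : R.res i p = p := by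
  refine R.ext _ _ ?_ fun k hk => ?_
  · rw [R.supp_res]
    exact inter_eq_left.2 hp
  · rw [R.supp_res] at hk
    exact R.nm_res hk.1 hk.2

/-! ### the empty condition -/

theorem supp_one : R.supp R.one = ∅ := by
  exact (R.cr ∅ countable_empty (fun _ _ => topc)).choose_spec.1

theorem eq_one {p : P} (hp : R.supp p = ∅) : p = R.one := by
  refine R.ext _ _ (hp.trans R.supp_one.symm) fun k hk => ?_
  rw [hp] at hk
  exact absurd hk (notMem_empty k)

theorem res_one (i : ι) : R.res i R.one = R.one := by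
  refine R.eq_one ?_
  rw [R.supp_res, R.supp_one, empty_inter]

/-! ### gluing -/

private theorem glue_spec (i : ι) (s p : P) :
    R.supp (R.glue i s p) = (R.supp s ∩ Iio i) ∪ (R.supp p ∩ Ici i) ∧
      ∀ j ∈ (R.supp s ∩ Iio i) ∪ (R.supp p ∩ Ici i), ∀ h, R.nm (R.glue i s p) j h =
        (if j < i then R.nm s j else R.nm p j) {q ∈ h | R.supp q ⊆ Iio j} :=
  (R.cr ((R.supp s ∩ Iio i) ∪ (R.supp p ∩ Ici i))
    (((R.cnt s).mono inter_subset_left).union ((R.cnt p).mono inter_subset_left))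
    (fun j => if j < i then R.nm s j else R.nm p j)).choose_spec

theorem supp_glue (i : ι) (s p : P) :
    R.supp (R.glue i s p) = (R.supp s ∩ Iio i) ∪ (R.supp p ∩ Ici i) := by
  exact (glue_spec R i s p).1

theorem nm_glue_lt {i j : ι} (hji : j < i) {s p : P} (hj : j ∈ R.supp s) :
    R.nm (R.glue i s p) j = R.nm s j := by
  funext h
  rw [(glue_spec R i s p).2 j (Or.inl ⟨hj, hji⟩) h, if_pos hji]
  exact (R.dep s j h).symm

theorem nm_glue_ge {i j : ι} (hij : i ≤ j) {s p : P} (hj : j ∈ R.supp p) :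
    R.nm (R.glue i s p) j = R.nm p j := by
  funext h
  rw [(glue_spec R i s p).2 j (Or.inr ⟨hj, hij⟩) h, if_neg hij.not_gt]
  exact (R.dep p j h).symm

theorem cv_glue_lt {i j : ι} (hji : j < i) (s p : P) : R.cv (R.glue i s p) j = R.cv s j := by
  have e : j ∈ R.supp (R.glue i s p) ↔ j ∈ R.supp s := by
    rw [R.supp_glue]
    constructor
    · rintro (h | h)
      · exact h.1
      · exact absurd hji (not_lt_of_ge h.2)
    · exact fun h => Or.inl ⟨h, hji⟩
  exact cv_congr R e fun hj => R.nm_glue_lt hji (e.1 hj)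

theorem cv_glue_ge {i j : ι} (hij : i ≤ j) (s p : P) : R.cv (R.glue i s p) j = R.cv p j := by
  have e : j ∈ R.supp (R.glue i s p) ↔ j ∈ R.supp p := by
    rw [R.supp_glue]
    constructor
    · rintro (h | h)
      · exact absurd h.2 (not_lt_of_ge hij)
      · exact h.1
    · exact fun h => Or.inr ⟨h, hij⟩
  exact cv_congr R e fun hj => R.nm_glue_ge hij (e.1 hj)

theorem res_glue {i j : ι} (hji : j ≤ i) (s p : P) :
    R.res j (R.glue i s p) = R.res j s := by
  have e : R.supp (R.res j (R.glue i s p)) = R.supp (R.res j s) := by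
    rw [R.supp_res, R.supp_res, R.supp_glue]
    ext k
    constructor
    · rintro ⟨h | h, h3⟩
      · exact ⟨h.1, h3⟩
      · exact absurd (lt_of_lt_of_le h3 hji) (not_lt_of_ge h.2)
    · rintro ⟨h1, h2⟩
      exact ⟨Or.inl ⟨h1, lt_of_lt_of_le h2 hji⟩, h2⟩
  refine R.ext _ _ e fun k hk => ?_
  have hk' := hk
  rw [e, R.supp_res] at hk'
  rw [R.supp_res] at hk
  rw [R.nm_res hk.1 hk.2, R.nm_res hk'.1 hk'.2,
    R.nm_glue_lt (lt_of_lt_of_le hk'.2 hji) hk'.1]

/-- restricting a glued condition above the place of gluing -/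
theorem res_glue_ge {i j : ι} (hij : i ≤ j) (s p : P) :
    R.res j (R.glue i s p) = R.glue i s (R.res j p) := by
  have e : R.supp (R.res j (R.glue i s p)) = R.supp (R.glue i s (R.res j p)) := by
    rw [R.supp_res, R.supp_glue, R.supp_glue, R.supp_res]
    ext k
    constructor
    · rintro ⟨h | h, h3⟩
      · exact Or.inl h
      · exact Or.inr ⟨⟨h.1, h3⟩, h.2⟩
    · rintro (h | h)
      · exact ⟨Or.inl h, lt_of_lt_of_le h.2 hij⟩
      · exact ⟨Or.inr ⟨h.1.1, h.2⟩, h.1.2⟩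
  refine R.ext _ _ e fun k hk => ?_
  rw [R.supp_res, R.supp_glue] at hk
  obtain ⟨h | h, h3⟩ := hk
  · rw [R.nm_res (by rw [R.supp_glue]; exact Or.inl h) h3, R.nm_glue_lt h.2 h.1,
      R.nm_glue_lt h.2 h.1]
  · rw [R.nm_res (by rw [R.supp_glue]; exact Or.inr h) h3, R.nm_glue_ge h.2 h.1,
      R.nm_glue_ge h.2 (by rw [R.supp_res]; exact ⟨h.1, h3⟩), R.nm_res h.1 h3]

/-! ### replacing -/

private theorem rep_spec (i : ι) (s : P) (x : Set P → Cz) (p : P) :
    R.supp (R.rep i s x p) = ((R.supp s ∩ Iio i) ∪ {i}) ∪ (R.supp p ∩ Ioi i) ∧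
      ∀ j ∈ ((R.supp s ∩ Iio i) ∪ {i}) ∪ (R.supp p ∩ Ioi i), ∀ h, R.nm (R.rep i s x p) j h =
        (if j < i then R.nm s j else if j = i then x else R.nm p j)
          {q ∈ h | R.supp q ⊆ Iio j} :=
  (R.cr (((R.supp s ∩ Iio i) ∪ {i}) ∪ (R.supp p ∩ Ioi i))
    ((((R.cnt s).mono inter_subset_left).union (countable_singleton i)).union
      ((R.cnt p).mono inter_subset_left))
    (fun j => if j < i then R.nm s j else if j = i then x else R.nm p j)).choose_spec

theorem supp_rep (i : ι) (s : P) (x : Set P → Cz) (p : P) :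
    R.supp (R.rep i s x p) = ((R.supp s ∩ Iio i) ∪ {i}) ∪ (R.supp p ∩ Ioi i) := by
  exact (rep_spec R i s x p).1

theorem nm_rep_lt {i j : ι} (hji : j < i) {s p : P} (x : Set P → Cz) (hj : j ∈ R.supp s) :
    R.nm (R.rep i s x p) j = R.nm s j := by
  funext h
  rw [(rep_spec R i s x p).2 j (Or.inl (Or.inl ⟨hj, hji⟩)) h, if_pos hji]
  exact (R.dep s j h).symm

theorem nm_rep_eq (i : ι) (s : P) (x : Set P → Cz) (p : P) (h : Set P) :
    R.nm (R.rep i s x p) i h = x (R.tr i h) := by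
  rw [(rep_spec R i s x p).2 i (Or.inl (Or.inr rfl)) h, if_neg (lt_irrefl i), if_pos rfl]
  rfl

theorem nm_rep_gt {i j : ι} (hij : i < j) {s p : P} (x : Set P → Cz) (hj : j ∈ R.supp p) :
    R.nm (R.rep i s x p) j = R.nm p j := by
  funext h
  rw [(rep_spec R i s x p).2 j (Or.inr ⟨hj, hij⟩) h, if_neg hij.not_gt, if_neg hij.ne']
  exact (R.dep p j h).symm

theorem cv_rep_lt {i j : ι} (hji : j < i) (s : P) (x : Set P → Cz) (p : P) :
    R.cv (R.rep i s x p) j = R.cv s j := by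
  have e : j ∈ R.supp (R.rep i s x p) ↔ j ∈ R.supp s := by
    rw [R.supp_rep]
    constructor
    · rintro ((h | h) | h)
      · exact h.1
      · exact absurd h hji.ne
      · exact absurd hji (not_lt_of_gt h.2)
    · exact fun h => Or.inl (Or.inl ⟨h, hji⟩)
  exact cv_congr R e fun hj => R.nm_rep_lt hji x (e.1 hj)

theorem cv_rep_eq {i : ι} (s : P) (x : Set P → Cz) (p : P) {h : Set P}
    (hx : WF (x (R.tr i h))) : R.cv (R.rep i s x p) i h = x (R.tr i h) := by
  have e : i ∈ R.supp (R.rep i s x p) := by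
    rw [R.supp_rep]
    exact Or.inl (Or.inr rfl)
  unfold cv
  rw [R.nm_rep_eq, if_pos ⟨e, hx⟩]

theorem cv_rep_gt {i j : ι} (hij : i < j) (s : P) (x : Set P → Cz) (p : P) :
    R.cv (R.rep i s x p) j = R.cv p j := by
  have e : j ∈ R.supp (R.rep i s x p) ↔ j ∈ R.supp p := by
    rw [R.supp_rep]
    constructor
    · rintro ((h | h) | h)
      · exact absurd h.2 (not_lt_of_gt hij)
      · exact absurd h hij.ne'
      · exact h.1
    · exact fun h => Or.inr ⟨h, hij⟩
  exact cv_congr R e fun hj => R.nm_rep_gt hij x (e.1 hj)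

theorem res_rep {i j : ι} (hji : j ≤ i) (s : P) (x : Set P → Cz) (p : P) :
    R.res j (R.rep i s x p) = R.res j s := by
  have e : R.supp (R.res j (R.rep i s x p)) = R.supp (R.res j s) := by
    rw [R.supp_res, R.supp_res, R.supp_rep]
    ext k
    constructor
    · rintro ⟨(h | h) | h, h3⟩
      · exact ⟨h.1, h3⟩
      · exact absurd (lt_of_lt_of_le h3 hji) (by rw [mem_singleton_iff.1 h]; exact lt_irrefl i)
      · exact absurd (lt_of_lt_of_le h3 hji) (not_lt_of_gt h.2)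
    · rintro ⟨h1, h2⟩
      exact ⟨Or.inl (Or.inl ⟨h1, lt_of_lt_of_le h2 hji⟩), h2⟩
  refine R.ext _ _ e fun k hk => ?_
  have hk' := hk
  rw [e, R.supp_res] at hk'
  rw [R.supp_res] at hk
  rw [R.nm_res hk.1 hk.2, R.nm_res hk'.1 hk'.2,
    R.nm_rep_lt (lt_of_lt_of_le hk'.2 hji) x hk'.1]

theorem res_rep_gt {i j : ι} (hij : i < j) (s : P) (x : Set P → Cz) (p : P) :
    R.res j (R.rep i s x p) = R.rep i s x (R.res j p) := by
  have e : R.supp (R.res j (R.rep i s x p)) = R.supp (R.rep i s x (R.res j p)) := by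
    rw [R.supp_res, R.supp_rep, R.supp_rep, R.supp_res]
    ext k
    constructor
    · rintro ⟨(h | h) | h, h3⟩
      · exact Or.inl (Or.inl h)
      · exact Or.inl (Or.inr h)
      · exact Or.inr ⟨⟨h.1, h3⟩, h.2⟩
    · rintro ((h | h) | h)
      · exact ⟨Or.inl (Or.inl h), lt_trans h.2 hij⟩
      · exact ⟨Or.inl (Or.inr h), by rw [mem_singleton_iff.1 h]; exact hij⟩
      · exact ⟨Or.inr ⟨h.1.1, h.2⟩, h.1.2⟩
  refine R.ext _ _ e fun k hk => ?_
  rw [R.supp_res, R.supp_rep] at hk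
  obtain ⟨(h | h) | h, h3⟩ := hk
  · rw [R.nm_res (by rw [R.supp_rep]; exact Or.inl (Or.inl h)) h3, R.nm_rep_lt h.2 x h.1,
      R.nm_rep_lt h.2 x h.1]
  · rw [R.nm_res (by rw [R.supp_rep]; exact Or.inl (Or.inr h)) h3]
    rw [mem_singleton_iff] at h
    subst h
    funext g
    rw [R.nm_rep_eq, R.nm_rep_eq]
  · rw [R.nm_res (by rw [R.supp_rep]; exact Or.inr h) h3, R.nm_rep_gt h.2 x h.1,
      R.nm_rep_gt h.2 x (by rw [R.supp_res]; exact ⟨h.1, h3⟩), R.nm_res h.1 h3]

end Raw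

end Pool.Agent.MF45
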