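import Pool.Agent.MF45.LabA
import Pool.Agent.MF45.ItA

/-!
# Existence of the iteration for given labels

Paper proof.  For a relation `r` on `P` let `mkP r` be the preorder with `le q p` given by
`r q p` if `r` satisfies the three axioms of `Pst`, and the empty relation otherwise.  By
well-founded recursion on `i` let `X i = mkP (r i)`, where `r i q p` is the right hand side of
`Itn.le_iff`, with `Fo j = FoL (X j) (L j)` (it uses only the stages `j < i`, as `supp p ⊆ Iio i`
for conditions; in the recursion use a dummy stage for `j ≥ i`).  Now show by induction on `i`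
that `r i` satisfies the axioms.  `left` and `right` are easy.  `trans`: let `r₃ ≤ r₂ ≤ r₁` at the
stage `i` and `j ∈ supp r₁`.  Then at the stage `j` (where the axioms hold by induction)
`res j r₃ ≤ res j r₂`: this is `le_iff` for `X j` with the data of `r₃ ≤ r₂` (`Raw.cv_res`,
`Raw.res_res_of_le`).  `res j r₂` forces `Pt (cv r₂ j h) ⊆ Pt (cv r₁ j h)`, so `res j r₃` forces it
(`Forc.mono`).  If `j ∈ supp r₂` then `res j r₃` forces `Pt (cv r₃ j h) ⊆ Pt (cv r₂ j h)`; if not,
`cv r₂ j h = topc` and this holds by `WF.pt_sub_topc`.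
-/

namespace Pool.Agent.MF45

universe u

open Set

section

variable {ι P : Type u} [LinearOrder ι]

/-- the axioms of `Pst` -/
private def Good3 (r : P → P → Prop) : Prop :=
  (∀ q p, r q p → r q q) ∧ (∀ q p, r q p → r p p) ∧ ∀ s q p, r s q → r q p → r s p

/-- the preorder given by a relation -/
private def mkP (r : P → P → Prop) : Pst P where
  le q p := Good3 r ∧ r q p
  left := fun h => ⟨h.1, h.1.1 _ _ h.2⟩
  right := fun h => ⟨h.1, h.1.2.1 _ _ h.2⟩
  trans := fun h h' => ⟨h.1, h.1.2.2 _ _ _ h.2 h'.2⟩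

/-- the right hand side of `le_iff` -/
private def rhs (R : Raw ι P) (L : ι → Set (P × (Set P → ℕ → Bool))) (X : ι → Pst P) (i : ι)
    (q p : P) : Prop :=
  R.Mem X (fun j => FoL (X j) (L j)) i q ∧ R.Mem X (fun j => FoL (X j) (L j)) i p ∧
    ∀ j ∈ R.supp p, Forc (X j) (R.res j q) fun h => Pt (R.cv q j h) ⊆ Pt (R.cv p j h)

private theorem mem_congr {R : Raw ι P} {L : ι → Set (P × (Set P → ℕ → Bool))}
    {X X' : ι → Pst P} {i : ι} (h : ∀ j < i, X j = X' j) {p : P}
    (hp : R.Mem X (fun j => FoL (X j) (L j)) i p) :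
    R.Mem X' (fun j => FoL (X' j) (L j)) i p := by
  refine ⟨hp.1, fun j hj => ?_⟩
  have h1 := hp.2 j hj
  show Ms (X' j) (R.nm p j) ∧ FoL (X' j) (L j) (R.res j p) (R.cva p j)
  rw [← h j (hp.1 hj)]
  exact h1

private theorem rhs_congr {R : Raw ι P} {L : ι → Set (P × (Set P → ℕ → Bool))}
    {X X' : ι → Pst P} {i : ι} (h : ∀ j < i, X j = X' j) {q p : P} (hr : rhs R L X i q p) :
    rhs R L X' i q p := by
  refine ⟨mem_congr h hr.1, mem_congr h hr.2.1, fun j hj => ?_⟩
  have h1 := hr.2.2 j hj
  rw [← h j (hr.2.1.1 hj)]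
  exact h1

open Classical in
/-- the stages -/
private noncomputable def stg [WellFoundedLT ι] (R : Raw ι P)
    (L : ι → Set (P × (Set P → ℕ → Bool))) : ι → Pst P :=
  (wellFounded_lt (α := ι)).fix fun i T =>
    mkP (rhs R L (fun j => if h : j < i then T j h else mkP fun _ _ => False) i)

private theorem stg_eq [WellFoundedLT ι] (R : Raw ι P)
    (L : ι → Set (P × (Set P → ℕ → Bool))) (i : ι) :
    stg R L i = mkP (rhs R L (stg R L) i) := by
  classical
  unfold stg
  rw [(wellFounded_lt (α := ι)).fix_eq]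
  congr 1
  funext q p
  apply propext
  constructor
  · exact fun h => rhs_congr (fun j hj => by rw [dif_pos hj]) h
  · exact fun h => rhs_congr (fun j hj => by rw [dif_pos hj]) h

private theorem mem_res {R : Raw ι P} {L : ι → Set (P × (Set P → ℕ → Bool))}
    {X : ι → Pst P} {i : ι} (j : ι) {p : P}
    (hp : R.Mem X (fun j => FoL (X j) (L j)) i p) :
    R.Mem X (fun j => FoL (X j) (L j)) j (R.res j p) := by
  refine ⟨?_, fun k hk => ?_⟩
  · rw [R.supp_res]
    exact inter_subset_right
  · rw [R.supp_res] at hk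
    have h1 := hp.2 k hk.1
    rw [R.nm_res hk.1 hk.2, R.res_res_of_le (le_of_lt hk.2), R.cva_res hk.2]
    exact h1

private theorem good3 [WellFoundedLT ι] (R : Raw ι P)
    (L : ι → Set (P × (Set P → ℕ → Bool))) (i : ι) : Good3 (rhs R L (stg R L) i) := by
  induction i using WellFoundedLT.induction with
  | ind i ih =>
    have refl : ∀ p, R.Mem (stg R L) (fun j => FoL (stg R L j) (L j)) i p →
        rhs R L (stg R L) i p p :=
      fun p hp => ⟨hp, hp, fun j _ => Forc.of_all fun _ _ _ => subset_rfl⟩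
    refine ⟨fun q p h => refl q h.1, fun q p h => refl p h.2.1, fun s q p h h' => ?_⟩
    refine ⟨h.1, h'.2.1, fun j hj => ?_⟩
    have hji : j < i := h'.2.1.1 hj
    have hle : (stg R L j).le (R.res j s) (R.res j q) := by
      rw [stg_eq]
      refine ⟨ih j hji, mem_res j h.1, mem_res j h.2.1, fun k hk => ?_⟩
      rw [R.supp_res] at hk
      have h1 := h.2.2 k hk.1
      rw [R.res_res_of_le (le_of_lt hk.2), R.cv_res hk.2, R.cv_res hk.2]
      exact h1
    have h2 : Forc (stg R L j) (R.res j s) fun h => Pt (R.cv q j h) ⊆ Pt (R.cv p j h) :=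
      (h'.2.2 j hj).mono hle
    have h3 : Forc (stg R L j) (R.res j s) fun h => Pt (R.cv s j h) ⊆ Pt (R.cv q j h) := by
      by_cases hq : j ∈ R.supp q
      · exact h.2.2 j hq
      · refine Forc.of_all fun k _ _ => ?_
        rw [R.cv_not_mem hq]
        exact (R.wf_cv s j k).pt_sub_topc
    exact (h3.and h2).imp fun k _ _ hk => hk.1.trans hk.2

end

theorem exists_itn {ι P : Type u} [LinearOrder ι] [WellFoundedLT ι] (R : Raw ι P)
    (L : ι → Set (P × (Set P → ℕ → Bool))) : ∃ T : Itn R, ∀ j, T.Fo j = FoL (T.X j) (L j) := by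
  refine ⟨⟨stg R L, fun j => FoL (stg R L j) (L j), fun j => foAx_foL _ _, ?_⟩, fun _ => rfl⟩
  intro i q p
  constructor
  · intro h
    rw [stg_eq] at h
    exact h.2
  · intro h
    rw [stg_eq]
    exact ⟨good3 R L i, h⟩

end Pool.Agent.MF45
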