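import Pool.Agent.MF45.ItA

/-!
# Existence of raw conditions

Paper proof.  For `ι : Type u` with a well-order define types `Tp i : Type u` by well-founded
recursion: `Tp i` is the type of all functions `f : (j : Iio i) → Option (Set (Tp j) → Cz)` such
that `f j ≠ none` for at most countably many `j` (`WellFounded.fix` and `WellFounded.fix_eq`,
casts by `Equiv.cast`).  Let `P` be the type of all
`f : (j : ι) → Option (Set (Tp j) → Cz)` with countable support.  Let `emb i : Tp i → P` extend by
`none`; it is injective with range the set of all `p` with `supp p ⊆ Iio i`.  Let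
`nm p i h = x {t | emb i t ∈ h}` if `p i = some x` (and `topc` if `p i = none`).  `cr`: the entry
at `i` is `some fun H => x i (emb i '' H)`.  `ext`: if `x {t | emb i t ∈ h} = x' {t | emb i t ∈ h}`
for all `h`, then `x = x'` (take `h = emb i '' H`).
Smallness: for `ι = WithTop Ordinal.{0}` the types `Tp i`, `i ≠ ⊤`, are small by induction on `i`
(`Iio i` is small for an ordinal `i`, functions, options, power sets, subtypes of small types are
small).
-/

namespace Pool.Agent.MF45

universe u

open Set

section

variable {ι : Type u} [LinearOrder ι] [WellFoundedLT ι]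

/-- the body of the recursion -/
private def TpF (i : ι) (T : (j : ι) → j < i → Type u) : Type u :=
  {f : (j : Iio i) → Option (Set (T j.1 j.2) → Cz) // {j | f j ≠ none}.Countable}

/-- the types of conditions with support below `i` -/
private noncomputable def Tp : ι → Type u :=
  (wellFounded_lt (α := ι)).fix TpF

private theorem Tp_eq (i : ι) : Tp i =
    {f : (j : Iio i) → Option (Set (Tp j.1) → Cz) // {j | f j ≠ none}.Countable} :=
  (wellFounded_lt (α := ι)).fix_eq TpF i

/-- unfolding -/
private noncomputable def eT (i : ι) : Tp i ≃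
    {f : (j : Iio i) → Option (Set (Tp j.1) → Cz) // {j | f j ≠ none}.Countable} :=
  Equiv.cast (Tp_eq i)

variable (ι) in
/-- all conditions -/
private def Pc : Type u :=
  {f : (j : ι) → Option (Set (Tp j) → Cz) // {j | f j ≠ none}.Countable}

/-- the support of a condition -/
private def spt (p : Pc ι) : Set ι := {j | p.1 j ≠ none}

open Classical in
/-- extension by `none` -/
private noncomputable def emb (i : ι) (t : Tp i) : Pc ι :=
  ⟨fun j => if h : j < i then (eT i t).1 ⟨j, h⟩ else none, by
    refine ((eT i t).2.image Subtype.val).mono ?_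
    intro j hj
    by_cases h : j < i
    · exact ⟨⟨j, h⟩, by simpa [h] using hj, rfl⟩
    · exact absurd (by simp [h]) hj⟩

private theorem spt_emb (i : ι) (t : Tp i) : spt (emb i t) ⊆ Iio i := by
  intro j hj
  by_contra h
  have h' : ¬ j < i := h
  exact hj (by simp [emb, h'])

private theorem emb_inj (i : ι) : Function.Injective (emb i) := by
  intro t t' h
  apply (eT i).injective
  apply Subtype.ext
  funext j
  have h1 := congrFun (congrArg Subtype.val h) j.1
  have h2 : j.1 < i := j.2
  simpa [emb, h2] using h1

private theorem emb_surj (i : ι) (p : Pc ι) (hp : spt p ⊆ Iio i) : ∃ t, emb i t = p := by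
  have hc : {j : Iio i | p.1 j.1 ≠ none}.Countable :=
    p.2.preimage Subtype.val_injective
  refine ⟨(eT i).symm ⟨fun j => p.1 j.1, hc⟩, ?_⟩
  apply Subtype.ext
  funext j
  by_cases h : j < i
  · simp [emb, h]
  · have h3 : p.1 j = none := by
      by_contra h4
      exact h (hp h4)
    simp [emb, h, h3]

/-- the entries -/
private noncomputable def nmc (p : Pc ι) (i : ι) (h : Set (Pc ι)) : Cz :=
  match p.1 i with
  | some x => x {t | emb i t ∈ h}
  | none => topc

private theorem nmc_some {p : Pc ι} {i : ι} {x : Set (Tp i) → Cz} (hx : p.1 i = some x)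
    (h : Set (Pc ι)) : nmc p i h = x {t | emb i t ∈ h} := by
  unfold nmc
  rw [hx]

variable (ι) in
open Classical in
/-- the raw conditions -/
private noncomputable def rawC : Raw ι (Pc ι) where
  supp := spt
  cnt p := p.2
  nm := nmc
  dep p i h := by
    have e : {t : Tp i | emb i t ∈ h} = {t | emb i t ∈ {q ∈ h | spt q ⊆ Iio i}} := by
      ext t
      exact ⟨fun h1 => ⟨h1, spt_emb i t⟩, fun h1 => h1.1⟩
    unfold nmc
    rw [e]
  cr S hS x := by
    refine ⟨⟨fun i => if i ∈ S then some (fun H => x i (emb i '' H)) else none, ?_⟩, ?_, ?_⟩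
    · refine hS.mono fun i hi => ?_
      by_contra h
      exact hi (by simp [h])
    · ext i
      simp [spt]
    · intro i hi h
      rw [nmc_some (x := fun H => x i (emb i '' H)) (by simp [hi])]
      congr 1
      ext q
      constructor
      · rintro ⟨t, ht, rfl⟩
        exact ⟨ht, spt_emb i t⟩
      · rintro ⟨h1, h2⟩
        obtain ⟨t, rfl⟩ := emb_surj i q h2
        exact ⟨t, h1, rfl⟩
  ext p q hs hn := by
    apply Subtype.ext
    funext i
    by_cases hi : i ∈ spt p
    · have hi' : i ∈ spt q := hs ▸ hi
      obtain ⟨x, hx⟩ := Option.ne_none_iff_exists'.1 hi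
      obtain ⟨x', hx'⟩ := Option.ne_none_iff_exists'.1 hi'
      rw [hx, hx']
      congr 1
      funext H
      have h1 := congrFun (hn i hi) (emb i '' H)
      rw [nmc_some hx, nmc_some hx'] at h1
      have h2 : {t | emb i t ∈ emb i '' H} = H := by
        ext t
        exact (emb_inj i).mem_set_image
      rwa [h2] at h1
    · have hi' : i ∉ spt q := hs ▸ hi
      have h1 : p.1 i = none := by
        by_contra h
        exact hi h
      have h2 : q.1 i = none := by
        by_contra h
        exact hi' h
      rw [h1, h2]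

end

private theorem small_option {α : Type 1} [Small.{0} α] : Small.{0} (Option α) :=
  small_map (Equiv.optionEquivSumPUnit.{0} α)

private theorem small_Tp (i : WithTop Ordinal.{0}) : i ≠ ⊤ → Small.{0} (Tp i) := by
  induction i using WellFoundedLT.induction with
  | ind i ih =>
    intro hi
    obtain ⟨o, rfl⟩ := WithTop.ne_top_iff_exists.1 hi
    have h1 : Small.{0} (Iio (o : WithTop Ordinal.{0})) := by
      refine small_of_surjective
        (f := fun j : Iio o => (⟨(j.1 : WithTop Ordinal.{0}), WithTop.coe_lt_coe.2 j.2⟩ :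
          Iio (o : WithTop Ordinal.{0}))) ?_
      rintro ⟨j, hj⟩
      have hj2 : j ≠ ⊤ := fun h => not_top_lt (h ▸ (mem_Iio.1 hj))
      obtain ⟨j', rfl⟩ := WithTop.ne_top_iff_exists.1 hj2
      exact ⟨⟨j', WithTop.coe_lt_coe.1 hj⟩, rfl⟩
    have h2 : ∀ j : Iio (o : WithTop Ordinal.{0}),
        Small.{0} (Option (Set (Tp j.1) → Cz)) := by
      intro j
      have h3 := ih j.1 j.2 (ne_top_of_lt j.2)
      have h4 : Small.{0} (Set (Tp j.1)) := small_set
      have h5 : Small.{0} (Set (Tp j.1) → Cz) := inferInstance
      exact small_option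
    have h3 : Small.{0} ((j : Iio (o : WithTop Ordinal.{0})) → Option (Set (Tp j.1) → Cz)) :=
      inferInstance
    have h4 : Small.{0} {f : (j : Iio (o : WithTop Ordinal.{0})) → Option (Set (Tp j.1) → Cz) //
      {j | f j ≠ none}.Countable} := inferInstance
    exact small_map (eT (o : WithTop Ordinal.{0}))

theorem exists_raw : ∃ (P : Type 1) (R : Raw (WithTop Ordinal.{0}) P),
    ∀ i : Ordinal.{0}, Small.{0} {p : P // R.supp p ⊆ Iio (i : WithTop Ordinal.{0})} := by
  refine ⟨Pc (WithTop Ordinal.{0}), rawC (WithTop Ordinal.{0}), fun i => ?_⟩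
  have h1 := small_Tp (i : WithTop Ordinal.{0}) WithTop.coe_ne_top
  refine small_of_surjective (f := fun t : Tp (i : WithTop Ordinal.{0}) =>
    (⟨emb _ t, spt_emb _ t⟩ : {p : Pc (WithTop Ordinal.{0}) //
      (rawC (WithTop Ordinal.{0})).supp p ⊆ Iio (i : WithTop Ordinal.{0})})) ?_
  rintro ⟨p, hp⟩
  obtain ⟨t, rfl⟩ := emb_surj _ p hp
  exact ⟨t, rfl⟩

end Pool.Agent.MF45
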