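import Pool.Agent.MF45.ItA

/-!
# Bookkeeping

Paper proof.  For an ordinal `i` the names `Y` with `Y h = Y (tr i h)` correspond to functions on
`Set {p // supp p ⊆ Iio i}`, so they are a small set, and so are the pairs `(t, Y)` and the sets
of such pairs.  So the sum over all `i : Ordinal.{0}` of the types of all these sets has
cardinality at most `Cardinal.univ.{0, 1}`, the cardinality of `Ordinal.{0}`, and so has its
product with `Ordinal.{0}`.  Let `e` be a surjection of `Ordinal.{0}` onto this product, and let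
`L δ` be the set given by `e δ` (its first component).  Given `i` and `A`, the set of the `δ` with
first component `(i, A)` is mapped onto `Ordinal.{0}`, so it is not small and not bounded by `i`
(`Ordinal.{0}` is not small, `Iio i` is).
-/

namespace Pool.Agent.MF45

open Set

/-- the sets of pairs (condition, name) which belong to the stage `i` -/
private def bookSet {P : Type 1} (R : Raw (WithTop Ordinal.{0}) P) (i : Ordinal.{0}) :
    Set (Set (P × (Set P → ℕ → Bool))) :=
  {A | ∀ t ∈ A, R.supp t.1 ⊆ Iio (i : WithTop Ordinal.{0}) ∧ ∀ h, t.2 (R.tr i h) = t.2 h}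

private theorem small_names {P : Type 1} (R : Raw (WithTop Ordinal.{0}) P) (i : Ordinal.{0})
    (hR : Small.{0} {p : P // R.supp p ⊆ Iio (i : WithTop Ordinal.{0})}) :
    Small.{0} {Y : Set P → ℕ → Bool // ∀ h, Y (R.tr i h) = Y h} := by
  have := hR
  have : Small.{0} (Set {p : P // R.supp p ⊆ Iio (i : WithTop Ordinal.{0})}) := small_set
  have : Small.{0} (Set {p : P // R.supp p ⊆ Iio (i : WithTop Ordinal.{0})} → ℕ → Bool) :=
    inferInstance
  refine small_of_injective
    (f := fun (Y : {Y : Set P → ℕ → Bool // ∀ h, Y (R.tr i h) = Y h})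
      (H : Set {p : P // R.supp p ⊆ Iio (i : WithTop Ordinal.{0})}) =>
      Y.1 (Subtype.val '' H)) ?_
  intro Y Y' hYY
  apply Subtype.ext
  funext h
  have h1 := congrFun hYY {q | q.1 ∈ h}
  have h2 : (Subtype.val '' {q : {p : P // R.supp p ⊆ Iio (i : WithTop Ordinal.{0})} | q.1 ∈ h})
      = R.tr i h := by
    ext q
    constructor
    · rintro ⟨q', hq', rfl⟩
      exact ⟨hq', q'.2⟩
    · rintro ⟨hq, hq2⟩
      exact ⟨⟨q, hq2⟩, hq, rfl⟩
  simp only [h2] at h1
  rw [← Y.2 h, ← Y'.2 h]
  exact h1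

private theorem small_bookSet {P : Type 1} (R : Raw (WithTop Ordinal.{0}) P) (i : Ordinal.{0})
    (hR : Small.{0} {p : P // R.supp p ⊆ Iio (i : WithTop Ordinal.{0})}) :
    Small.{0} (bookSet R i) := by
  have := hR
  have := small_names R i hR
  let T := {p : P // R.supp p ⊆ Iio (i : WithTop Ordinal.{0})} ×
    {Y : Set P → ℕ → Bool // ∀ h, Y (R.tr i h) = Y h}
  have : Small.{0} T := small_prod
  have : Small.{0} (Set T) := small_set
  refine small_of_injective (f := fun (A : bookSet R i) => ({t | (t.1.1, t.2.1) ∈ A.1} : Set T)) ?_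
  intro A A' hAA
  apply Subtype.ext
  ext t
  constructor
  · intro ht
    have := A.2 t ht
    have h1 : ((⟨t.1, this.1⟩, ⟨t.2, this.2⟩) : T) ∈ ({t | (t.1.1, t.2.1) ∈ A.1} : Set T) := ht
    simp only at hAA
    rw [hAA] at h1
    exact h1
  · intro ht
    have := A'.2 t ht
    have h1 : ((⟨t.1, this.1⟩, ⟨t.2, this.2⟩) : T) ∈ ({t | (t.1.1, t.2.1) ∈ A'.1} : Set T) := ht
    simp only at hAA
    rw [← hAA] at h1
    exact h1

theorem exists_book {P : Type 1} (R : Raw (WithTop Ordinal.{0}) P)
    (hR : ∀ i : Ordinal.{0}, Small.{0} {p : P // R.supp p ⊆ Iio (i : WithTop Ordinal.{0})}) :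
    ∃ L : Ordinal.{0} → Set (P × (Set P → ℕ → Bool)), ∀ (i : Ordinal.{0})
      (A : Set (P × (Set P → ℕ → Bool))), (∀ t ∈ A, R.supp t.1 ⊆ Iio (i : WithTop Ordinal.{0}) ∧
        ∀ h, t.2 (R.tr i h) = t.2 h) → ∃ δ, i ≤ δ ∧ L δ = A := by
  classical
  have hsurj : ∀ i : Ordinal.{0}, ∃ g : Ordinal.{0} → bookSet R i, Function.Surjective g := by
    intro i
    have hs : Small.{0} (bookSet R i) := small_bookSet R i (hR i)
    have : Nonempty (bookSet R i) := ⟨⟨∅, fun t ht => absurd ht (by simp)⟩⟩
    have h1 : Cardinal.mk (bookSet R i) ≤ Cardinal.mk Ordinal.{0} := by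
      have := (Cardinal.small_iff_lift_mk_lt_univ.1 hs)
      rw [Cardinal.lift_id] at this
      rw [Cardinal.mk_ordinal]
      exact this.le
    obtain ⟨f⟩ := h1
    exact ⟨Function.invFun f, Function.invFun_surjective f.injective⟩
  choose g hg using hsurj
  have hinf : Cardinal.aleph0 ≤ Cardinal.mk Ordinal.{0} := by
    rw [Cardinal.mk_ordinal]
    have := Cardinal.lift_lt_univ Cardinal.aleph0.{0}
    rw [Cardinal.lift_aleph0] at this
    exact this.le
  have he : Nonempty (Ordinal.{0} ≃ (Ordinal.{0} × Ordinal.{0}) × Ordinal.{0}) := by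
    rw [← Cardinal.eq]
    simp only [Cardinal.mk_prod, Cardinal.lift_id]
    rw [Cardinal.mul_eq_self hinf, Cardinal.mul_eq_self hinf]
  obtain ⟨e⟩ := he
  refine ⟨fun δ => (g (e δ).1.1 (e δ).1.2).1, ?_⟩
  intro i A hA
  obtain ⟨a, ha⟩ := hg i ⟨A, hA⟩
  by_contra hcon
  push Not at hcon
  have hlt : ∀ b : Ordinal.{0}, e.symm ((i, a), b) < i := by
    intro b
    by_contra hb
    have key : ∀ x : (Ordinal.{0} × Ordinal.{0}) × Ordinal.{0}, x = ((i, a), b) →
        (g x.1.1 x.1.2).1 = A := by
      rintro _ rfl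
      rw [ha]
    exact hcon _ (not_lt.1 hb) (key _ (e.apply_symm_apply _))
  have : Small.{0} Ordinal.{0} := by
    refine small_of_injective (f := fun b : Ordinal.{0} =>
      (⟨e.symm ((i, a), b), hlt b⟩ : Iio i)) ?_
    intro b b' hbb
    have := congrArg Subtype.val hbb
    simpa using this
  exact not_small_ordinal.{0} inferInstance

end Pool.Agent.MF45
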