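import Pool.Agent.MF45.FinF
import Pool.Agent.MF45.FinI
import Pool.Agent.MF45.LabB
import Pool.Agent.MF45.RawA
import Pool.Agent.MF45.RawB

/-!
# There is no filter whose coideal is Menger

Paper proof of `contra`.  Apply `FoM.menger` to `W h n m a` : for all `b₁, b₂` there is `k ∈ a` with
`n ≤ k`, `cd h k ≠ bt b₁ k` and `cd h k ≠ bt b₂ k` (it depends only on the values `cd h k` for
`k ∈ a`, so it is densely decided), and `s = p₀`.  Hypothesis: let `A` be positive below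
`s' ≤ p₀` and suppose `s'` does not force `∀ n, ∃ m, W ..`.  Then some `s₂ ≤ s'` forces, for some
fixed `n`, that `W h n m (fs (A h) m)` fails for all `m` (`Dec.neg`, `Forc.decide`).  By
`exists_sel` there are names `b₁`, `b₂` such that `s₂` forces `cd h k = bt (b₁ h) k` or
`cd h k = bt (b₂ h) k` for all `k ≥ n` with `A h k = true`.  By `avoid` twice there are `s₄ ≤ s₂`
and `y₁`, `y₂` in `Fo s₄`; the set `y₁ ∩ y₂ ∩ {k | n ≤ k}` is in `Fo s₄` and is disjoint from `A`,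
contradiction.
So there is a name `g`; by `Itn.bd` there are `s₁ ≤ p₀` and a function `G`, monotone without
loss of generality, such that `s₁` forces `g h n ≤ G n` for all `n`.  Take `s' ≤ s₁` and `y` by
`two`.  `y` is positive (`FoM.pos`), so `s'` forces that there are `n` and `m ≤ g h n ≤ G n` with
`W h n m (fs (y h) m)`; this contradicts the two branches for `n`.
`exists_final`: take `R` by `exists_raw`, `L` by `exists_book`, the iteration by `exists_itn` (with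
`∅` at `⊤`), and for `p₀`, `Fo` let `i` be a reflecting stage, `δ ≥ i` with `L δ = lab T p₀ Fo i`
(the elements of the label are based on `i`, since `k < i`), and apply `contra` with
`fo_of_lab`.
-/

namespace Pool.Agent.MF45

open Set

private theorem finJ_dec_iff {P : Type 1} {X : Pst P} {φ ψ : Set P → Prop} (h : Dec X φ)
    (h' : Dec X ψ) : Dec X fun h => (φ h ↔ ψ h) := by
  refine ((h.imp h').and (h'.imp h)).congr fun g _ => ?_
  exact ⟨fun h1 => ⟨h1.1, h1.2⟩, fun h1 => ⟨h1.1, h1.2⟩⟩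

/-- the statement that two branches do not suffice on `a` beyond `n` -/
private def finJ_W (c : ℕ → List Bool) (n : ℕ) (a : Finset ℕ) : Prop :=
  ∀ b₁ b₂ : ℕ → Bool, ∃ k ∈ a, n ≤ k ∧ c k ≠ bt b₁ k ∧ c k ≠ bt b₂ k

private theorem finJ_W_congr {c c' : ℕ → List Bool} {n : ℕ} {a : Finset ℕ}
    (h : ∀ k ∈ a, c k = c' k) (hW : finJ_W c n a) : finJ_W c' n a := by
  intro b₁ b₂
  obtain ⟨k, hk, h1, h2, h3⟩ := hW b₁ b₂
  rw [h k hk] at h2 h3
  exact ⟨k, hk, h1, h2, h3⟩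

private theorem finJ_dec {P : Type 1} {X : Pst P} {c : Set P → ℕ → List Bool} (hc : Ms X c)
    (n : ℕ) (a : Finset ℕ) : Dec X fun h => finJ_W (c h) n a := by
  have h1 : Dec X fun h => ∃ l : List (List Bool),
      (∀ k, k ∈ a → c h k = l.getD k []) ∧ finJ_W (fun k => l.getD k []) n a :=
    Dec.ex fun l => (Dec.all fun k => (Dec.const _).imp (ms_countable.1 (ms_pi.1 hc k) _)).and
      (Dec.const _)
  refine h1.congr fun g _ => ⟨?_, fun h2 => ?_⟩
  · rintro ⟨l, h2, h3⟩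
    exact finJ_W_congr (fun k hk => (h2 k hk).symm) h3
  · refine ⟨(List.range (a.sup id + 1)).map (c g), fun k hk => ?_, ?_⟩
    · have h3 : k < a.sup id + 1 := Nat.lt_succ_of_le (Finset.le_sup (f := id) hk)
      rw [List.getD_eq_getElem _ _ (by simpa using h3)]
      simp
    · refine finJ_W_congr (fun k hk => ?_) h2
      have h3 : k < a.sup id + 1 := Nat.lt_succ_of_le (Finset.le_sup (f := id) hk)
      rw [List.getD_eq_getElem _ _ (by simpa using h3)]
      simp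

private theorem finJ_dec_fs {P : Type 1} {X : Pst P} {c : Set P → ℕ → List Bool} (hc : Ms X c)
    {y : Set P → ℕ → Bool} (hy : Ms X y) (n m : ℕ) :
    Dec X fun h => finJ_W (c h) n (fs (y h) m) := by
  have h1 : Dec X fun h => ∃ a : Finset ℕ,
      (∀ j : ℕ, (j ∈ a ↔ (j < m ∧ y h j = true))) ∧ finJ_W (c h) n a :=
    Dec.ex fun a => (Dec.all fun j => finJ_dec_iff (Dec.const _)
      ((Dec.const _).and (ms_countable.1 (ms_pi.1 hy j) _))).and (finJ_dec hc n a)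
  refine h1.congr fun g _ => ⟨?_, fun h2 => ⟨fs (y g) m, fun j => ?_, h2⟩⟩
  · rintro ⟨a, h2, h3⟩
    have h4 : a = fs (y g) m := by
      ext j
      rw [h2 j]
      unfold fs
      rw [Finset.mem_filter, Finset.mem_range]
    rw [← h4]
    exact h3
  · unfold fs
    rw [Finset.mem_filter, Finset.mem_range]

theorem Itn.contra {P : Type 1} {R : Raw (WithTop Ordinal.{0}) P} (T : Itn R) {p₀ : P}
    {Fo : P → (Set P → ℕ → Bool) → Prop} (hp : T.M ⊤ p₀) (H : FoM (T.X ⊤) p₀ Fo)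
    {δ : Ordinal.{0}} (hF : ∀ {s : P} {y : Set P → ℕ → Bool}, (T.X ⊤).le s p₀ →
      T.Fo δ (R.res δ s) y → Fo s fun h => y (R.tr δ h)) : False := by
  have hp₀ : (T.X ⊤).le p₀ p₀ := T.le_self.2 hp
  have hδ : (δ : WithTop Ordinal.{0}) < ⊤ := WithTop.coe_lt_top δ
  have hc : Ms (T.X ⊤) (T.cd ⊤ δ) := T.ms_cd hδ
  obtain ⟨sel, hsel, hselp⟩ := exists_sel
  obtain ⟨g, hg, hgW⟩ := H.menger (fun h n _ a => finJ_W (T.cd ⊤ δ h) n a)
    (fun n _ a => finJ_dec hc n a) p₀ hp₀ (by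
      intro s' y hs' hpos
      refine Forc.all fun n => ?_
      by_contra hcon
      have hd : Dec (T.X ⊤) fun h => ∃ m, finJ_W (T.cd ⊤ δ h) n (fs (y h) m) :=
        Dec.ex fun m => finJ_dec_fs hc hpos.1 n m
      obtain ⟨s₂, hs₂, h2⟩ := hd.neg hcon
      have h3 : Forc (T.X ⊤) s₂ fun h => ∀ k, n ≤ k → y h k = true →
          T.cd ⊤ δ h k = bt (sel (y h, T.cd ⊤ δ h, n)).1 k ∨
          T.cd ⊤ δ h k = bt (sel (y h, T.cd ⊤ δ h, n)).2 k := by
        refine h2.imp fun k _ _ hk => hselp (y k) (T.cd ⊤ δ k) n fun m => ?_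
        by_contra hno
        refine hk ⟨m, fun b₁ b₂ => ?_⟩
        by_contra hno2
        refine hno ⟨b₁, b₂, fun j hnj hjm hyj => ?_⟩
        by_contra hor
        rw [not_or] at hor
        refine hno2 ⟨j, ?_, hnj, hor.1, hor.2⟩
        unfold fs
        rw [Finset.mem_filter, Finset.mem_range]
        exact ⟨hjm, hyj⟩
      have hz : Ms (T.X ⊤) fun h => (y h, T.cd ⊤ δ h, n) :=
        hpos.1.prod (hc.prod (Ms.const n))
      have hb₁ : Ms (T.X ⊤) fun h => (sel (y h, T.cd ⊤ δ h, n)).1 :=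
        Ms.comp (measurable_fst.comp hsel) hz
      have hb₂ : Ms (T.X ⊤) fun h => (sel (y h, T.cd ⊤ δ h, n)).2 :=
        Ms.comp (measurable_snd.comp hsel) hz
      have hs₂p : (T.X ⊤).le s₂ p₀ := (T.X ⊤).trans hs₂ hs'
      obtain ⟨s₃, hs₃, y₁, hy₁, h4⟩ := T.avoid H (δ := δ) hF hs₂p hb₁
      have hs₃p : (T.X ⊤).le s₃ p₀ := (T.X ⊤).trans hs₃ hs₂p
      obtain ⟨s₄, hs₄, y₂, hy₂, h5⟩ := T.avoid H (δ := δ) hF hs₃p hb₂
      have hs₄p : (T.X ⊤).le s₄ p₀ := (T.X ⊤).trans hs₄ hs₃p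
      have h6 := H.inter hs₄p (H.mono hs₃p hs₄ hy₁) hy₂
      have h7 : Ms (T.X ⊤) fun h k => (y₁ h k && y₂ h k) && decide (n ≤ k) := by
        refine ms_pi.2 fun k => ?_
        exact Ms.comp (f := fun b : Bool => b && decide (n ≤ k))
          (measurable_of_countable _) (ms_pi.1 (H.ms hs₄p h6) k)
      have h8 : Fo s₄ fun h k => (y₁ h k && y₂ h k) && decide (n ≤ k) := by
        refine H.up hs₄p h6 h7 (Forc.of_all fun k _ _ => ⟨n, fun j hj hyj => ?_⟩)
        simp only [Bool.and_eq_true, decide_eq_true_eq] at hyj ⊢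
        exact ⟨hyj, hj⟩
      have h9 := hpos.2 s₄ _ ((T.X ⊤).trans hs₄ ((T.X ⊤).trans hs₃ hs₂)) h8
      refine Forc.not_false ((T.X ⊤).left hs₄) (((h9.and h5).and ((h4.mono hs₄).and
        (h3.mono ((T.X ⊤).trans hs₄ hs₃)))).imp fun k _ _ hk => ?_)
      obtain ⟨⟨⟨j, hj1, hj2⟩, hk2⟩, hk3, hk4⟩ := hk
      simp only [Bool.and_eq_true, decide_eq_true_eq] at hj2
      rcases hk4 j hj2.2 hj1 with h10 | h10
      · exact hk3 j hj2.1.1 h10
      · exact hk2 j hj2.1.2 h10)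
  obtain ⟨s₁, hs₁, G, hG⟩ := T.bd ⊤ g hg p₀ hp
  have hG' : Monotone fun n => (Finset.range (n + 1)).sup G := by
    intro a b hab
    exact Finset.sup_mono (Finset.range_mono (Nat.add_le_add_right hab 1))
  have hGG : ∀ n, G n ≤ (Finset.range (n + 1)).sup G := fun n =>
    Finset.le_sup (f := G) (Finset.mem_range.2 (Nat.lt_succ_self n))
  obtain ⟨s', hs', y, hy, h1⟩ := T.two H (δ := δ) hF hs₁ hG'
  have hs'p : (T.X ⊤).le s' p₀ := (T.X ⊤).trans hs' hs₁
  have h2 := hgW s' y hs'p (H.pos hs'p hy)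
  refine Forc.not_false ((T.X ⊤).left hs') (((h1.and h2).and (hG.mono hs')).imp
    fun k _ _ hk => ?_)
  obtain ⟨⟨hk1, n, m, hm, hW⟩, hk3⟩ := hk
  obtain ⟨b₁, b₂, hb⟩ := hk1 n
  obtain ⟨j, hj, hnj, h3, h4⟩ := hW b₁ b₂
  unfold fs at hj
  rw [Finset.mem_filter, Finset.mem_range] at hj
  have h5 : j < (Finset.range (n + 1)).sup G :=
    lt_of_lt_of_le hj.1 (hm.trans ((hk3 n).trans (hGG n)))
  rcases hb j hnj h5 hj.2 with h6 | h6
  · exact h3 h6
  · exact h4 h6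

theorem exists_final : ∃ (P : Type 1) (X : Pst P), (∃ p, X.le p p) ∧
    ∀ (p₀ : P) (Fo : P → (Set P → ℕ → Bool) → Prop), X.le p₀ p₀ → ¬ FoM X p₀ Fo := by
  obtain ⟨P, R, hR⟩ := exists_raw
  obtain ⟨L, hL⟩ := exists_book R hR
  obtain ⟨T, hT⟩ := exists_itn R (fun i : WithTop Ordinal.{0} =>
    WithTop.recTopCoe (C := fun _ => Set (P × (Set P → ℕ → Bool))) ∅ L i)
  refine ⟨P, T.X ⊤, ⟨R.one, T.le_self.2 (T.M_one ⊤)⟩, fun p₀ Fo hp₀ H => ?_⟩
  have hp : T.M ⊤ p₀ := T.le_self.1 hp₀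
  obtain ⟨i, hi⟩ := exists_refl T hR hp H
  obtain ⟨δ, hδ, hLδ⟩ := hL i (lab T p₀ Fo i) (by
    rintro t ⟨k, hk, hM, -, hN, -⟩
    have hk' : (k : WithTop Ordinal.{0}) < i := WithTop.coe_lt_coe.2 hk
    refine ⟨(T.M_supp hM).trans (Iio_subset_Iio hk'.le), fun h => ?_⟩
    rw [← hN.2 (R.tr i h), R.tr_tr_of_le hk'.le, hN.2])
  refine T.contra hp H (δ := δ) fun {s y} hs hy => ?_
  refine fo_of_lab T hp H hi hδ hs ?_
  rw [hT] at hy
  rw [← hLδ]
  exact hy

end Pool.Agent.MF45
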