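import Pool.Agent.MF45.Sk
import Pool.Agent.MF45.CzM1
import Pool.Agent.MF45.CzC

/-!
# The successor step: density

Paper proof.  Let `i = β + 1` and let all `D` in the list `Ds` be dense at the stage `i`.  We show
that `E1 β i r M Ds` is dense at the stage `β`.  Let `s₀` be a condition of the stage `β`; if it is
incompatible with `res β r` it is in `E1`, otherwise let `s ≤ s₀, res β r`.  List all pairs
`(u, D)`, `u ∈ Pat M` (finite), `D ∈ Ds`.  By induction on a list `l` of such pairs there are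
`s' ≤ s` and a name `x` (`Ms (X β) x`, with all values well formed) with `Fo β s' (a ∘ x)`, such
that `s'` forces `Tl M (x h) (cv r β h)`, and for each `(u, D)` in `l` there is `r'' ∈ D` with
`T.M i r''`, `s' ≤ res β r''`, and `s'` forces `Pt (Upd M u (x h)) ⊆ Pt (cv r'' β h)`.  Start with
`x = cv r β`.  For a further pair `(u, D)` let `p` be the condition with `res β p = s'` and the
entry `Upd M u (x h)` at `β` (`exists_snoc`; `Upd` changes `A` only below `M`), take `r'' ≤ p` in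
`D`, and continue with `s'' = res β r''` and `x'' = cv r'' β`: by `forc_le`, `s''` forces
`Pt (x'' h) ⊆ Pt (Upd M u (x h))`, so `Tl M (x'' h) (x h)` (`tl_of_upd`), which keeps the previous
properties (`upd_sub_upd`, `Tl.trans`), and `Pt (Upd M u (x'' h)) ⊆ Pt (x'' h)`
(`upd_sub_of_tl`, all points of `x'' h` begin with `u`).
Finally let `x' h = coneOp M (x h)` and let `r'` be the condition with `res β r' = s'` and the
entry `x'` at `β`.
-/

namespace Pool.Agent.MF45

universe u

open Set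

variable {ι P : Type u} [LinearOrder ι] [WellFoundedLT ι] {R : Raw ι P} (T : Itn R)

private theorem ipa_aux {β i : ι} (hβi : β < i) {r : P} (hr : T.M i r) (M : ℕ) {s : P}
    (hs : (T.X β).le s (R.res β r)) (l : List ((ℕ → List Bool) × Set P)) :
    (∀ q ∈ l, q.1 ∈ Pat M ∧ Dns (T.X i) q.2) → ∃ (s' : P) (x : Set P → Cz),
      (T.X β).le s' s ∧ Ms (T.X β) x ∧ (∀ h, WF (x h)) ∧ T.Fo β s' (fun h n => (x h n).a) ∧
      (Forc (T.X β) s' fun h => Tl M (x h) (R.cv r β h)) ∧
      ∀ q ∈ l, ∃ r'' ∈ q.2, T.M i r'' ∧ (T.X β).le s' (R.res β r'') ∧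
        Forc (T.X β) s' fun h => Pt (Upd M q.1 (x h)) ⊆ Pt (R.cv r'' β h) := by
  induction l with
  | nil =>
    intro _
    refine ⟨s, R.cv r β, (T.X β).left hs, T.ms_cv hr β, fun h => R.wf_cv r β h,
      (T.ax β).mono hs (T.fo_cva hr β), Forc.of_all fun h _ _ => tl_of_sub Set.Subset.rfl, ?_⟩
    intro q hq
    simp at hq
  | cons q₀ l ih =>
    intro hl
    obtain ⟨s', x, hs', hx, hwf, hF, hTl, hall⟩ := ih fun q hq => hl q (List.mem_cons_of_mem _ hq)
    obtain ⟨u, D⟩ := q₀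
    obtain ⟨hu, hDd⟩ := hl (u, D) List.mem_cons_self
    have hMs' : T.M β s' := T.M_left hs'
    -- the condition `p`
    have hy : Ms (T.X β) fun h => Upd M u (x h) :=
      Ms.comp (measurable_upd M) ((Ms.const (X := T.X β) u).prod hx)
    have hyw : Forc (T.X β) s' fun h => WF (Upd M u (x h)) :=
      Forc.of_all fun h _ _ => wf_upd (hwf h) hu.1
    have hyF : T.Fo β s' fun h n => (Upd M u (x h) n).a := by
      refine (T.ax β).up hF (ms_pi.2 fun n => Ms.comp (measurable_a n) hy)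
        (Forc.of_all fun h _ _ => ⟨M, fun n hn h1 => ?_⟩)
      have e1 : Upd M u (x h) n = x h n := by
        unfold Upd
        rw [if_neg (Nat.not_lt.2 hn)]
      rw [e1]
      exact h1
    obtain ⟨p, hpM, hpres, hpcv, -⟩ := T.exists_snoc hβi hMs' hy hyw hyF
    obtain ⟨r'', hr''D, hle⟩ := hDd p (T.le_self.2 hpM)
    have hMr'' : T.M i r'' := T.M_left hle
    have hle' : (T.X β).le (R.res β r'') s' := by
      have h1 := T.res_le hle β
      rw [hpres] at h1
      exact h1
    have hsub : Forc (T.X β) (R.res β r'') fun h => Pt (R.cv r'' β h) ⊆ Pt (Upd M u (x h)) := by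
      refine ((T.forc_le hle hβi).and (hpcv.mono hle')).imp fun h _ _ h1 => ?_
      rw [← h1.2]
      exact h1.1
    refine ⟨R.res β r'', R.cv r'' β, (T.X β).trans hle' hs', T.ms_cv hMr'' β,
      fun h => R.wf_cv r'' β h, T.fo_cva hMr'' β, ?_, ?_⟩
    · refine (hsub.and (hTl.mono hle')).imp fun h _ _ h1 => ?_
      exact (tl_of_upd (hwf h) h1.1).trans h1.2
    · intro q hq
      rcases List.mem_cons.1 hq with h0 | h0
      · subst h0
        refine ⟨r'', hr''D, hMr'', (T.X β).left hle', hsub.imp fun h _ _ h1 => ?_⟩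
        exact upd_sub_of_tl (R.wf_cv r'' β h) (R.wf_cv r'' β h) (tl_of_sub Set.Subset.rfl)
          fun c hc => ((mem_pt_upd (hwf h)).1 (h1 hc)).1
      · obtain ⟨t, htD, htM, hts, htf⟩ := hall q h0
        refine ⟨t, htD, htM, (T.X β).trans hle' hts, (hsub.and (htf.mono hle')).imp
          fun h _ _ h1 => ?_⟩
        exact (upd_sub_upd (R.wf_cv r'' β h) (hwf h) (tl_of_upd (hwf h) h1.1)).trans h1.2

theorem Itn.dns_E1 {β i : ι} (hβ : ∀ j, j < i ↔ j ≤ β) {r : P} (hr : T.M i r) (M : ℕ)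
    {Ds : List (Set P)} (hD : ∀ D ∈ Ds, Dns (T.X i) D) : Dns (T.X β) (T.E1 β i r M Ds) := by
  classical
  have hβi : β < i := (hβ β).2 le_rfl
  intro s₀ hs₀
  by_cases hc : Comp (T.X β) s₀ (R.res β r)
  swap
  · exact ⟨s₀, Or.inr hc, hs₀⟩
  obtain ⟨s, hs1, hs2⟩ := hc
  obtain ⟨s', x, hs', hx, hwf, hF, hTl, hall⟩ := ipa_aux T hβi hr M hs2
    ((finite_pat M).toFinset.toList.product Ds) (fun q hq => by
      obtain ⟨u, D⟩ := q
      rw [List.pair_mem_product, Finset.mem_toList, Set.Finite.mem_toFinset] at hq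
      exact ⟨hq.1, hD D hq.2⟩)
  have hMs' : T.M β s' := T.M_left hs'
  have hy : Ms (T.X β) fun h => coneOp M (x h) := Ms.comp (measurable_coneOp M) hx
  have hyw : Forc (T.X β) s' fun h => WF (coneOp M (x h)) :=
    Forc.of_all fun h _ _ => wf_coneOp (hwf h) M
  have hyF : T.Fo β s' fun h n => (coneOp M (x h) n).a := by
    refine (T.ax β).up hF (ms_pi.2 fun n => Ms.comp (measurable_a n) hy)
      (Forc.of_all fun h _ _ => ?_)
    obtain ⟨N, hN⟩ := coneOp_a (hwf h) M
    exact ⟨N, fun n hn h1 => (hN n hn).trans h1⟩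
  obtain ⟨r', hr'M, hr'res, hr'cv, -⟩ := T.exists_snoc hβi hMs' hy hyw hyF
  refine ⟨s', Or.inl ⟨r', hr'M, ?_, ?_, ?_⟩, (T.X β).trans hs' hs1⟩
  · rw [hr'res]
    exact (T.X β).left hs'
  · refine (hr'cv.and hTl).imp fun h _ _ h1 => ?_
    rw [h1.1]
    exact ⟨coneOp_e (hwf h) M, coneOp_cone (hwf h) M, (tl_of_sub (coneOp_sub (hwf h) M)).trans h1.2⟩
  · intro u hu D hDs
    obtain ⟨t, htD, htM, hts, htf⟩ := hall (u, D) (by
      rw [List.pair_mem_product, Finset.mem_toList, Set.Finite.mem_toFinset]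
      exact ⟨hu, hDs⟩)
    refine ⟨t, htD, htM, hts, (hr'cv.and htf).imp fun h _ _ h1 => ?_⟩
    rw [h1.1]
    exact (upd_sub_upd (wf_coneOp (hwf h) M) (hwf h) (tl_of_sub (coneOp_sub (hwf h) M))).trans h1.2

end Pool.Agent.MF45
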