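import Pool.Agent.MF45.PsB

/-!
# Mixing names and least choices

Paper proofs.  `exists_mix`: let `A` be a maximal set of pairwise incompatible conditions in `E`,
and let `y h = x a h` for the (unique) `a ∈ A ∩ h`, and `y h = a₀` if there is none.  If `p` is
compatible with some `a ∈ A` then `Ms.loc` applies with `x a`, otherwise `p` forces `y h = a₀`.
`exists_full`: apply `exists_mix` to the set `E` of all `p ≤ s` for which there is a name `x`
with `Ψ p x`.  `exists_least`: for a countable nonempty set `C` enumerate it and take the first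
element with the property `R`.
-/

namespace Pool.Agent.MF45

universe u

variable {P : Type u} {X : Pst P} {α : Type*} [MeasurableSpace α]

theorem exists_mix (E : Set P) (x : P → Set P → α) (a₀ : α) : ∃ (A : Set P) (y : Set P → α),
    A ⊆ E ∧ (∀ a ∈ A, X.le a a) ∧ (∀ p ∈ E, X.le p p → ∃ a ∈ A, Comp X p a) ∧
      (∀ a ∈ A, Forc X a fun h => y h = x a h) ∧ ((∀ a ∈ A, Ms X (x a)) → Ms X y) := by
  classical
  obtain ⟨A, hA⟩ := zorn_subset {A : Set P | A ⊆ E ∧ (∀ a ∈ A, X.le a a) ∧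
    ∀ a ∈ A, ∀ b ∈ A, Comp X a b → a = b} (by
      intro c hc hchain
      refine ⟨⋃₀ c, ⟨Set.sUnion_subset fun s hs => (hc hs).1, ?_, ?_⟩, fun s hs =>
        Set.subset_sUnion_of_mem hs⟩
      · rintro a ⟨s, hs, ha⟩
        exact (hc hs).2.1 a ha
      · rintro a ⟨s, hs, ha⟩ b ⟨t, ht, hb⟩ hab
        rcases hchain.total hs ht with h | h
        · exact (hc ht).2.2 a (h ha) b hb hab
        · exact (hc hs).2.2 a ha b (h hb) hab)
  obtain ⟨hAE, hAle, hAc⟩ := hA.prop
  let y : Set P → α := fun h => if H : ∃ a ∈ A, a ∈ h then x H.choose h else a₀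
  have hy : ∀ a ∈ A, Forc X a fun h => y h = x a h := by
    intro a ha
    refine Forc.of_all fun h hh hah => ?_
    have H : ∃ a ∈ A, a ∈ h := ⟨a, ha, hah⟩
    have h1 : y h = x H.choose h := dif_pos H
    obtain ⟨r, -, hr1, hr2⟩ := hh.dir H.choose_spec.2 hah
    rw [h1, hAc _ H.choose_spec.1 a ha ⟨r, hr1, hr2⟩]
  refine ⟨A, y, hAE, hAle, ?_, hy, ?_⟩
  · intro p hp hpp
    by_contra hcon
    push Not at hcon
    have h1 : insert p A ∈ {A : Set P | A ⊆ E ∧ (∀ a ∈ A, X.le a a) ∧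
        ∀ a ∈ A, ∀ b ∈ A, Comp X a b → a = b} := by
      refine ⟨Set.insert_subset hp hAE, ?_, ?_⟩
      · rintro a (rfl | ha)
        · exact hpp
        · exact hAle a ha
      · rintro a (rfl | ha) b (rfl | hb) hab
        · rfl
        · exact absurd hab (hcon b hb)
        · obtain ⟨r, hr1, hr2⟩ := hab
          exact absurd ⟨r, hr2, hr1⟩ (hcon a ha)
        · exact hAc a ha b hb hab
    have h2 : p ∈ A := hA.le_of_ge h1 (Set.subset_insert p A) (Set.mem_insert p A)
    exact hcon p h2 ⟨p, hpp, hpp⟩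
  · intro hx
    refine Ms.loc fun p hp => ?_
    by_cases H : ∃ a ∈ A, Comp X p a
    · obtain ⟨a, ha, r, hr1, hr2⟩ := H
      exact ⟨r, hr1, x a, hx a ha, (hy a ha).mono hr2⟩
    · refine ⟨p, hp, fun _ => a₀, Ms.const a₀, Forc.of_all fun h hh hph => ?_⟩
      refine dif_neg ?_
      rintro ⟨a, ha, hah⟩
      obtain ⟨r, -, hr1, hr2⟩ := hh.dir hph hah
      exact H ⟨a, ha, r, hr1, hr2⟩

/-- fullness: a name with a property exists if densely there is one -/
theorem exists_full [Nonempty α] {Ψ : P → (Set P → α) → Prop} {s : P}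
    (mono : ∀ s s' x, X.le s' s → Ψ s x → Ψ s' x)
    (congr : ∀ s x x', Ms X x' → Forc X s (fun h => x' h = x h) → Ψ s x → Ψ s x')
    (loc : ∀ s x, Ms X x → (∀ s', X.le s' s → ∃ s'', X.le s'' s' ∧ Ψ s'' x) → Ψ s x)
    (h : ∀ s', X.le s' s → ∃ s'', X.le s'' s' ∧ ∃ x, Ms X x ∧ Ψ s'' x) :
    ∃ x, Ms X x ∧ Ψ s x := by
  classical
  obtain ⟨a₀⟩ := ‹Nonempty α›
  let x : P → Set P → α := fun p => if H : ∃ x, Ms X x ∧ Ψ p x then H.choose else fun _ => a₀
  have hx : ∀ p, (∃ x, Ms X x ∧ Ψ p x) → Ms X (x p) ∧ Ψ p (x p) := by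
    intro p H
    have h1 : x p = H.choose := dif_pos H
    rw [h1]
    exact H.choose_spec
  obtain ⟨A, y, hAE, hAle, hAmax, hAy, hAms⟩ :=
    exists_mix (X := X) {p | X.le p s ∧ ∃ x, Ms X x ∧ Ψ p x} x a₀
  have hy : Ms X y := hAms fun a ha => (hx a (hAE ha).2).1
  refine ⟨y, hy, loc s y hy fun s' hs' => ?_⟩
  obtain ⟨s'', hs'', z, hz, hΨ⟩ := h s' hs'
  obtain ⟨a, ha, r, hr1, hr2⟩ := hAmax s'' ⟨X.trans hs'' hs', z, hz, hΨ⟩ (X.left hs'')
  exact ⟨r, X.trans hr1 hs'', congr r (x a) y hy ((hAy a ha).mono hr2)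
    (mono a r (x a) hr2 (hx a (hAE ha).2).2)⟩

/-- the first element of a countable set with a property -/
theorem exists_least {β : Type*} {C : Set β} (hC : C.Countable) {c₀ : Set P → β}
    (hc : ∀ h, c₀ h ∈ C) (hd : Dv X c₀) {R : Set P → β → Prop}
    (hR : ∀ r ∈ C, Dec X fun h => R h r) : ∃ π : Set P → β, Dv X π ∧ (∀ h, π h ∈ C) ∧
      ∀ h, (∃ r ∈ C, R h r) → R h (π h) := by
  classical
  obtain ⟨f, hf⟩ := hC.exists_eq_range ⟨c₀ ∅, hc ∅⟩
  have hfC : ∀ k, f k ∈ C := fun k => by rw [hf]; exact ⟨k, rfl⟩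
  have hN : Ms X fun h => sInf {k | R h (f k)} := ms_sInf fun k => hR _ (hfC k)
  let π : Set P → β := fun h => if ∃ k, R h (f k) then f (sInf {k | R h (f k)}) else c₀ h
  have hE : Dec X fun h => ∃ k, R h (f k) := Dec.ex fun k => hR _ (hfC k)
  refine ⟨π, ?_, ?_, ?_⟩
  · intro r
    have h1 : Dec X fun h => f (sInf {k | R h (f k)}) = r := by
      have h2 : Dec X fun h => ∃ n, sInf {k | R h (f k)} = n ∧ f n = r :=
        Dec.ex fun n => Dec.and (ms_countable.1 hN n) (Dec.const _)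
      refine Dec.congr h2 fun h _ => ?_
      constructor
      · rintro ⟨n, h3, h4⟩
        rw [h3]
        exact h4
      · intro h3
        exact ⟨_, rfl, h3⟩
    refine Dec.congr (Dec.or (Dec.and hE h1) (Dec.and (Dec.not hE) (hd r))) fun h _ => ?_
    by_cases H : ∃ k, R h (f k)
    · have h3 : π h = f (sInf {k | R h (f k)}) := if_pos H
      rw [h3]
      constructor
      · rintro (h4 | h4)
        · exact h4.2
        · exact absurd H h4.1
      · intro h4
        exact Or.inl ⟨H, h4⟩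
    · have h3 : π h = c₀ h := if_neg H
      rw [h3]
      constructor
      · rintro (h4 | h4)
        · exact absurd h4.1 H
        · exact h4.2
      · intro h4
        exact Or.inr ⟨H, h4⟩
  · intro h
    by_cases H : ∃ k, R h (f k)
    · have h3 : π h = f (sInf {k | R h (f k)}) := if_pos H
      rw [h3]
      exact hfC _
    · have h3 : π h = c₀ h := if_neg H
      rw [h3]
      exact hc h
  · rintro h ⟨r, hr, hRr⟩
    have H : ∃ k, R h (f k) := by
      rw [hf] at hr
      obtain ⟨k, rfl⟩ := hr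
      exact ⟨k, hRr⟩
    have h3 : π h = f (sInf {k | R h (f k)}) := if_pos H
    rw [h3]
    exact Nat.sInf_mem (s := {k | R h (f k)}) H

end Pool.Agent.MF45
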