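import Pool.Agent.MF45.IpA
import Pool.Agent.MF45.CzM2
import Pool.Agent.MF45.PsC

/-!
# The successor step: one step of the fusion

`SR h r M Ds r'` says, for a filter `h` of the stage `β`, that `r'` is a next condition after `r`
of the fusion, with witnesses in `N`.

Paper proofs.  `dec_SR`: a countable combination of densely decided statements
(`measurableSet_tl`, `measurableSet_sub`, `measurableSet_cone`, `Dec.mem`; `N.c` is countable, and
so is `Pat M`).  `step`: since `N.c`, the set of lists of elements of `N.d`, and `ℕ` are countable,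
it suffices to show it for fixed `r`, `M`, `Ds` (`Forc.all`).  By `dns_E1` and genericity of `q`,
there is `s ∈ h ∩ E1 ∩ N.c`.  As `res β r ∈ h`, `s` is compatible with `res β r`, so there is
`r' ∈ N.c` with `A1 β i r M Ds s r'` (`Good.a1`), and for all `u ∈ Pat M`, `D ∈ Ds` there is
`r'' ∈ N.c ∩ D` with `B1 β i M u s r' r''` (`Good.b1`).  The (countably many) statements which are
forced by the conditions `s ∈ N.c` according to `A1` and `B1` hold for `h` if `s ∈ h`: for each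
`s, r', r''` in `N.c` the condition `q` forces
`s ∈ h → (the statement about h)` (`forc_imp_of`).
-/

namespace Pool.Agent.MF45

universe u

open Set

/-- what is forced by `s` holds, if `s` is in the filter -/
theorem forc_imp_of {P : Type u} {X : Pst P} {q s : P} {φ : Set P → Prop} (h : Forc X s φ) :
    Forc X q fun h => s ∈ h → φ h := by
  obtain ⟨D, hD, h1⟩ := h
  exact ⟨D, hD, fun k hk hm _ hs => h1 k hk hm hs⟩

variable {ι P : Type u} [LinearOrder ι] [WellFoundedLT ι] {R : Raw ι P} (T : Itn R)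

namespace Itn

/-- `r'` is a next condition after `r` -/
def SR (N : Nd ι P) (β i : ι) (h : Set P) (r : P) (M : ℕ) (Ds : List (Set P)) (r' : P) : Prop :=
  T.M i r' ∧ R.res β r' ∈ h ∧ M ≤ (R.cv r' β h 0).e ∧ Cone M (R.cv r' β h) ∧
    Tl M (R.cv r' β h) (R.cv r β h) ∧ ∀ u ∈ Pat M, ∀ D ∈ Ds, ∃ r'' ∈ N.c, r'' ∈ D ∧
      T.M i r'' ∧ R.res β r'' ∈ h ∧ Pt (Upd M u (R.cv r' β h)) ⊆ Pt (R.cv r'' β h)

theorem dec_SR {N : Nd ι P} (hN : N.c.Countable) {β i : ι} {r r' : P} (hr : T.M i r)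
    (M : ℕ) (Ds : List (Set P)) : Dec (T.X β) fun h => T.SR N β i h r M Ds r' := by
  by_cases hr' : T.M i r'
  swap
  · exact (Dec.const False).congr fun h _ => ⟨fun hf => hf.elim, fun h1 => hr' h1.1⟩
  have hx := T.ms_cv hr β
  have hx' := T.ms_cv hr' β
  have hw : ∀ p h, WF (R.cv p β h) := fun p h => R.wf_cv p β h
  have h1 : Dec (T.X β) fun h => M ≤ (R.cv r' β h 0).e := by
    have hm : Measurable fun z : Cz => (z 0).e :=
      (Measurable.of_discrete (f := Yb.e)).comp (measurable_pi_apply 0)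
    exact (hx'.comp hm).dec (A := {a : ℕ | M ≤ a}) (MeasurableSet.of_discrete)
  have h2 : Dec (T.X β) fun h => Cone M (R.cv r' β h) := hx'.dec (measurableSet_cone M)
  have h3 : Dec (T.X β) fun h => Tl M (R.cv r' β h) (R.cv r β h) :=
    ((hx'.prod hx).dec (measurableSet_tl M)).congr fun h _ =>
      ⟨fun h4 => h4.2.2, fun h4 => ⟨hw _ _, hw _ _, h4⟩⟩
  have h5 : ∀ u ∈ Pat M, ∀ D ∈ Ds, Dec (T.X β) fun h => ∃ r'' ∈ N.c, r'' ∈ D ∧
      T.M i r'' ∧ R.res β r'' ∈ h ∧ Pt (Upd M u (R.cv r' β h)) ⊆ Pt (R.cv r'' β h) := by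
    intro u hu D _
    have := hN.to_subtype
    have h6 : Dec (T.X β) fun h => ∃ r'' : N.c, (r'' : P) ∈ D ∧
        T.M i r'' ∧ R.res β r'' ∈ h ∧ Pt (Upd M u (R.cv r' β h)) ⊆ Pt (R.cv r'' β h) := by
      refine Dec.ex fun r'' => ?_
      by_cases hr'' : T.M i r''
      swap
      · exact (Dec.const False).congr fun h _ => ⟨fun hf => hf.elim, fun h1 => hr'' h1.2.1⟩
      refine Dec.and (Dec.const _) (Dec.and (Dec.const _) (Dec.and (Dec.mem _) ?_))
      have h7 : Ms (T.X β) fun h => Upd M u (R.cv r' β h) := by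
        have hm : Measurable fun z : Cz => Upd M u z :=
          (measurable_upd M).comp (measurable_const.prodMk measurable_id)
        exact hx'.comp hm
      exact ((h7.prod (T.ms_cv hr'' β)).dec measurableSet_sub).congr fun h _ =>
        ⟨fun h4 => h4.2.2, fun h4 => ⟨wf_upd (hw _ _) hu.1, hw _ _, h4⟩⟩
    refine h6.congr fun h _ => ⟨?_, ?_⟩
    · rintro ⟨r'', h8⟩
      exact ⟨r'', r''.2, h8⟩
    · rintro ⟨r'', h7, h8⟩
      exact ⟨⟨r'', h7⟩, h8⟩
  have h6 : Dec (T.X β) fun h => ∀ u ∈ Pat M, ∀ D ∈ Ds, ∃ r'' ∈ N.c, r'' ∈ D ∧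
      T.M i r'' ∧ R.res β r'' ∈ h ∧ Pt (Upd M u (R.cv r' β h)) ⊆ Pt (R.cv r'' β h) := by
    have := (finite_pat M).countable.to_subtype
    have hc : Countable {D : Set P // D ∈ Ds} := (List.finite_toSet Ds).countable.to_subtype
    have h7 : Dec (T.X β) fun h => ∀ u : Pat M, ∀ D : {D : Set P // D ∈ Ds},
        ∃ r'' ∈ N.c, r'' ∈ (D : Set P) ∧
        T.M i r'' ∧ R.res β r'' ∈ h ∧
          Pt (Upd M (u : ℕ → List Bool) (R.cv r' β h)) ⊆ Pt (R.cv r'' β h) :=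
      Dec.all fun u => Dec.all fun D => h5 u u.2 D D.2
    exact h7.congr fun h _ => ⟨fun h8 u hu D hD => h8 ⟨u, hu⟩ ⟨D, hD⟩, fun h8 u D => h8 u u.2 D D.2⟩
  exact (Dec.const _).and ((Dec.mem _).and (h1.and (h2.and (h3.and h6))))

theorem step {f : Set P → ℕ → ℕ} {N : Nd ι P} (hN : T.Good f N) {β i : ι} (hβN : β ∈ N.o)
    (hiN : i ∈ N.o) (hβ : ∀ j, j < i ↔ j ≤ β) {q : P} (hq : T.Gen N β q) :
    Forc (T.X β) q fun h => ∀ r ∈ N.c, T.M i r → R.res β r ∈ h → ∀ (M : ℕ) (Ds : List (Set P)),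
      (∀ D ∈ Ds, D ∈ N.d ∧ Dns (T.X i) D) → ∃ r' ∈ N.c, T.SR N β i h r M Ds r' := by
  refine Forc.substC hN.cc fun r hr => ?_
  by_cases hrM : T.M i r
  swap
  · exact Forc.of_all fun _ _ _ h1 => absurd h1 hrM
  have := hN.cd.to_subtype
  have key : ∀ (M : ℕ) (Ds : List N.d), Forc (T.X β) q fun h => R.res β r ∈ h →
      (∀ D ∈ Ds, Dns (T.X i) (D : Set P)) →
      ∃ r' ∈ N.c, T.SR N β i h r M (Ds.map Subtype.val) r' := by
    intro M Ds
    by_cases hd : ∀ D ∈ Ds, Dns (T.X i) (D : Set P)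
    swap
    · exact Forc.of_all fun _ _ _ _ h1 => absurd h1 hd
    have hDN : ∀ D ∈ Ds.map Subtype.val, D ∈ N.d := by
      intro D hD
      obtain ⟨D', -, rfl⟩ := List.mem_map.1 hD
      exact D'.2
    have hDd : ∀ D ∈ Ds.map Subtype.val, Dns (T.X i) D := by
      intro D hD
      obtain ⟨D', h1, rfl⟩ := List.mem_map.1 hD
      exact hd D' h1
    generalize Ds.map Subtype.val = L at hDN hDd
    have h1 := hq.2 _ (hN.e1 M hβN hiN hr hDN) (T.dns_E1 hβ hrM M hDd)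
    have h2 : Forc (T.X β) q fun h => ∀ s ∈ N.c, ∀ r' ∈ N.c, T.A1 β i r M L s r' → s ∈ h →
        (M ≤ (R.cv r' β h 0).e ∧ Cone M (R.cv r' β h) ∧
          Tl M (R.cv r' β h) (R.cv r β h)) := by
      refine Forc.substC hN.cc fun s _ => Forc.substC hN.cc fun r' _ => ?_
      by_cases hA : T.A1 β i r M L s r'
      · exact (forc_imp_of (q := q) hA.2.2.1).imp fun h _ _ h3 _ => h3
      · exact Forc.of_all fun _ _ _ h3 => absurd h3 hA
    have h3 : Forc (T.X β) q fun h => ∀ s ∈ N.c, ∀ r' ∈ N.c, ∀ r'' ∈ N.c, ∀ u ∈ Pat M,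
        T.B1 β i M u s r' r'' → s ∈ h → Pt (Upd M u (R.cv r' β h)) ⊆ Pt (R.cv r'' β h) := by
      refine Forc.substC hN.cc fun s _ => Forc.substC hN.cc fun r' _ =>
        Forc.substC hN.cc fun r'' _ => Forc.substC (finite_pat M).countable fun u _ => ?_
      by_cases hB : T.B1 β i M u s r' r''
      · exact (forc_imp_of (q := q) hB.2.2).imp fun h _ _ h3 _ => h3
      · exact Forc.of_all fun _ _ _ h3 => absurd h3 hB
    refine ((h1.and h2).and h3).imp ?_
    rintro h hh - ⟨⟨⟨s, hsh, hsE, hsN⟩, h4⟩, h5⟩ hrh -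
    obtain ⟨t, -, ht1, ht2⟩ := hh.dir hsh hrh
    rcases hsE with hsE | hsE
    swap
    · exact absurd ⟨t, ht1, ht2⟩ hsE
    obtain ⟨r', hr', hA⟩ := hN.a1 hβN hiN hr hDN hsN hsE
    obtain ⟨h6, h7, h8⟩ := h4 s hsN r' hr' hA hsh
    refine ⟨r', hr', hA.1, hh.up hsh hA.2.1, h6, h7, h8, fun u hu D hD => ?_⟩
    obtain ⟨r'', hr'', hr''D, hB⟩ := hN.b1 hβN hiN hu hsN hr' (hDN D hD) (hA.2.2.2 u hu D hD)
    exact ⟨r'', hr'', hr''D, hB.1, hh.up hsh hB.2.1, h5 s hsN r' hr' r'' hr'' u hu hB hsh⟩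
  refine (Forc.all fun M => Forc.all fun Ds => key M Ds).imp ?_
  intro h _ _ h1 _ hrh M Ds hDs
  have h2 : ∀ D ∈ Ds, D ∈ N.d := fun D hD => (hDs D hD).1
  obtain ⟨Ds', rfl⟩ : ∃ Ds' : List N.d, Ds'.map Subtype.val = Ds := by
    refine ⟨Ds.pmap Subtype.mk h2, ?_⟩
    rw [List.map_pmap]
    simp
  exact h1 M Ds' hrh fun D hD => (hDs D (List.mem_map.2 ⟨D, hD, rfl⟩)).2

end Itn

end Pool.Agent.MF45
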