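import Pool.Agent.MF45.IpB

/-!
# The successor step: the sequence of conditions

Paper proof.  Let `ρ 0 = π` and let `ρ (m + 1) h` be the first `r'` in `N.c` (in an enumeration)
with `T.M i r'` and `SR N β i h (ρ m h) (m + 1) [Dq 0, ..., Dq m] r'`, if there is one (and
`ρ m h` otherwise).  These are names with countably many values: use `exists_least` with
`C = {r ∈ N.c | T.M i r}` and `Dv.subst`, `dec_SR`, by recursion on `m` (choose).  The last
statement follows from `step`.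
-/

namespace Pool.Agent.MF45

universe u

open Set

variable {ι P : Type u} [LinearOrder ι] [WellFoundedLT ι] {R : Raw ι P} (T : Itn R)

theorem Itn.exists_rho {f : Set P → ℕ → ℕ} {N : Nd ι P} (hN : T.Good f N) {β i : ι}
    (hβN : β ∈ N.o) (hiN : i ∈ N.o) (hβ : ∀ j, j < i ↔ j ≤ β) {q : P} (hq : T.Gen N β q)
    {π : Set P → P} (hπ : ∀ h, π h ∈ N.c ∧ T.M i (π h)) (hd : Dv (T.X β) π)
    (hf : Forc (T.X β) q fun h => R.res β (π h) ∈ h) {Dq : ℕ → Set P}
    (hDq : ∀ n, Dq n ∈ N.d ∧ Dns (T.X i) (Dq n)) : ∃ ρ : ℕ → Set P → P, ρ 0 = π ∧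
      (∀ m, Dv (T.X β) (ρ m)) ∧ (∀ m h, ρ m h ∈ N.c ∧ T.M i (ρ m h)) ∧
      Forc (T.X β) q fun h => ∀ m, R.res β (ρ m h) ∈ h ∧
        T.SR N β i h (ρ m h) (m + 1) ((List.range (m + 1)).map Dq) (ρ (m + 1) h) := by
  classical
  let C : Set P := {r | r ∈ N.c ∧ T.M i r}
  have hC : C.Countable := hN.cc.mono fun r hr => hr.1
  let G : Type u := {π : Set P → P // Dv (T.X β) π ∧ ∀ h, π h ∈ C}
  have hnext : ∀ (m : ℕ) (x : G), ∃ y : G, ∀ h,
      (∃ r ∈ C, T.SR N β i h (x.1 h) (m + 1) ((List.range (m + 1)).map Dq) r) →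
      T.SR N β i h (x.1 h) (m + 1) ((List.range (m + 1)).map Dq) (y.1 h) := by
    intro m x
    obtain ⟨y, h1, h2, h3⟩ := exists_least (X := T.X β) hC x.2.2 x.2.1
      (R := fun h r => T.SR N β i h (x.1 h) (m + 1) ((List.range (m + 1)).map Dq) r)
      (fun r _ => x.2.1.subst hC x.2.2
        (Q := fun a h => T.SR N β i h a (m + 1) ((List.range (m + 1)).map Dq) r)
        fun a ha => T.dec_SR hN.cc ha.2 _ _)
    exact ⟨⟨y, h1, h2⟩, h3⟩
  choose g hg using hnext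
  let ρ : ℕ → G := fun n => Nat.rec ⟨π, hd, hπ⟩ (fun m x => g m x) n
  refine ⟨fun m => (ρ m).1, rfl, fun m => (ρ m).2.1, fun m h => (ρ m).2.2 h, ?_⟩
  refine (hf.and (T.step hN hβN hiN hβ hq)).imp ?_
  rintro h - - ⟨h0, h1⟩
  have key : ∀ m, R.res β ((ρ m).1 h) ∈ h →
      T.SR N β i h ((ρ m).1 h) (m + 1) ((List.range (m + 1)).map Dq) ((ρ (m + 1)).1 h) := by
    intro m hm
    refine hg m (ρ m) h ?_
    obtain ⟨r', hr', h2⟩ := h1 _ ((ρ m).2.2 h).1 ((ρ m).2.2 h).2 hm (m + 1)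
      ((List.range (m + 1)).map Dq) (by
        intro D hD
        obtain ⟨n, -, rfl⟩ := List.mem_map.1 hD
        exact hDq n)
    exact ⟨r', ⟨hr', h2.1⟩, h2⟩
  have hmem : ∀ m, R.res β ((ρ m).1 h) ∈ h := by
    intro m
    induction m with
    | zero => exact h0
    | succ m ih => exact (key m ih).2.1
  exact fun m => ⟨hmem m, key m (hmem m)⟩

end Pool.Agent.MF45
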