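import Pool.Agent.MF45.IpB
import Pool.Agent.MF45.CzG
import Pool.Agent.MF45.CzM3

/-!
# The successor step: the fusion

Paper proof.  Let `ζ h m = cv (ρ m h) β h`; it is a name (`Dv.ms`, `ms_pi`), all values are well
formed.  For each `m`, `Fo β q (fun h n => (ζ h m n).a)`: densely below `q` some `s` decides
`ρ m h = r` for some `r ∈ N.c` with `T.M i r` (`Dv.decide`), and (extending `s`)
`(X β).le s (res β r)` since `s` forces `res β r ∈ h` (`Itn.sep`, or `Forc.comp`).
`Fo β (res β r) (cva r β)` by `fo_cva`; `FoAx.mono`, `FoAx.up` (the names are equal below `s`) and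
`FoAx.loc`.
By `FoAx.pseudo` let `y` be almost contained in all of them.  Let `g h = gg (ζ h) (y h)`, a name
(`measurable_gg`), and let `y'` be given by `FoAx.gap`.  Let `z h = flp (ζ h) (y h) (y' h)`.  The
hypotheses `FH` of the fusion lemma hold almost everywhere below `q` (`Cone 0` holds for all well
formed codes).  `Fo β q (a ∘ z)`: take a pseudo-intersection of `y` and `y'` (`FoAx.pseudo` for the
sequence `y, y', y', ...`), it is almost contained in the set `A` of `z h` by `FH.flp_a`;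
use `FoAx.up`.  `ε h = eps (ζ h) (y h) (y' h)`.
-/

namespace Pool.Agent.MF45

universe u

open Set

private theorem ms_gg {P : Type u} {X : Pst P} {ζ : Set P → ℕ → Cz} {y : Set P → ℕ → Bool}
    (hζ : Ms X ζ) (hy : Ms X y) : Ms X fun h => gg (ζ h) (y h) := by
  have h1 := Ms.comp measurable_gg (Ms.prod hζ hy)
  exact h1

private theorem ms_flp {P : Type u} {X : Pst P} {ζ : Set P → ℕ → Cz} {y y' : Set P → ℕ → Bool}
    (hζ : Ms X ζ) (hy : Ms X y) (hy' : Ms X y') : Ms X fun h => flp (ζ h) (y h) (y' h) := by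
  have h1 := Ms.comp measurable_flp (Ms.prod hζ (Ms.prod hy hy'))
  exact h1

private theorem ms_eps {P : Type u} {X : Pst P} {ζ : Set P → ℕ → Cz} {y y' : Set P → ℕ → Bool}
    (hζ : Ms X ζ) (hy : Ms X y) (hy' : Ms X y') : Ms X fun h => eps (ζ h) (y h) (y' h) := by
  refine ms_pi.2 fun k => ?_
  have h1 := Ms.comp (measurable_eps k) (Ms.prod hζ (Ms.prod hy hy'))
  exact h1

variable {ι P : Type u} [LinearOrder ι] [WellFoundedLT ι] {R : Raw ι P} (T : Itn R)

theorem Itn.exists_fus {N : Nd ι P} (hc : N.c.Countable) {β i : ι} {q : P} (hq : T.M β q)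
    {ρ : ℕ → Set P → P} (hd : ∀ m, Dv (T.X β) (ρ m)) (hv : ∀ m h, ρ m h ∈ N.c ∧ T.M i (ρ m h))
    {Dq : ℕ → Set P} (hf : Forc (T.X β) q fun h => ∀ m, R.res β (ρ m h) ∈ h ∧
        T.SR N β i h (ρ m h) (m + 1) ((List.range (m + 1)).map Dq) (ρ (m + 1) h)) :
    ∃ (z : Set P → Cz) (ε : Set P → ℕ → ℕ), Ms (T.X β) z ∧ Ms (T.X β) ε ∧
      (∀ h, ε h 0 = 0) ∧ (Forc (T.X β) q fun h => WF (z h)) ∧
      (T.Fo β q fun h n => (z h n).a) ∧
      Forc (T.X β) q fun h => ∀ k, k ≤ ε h k ∧ ∀ c ∈ Pt (z h),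
        c ∈ Pt (Upd (ε h k) c (R.cv (ρ (ε h k) h) β h)) := by
  classical
  have hC : (N.c ∩ {r | T.M i r}).Countable := hc.mono inter_subset_left
  have hvC : ∀ m h, ρ m h ∈ N.c ∩ {r | T.M i r} := fun m h => ⟨(hv m h).1, (hv m h).2⟩
  have hqq : (T.X β).le q q := T.le_self.2 hq
  -- the names
  obtain ⟨ζ, hζe, hζ⟩ : ∃ ζ : Set P → ℕ → Cz, (∀ h m, ζ h m = R.cv (ρ m h) β h) ∧
      Ms (T.X β) ζ := ⟨fun h m => R.cv (ρ m h) β h, fun _ _ => rfl,
    ms_pi.2 fun m => (hd m).ms hC (hvC m) (x := fun r => R.cv r β) fun r hr => T.ms_cv hr.2 β⟩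
  have ha : Measurable fun z : Cz => fun n => (z n).a := measurable_pi_lambda _ measurable_a
  have hfo : ∀ m, T.Fo β q fun h n => (ζ h m n).a := by
    intro m
    refine (T.ax β).loc (Ms.comp ha (ms_pi.1 hζ m)) fun s' hs' => ?_
    obtain ⟨s, hs, r, hr, hsr⟩ := (hd m).decide hC ((T.X β).left hs')
      (Forc.of_all fun h _ _ => hvC m h)
    have hsq : (T.X β).le s q := (T.X β).trans hs hs'
    have h1 : Forc (T.X β) s fun h => R.res β r ∈ h :=
      ((hf.mono hsq).and hsr).imp fun h _ _ hh => by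
        have := (hh.1 m).1
        rwa [hh.2] at this
    obtain ⟨s₁, hs₁, h2⟩ := Forc.comp ((T.X β).left hs) h1
    have h3 : Forc (T.X β) s₁ fun h => ∃ N, ∀ n, N ≤ n → R.cva r β h n = true →
        (ζ h m n).a = true := by
      refine (hsr.mono hs₁).imp fun h _ _ hh => ⟨0, fun n _ hn => ?_⟩
      rw [hζe, hh]
      exact hn
    exact ⟨s₁, (T.X β).trans hs₁ hs, (T.ax β).up ((T.ax β).mono h2 (T.fo_cva hr.2 β))
      (Ms.comp ha (ms_pi.1 hζ m)) h3⟩
  obtain ⟨y, hy, hys⟩ := (T.ax β).pseudo hfo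
  have hms_y : Ms (T.X β) y := (T.ax β).ms hy
  have hg : Ms (T.X β) fun h => gg (ζ h) (y h) := ms_gg hζ hms_y
  obtain ⟨y', hy', hys'⟩ := (T.ax β).gap q hg
  have hms_y' : Ms (T.X β) y' := (T.ax β).ms hy'
  -- the hypotheses of the fusion lemma
  have hFH : Forc (T.X β) q fun h => FH (ζ h) (y h) (y' h) := by
    refine ((hf.and hys).and hys').imp fun h _ _ hh => ?_
    obtain ⟨⟨h1, h2⟩, h3⟩ := hh
    have hwf : ∀ m, WF (ζ h m) := fun m => by
      rw [hζe]
      exact R.wf_cv _ _ _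
    refine ⟨hwf, ?_, ?_, ?_, h2, h3⟩
    · intro m
      cases m with
      | zero => exact Nat.zero_le _
      | succ m =>
        rw [hζe]
        exact (h1 m).2.2.2.1
    · intro m
      cases m with
      | zero =>
        intro s hs
        have hs0 : s = [] := List.length_eq_zero_iff.1 hs
        obtain ⟨t, ht⟩ := (hwf 0).dne 0
        exact ⟨t, ht, by rw [hs0]; exact List.nil_prefix⟩
      | succ m =>
        rw [hζe]
        exact (h1 m).2.2.2.2.1
    · intro m
      rw [hζe, hζe]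
      exact (h1 m).2.2.2.2.2.1
  have hz : Ms (T.X β) fun h => flp (ζ h) (y h) (y' h) := ms_flp hζ hms_y hms_y'
  obtain ⟨w, hw, hws⟩ := (T.ax β).pseudo (s := q)
    (y := fun k => if k = 0 then y else y') (fun k => by
        by_cases hk : k = 0
        · rw [if_pos hk]
          exact hy
        · rw [if_neg hk]
          exact hy')
  have hεm : Ms (T.X β) fun h => eps (ζ h) (y h) (y' h) := ms_eps hζ hms_y hms_y'
  have hFo : T.Fo β q fun h n => (flp (ζ h) (y h) (y' h) n).a := by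
    refine (T.ax β).up hw (Ms.comp ha hz) ((hFH.and hws).imp fun h _ _ hh => ?_)
    obtain ⟨h1, h2⟩ := hh
    obtain ⟨N0, hN0⟩ := h1.flp_a
    obtain ⟨N1, hN1⟩ := h2 0
    obtain ⟨N2, hN2⟩ := h2 1
    rw [if_pos rfl] at hN1
    rw [if_neg one_ne_zero] at hN2
    exact ⟨N0 + N1 + N2, fun n hn hwn => hN0 n (by omega) (hN1 n (by omega) hwn)
      (hN2 n (by omega) hwn)⟩
  refine ⟨fun h => flp (ζ h) (y h) (y' h), fun h => eps (ζ h) (y h) (y' h), hz, hεm,
    fun h => rfl, hFH.imp fun h _ _ hh => hh.wf_flp, hFo, hFH.imp fun h _ _ hh k => ?_⟩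
  refine ⟨hh.le_eps k, fun c hc => ?_⟩
  have := hh.flp_upd hc k
  rwa [hζe] at this

end Pool.Agent.MF45
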