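import Pool.Agent.MF45.ItD
import Pool.Agent.MF45.CzD
import Pool.Agent.MF45.CzM2

/-!
# Iterations: separativity

Paper proof.  Suppose that all extensions of `t` are compatible with `p`, but not
`(X i).le t p`.  By `le_of_forc` there is `j ∈ supp p` such that `res j t` does not force
`Pt (cv t j h) ⊆ Pt (cv p j h)` at the stage `j`; this statement is densely decided
(`measurableSet_sub`), so some `s ≤ res j t` forces its negation.  Let
`x h = sepc (cv t j h) (cv p j h)`: a name for a code with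
`Pt (x h) ⊆ Pt (cv t j h)` and without points in common with `cv p j h`, whose set `A` is almost
equal to that of `cv t j h`, so that `Fo j s` contains it.  (To have a name: `measurable_sepc`,
for the pairs of well formed codes `cv`.)  Let `t' = rep j s x t ≤ t`.  A common extension `r` of
`t'` and `p` satisfies: `res j r` forces `Pt (cv r j h) ⊆ Pt (x h) ∩ Pt (cv p j h) = ∅`, but
`Pt (cv r j h)` is not empty (`WF.pt_mem`), contradiction.
-/

namespace Pool.Agent.MF45

universe u

open Set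

variable {ι P : Type u} [LinearOrder ι] [WellFoundedLT ι] {R : Raw ι P} (T : Itn R)

namespace Itn

theorem dec_sub {i i' j : ι} {q p : P} (hq : T.M i q) (hp : T.M i' p) :
    Dec (T.X j) fun h => Pt (R.cv q j h) ⊆ Pt (R.cv p j h) := by
  have h1 : Dec (T.X j) fun h => (R.cv q j h, R.cv p j h) ∈
      {p : Cz × Cz | WF p.1 ∧ WF p.2 ∧ Pt p.1 ⊆ Pt p.2} :=
    Ms.dec ((T.ms_cv hq j).prod (T.ms_cv hp j)) measurableSet_sub
  exact h1.congr fun h _ => ⟨fun h2 => h2.2.2, fun h2 => ⟨R.wf_cv q j h, R.wf_cv p j h, h2⟩⟩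

private theorem ms_sep {i i' j : ι} {t p : P} (ht : T.M i t) (hp : T.M i' p) :
    Ms (T.X j) fun h => sepc (R.cv t j h) (R.cv p j h) := by
  let _ := msp (T.X j)
  have h1 : Measurable fun h : Set P => (R.cv t j h, R.cv p j h) :=
    (T.ms_cv ht j).prod (T.ms_cv hp j)
  have h2 : Measurable fun h : Set P =>
      (⟨(R.cv t j h, R.cv p j h), R.wf_cv t j h, R.wf_cv p j h⟩ :
        {p : Cz × Cz // WF p.1 ∧ WF p.2}) := h1.subtype_mk
  exact measurable_sepc.comp h2

theorem sep_comp {i : ι} {t p : P} (ht : T.M i t) (hp : T.M i p)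
    (h : ∀ t', (T.X i).le t' t → Comp (T.X i) t' p) : (T.X i).le t p := by
  by_contra hcon
  have h1 : ∃ j ∈ R.supp p, ¬ Forc (T.X j) (R.res j t)
      fun h => Pt (R.cv t j h) ⊆ Pt (R.cv p j h) := by
    by_contra hc
    push Not at hc
    exact hcon (T.le_of_forc ht hp hc)
  obtain ⟨j, hj, h2⟩ := h1
  have hji : j < i := T.M_supp hp hj
  obtain ⟨s, hs, h3⟩ := (T.dec_sub ht hp).neg h2
  obtain ⟨x, hx⟩ : ∃ x : Set P → Cz, x = fun h => sepc (R.cv t j h) (R.cv p j h) := ⟨_, rfl⟩
  have hms : Ms (T.X j) x := by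
    rw [hx]
    exact T.ms_sep ht hp
  have hw : Forc (T.X j) s fun h => WF (x h) := h3.imp fun g _ _ h4 => by
    rw [hx]
    exact wf_sepc (R.wf_cv t j g) (R.wf_cv p j g) h4
  have hle : Forc (T.X j) s fun h => Pt (x h) ⊆ Pt (R.cv t j h) := h3.imp fun g _ _ h4 => by
    rw [hx]
    exact sepc_sub (R.wf_cv t j g) (R.wf_cv p j g) h4
  have hF : T.Fo j s fun h n => (x h n).a := by
    refine (T.ax j).up ((T.ax j).mono hs (T.fo_cva ht j)) ?_ (h3.imp fun g _ _ h4 => ?_)
    · refine ms_pi.2 fun n => ?_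
      have := Ms.comp (measurable_a n) hms
      exact this
    · obtain ⟨N, hN⟩ := sepc_a (R.wf_cv t j g) (R.wf_cv p j g) h4
      refine ⟨N, fun n hn h5 => ?_⟩
      rw [hx]
      simp only
      rw [hN n hn]
      exact h5
  obtain ⟨r, hr1, hr2⟩ := h _ (T.rep_le hji ht hs hms hw hF hle)
  have hr3 : (T.X j).le (R.res j r) s := by
    have h5 := T.res_le hr1 j
    rwa [T.res_rep hs] at h5
  have h6 := T.forc_le hr1 hji
  have h7 := T.forc_le hr2 hji
  have h8 := (T.cv_rep hji ht hs hw).mono hr3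
  have h9 := h3.mono hr3
  refine Forc.not_false ((T.X j).left hr3) ((((h6.and h7).and h8).and h9).imp ?_)
  rintro g _ _ ⟨⟨⟨g1, g2⟩, g3⟩, g4⟩
  have g5 := (R.wf_cv r j g).pt_mem
  have g6 := g1 g5
  rw [g3, hx] at g6
  exact sepc_disj (R.wf_cv t j g) (R.wf_cv p j g) g4 g6 (g2 g5)

theorem sep {i : ι} {t p : P} (ht : T.M i t) (hp : T.M i p)
    (h : Forc (T.X i) t fun h => p ∈ h) : (T.X i).le t p :=
  T.sep_comp ht hp fun _ ht' => Forc.comp ((T.X i).left ht') (h.mono ht')

end Itn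

end Pool.Agent.MF45
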