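import Pool.Agent.MF45.IpB
import Pool.Agent.MF45.ItE

/-!
# The successor step: genericity of the fusion

Paper proof.  Let `m h = ε h (k + 1) ≥ k + 1`.  Let `B h` be the set of all
conditions `b u h` for `u ∈ Pat (m h)`, where `b u h` is the first `r'' ∈ N.c ∩ Dq k` (in an
enumeration) with `T.M i r''`, `res β r'' ∈ h` and
`Pt (Upd (m h) u (cv (ρ (m h) h) β h)) ⊆ Pt (cv r'' β h)` (if there is none, omit `u`); such `r''`
exist by `SR` for the index `m h - 1 ≥ k` (`m h = (m h - 1) + 1`, and `Dq k` is in the list).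
`B h` is finite, and the statements `r ∈ B h` are densely decided.  We show that `q'` forces that
`h` meets `B (tr β h)`.  By `Forc.loc` it suffices that each `r ≤ q'` has an extension `r₂` which is
below some `r'' ∈ N.c ∩ Dq k` such that `res β r₂` forces `r'' ∈ B h`.  Let `s = res β r ≤ q`;
extend `s` to a condition `s'` of the stage `β` which decides `m h = m`, the values
`u n = pt (cv r β h) n` for `n < m` (let `u n = []` for `n ≥ m`) and
`b u h = r''` (countable sets of values: `Ms.decide`, `Dv.decide`), and with `s' ≤ res β r''`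
(`sep`, as `s'` forces `res β r'' ∈ h`).  Let `r₂ = rep β s' (fun h => fixm m (cv r β h)) r`.
Then `r₂ ≤ r`, and `r₂ ≤ r''` by `le_succ`: a point `c` of `fixm m (cv r β h)` is a point of
`cv r β h`, hence of `cv q' β h = z h` (as `r ≤ q'`), so it is in
`Pt (Upd m c (cv (ρ m h) β h))`; its first `m` values are given by `u` (`fixm_val`), so it is in
`Pt (Upd m u (cv (ρ m h) β h)) ⊆ Pt (cv r'' β h)` (`upd_congr`).
-/

namespace Pool.Agent.MF45

universe u

open Set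

variable {ι P : Type u} [LinearOrder ι] [WellFoundedLT ι] {R : Raw ι P} (T : Itn R)

/-- the condition `r` covers the pattern `u` of length `M` -/
private def ipe_q (T : Itn R) (ρ : ℕ → Set P → P) (β : ι) (M : ℕ) (u : ℕ → List Bool) (h : Set P)
    (r : P) : Prop :=
  R.res β r ∈ h ∧ Pt (Upd M u (R.cv (ρ M h) β h)) ⊆ Pt (R.cv r β h)

private theorem ipe_dec_q {N : Nd ι P} (hc : N.c.Countable) {β i : ι} {ρ : ℕ → Set P → P}
    (hd : ∀ m, Dv (T.X β) (ρ m)) (hv : ∀ m h, ρ m h ∈ N.c ∧ T.M i (ρ m h)) {M : ℕ}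
    {u : ℕ → List Bool} (hu : u ∈ Pat M) {r : P} (hr : T.M i r) :
    Dec (T.X β) fun h => ipe_q T ρ β M u h r := by
  have hC : ({a | a ∈ N.c ∧ T.M i a} : Set P).Countable := hc.mono fun a ha => ha.1
  have h1 : Ms (T.X β) fun h => R.cv (ρ M h) β h :=
    (hd M).ms (x := fun a => R.cv a β) hC (fun h => hv M h) fun a ha => T.ms_cv ha.2 β
  have h2 : Ms (T.X β) fun h => (Upd M u (R.cv (ρ M h) β h), R.cv r β h) :=
    (((Ms.const u).prod h1).comp (measurable_upd M)).prod (T.ms_cv hr β)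
  refine (Dec.mem _).and ((h2.dec measurableSet_sub).congr fun h _ => ?_)
  constructor
  · intro h3
    exact h3.2.2
  · intro h3
    exact ⟨wf_upd (R.wf_cv _ _ _) hu.1, R.wf_cv _ _ _, h3⟩

theorem Itn.fin_sets {N : Nd ι P} (hc : N.c.Countable) {β i : ι}
    (hβ : ∀ j, j < i ↔ j ≤ β) {q : P} {ρ : ℕ → Set P → P} (hd : ∀ m, Dv (T.X β) (ρ m))
    (hv : ∀ m h, ρ m h ∈ N.c ∧ T.M i (ρ m h)) {Dq : ℕ → Set P}
    (hf : Forc (T.X β) q fun h => ∀ m, R.res β (ρ m h) ∈ h ∧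
        T.SR N β i h (ρ m h) (m + 1) ((List.range (m + 1)).map Dq) (ρ (m + 1) h))
    {z : Set P → Cz} {ε : Set P → ℕ → ℕ} (hε : Ms (T.X β) ε)
    (hz : Forc (T.X β) q fun h => ∀ k, k ≤ ε h k ∧ ∀ c ∈ Pt (z h),
        c ∈ Pt (Upd (ε h k) c (R.cv (ρ (ε h k) h) β h)))
    {q' : P} (hq' : T.M i q') (hr : R.res β q' = q)
    (hcv : Forc (T.X β) q fun h => R.cv q' β h = z h) (k : ℕ) :
    ∃ B : Set P → Set P, (∀ h, (B h).Finite ∧ B h ⊆ Dq k ∩ N.c) ∧
      (∀ r, Dec (T.X β) fun h => r ∈ B h) ∧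
      Forc (T.X i) q' fun h => ∃ p ∈ h, p ∈ B (R.tr β h) := by
  classical
  obtain ⟨C, hC⟩ : ∃ C : Set P, C = {r | r ∈ N.c ∧ r ∈ Dq k ∧ T.M i r} := ⟨_, rfl⟩
  have hCc : C.Countable := hc.mono fun r hr => by rw [hC] at hr; exact hr.1
  have hCm : ∀ r ∈ C, r ∈ N.c ∧ r ∈ Dq k ∧ T.M i r := fun r hr => by rw [hC] at hr; exact hr
  obtain ⟨g, hg⟩ := Set.countable_iff_exists_injOn.1 hCc
  have hCC := hCc.to_subtype
  have hβi : β < i := (hβ β).2 le_rfl
  obtain ⟨L, hL⟩ : ∃ L : ℕ → (ℕ → List Bool) → Set P → P → Prop,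
      ∀ M u h r, L M u h r ↔ r ∈ C ∧ ipe_q T ρ β M u h r ∧
        ∀ r' : C, g r' < g r → ¬ ipe_q T ρ β M u h r' :=
    ⟨fun M u h r => r ∈ C ∧ ipe_q T ρ β M u h r ∧
        ∀ r' : C, g r' < g r → ¬ ipe_q T ρ β M u h r', fun _ _ _ _ => Iff.rfl⟩
  have hLu : ∀ M u h r r', L M u h r → L M u h r' → r = r' := by
    intro M u h r r' h1 h2
    rw [hL] at h1 h2
    rcases lt_trichotomy (g r) (g r') with h3 | h3 | h3
    · exact absurd h1.2.1 (h2.2.2 ⟨r, h1.1⟩ h3)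
    · exact hg h1.1 h2.1 h3
    · exact absurd h2.2.1 (h1.2.2 ⟨r', h2.1⟩ h3)
  have hLe : ∀ M u h, (∃ r ∈ C, ipe_q T ρ β M u h r) → ∃ r : C, L M u h r := by
    rintro M u h ⟨r, hrC, hr1⟩
    have h1 : ∃ n, ∃ r ∈ C, ipe_q T ρ β M u h r ∧ g r = n := ⟨g r, r, hrC, hr1, rfl⟩
    obtain ⟨r', h2, h3, h4⟩ := Nat.find_spec h1
    refine ⟨⟨r', h2⟩, (hL _ _ _ _).2 ⟨h2, h3, fun r'' h5 h6 => ?_⟩⟩
    rw [h4] at h5
    exact Nat.find_min h1 h5 ⟨r'', r''.2, h6, rfl⟩
  have hLd : ∀ M, ∀ u ∈ Pat M, ∀ r, Dec (T.X β) fun h => L M u h r := by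
    intro M u hu r
    simp only [hL]
    by_cases hrC : r ∈ C
    · refine (Dec.const _).and ((ipe_dec_q T hc hd hv hu (hCm r hrC).2.2).and ?_)
      exact Dec.all fun r' => (Dec.const _).imp (ipe_dec_q T hc hd hv hu (hCm r' r'.2).2.2).not
    · refine (Dec.const False).congr fun h _ => ?_
      constructor
      · intro h1
        exact h1.elim
      · intro h1
        exact hrC h1.1
  have hεk : Ms (T.X β) fun h => ε h (k + 1) := ms_pi.1 hε (k + 1)
  refine ⟨fun h => {r | ∃ u ∈ Pat (ε h (k + 1)), L (ε h (k + 1)) u h r}, ?_, ?_, ?_⟩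
  · intro h
    refine ⟨?_, ?_⟩
    · have h1 : {r | ∃ u ∈ Pat (ε h (k + 1)), L (ε h (k + 1)) u h r} =
          ⋃ u ∈ Pat (ε h (k + 1)), {r | L (ε h (k + 1)) u h r} := by
        ext r
        simp only [mem_ofPred_eq, mem_iUnion, exists_prop]
      change ({r | ∃ u ∈ Pat (ε h (k + 1)), L (ε h (k + 1)) u h r}).Finite
      rw [h1]
      refine (finite_pat _).biUnion fun u _ => Set.Subsingleton.finite ?_
      intro r h2 r' h3
      exact hLu _ _ _ _ _ h2 h3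
    · rintro r ⟨u, _, hr1⟩
      have h2 := hCm r ((hL _ _ _ _).1 hr1).1
      exact ⟨h2.2.1, h2.1⟩
  · intro r
    have h1 : Dec (T.X β) fun h => ∃ M : ℕ, ε h (k + 1) = M ∧ ∃ u : Pat M, L M u h r := by
      refine Dec.ex fun M => (ms_countable.1 hεk M).and ?_
      have := (finite_pat M).countable.to_subtype
      exact Dec.ex fun u => hLd M u u.2 r
    refine h1.congr fun h _ => ?_
    constructor
    · rintro ⟨M, rfl, u, hu⟩
      exact ⟨u, u.2, hu⟩
    · rintro ⟨u, hu, h2⟩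
      exact ⟨_, rfl, ⟨u, hu⟩, h2⟩
  · refine Forc.loc fun r hrq => ?_
    have hrM : T.M i r := T.M_left hrq
    have hs : (T.X β).le (R.res β r) q := by
      have := T.res_le hrq β
      rwa [hr] at this
    -- the length of the pattern
    obtain ⟨s₁, hs₁, M, hM⟩ := hεk.decide ((T.X β).left hs)
    -- the pattern
    have hpt : Ms (T.X β) fun h => pt (R.cv r β h) := (T.ms_cv hrM β).comp measurable_pt
    obtain ⟨s₂, hs₂, u, hu⟩ : ∃ s₂, (T.X β).le s₂ s₁ ∧ ∃ u : Pat M,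
        Forc (T.X β) s₂ fun h => ∀ n, n < M → pt (R.cv r β h) n = u.1 n := by
      have := (finite_pat M).countable.to_subtype
      refine Forc.decide (ι := Pat M)
        (φ := fun u h => ∀ n, n < M → pt (R.cv r β h) n = u.1 n) (fun u => ?_)
        ((T.X β).left hs₁) (Forc.of_all fun h _ _ => ?_)
      · exact Dec.all fun n => (Dec.const _).imp (ms_countable.1 (ms_pi.1 hpt n) _)
      · refine ⟨⟨cutf M (pt (R.cv r β h)), cutf_mem (R.wf_cv _ _ _) (R.wf_cv _ _ _).pt_mem M⟩,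
          fun n hn => ?_⟩
        simp only [cutf, hn, if_true]
    have hs₂q : (T.X β).le s₂ q := (T.X β).trans hs₂ ((T.X β).trans hs₁ hs)
    have hM₂ : Forc (T.X β) s₂ fun h => ε h (k + 1) = M := hM.mono hs₂
    have hkM : k + 1 ≤ M := by
      have h1 : Forc (T.X β) s₂ fun _ => k + 1 ≤ M :=
        (hM₂.and (hz.mono hs₂q)).imp fun h _ _ h2 => by
          rw [← h2.1]
          exact (h2.2 (k + 1)).1
      exact h1.const ((T.X β).left hs₂)
    -- the condition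
    obtain ⟨s₃, hs₃, r'', hr''⟩ : ∃ s₃, (T.X β).le s₃ s₂ ∧ ∃ r'' : C,
        Forc (T.X β) s₃ fun h => L M u.1 h r'' := by
      refine Forc.decide (ι := C) (φ := fun r'' h => L M u.1 h r'') (fun r'' => hLd M u.1 u.2 r'')
        ((T.X β).left hs₂) ((hf.mono hs₂q).imp fun h _ _ h1 => hLe _ _ _ ?_)
      obtain ⟨m', rfl⟩ : ∃ m', M = m' + 1 := ⟨M - 1, by omega⟩
      obtain ⟨-, -, -, -, -, -, h2⟩ := h1 m'
      obtain ⟨r'', h3, h4, h5, h6, h7⟩ := h2 u.1 u.2 (Dq k)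
        (List.mem_map.2 ⟨k, List.mem_range.2 (by omega), rfl⟩)
      exact ⟨r'', by rw [hC]; exact ⟨h3, h4, h5⟩, h6, h7⟩
    have hr''M : T.M i r''.1 := (hCm _ r''.2).2.2
    have hs₃s : (T.X β).le s₃ (R.res β r) := (T.X β).trans hs₃ ((T.X β).trans hs₂ hs₁)
    have hs₃q : (T.X β).le s₃ q := (T.X β).trans hs₃ hs₂q
    have hs₃r'' : (T.X β).le s₃ (R.res β r''.1) := by
      refine T.sep (T.M_left hs₃) (T.M_res hr''M β) (hr''.imp fun h _ _ h1 => ?_)
      exact ((hL _ _ _ _).1 h1).2.1.1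
    -- the extension of `r`
    have hx : Ms (T.X β) fun h => fixm M (R.cv r β h) := (T.ms_cv hrM β).comp (measurable_fixm M)
    have hw : Forc (T.X β) s₃ fun h => WF (fixm M (R.cv r β h)) :=
      Forc.of_all fun h _ _ => wf_fixm (R.wf_cv _ _ _) M
    have hF : T.Fo β s₃ fun h n => (fixm M (R.cv r β h) n).a := by
      refine (T.ax β).up ((T.ax β).mono hs₃s (T.fo_cva hrM β)) ?_ (Forc.of_all fun h _ _ => ?_)
      · exact ms_pi.2 fun n => hx.comp (measurable_a n)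
      · obtain ⟨N₀, hN₀⟩ := fixm_a (R.wf_cv r β h) M
        refine ⟨N₀, fun n hn h1 => ?_⟩
        rw [hN₀ n hn]
        exact h1
    have hle : Forc (T.X β) s₃ fun h => Pt (fixm M (R.cv r β h)) ⊆ Pt (R.cv r β h) :=
      Forc.of_all fun h _ _ => fixm_sub (R.wf_cv _ _ _) M
    have hM2 := T.M_rep hβi hrM hs₃s hx hw hF hle
    have hle2 := T.rep_le hβi hrM hs₃s hx hw hF hle
    have hcv2 := T.cv_rep hβi hrM hs₃s hw
    have hres2 : R.res β (R.rep β s₃ (fun h => fixm M (R.cv r β h)) r) = s₃ := T.res_rep hs₃s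
    have hle3 : (T.X i).le (R.rep β s₃ (fun h => fixm M (R.cv r β h)) r) r''.1 := by
      refine T.le_succ hβ hM2 hr''M (by rw [hres2]; exact hs₃r'') ?_
      rw [hres2]
      have h1 : Forc (T.X β) s₃ fun h => Pt (R.cv r β h) ⊆ Pt (R.cv q' β h) :=
        (T.forc_le hrq hβi).mono hs₃s
      refine (((hcv2.and h1).and ((hcv.mono hs₃q).and (hz.mono hs₃q))).and
        (((hu.mono hs₃).and (hM₂.mono hs₃)).and hr'')).imp ?_
      rintro h _ _ ⟨⟨⟨h2, h3⟩, h4, h5⟩, ⟨⟨h6, h7⟩, h8⟩⟩ c hcc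
      rw [h2] at hcc
      have h9 : c ∈ Pt (z h) := by
        rw [← h4]
        exact h3 (fixm_sub (R.wf_cv _ _ _) M hcc)
      have h10 := (h5 (k + 1)).2 c h9
      rw [h7] at h10
      have h11 : Upd M c (R.cv (ρ M h) β h) = Upd M u.1 (R.cv (ρ M h) β h) :=
        upd_congr fun n hn => (fixm_val (R.wf_cv _ _ _) hcc hn).trans (h6 n hn)
      rw [h11] at h10
      exact ((hL _ _ _ _).1 h8).2.1.2 h10
    refine ⟨_, hle2, ?_⟩
    have h1 : Forc (T.X β) (R.res β (R.rep β s₃ (fun h => fixm M (R.cv r β h)) r))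
        fun h => ∃ u ∈ Pat (ε h (k + 1)), L (ε h (k + 1)) u h r''.1 := by
      rw [hres2]
      refine ((hM₂.mono hs₃).and hr'').imp fun h _ _ h2 => ?_
      rw [h2.1]
      exact ⟨u.1, u.2, h2.2⟩
    exact ((T.forc_up' hβi.le hM2 h1).and (Forc.mem_of_le hle3)).imp
      fun h _ _ h2 => ⟨r''.1, h2.2, h2.1⟩

end Pool.Agent.MF45
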