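import Pool.Agent.MF45.IpC
import Pool.Agent.MF45.IpD
import Pool.Agent.MF45.IpE

/-!
# The successor step

Paper proof.  Let `Dq` enumerate the sets in `N.d` which are dense at the stage `i` (`univ` is
one).  Take `ρ` by `exists_rho` and `z`, `ε` by `exists_fus`, and let `q'` be the condition with
`res β q' = q` and the entry `z` at `β` (`exists_snoc`).  The last clause is `fin_sets`, and it
implies that `q'` is generic.  `q'` forces `π (tr β h) ∈ h`: by `Forc.loc`; let `r ≤ q'`, extend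
`res β r` to `s` which decides `π h = p ∈ N.c` (`Dv.decide`) with `s ≤ res β p` (`sep`), and let
`r₂ = glue β s r`.  Then `r₂ ≤ p` by `le_succ`, as `s` forces `Pt (cv r β h) ⊆ Pt (z h) ⊆
Pt (cv (ρ 0 h) β h)`, by the statement about `ε h 0 = 0` and `upd_zero`.
-/

namespace Pool.Agent.MF45

universe u

open Set

variable {ι P : Type u} [LinearOrder ι] [WellFoundedLT ι] {R : Raw ι P} (T : Itn R)

theorem Itn.ip {f : Set P → ℕ → ℕ} {N : Nd ι P} (hN : T.Good f N) {β i : ι}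
    (hβN : β ∈ N.o) (hiN : i ∈ N.o) (hβ : ∀ j, j < i ↔ j ≤ β) {q : P} (hq : T.Gen N β q)
    {π : Set P → P} (hπ : ∀ h, π h ∈ N.c ∧ T.M i (π h)) (hd : Dv (T.X β) π)
    (hf : Forc (T.X β) q fun h => R.res β (π h) ∈ h) :
    ∃ q', T.Gen N i q' ∧ R.res β q' = q ∧ (Forc (T.X i) q' fun h => π (R.tr β h) ∈ h) ∧
      ∀ D ∈ N.d, Dns (T.X i) D → ∃ B : Set P → Set P,
        (∀ h, (B h).Finite ∧ B h ⊆ D ∩ N.c) ∧ (∀ r, Dec (T.X β) fun h => r ∈ B h) ∧
        Forc (T.X i) q' fun h => ∃ p ∈ h, p ∈ B (R.tr β h) := by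
  have hβi : β < i := (hβ β).2 le_rfl
  have hu : Dns (T.X i) (Set.univ : Set P) := fun p hp => ⟨p, trivial, hp⟩
  obtain ⟨Dq, hDq⟩ : ∃ Dq : ℕ → Set P, {D | D ∈ N.d ∧ Dns (T.X i) D} = Set.range Dq :=
    (hN.cd.mono fun D hD => hD.1).exists_eq_range ⟨Set.univ, hN.univ, hu⟩
  have hDq1 : ∀ n, Dq n ∈ N.d ∧ Dns (T.X i) (Dq n) := fun n => by
    have h1 : Dq n ∈ Set.range Dq := ⟨n, rfl⟩
    rw [← hDq] at h1
    exact h1
  obtain ⟨ρ, hρ0, hρd, hρv, hρf⟩ := T.exists_rho hN hβN hiN hβ hq hπ hd hf hDq1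
  obtain ⟨z, ε, hz, hε, hε0, hzw, hzF, hzε⟩ := T.exists_fus hN.cc hq.1 hρd hρv hρf
  obtain ⟨q', hq'M, hq'r, hq'c, -⟩ := T.exists_snoc hβi hq.1 hz hzw hzF
  have hfin : ∀ D ∈ N.d, Dns (T.X i) D → ∃ B : Set P → Set P,
        (∀ h, (B h).Finite ∧ B h ⊆ D ∩ N.c) ∧ (∀ r, Dec (T.X β) fun h => r ∈ B h) ∧
        Forc (T.X i) q' fun h => ∃ p ∈ h, p ∈ B (R.tr β h) := by
    intro D hD hDd
    have h1 : D ∈ Set.range Dq := by
      rw [← hDq]
      exact ⟨hD, hDd⟩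
    obtain ⟨k, rfl⟩ := h1
    exact T.fin_sets hN.cc hβ hρd hρv hρf hε hzε hq'M hq'r hq'c k
  refine ⟨q', ⟨hq'M, fun D hD hDd => ?_⟩, hq'r, ?_, hfin⟩
  · -- genericity
    obtain ⟨B, hB1, -, hB3⟩ := hfin D hD hDd
    exact hB3.imp fun h _ _ ⟨p, hp, hpB⟩ => ⟨p, hp, ((hB1 _).2 hpB).1, ((hB1 _).2 hpB).2⟩
  · -- `π` is in the filter
    refine Forc.loc fun r hrq => ?_
    have hrM : T.M i r := T.M_left hrq
    have hs : (T.X β).le (R.res β r) q := by
      have h1 := T.res_le hrq β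
      rwa [hq'r] at h1
    obtain ⟨s, hs1, p, hpN, hp⟩ := hd.decide (C := {p | p ∈ N.c ∧ T.M i p})
      (hN.cc.mono fun p hp => hp.1) ((T.X β).left hs) (Forc.of_all fun h _ _ => hπ h)
    have hsq : (T.X β).le s q := (T.X β).trans hs1 hs
    have hsp : (T.X β).le s (R.res β p) := by
      refine T.sep (T.M_left hs1) (T.M_res hpN.2 β) (((hf.mono hsq).and hp).imp ?_)
      rintro h _ _ ⟨h1, h2⟩
      rw [← h2]
      exact h1
    have hg := T.glue_le hβi.le hrM hs1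
    have hres : R.res β (R.glue β s r) = s := T.res_glue hs1
    have hgM := T.M_glue hβi.le hrM hs1
    have hgp : (T.X i).le (R.glue β s r) p := by
      refine T.le_succ hβ hgM hpN.2 (by rw [hres]; exact hsp) ?_
      rw [hres, R.cv_glue_ge le_rfl]
      have h1 : Forc (T.X β) s fun h => Pt (R.cv r β h) ⊆ Pt (R.cv q' β h) :=
        (T.forc_le hrq hβi).mono hs1
      refine ((h1.and (hq'c.mono hsq)).and ((hzε.mono hsq).and hp)).imp ?_
      rintro h _ _ ⟨⟨h2, h3⟩, h4, h5⟩ c hc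
      have h6 := h2 hc
      rw [h3] at h6
      have h7 := (h4 0).2 c h6
      rw [hε0, upd_zero, hρ0, h5] at h7
      exact h7
    refine ⟨_, hg, ?_⟩
    have h1 : Forc (T.X β) (R.res β (R.glue β s r)) fun h => π h = p := by
      rw [hres]
      exact hp
    refine ((T.forc_up' hβi.le hgM h1).and (Forc.mem_of_le hgp)).imp fun h _ _ h2 => ?_
    rw [h2.1]
    exact h2.2

end Pool.Agent.MF45
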