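import Pool.Agent.MF45.ItA
import Pool.Agent.MF45.CzM1

/-!
# Iterations: the order

Paper proofs.  `le_iff` says: `(X i).le q p` iff `q` and `p` are conditions of the stage `i` and
for all `j ∈ supp p` the condition `res j q` forces `Pt (cv q j h) ⊆ Pt (cv p j h)`.  For
`j ∉ supp p` the latter holds trivially, since `cv p j h = topc` and all codes `cv` are well formed
(`WF.pt_sub_topc`).  Everything about a condition of the stage `i` or about the order at the
coordinate `j` concerns only `res j` of the conditions (`Raw.res_res`), the entries, and the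
stage `j`.  `M_of` : by well-founded induction on `k ≤ i` show `T.M k (res k p)`.
-/

namespace Pool.Agent.MF45

universe u

open Set

variable {ι P : Type u} [LinearOrder ι] [WellFoundedLT ι] {R : Raw ι P} (T : Itn R)

namespace Itn

theorem le_self {i : ι} {p : P} : (T.X i).le p p ↔ T.M i p := by
  refine ⟨fun h => (T.le_iff.1 h).1, fun h => T.le_iff.2 ⟨h, h, fun j _ => ?_⟩⟩
  exact Forc.of_all fun _ _ _ => Subset.rfl

theorem M_left {i : ι} {q p : P} (h : (T.X i).le q p) : T.M i q := by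
  exact (T.le_iff.1 h).1

theorem M_right {i : ι} {q p : P} (h : (T.X i).le q p) : T.M i p := by
  exact (T.le_iff.1 h).2.1

theorem M_supp {i : ι} {p : P} (h : T.M i p) : R.supp p ⊆ Iio i := by
  exact h.1

theorem M_mono {i j : ι} (hji : j ≤ i) {p : P} (h : T.M j p) : T.M i p := by
  exact ⟨h.1.trans (Iio_subset_Iio hji), h.2⟩

theorem M_res {i : ι} {p : P} (h : T.M i p) (j : ι) : T.M j (R.res j p) := by
  refine ⟨?_, fun k hk => ?_⟩
  · rw [Raw.supp_res]
    exact inter_subset_right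
  · rw [Raw.supp_res] at hk
    obtain ⟨hk1, hk2⟩ := hk
    have h1 := h.2 k hk1
    rw [Raw.nm_res R hk1 hk2, Raw.res_res_of_le R (le_of_lt hk2), Raw.cva_res R hk2]
    exact h1

theorem res_self {i : ι} {p : P} (h : T.M i p) : R.res i p = p := by
  exact Raw.res_eq_self R h.1

/-- a condition whose support is smaller is a condition of an earlier stage -/
theorem M_of_supp {i j : ι} {p : P} (h : T.M i p) (hs : R.supp p ⊆ Iio j) : T.M j p := by
  exact ⟨hs, h.2⟩

theorem M_one (i : ι) : T.M i R.one := by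
  refine ⟨?_, fun j hj => ?_⟩
  · rw [Raw.supp_one]
    exact empty_subset _
  · rw [Raw.supp_one] at hj
    exact absurd hj (notMem_empty j)

theorem le_one {i : ι} {p : P} (h : T.M i p) : (T.X i).le p R.one := by
  refine T.le_iff.2 ⟨h, T.M_one i, fun j hj => ?_⟩
  rw [Raw.supp_one] at hj
  exact absurd hj (notMem_empty j)

/-- entries of conditions are names -/
theorem ms_cv {i : ι} {p : P} (h : T.M i p) (j : ι) : Ms (T.X j) (R.cv p j) := by
  by_cases hj : j ∈ R.supp p
  · have h1 : Ms (T.X j) (R.nm p j) := (h.2 j hj).1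
    have h2 : Dec (T.X j) fun h => WF (R.nm p j h) := h1.dec measurableSet_wf
    have h3 := Ms.ite h2 h1 (Ms.const (X := T.X j) topc)
    have e : R.cv p j = fun h => open Classical in if WF (R.nm p j h) then R.nm p j h else topc := by
      funext g
      unfold Raw.cv
      by_cases hw : WF (R.nm p j g)
      · rw [if_pos ⟨hj, hw⟩, if_pos hw]
      · rw [if_neg (fun hc => hw hc.2), if_neg hw]
    rw [e]
    exact h3
  · have e : R.cv p j = fun _ => topc := by
      funext g
      exact Raw.cv_not_mem R hj g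
    rw [e]
    exact Ms.const topc

theorem ms_cva {i : ι} {p : P} (h : T.M i p) (j : ι) : Ms (T.X j) (R.cva p j) := by
  have h1 : Measurable fun z : Cz => fun n => (z n).a := measurable_pi_iff.2 measurable_a
  exact (T.ms_cv h j).comp h1

/-- the sets `A` of the entries of a condition are in the filters -/
theorem fo_cva {i : ι} {p : P} (h : T.M i p) (j : ι) : T.Fo j (R.res j p) (R.cva p j) := by
  by_cases hj : j ∈ R.supp p
  · exact (h.2 j hj).2
  · rw [Raw.cva_not_mem R hj]
    exact (T.ax j).univ _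

theorem forc_le {i j : ι} {q p : P} (h : (T.X i).le q p) (hj : j < i) :
    Forc (T.X j) (R.res j q) fun h => Pt (R.cv q j h) ⊆ Pt (R.cv p j h) := by
  by_cases hjp : j ∈ R.supp p
  · exact (T.le_iff.1 h).2.2 j hjp
  · refine Forc.of_all fun g _ _ => ?_
    rw [Raw.cv_not_mem R hjp g]
    exact (Raw.wf_cv R q j g).pt_sub_topc

theorem le_of_forc {i : ι} {q p : P} (hq : T.M i q) (hp : T.M i p)
    (h : ∀ j ∈ R.supp p, Forc (T.X j) (R.res j q) fun h => Pt (R.cv q j h) ⊆ Pt (R.cv p j h)) :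
    (T.X i).le q p := by
  exact T.le_iff.2 ⟨hq, hp, h⟩

theorem le_mono {i j : ι} (hji : j ≤ i) {q p : P} (h : (T.X j).le q p) : (T.X i).le q p := by
  have h1 := T.le_iff.1 h
  exact T.le_iff.2 ⟨T.M_mono hji h1.1, T.M_mono hji h1.2.1, h1.2.2⟩

theorem le_of_supp {i j : ι} {q p : P} (h : (T.X i).le q p) (hq : R.supp q ⊆ Iio j)
    (hp : R.supp p ⊆ Iio j) : (T.X j).le q p := by
  have h1 := T.le_iff.1 h
  exact T.le_iff.2 ⟨T.M_of_supp h1.1 hq, T.M_of_supp h1.2.1 hp, h1.2.2⟩

theorem res_le {i : ι} {q p : P} (h : (T.X i).le q p) (j : ι) :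
    (T.X j).le (R.res j q) (R.res j p) := by
  have h1 := T.le_iff.1 h
  refine T.le_iff.2 ⟨T.M_res h1.1 j, T.M_res h1.2.1 j, fun k hk => ?_⟩
  rw [Raw.supp_res] at hk
  obtain ⟨hk1, hk2⟩ := hk
  rw [Raw.res_res_of_le R (le_of_lt hk2), Raw.cv_res R hk2, Raw.cv_res R hk2]
  exact h1.2.2 k hk1

theorem le_res {i j : ι} (hji : j ≤ i) {p : P} (h : T.M i p) : (T.X i).le p (R.res j p) := by
  refine T.le_iff.2 ⟨h, T.M_mono hji (T.M_res h j), fun k hk => ?_⟩
  rw [Raw.supp_res] at hk
  rw [Raw.cv_res R hk.2]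
  exact Forc.of_all fun _ _ _ => Subset.rfl

/-- construction of conditions -/
theorem M_of {i : ι} {p : P} (hs : R.supp p ⊆ Iio i) (h : ∀ j ∈ R.supp p, T.M j (R.res j p) →
    Ms (T.X j) (R.nm p j) ∧ T.Fo j (R.res j p) (R.cva p j)) : T.M i p := by
  have key : ∀ k : ι, T.M k (R.res k p) := by
    intro k
    induction k using WellFoundedLT.induction with
    | ind k ih =>
      refine ⟨?_, fun j hj => ?_⟩
      · rw [Raw.supp_res]
        exact inter_subset_right
      · rw [Raw.supp_res] at hj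
        obtain ⟨hj1, hj2⟩ := hj
        rw [Raw.nm_res R hj1 hj2, Raw.res_res_of_le R (le_of_lt hj2), Raw.cva_res R hj2]
        exact h j hj1 (ih j hj2)
  exact ⟨hs, fun j hj => h j hj (key j)⟩

theorem M_of_cover {i : ι} {p : P} (hs : R.supp p ⊆ Iio i)
    (h : ∀ j ∈ R.supp p, ∃ k, j < k ∧ T.M k (R.res k p)) : T.M i p := by
  refine ⟨hs, fun j hj => ?_⟩
  obtain ⟨k, hjk, hk⟩ := h j hj
  have hj' : j ∈ R.supp (R.res k p) := by
    rw [Raw.supp_res]
    exact ⟨hj, hjk⟩
  have h1 := hk.2 j hj'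
  rw [Raw.nm_res R hj hjk, Raw.res_res_of_le R (le_of_lt hjk), Raw.cva_res R hjk] at h1
  exact h1

theorem le_of_cover {i : ι} {q p : P} (hq : T.M i q) (hp : T.M i p)
    (h : ∀ j ∈ R.supp p, ∃ k, j < k ∧ (T.X k).le (R.res k q) (R.res k p)) :
    (T.X i).le q p := by
  refine T.le_iff.2 ⟨hq, hp, fun j hj => ?_⟩
  obtain ⟨k, hjk, hk⟩ := h j hj
  have h1 := T.forc_le hk hjk
  rw [Raw.res_res_of_le R (le_of_lt hjk), Raw.cv_res R hjk, Raw.cv_res R hjk] at h1
  exact h1

/-- the order at a successor stage -/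
theorem le_succ {i β : ι} (hβ : ∀ j, j < i ↔ j ≤ β) {q p : P} (hq : T.M i q) (hp : T.M i p)
    (h : (T.X β).le (R.res β q) (R.res β p))
    (h' : Forc (T.X β) (R.res β q) fun h => Pt (R.cv q β h) ⊆ Pt (R.cv p β h)) :
    (T.X i).le q p := by
  refine T.le_iff.2 ⟨hq, hp, fun j hj => ?_⟩
  have hji : j < i := hp.1 hj
  rcases eq_or_lt_of_le ((hβ j).1 hji) with hjb | hjb
  · subst hjb
    exact h'
  · have h1 := T.forc_le h hjb
    rw [Raw.res_res_of_le R (le_of_lt hjb), Raw.cv_res R hjb, Raw.cv_res R hjb] at h1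
    exact h1

end Itn

end Pool.Agent.MF45
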