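import Pool.Agent.MF45.ItB

/-!
# Iterations: gluing and replacing

Paper proofs.  Let `g = glue j s p` with `s ≤ res j p` at the stage `j`.  Below `j` it is `s`,
from `j` on it has the entries of `p`.  By `M_of` it suffices to check an entry `k ∈ supp g` with
`k ≥ j`, knowing that `res k g` is a condition of the stage `k`.  We have
`(X k).le (res k g) (res k p)`: by `le_iff`, at coordinates `< j` from `s ≤ res j p`, at
coordinates `≥ j` the entries are equal.  So `Fo k (res k g) (cva p k)` by `FoAx.mono`.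
The same for `rep`.  `cv (rep ..) j h = x h` for filters `h` of the stage `j` with `WF (x h)`,
since `tr j h = h`.
-/

namespace Pool.Agent.MF45

universe u

open Set

variable {ι P : Type u} [LinearOrder ι] [WellFoundedLT ι] {R : Raw ι P} (T : Itn R)

namespace Itn

/-- filters of the stage `i` consist of conditions with support below `i` -/
theorem tr_fil {i : ι} {h : Set P} (hh : Fil (T.X i) h) : R.tr i h = h := by
  refine Set.Subset.antisymm (fun q hq => hq.1) fun q hq => ⟨hq, ?_⟩
  exact T.M_supp (T.le_self.1 (hh.le_self hq))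

omit [WellFoundedLT ι] in
private theorem itc_cva_eq {p q : P} {k : ι} (h : R.cv p k = R.cv q k) :
    R.cva p k = R.cva q k := by
  unfold Raw.cva
  rw [h]

private theorem itc_forc_glue {j : ι} {s p : P} (hs : (T.X j).le s (R.res j p)) (l : ι) :
    Forc (T.X l) (R.res l (R.glue j s p)) fun h =>
      Pt (R.cv (R.glue j s p) l h) ⊆ Pt (R.cv p l h) := by
  rcases lt_or_ge l j with h1 | h1
  · rw [R.cv_glue_lt h1, R.res_glue h1.le]
    have h2 := T.forc_le hs h1
    rw [R.cv_res h1] at h2
    exact h2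
  · rw [R.cv_glue_ge h1]
    exact Forc.of_all fun _ _ _ => Set.Subset.rfl

private theorem itc_le_res {g p : P}
    (hf : ∀ l, Forc (T.X l) (R.res l g) fun h => Pt (R.cv g l h) ⊆ Pt (R.cv p l h)) {k : ι}
    (h1 : T.M k (R.res k g)) (h2 : T.M k (R.res k p)) :
    (T.X k).le (R.res k g) (R.res k p) := by
  refine T.le_of_forc h1 h2 fun l hl => ?_
  have hlk : l < k := T.M_supp h2 hl
  rw [R.res_res_of_le hlk.le, R.cv_res hlk, R.cv_res hlk]
  exact hf l

theorem M_glue {i j : ι} (hji : j ≤ i) {s p : P} (hp : T.M i p)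
    (hs : (T.X j).le s (R.res j p)) : T.M i (R.glue j s p) := by
  have hsM : T.M j s := T.M_left hs
  refine T.M_of ?_ fun k hk hMk => ?_
  · rw [R.supp_glue]
    rintro l (⟨-, h2⟩ | ⟨h1, -⟩)
    · exact lt_of_lt_of_le h2 hji
    · exact T.M_supp hp h1
  · rw [R.supp_glue] at hk
    rcases hk with ⟨h1, h2⟩ | ⟨h1, h2⟩
    · have h2' : k < j := h2
      have h3 := hsM.2 k h1
      rw [R.nm_glue_lt h2' h1, R.res_glue h2'.le,
        itc_cva_eq (R := R) (R.cv_glue_lt h2' s p)]
      exact h3
    · have h2' : j ≤ k := h2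
      have h3 := hp.2 k h1
      rw [R.nm_glue_ge h2' h1, itc_cva_eq (R := R) (R.cv_glue_ge h2' s p)]
      refine ⟨h3.1, (T.ax k).mono ?_ h3.2⟩
      exact itc_le_res T (itc_forc_glue T hs) hMk (T.M_res hp k)

theorem glue_le {i j : ι} (hji : j ≤ i) {s p : P} (hp : T.M i p)
    (hs : (T.X j).le s (R.res j p)) : (T.X i).le (R.glue j s p) p := by
  exact T.le_of_forc (T.M_glue hji hp hs) hp fun l _ => itc_forc_glue T hs l

theorem res_glue {j : ι} {s p : P} (hs : (T.X j).le s (R.res j p)) :
    R.res j (R.glue j s p) = s := by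
  rw [R.res_glue le_rfl]
  exact T.res_self (T.M_left hs)

theorem le_glue {i j : ι} (hji : j ≤ i) {s p r : P} (hr : (T.X i).le r p)
    (hs : (T.X j).le s (R.res j p)) (hrs : (T.X j).le (R.res j r) s) :
    (T.X i).le r (R.glue j s p) := by
  have hg := T.M_glue hji (T.M_right hr) hs
  refine T.le_of_forc (T.M_left hr) hg fun l hl => ?_
  have hli : l < i := T.M_supp hg hl
  rcases lt_or_ge l j with h1 | h1
  · rw [R.cv_glue_lt h1]
    have h2 := T.forc_le hrs h1
    rw [R.res_res_of_le h1.le, R.cv_res h1] at h2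
    exact h2
  · rw [R.cv_glue_ge h1]
    exact T.forc_le hr hli

/-- a common extension of conditions, one of which is a condition of an earlier stage -/
theorem exists_glue {i j : ι} (hji : j ≤ i) {s p : P} (hp : T.M i p)
    (hs : (T.X j).le s (R.res j p)) : ∃ q, (T.X i).le q p ∧ (T.X i).le q s ∧
      R.res j q = s := by
  refine ⟨R.glue j s p, T.glue_le hji hp hs, ?_, T.res_glue hs⟩
  have h1 := T.le_res hji (T.M_glue hji hp hs)
  rw [T.res_glue hs] at h1
  exact h1

private theorem itc_cv_rep {j : ι} {s p : P} {x : Set P → Cz}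
    (hw : Forc (T.X j) s fun h => WF (x h)) :
    Forc (T.X j) s fun h => R.cv (R.rep j s x p) j h = x h := by
  refine hw.imp fun h hh _ hwf => ?_
  have h1 := T.tr_fil hh
  have h2 : WF (x (R.tr j h)) := by
    rw [h1]
    exact hwf
  rw [R.cv_rep_eq s x p h2, h1]

private theorem itc_forc_rep {j : ι} {s p : P} {x : Set P → Cz} (hs : (T.X j).le s (R.res j p))
    (hw : Forc (T.X j) s fun h => WF (x h))
    (hle : Forc (T.X j) s fun h => Pt (x h) ⊆ Pt (R.cv p j h)) (l : ι) :
    Forc (T.X l) (R.res l (R.rep j s x p)) fun h =>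
      Pt (R.cv (R.rep j s x p) l h) ⊆ Pt (R.cv p l h) := by
  rcases lt_trichotomy l j with h1 | h1 | h1
  · rw [R.cv_rep_lt h1, R.res_rep h1.le]
    have h2 := T.forc_le hs h1
    rw [R.cv_res h1] at h2
    exact h2
  · subst h1
    rw [R.res_rep le_rfl, T.res_self (T.M_left hs)]
    refine ((itc_cv_rep T (p := p) hw).and hle).imp fun h _ _ h3 => ?_
    rw [h3.1]
    exact h3.2
  · rw [R.cv_rep_gt h1]
    exact Forc.of_all fun _ _ _ => Set.Subset.rfl

section

variable {i j : ι} (hji : j < i) {s p : P} (hp : T.M i p) (hs : (T.X j).le s (R.res j p))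
  {x : Set P → Cz} (hx : Ms (T.X j) x) (hw : Forc (T.X j) s fun h => WF (x h))
  (hF : T.Fo j s fun h n => (x h n).a) (hle : Forc (T.X j) s fun h => Pt (x h) ⊆ Pt (R.cv p j h))

include hji hp hs hx hw hF hle

theorem M_rep : T.M i (R.rep j s x p) := by
  have hsM : T.M j s := T.M_left hs
  refine T.M_of ?_ fun k hk hMk => ?_
  · rw [R.supp_rep]
    rintro l ((⟨-, h2⟩ | h1) | ⟨h1, -⟩)
    · exact lt_trans h2 hji
    · rw [Set.mem_singleton_iff] at h1
      rw [h1]
      exact hji
    · exact T.M_supp hp h1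
  · rw [R.supp_rep] at hk
    rcases hk with (⟨h1, h2⟩ | h1) | ⟨h1, h2⟩
    · have h2' : k < j := h2
      have h3 := hsM.2 k h1
      rw [R.nm_rep_lt h2' x h1, R.res_rep h2'.le, itc_cva_eq (R := R) (R.cv_rep_lt h2' s x p)]
      exact h3
    · rw [Set.mem_singleton_iff] at h1
      subst h1
      have hnm : Ms (T.X k) (R.nm (R.rep k s x p) k) := by
        refine ms_iff.2 fun A hA => (hx.dec hA).congr fun h hh => ?_
        rw [R.nm_rep_eq, T.tr_fil hh]
      have hcv : Ms (T.X k) (R.cv (R.rep k s x p) k) := by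
        have hd : Dec (T.X k) fun h => k ∈ R.supp (R.rep k s x p) ∧
            WF (R.nm (R.rep k s x p) k h) :=
          (Dec.const _).and (hnm.dec measurableSet_wf)
        have he := Ms.ite hd hnm (Ms.const topc)
        have e : R.cv (R.rep k s x p) k = fun h => open Classical in
            if k ∈ R.supp (R.rep k s x p) ∧ WF (R.nm (R.rep k s x p) k h) then
              R.nm (R.rep k s x p) k h else topc := by
          funext h
          unfold Raw.cv
          congr
        rw [e]
        convert he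
      refine ⟨hnm, ?_⟩
      rw [R.res_rep le_rfl, T.res_self hsM]
      refine (T.ax k).up hF ?_ ?_
      · exact ms_pi.2 fun n => Ms.comp (measurable_a n) hcv
      · refine (itc_cv_rep T (p := p) hw).imp fun h _ _ h3 => ⟨0, fun n _ h4 => ?_⟩
        unfold Raw.cva
        rw [h3]
        exact h4
    · have h2' : j < k := h2
      have h3 := hp.2 k h1
      rw [R.nm_rep_gt h2' x h1, itc_cva_eq (R := R) (R.cv_rep_gt h2' s x p)]
      refine ⟨h3.1, (T.ax k).mono ?_ h3.2⟩
      exact itc_le_res T (itc_forc_rep T hs hw hle) hMk (T.M_res hp k)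

theorem rep_le : (T.X i).le (R.rep j s x p) p := by
  exact T.le_of_forc (T.M_rep hji hp hs hx hw hF hle) hp
    fun l _ => itc_forc_rep T hs hw hle l

omit hx hF hle in
theorem cv_rep : Forc (T.X j) s fun h => R.cv (R.rep j s x p) j h = x h := by
  exact itc_cv_rep T hw

omit hji hp hx hw hF hle in
theorem res_rep : R.res j (R.rep j s x p) = s := by
  rw [R.res_rep le_rfl]
  exact T.res_self (T.M_left hs)

end

/-- adding an entry at the end -/
theorem exists_snoc {i j : ι} (hji : j < i) {s : P} (hs : T.M j s) {x : Set P → Cz}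
    (hx : Ms (T.X j) x) (hw : Forc (T.X j) s fun h => WF (x h))
    (hF : T.Fo j s fun h n => (x h n).a) : ∃ q, T.M i q ∧ R.res j q = s ∧
      (Forc (T.X j) s fun h => R.cv q j h = x h) ∧ R.supp q ⊆ Iic j := by
  have hss : R.supp s ⊆ Iio j := T.M_supp hs
  have h1 : (T.X j).le s (R.res j s) := by
    rw [T.res_self hs]
    exact T.le_self.2 hs
  have h2 : Forc (T.X j) s fun h => Pt (x h) ⊆ Pt (R.cv s j h) := by
    refine hw.imp fun h _ _ h3 => ?_
    rw [R.cv_not_mem (fun hj => lt_irrefl _ (hss hj))]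
    exact h3.pt_sub_topc
  refine ⟨R.rep j s x s, T.M_rep hji (T.M_mono hji.le hs) h1 hx hw hF h2, T.res_rep h1,
    itc_cv_rep T hw, ?_⟩
  rw [R.supp_rep]
  rintro l ((⟨-, h3⟩ | h3) | ⟨h3, -⟩)
  · exact le_of_lt h3
  · rw [Set.mem_singleton_iff] at h3
    exact le_of_eq h3
  · exact le_of_lt (hss h3)

end Itn

end Pool.Agent.MF45
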