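import Pool.Agent.MF45.ItC

/-!
# Iterations: filters and the forcing relation at different stages

Paper proofs.  Let `h` be a filter of the stage `i` and `j ≤ i`.  Then `res j p ∈ h` for `p ∈ h`
(`le_res`, upward closed), and `tr j h` is a filter of the stage `j` (directed: take `res j` of a
common extension).  If `D` is dense at the stage `j`, then the set of all `q` of the stage `i`
with `(X i).le q d` for some `d ∈ D` is dense at the stage `i` (glue); a filter `h` which meets it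
contains `d`, and `d ∈ tr j h`.  This gives `forc_up`.  `forc_up'` : `res j p ∈ h` for `p ∈ h`.
`dec_up`: for `p` at the stage `i` take `s ≤ res j p` which decides `φ` at the stage `j` and glue.
`forc_down`: otherwise some `s ≤ res j p` forces `¬ φ` at the stage `j`; then `glue j s p` forces
both.
-/

namespace Pool.Agent.MF45

universe u

open Set

variable {ι P : Type u} [LinearOrder ι] [WellFoundedLT ι] {R : Raw ι P} (T : Itn R)

namespace Itn

theorem res_mem {i j : ι} (hji : j ≤ i) {h : Set P} (hh : Fil (T.X i) h) {p : P} (hp : p ∈ h) :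
    R.res j p ∈ R.tr j h := by
  have hM : T.M i p := T.le_self.1 (hh.le_self hp)
  refine ⟨hh.up hp (T.le_res hji hM), ?_⟩
  rw [R.supp_res]
  exact inter_subset_right

theorem fil_tr {i j : ι} (hji : j ≤ i) {h : Set P} (hh : Fil (T.X i) h) :
    Fil (T.X j) (R.tr j h) := by
  refine ⟨?_, ?_, ?_⟩
  · obtain ⟨p, hp⟩ := hh.ne
    exact ⟨_, T.res_mem hji hh hp⟩
  · intro p q hp hpq
    exact ⟨hh.up hp.1 (T.le_mono hji hpq), T.M_supp (T.M_right hpq)⟩
  · intro p q hp hq
    obtain ⟨r, hr, h1, h2⟩ := hh.dir hp.1 hq.1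
    refine ⟨R.res j r, T.res_mem hji hh hr, ?_, ?_⟩
    · have h3 := T.res_le h1 j
      rwa [R.res_eq_self hp.2] at h3
    · have h3 := T.res_le h2 j
      rwa [R.res_eq_self hq.2] at h3

theorem mem_tr_iff {i j : ι} {h : Set P} (hh : Fil (T.X i) h) {p : P} (hp : T.M j p) :
    p ∈ R.tr j h ↔ p ∈ h := by
  exact ⟨fun h1 => h1.1, fun h1 => ⟨h1, T.M_supp hp⟩⟩

theorem forc_up {i j : ι} (hji : j ≤ i) {s : P} {φ : Set P → Prop} (hs : T.M j s)
    (h : Forc (T.X j) s φ) : Forc (T.X i) s fun h => φ (R.tr j h) := by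
  obtain ⟨D, hD, h1⟩ := h
  refine ⟨fun n => {q | ∃ d ∈ D n, T.M j d ∧ (T.X i).le q d}, fun n p hp => ?_,
    fun g hg hm hsg => ?_⟩
  · have hpM : T.M i p := T.le_self.1 hp
    obtain ⟨d, hd, h2⟩ := hD n (R.res j p) (T.le_self.2 (T.M_res hpM j))
    obtain ⟨q, hq1, hq2, -⟩ := T.exists_glue hji hpM h2
    exact ⟨q, ⟨d, hd, T.M_left h2, hq2⟩, hq1⟩
  · refine h1 _ (T.fil_tr hji hg) (fun n => ?_) ⟨hsg, T.M_supp hs⟩
    obtain ⟨q, hq, d, hd, hdM, h2⟩ := hm n
    exact ⟨d, ⟨hg.up hq h2, T.M_supp hdM⟩, hd⟩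

theorem forc_up' {i j : ι} (hji : j ≤ i) {p : P} {φ : Set P → Prop} (hp : T.M i p)
    (h : Forc (T.X j) (R.res j p) φ) : Forc (T.X i) p fun h => φ (R.tr j h) := by
  exact (T.forc_up hji (T.M_res hp j) h).mono (T.le_res hji hp)

theorem dec_up {i j : ι} (hji : j ≤ i) {φ : Set P → Prop} (h : Dec (T.X j) φ) :
    Dec (T.X i) fun h => φ (R.tr j h) := by
  intro p hp
  have hpM : T.M i p := T.le_self.1 hp
  obtain ⟨s, hs, h1⟩ := h (R.res j p) (T.le_self.2 (T.M_res hpM j))
  obtain ⟨q, hq1, hq2, -⟩ := T.exists_glue hji hpM hs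
  refine ⟨q, hq1, ?_⟩
  rcases h1 with h1 | h1
  · exact Or.inl ((T.forc_up hji (T.M_left hs) h1).mono hq2)
  · exact Or.inr ((T.forc_up hji (T.M_left hs) h1).mono hq2)

theorem ms_up {α : Type*} [MeasurableSpace α] {i j : ι} (hji : j ≤ i) {x : Set P → α}
    (h : Ms (T.X j) x) : Ms (T.X i) fun h => x (R.tr j h) := by
  exact ms_iff.2 fun A hA => T.dec_up hji (h.dec hA)

theorem dv_up {α : Type*} {i j : ι} (hji : j ≤ i) {x : Set P → α}
    (h : Dv (T.X j) x) : Dv (T.X i) fun h => x (R.tr j h) := by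
  exact fun r => T.dec_up hji (h r)

theorem forc_down {i j : ι} (hji : j ≤ i) {p : P} {φ : Set P → Prop} (hp : T.M i p)
    (hd : Dec (T.X j) φ) (h : Forc (T.X i) p fun h => φ (R.tr j h)) :
    Forc (T.X j) (R.res j p) φ := by
  by_contra hc
  obtain ⟨s, hs, h1⟩ := hd.neg hc
  obtain ⟨q, hq1, hq2, -⟩ := T.exists_glue hji hp hs
  have h2 : Forc (T.X i) q fun h => ¬ φ (R.tr j h) :=
    (T.forc_up hji (T.M_left hs) h1).mono hq2
  exact ((h.mono hq1).mp (h2.imp fun _ _ _ h3 h4 => h3 h4)).not_false ((T.X i).left hq1)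

end Itn

end Pool.Agent.MF45
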