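import Pool.Agent.MF45.ItB

/-!
# Iterations: unions of coherent sequences

Paper proof.  `S = ⋃ n, supp (q n)` is countable.  For `j ∈ S` let `n` be least with
`j ∈ supp (q n)` and let the entry at `j` be `nm (q n) j`.  By coherence
`res (γ n) (q m) = q n` for all `m ≥ n`, so the entry is `nm (q m) j` for all `m ≥ n`, and
`supp (q m) ∩ Iio (γ n) = supp (q n)` for `m ≥ n`.  So `res (γ n) q' = q n` by `Raw.ext`, and
`T.M i q'` by `M_of_cover`.
-/

namespace Pool.Agent.MF45

universe u

open Set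

variable {ι P : Type u} [LinearOrder ι] [WellFoundedLT ι] {R : Raw ι P} (T : Itn R)

theorem Itn.exists_union {i : ι} {γ : ℕ → ι} (hγ : Monotone γ) (hi : ∀ n, γ n ≤ i) {q : ℕ → P}
    (hq : ∀ n, T.M (γ n) (q n)) (hr : ∀ n, R.res (γ n) (q (n + 1)) = q n) :
    ∃ q', T.M i q' ∧ (∀ n, R.res (γ n) q' = q n) ∧ R.supp q' ⊆ ⋃ n, Iio (γ n) := by
  classical
  -- coherence
  have hcoh : ∀ n m, n ≤ m → R.res (γ n) (q m) = q n := by
    intro n m hnm
    induction m, hnm using Nat.le_induction with
    | base => exact T.res_self (hq n)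
    | succ m hnm ih =>
      rw [← ih, ← R.res_res_of_le (hγ hnm) (q (m + 1)), hr m]
  have hsub : ∀ n, R.supp (q n) ⊆ Iio (γ n) := fun n => T.M_supp (hq n)
  have hsupp : ∀ n m, n ≤ m → R.supp (q n) = R.supp (q m) ∩ Iio (γ n) := by
    intro n m hnm
    conv_lhs => rw [← hcoh n m hnm]
    exact R.supp_res _ _
  have hentry : ∀ n m, n ≤ m → ∀ j ∈ R.supp (q n), R.nm (q n) j = R.nm (q m) j := by
    intro n m hnm j hj
    have hj' : j ∈ R.supp (q m) := by
      rw [hsupp n m hnm] at hj
      exact hj.1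
    conv_lhs => rw [← hcoh n m hnm]
    exact R.nm_res hj' (hsub n hj)
  -- any two entries at the same place agree
  have hagree : ∀ n m j, j ∈ R.supp (q n) → j ∈ R.supp (q m) →
      R.nm (q n) j = R.nm (q m) j := by
    intro n m j hn hm
    rcases le_total n m with h | h
    · exact hentry n m h j hn
    · exact (hentry m n h j hm).symm
  let x : ι → Set P → Cz := fun j =>
    if h : ∃ n, j ∈ R.supp (q n) then R.nm (q h.choose) j else fun _ => topc
  obtain ⟨q', hs', hn'⟩ := R.cr (⋃ n, R.supp (q n)) (countable_iUnion fun n => R.cnt (q n)) x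
  have hnm : ∀ n j, j ∈ R.supp (q n) → R.nm q' j = R.nm (q n) j := by
    intro n j hj
    have hex : ∃ n, j ∈ R.supp (q n) := ⟨n, hj⟩
    funext h
    rw [hn' j (mem_iUnion.mpr hex) h]
    have hx : x j = R.nm (q hex.choose) j := dif_pos hex
    rw [hx, hagree hex.choose n j hex.choose_spec hj, ← R.dep]
  have hmem : ∀ j, j ∈ R.supp q' ↔ ∃ n, j ∈ R.supp (q n) := by
    intro j
    rw [hs', mem_iUnion]
  have hsq : R.supp q' ⊆ ⋃ n, Iio (γ n) := by
    intro j hj
    obtain ⟨n, hn⟩ := (hmem j).mp hj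
    exact mem_iUnion.mpr ⟨n, hsub n hn⟩
  have hres : ∀ n, R.res (γ n) q' = q n := by
    intro n
    apply R.ext
    · rw [R.supp_res]
      ext j
      constructor
      · rintro ⟨hj, hjn⟩
        obtain ⟨m, hm⟩ := (hmem j).mp hj
        rcases le_total n m with h | h
        · rw [hsupp n m h]
          exact ⟨hm, hjn⟩
        · rw [hsupp m n h] at hm
          exact hm.1
      · intro hj
        exact ⟨(hmem j).mpr ⟨n, hj⟩, hsub n hj⟩
    · intro j hj
      rw [R.supp_res] at hj
      rw [R.nm_res hj.1 hj.2]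
      have hjn : j ∈ R.supp (q n) := by
        obtain ⟨m, hm⟩ := (hmem j).mp hj.1
        rcases le_total n m with h | h
        · rw [hsupp n m h]
          exact ⟨hm, hj.2⟩
        · rw [hsupp m n h] at hm
          exact hm.1
      exact hnm n j hjn
  refine ⟨q', ?_, hres, hsq⟩
  apply T.M_of_cover
  · intro j hj
    obtain ⟨n, hn⟩ := (hmem j).mp hj
    exact lt_of_lt_of_le (hsub n hn) (hi n)
  · intro j hj
    obtain ⟨n, hn⟩ := (hmem j).mp hj
    refine ⟨γ n, hsub n hn, ?_⟩
    rw [hres n]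
    exact hq n

end Pool.Agent.MF45
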