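import Pool.Agent.MF45.IpB
import Pool.Agent.MF45.ItE
import Pool.Agent.MF45.ItF

/-!
# The limit step: genericity

Paper proof.  Let `i ∈ N.o` be a limit, `γ ∈ N.o`, `γ < i` (for `γ = i` take `q' = q`), and let
`q`, `π` be as in `IL`.  `dns_E2`: for `p` of the stage `i` and a dense `D` the set `E2 γ i p D` is
dense at the stage `γ`: if `s ≤ res γ p`, take `r ∈ D` below `glue γ s p`; then `res γ r ≤ s` is in
`E2`.  Enumerate `N.o ∩ Iio i` as `(o n)` (it contains `γ`) and the sets in `N.d` which are dense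
at the stage `i` as `(D n)`.  By recursion construct `(γ n, q n, π n)` with `γ 0 = γ`, `q 0 = q`,
`π 0 = π` such that `γ n ∈ N.o`, `γ n < i`, `Gen N (γ n) (q n)`, `π n` is a name
(`Dv (X (γ n)) (π n)`) with `π n h ∈ N.c` and `T.M i (π n h)`, and `q n` forces
`res (γ n) (π n h) ∈ h`.
Step: by genericity of `q n`, `dns_E2`, `Good.a2` and `forc_imp_of`, `q n` forces that there is
`r ∈ N.c ∩ D n` with `r ≤ π n h` and `res (γ n) r ∈ h` (for each value of `π n h`); let `π' h` be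
the first such `r` (`exists_least`).  Let `γ (n + 1) ∈ N.o`, `γ n ≤ γ (n + 1) < i` with
`o n < γ (n + 1)` (`Good.up` and the maximum).  Apply `IL N (γ (n + 1))` to
`γ n`, `q n` and the name `fun h => res (γ (n + 1)) (π' h)`, which gives `q (n + 1)`, and let
`π (n + 1) h = π' (tr (γ n) h)`.  Let `q'` be the union of the `q n` (`exists_union`).
Claim: `q'` forces `π n (tr (γ n) h) ∈ h` for all `n`.  By `Forc.loc`: let `r ≤ q'`; some `r' ≤ r`
decides the value `p` of `π n` (decide at the stage `γ n` and glue).  For all `m ≥ n`, `r'` forces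
`res (γ m) (π m ..) ∈ h` and `π m .. ≤ π n .. = p`, so `res (γ m) p ∈ h`; by `sep`
`res (γ m) r' ≤ res (γ m) p`.
Since `supp p ⊆ N.o ∩ Iio i`, each `j ∈ supp p` is below some `γ m`, so `r' ≤ p` by
`le_of_cover`.  The claim for `n = 0` is the last clause of `IL`, and for `n + 1` it gives
`h ∩ D n ∩ N.c ≠ ∅`.
-/

namespace Pool.Agent.MF45

universe u

open Set

variable {ι P : Type u} [LinearOrder ι] [WellFoundedLT ι] {R : Raw ι P} (T : Itn R)

namespace Itn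

theorem dns_E2 {γ i : ι} (hγ : γ ≤ i) {p : P} (hp : T.M i p) {D : Set P} (hD : Dns (T.X i) D) :
    Dns (T.X γ) (T.E2 γ i p D) := by
  intro s₀ hs₀
  by_cases hc : Comp (T.X γ) s₀ (R.res γ p)
  · obtain ⟨s, hs1, hs2⟩ := hc
    obtain ⟨q, hq1, hq2, hq3⟩ := T.exists_glue hγ hp hs2
    obtain ⟨r, hrD, hrq⟩ := hD q ((T.X i).left hq1)
    have h1 : (T.X γ).le (R.res γ r) s := by
      have := T.res_le hrq γ
      rwa [hq3] at this
    exact ⟨R.res γ r, Or.inl ⟨r, hrD, (T.X i).trans hrq hq1, (T.X γ).left h1⟩,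
      (T.X γ).trans h1 hs1⟩
  · exact ⟨s₀, Or.inr hc, hs₀⟩

/-- the states of the recursion -/
private structure St (N : Nd ι P) (i : ι) (γ : ι) (q : P) (π : Set P → P) : Prop where
  mo : γ ∈ N.o
  lt : γ < i
  gen : T.Gen N γ q
  val : ∀ h, π h ∈ N.c ∧ T.M i (π h)
  dv : Dv (T.X γ) π
  fo : Forc (T.X γ) q fun h => R.res γ (π h) ∈ h

/-- one step of the recursion -/
private theorem lim_step {f : Set P → ℕ → ℕ} {N : Nd ι P} (hN : T.Good f N) {i : ι}
    (hi : i ∈ N.o) (hlim : ∀ j, j < i → ∃ k, j < k ∧ k < i) (ih : ∀ j ∈ N.o, j < i → T.IL N j)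
    {γ : ι} {q : P} {π : Set P → P} (hS : T.St N i γ q π) {j : ι} (hj : j ∈ N.o) (hji : j < i)
    {E : Set P} (hE : E ∈ N.d) (hEd : Dns (T.X i) E) :
    ∃ (γ' : ι) (q' : P) (π' : Set P → P), T.St N i γ' q' π' ∧ γ ≤ γ' ∧ j < γ' ∧
      R.res γ q' = q ∧
      Forc (T.X γ') q' fun h => π' h ∈ E ∧ (T.X i).le (π' h) (π (R.tr γ h)) := by
  classical
  -- genericity
  have h1 : ∀ p ∈ N.c, Forc (T.X γ) q fun h => T.M i p → R.res γ p ∈ h →
      ∃ r ∈ N.c, r ∈ E ∧ (T.X i).le r p ∧ R.res γ r ∈ h := by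
    intro p hp
    by_cases hMp : T.M i p
    · have h2 := hS.gen.2 _ (hN.e2 hS.mo hi hp hE) (T.dns_E2 hS.lt.le hMp hEd)
      refine h2.imp ?_
      rintro h hh - ⟨s, hsh, hsE, hsN⟩ - hph
      rcases hsE with hsE | hsE
      · obtain ⟨r, hrN, hrE, hrp, hsr⟩ := hN.a2 hS.mo hi hp hE hsN hsE
        exact ⟨r, hrN, hrE, hrp, hh.up hsh hsr⟩
      · obtain ⟨t, -, ht1, ht2⟩ := hh.dir hsh hph
        exact absurd ⟨t, ht1, ht2⟩ hsE
    · exact Forc.of_all fun h _ _ hM => absurd hM hMp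
  have h2 := Forc.substC hN.cc h1
  let C : Set P := {r | r ∈ N.c ∧ T.M i r}
  have hC : C.Countable := hN.cc.mono fun r hr => hr.1
  let Q : Set P → P → Prop := fun h r => r ∈ E ∧ (T.X i).le r (π h) ∧ R.res γ r ∈ h
  have hQ : ∀ r ∈ C, Dec (T.X γ) fun h => Q h r := by
    intro r _
    refine Dec.and (Dec.const _) (Dec.and ?_ (Dec.mem _))
    exact hS.dv.subst (Q := fun a _ => (T.X i).le r a) hN.cc (fun h => (hS.val h).1)
      fun a _ => Dec.const _
  obtain ⟨ρ, hρ1, hρ2, hρ3⟩ := exists_least hC (c₀ := π) (fun h => hS.val h) hS.dv hQ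
  have h3 : Forc (T.X γ) q fun h => Q h (ρ h) := by
    refine (h2.and hS.fo).imp ?_
    rintro h hh - ⟨h4, h5⟩
    obtain ⟨r, hrN, hrE, hrp, hrh⟩ := h4 (π h) (hS.val h).1 (hS.val h).2 h5
    exact hρ3 h ⟨r, ⟨hrN, T.M_left hrp⟩, hrE, hrp, hrh⟩
  -- the next stage
  obtain ⟨k, hkN, hjk, hki⟩ : ∃ k ∈ N.o, max j γ < k ∧ k < i := by
    have hm : max j γ ∈ N.o := by
      rcases le_total j γ with h | h
      · rw [max_eq_right h]; exact hS.mo
      · rw [max_eq_left h]; exact hj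
    exact hN.up hi hm (hlim _ (max_lt hji hS.lt))
  have hγk : γ ≤ k := ((le_max_right j γ).trans_lt hjk).le
  obtain ⟨q', hq'1, hq'2, hq'3⟩ := ih k hkN hki γ hS.mo hγk q hS.gen
    (fun h => R.res k (ρ h)) (fun h => ⟨hN.res (hρ2 h).1 hkN, T.M_res (hρ2 h).2 k⟩)
    (hρ1.map hC hρ2 (R.res k)) (h3.imp fun h _ _ h4 => by
      rw [R.res_res_of_le hγk]
      exact h4.2.2)
  refine ⟨k, q', fun h => ρ (R.tr γ h), ⟨hkN, hki, hq'1, fun h => hρ2 _, T.dv_up hγk hρ1,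
    hq'3⟩, hγk, (le_max_left j γ).trans_lt hjk, hq'2, ?_⟩
  have h4 := T.forc_up' hγk hq'1.1 (φ := fun h => Q h (ρ h)) (by rw [hq'2]; exact h3)
  exact h4.imp fun h _ _ h5 => ⟨h5.1, h5.2.1⟩

theorem lim_il {f : Set P → ℕ → ℕ} {N : Nd ι P} (hN : T.Good f N) {i : ι} (hi : i ∈ N.o)
    (hlim : ∀ j, j < i → ∃ k, j < k ∧ k < i) (ih : ∀ j ∈ N.o, j < i → T.IL N j) : T.IL N i := by
  classical
  intro γ hγo hγi q hq π hπ hdv hfo
  rcases hγi.eq_or_lt with rfl | hγi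
  · refine ⟨q, hq, T.res_self hq.1, hfo.imp fun h hh _ h1 => ?_⟩
    rw [T.tr_fil hh]
    rwa [T.res_self (hπ h).2] at h1
  -- enumerations
  obtain ⟨o, ho⟩ : ∃ o : ℕ → ι, N.o ∩ Iio i = range o :=
    (hN.co.mono inter_subset_left).exists_eq_range ⟨γ, hγo, hγi⟩
  obtain ⟨D, hD⟩ : ∃ D : ℕ → Set P, {E | E ∈ N.d ∧ Dns (T.X i) E} = range D :=
    (hN.cd.mono fun E hE => hE.1).exists_eq_range
      ⟨univ, hN.univ, fun p hp => ⟨p, mem_univ p, hp⟩⟩
  have ho' : ∀ n, o n ∈ N.o ∧ o n < i := fun n => by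
    have : o n ∈ N.o ∩ Iio i := by rw [ho]; exact ⟨n, rfl⟩
    exact this
  have hD' : ∀ n, D n ∈ N.d ∧ Dns (T.X i) (D n) := fun n => by
    have : D n ∈ {E | E ∈ N.d ∧ Dns (T.X i) E} := by rw [hD]; exact ⟨n, rfl⟩
    exact this
  -- the recursion
  let S : Type _ := {t : ι × P × (Set P → P) // T.St N i t.1 t.2.1 t.2.2}
  have hnext : ∀ (n : ℕ) (t : S), ∃ t' : S, t.1.1 ≤ t'.1.1 ∧ o n < t'.1.1 ∧
      R.res t.1.1 t'.1.2.1 = t.1.2.1 ∧
      Forc (T.X t'.1.1) t'.1.2.1 fun h => t'.1.2.2 h ∈ D n ∧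
        (T.X i).le (t'.1.2.2 h) (t.1.2.2 (R.tr t.1.1 h)) := by
    rintro n ⟨⟨γ₁, q₁, π₁⟩, hS⟩
    obtain ⟨γ', q', π', h1, h2, h3, h4, h5⟩ :=
      T.lim_step hN hi hlim ih hS (ho' n).1 (ho' n).2 (hD' n).1 (hD' n).2
    exact ⟨⟨⟨γ', q', π'⟩, h1⟩, h2, h3, h4, h5⟩
  choose nx hnx1 hnx2 hnx3 hnx4 using hnext
  let t₀ : S := ⟨⟨γ, q, π⟩, ⟨hγo, hγi, hq, hπ, hdv, hfo⟩⟩
  let sq : ℕ → S := fun n => Nat.rec t₀ (fun n t => nx n t) n
  have hsq : ∀ n, sq (n + 1) = nx n (sq n) := fun n => rfl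
  let g : ℕ → ι := fun n => (sq n).1.1
  let qs : ℕ → P := fun n => (sq n).1.2.1
  let πs : ℕ → Set P → P := fun n => (sq n).1.2.2
  have hSt : ∀ n, T.St N i (g n) (qs n) (πs n) := fun n => (sq n).2
  have hg : Monotone g := monotone_nat_of_le_succ fun n => hnx1 n (sq n)
  have hog : ∀ n, o n < g (n + 1) := fun n => hnx2 n (sq n)
  have hrq : ∀ n, R.res (g n) (qs (n + 1)) = qs n := fun n => hnx3 n (sq n)
  have hF : ∀ n, Forc (T.X (g (n + 1))) (qs (n + 1)) fun h => πs (n + 1) h ∈ D n ∧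
      (T.X i).le (πs (n + 1) h) (πs n (R.tr (g n) h)) := fun n => hnx4 n (sq n)
  obtain ⟨q', hMq', hres, -⟩ := T.exists_union hg (fun n => (hSt n).lt.le)
    (fun n => (hSt n).gen.1) hrq
  -- the names decrease
  have hdec : ∀ n m, n ≤ m → Forc (T.X (g m)) (qs m) fun h =>
      (T.X i).le (πs m h) (πs n (R.tr (g n) h)) := by
    intro n m hnm
    induction m, hnm using Nat.le_induction with
    | base =>
      refine Forc.of_all fun h hh _ => ?_
      rw [T.tr_fil hh]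
      exact T.le_self.mpr ((hSt n).val h).2
    | succ m hnm ihm =>
      have h1 : Forc (T.X (g (m + 1))) (qs (m + 1)) fun h =>
          (T.X i).le (πs m (R.tr (g m) h)) (πs n (R.tr (g n) (R.tr (g m) h))) := by
        have h2 := ihm
        rw [← hrq m] at h2
        exact T.forc_up' (hg (Nat.le_succ m)) (hSt (m + 1)).gen.1 h2
      refine ((hF m).and h1).imp fun h _ _ h3 => ?_
      have h4 := h3.2
      rw [R.tr_tr_of_le (hg hnm)] at h4
      exact (T.X i).trans h3.1.2 h4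
  -- the claim
  have hcl : ∀ n, Forc (T.X i) q' fun h => πs n (R.tr (g n) h) ∈ h := by
    intro n
    refine Forc.loc fun r hr => ?_
    have hMr : T.M i r := T.M_left hr
    have hgn : g n ≤ i := (hSt n).lt.le
    let C : Set P := {p | p ∈ N.c ∧ T.M i p}
    have hC : C.Countable := hN.cc.mono fun r hr => hr.1
    obtain ⟨s', hs', p, hpC, hfp⟩ := (hSt n).dv.decide hC
      (T.le_self.mpr (T.M_res hMr (g n))) (Forc.of_all fun h _ _ => (hSt n).val h)
    obtain ⟨r', hr'1, hr'2, hr'3⟩ := T.exists_glue hgn hMr hs'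
    have hMr' : T.M i r' := T.M_left hr'1
    have hr'q : (T.X i).le r' q' := (T.X i).trans hr'1 hr
    have key : (T.X i).le r' p := by
      refine T.le_of_cover hMr' hpC.2 fun j hj => ?_
      have hjo : j ∈ range o := by
        rw [← ho]
        exact ⟨hN.supp hpC.1 hj, T.M_supp hpC.2 hj⟩
      obtain ⟨m, rfl⟩ := hjo
      have hm1 : m + 1 ≤ max (m + 1) n := le_max_left _ _
      have hm2 : n ≤ max (m + 1) n := le_max_right _ _
      generalize max (m + 1) n = k at hm1 hm2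
      refine ⟨g k, (hog m).trans_le (hg hm1), ?_⟩
      refine T.sep (T.M_res hMr' (g k)) (T.M_res hpC.2 (g k)) ?_
      have hle : (T.X (g k)).le (R.res (g k) r') (qs k) := by
        have := T.res_le hr'q (g k)
        rwa [hres k] at this
      have h1 : Forc (T.X (g k)) (R.res (g k) r') fun h => πs n (R.tr (g n) h) = p := by
        refine T.forc_up' (hg hm2) (T.M_res hMr' (g k)) (φ := fun h => πs n h = p) ?_
        rw [R.res_res_of_le (hg hm2), hr'3]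
        exact hfp
      refine ((h1.and ((hdec n k hm2).mono hle)).and ((hSt k).fo.mono hle)).imp ?_
      rintro h hh - ⟨⟨h2, h3⟩, h4⟩
      rw [h2] at h3
      exact hh.up h4 (T.res_le h3 (g k))
    have h5 : Forc (T.X i) r' fun h => πs n (R.tr (g n) h) = p := by
      refine T.forc_up' hgn hMr' (φ := fun h => πs n h = p) ?_
      rw [hr'3]
      exact hfp
    refine ⟨r', hr'1, (h5.and (Forc.mem_of_le key)).imp fun h _ _ h6 => ?_⟩
    rw [h6.1]
    exact h6.2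
  refine ⟨q', ⟨hMq', ?_⟩, hres 0, hcl 0⟩
  intro E hE hEd
  have hEr : E ∈ range D := by
    rw [← hD]
    exact ⟨hE, hEd⟩
  obtain ⟨n, rfl⟩ := hEr
  have h1 : Forc (T.X i) q' fun h => πs (n + 1) (R.tr (g (n + 1)) h) ∈ D n := by
    refine T.forc_up' (hSt (n + 1)).lt.le hMq' (φ := fun h => πs (n + 1) h ∈ D n) ?_
    rw [hres (n + 1)]
    exact (hF n).imp fun h _ _ h2 => h2.1
  exact ((hcl (n + 1)).and h1).imp fun h _ _ h2 => ⟨_, h2.1, h2.2, ((hSt (n + 1)).val _).1⟩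

end Itn

end Pool.Agent.MF45
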