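import Pool.Agent.MF45.IpB

/-!
# The limit step: interpretations

Paper proof of `exists_pr`.  For a list `σ` of natural numbers let `Xs σ` be the set of all `s` of
the stage `γ` such that for some `p' ≤ p` at the stage `i`, `(X γ).le s (res γ p')` and `p'` forces
`f h m = σ m` for all `m < length σ`.  `Xs σ` is closed under extensions, and the union of the
`Xs (σ ++ [v])` over `v` is dense below each `s ∈ Xs σ` (glue `s` and `p'`, and extend to decide
`f h (length σ)`, `Ms.decide`).  For a filter `h` of the stage `γ` containing `res γ p` let `f* h m`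
be defined by recursion as the least `v` such that `h` meets `Xs ([f* h 0, ..., f* h (m - 1), v])`.
This is a name (`Dec.meet`, `ms_sInf`), and `res γ p` forces that `h` meets
`Xs [f* h 0, ..., f* h (m - 1)]` for all `m`.  By `BD γ` there are `s ≤ res γ p` and `F` such that `s`
forces `f* h m ≤ F m` for all `m`.  Let `p' = glue γ s p`.  `PR γ i f p' F`: given `k` and
`s₁ ≤ res γ p' = s`, extend `s₁` to `s₂` which decides `f* h m = σ m` for all `m < k` and lies below a
member of `Xs σ`, so `s₂ ∈ Xs σ` with a witness `p'' ≤ p`; let the condition be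
`glue γ s₂ p''`, which is `≤ p'` by `le_glue`, and forces `f h m = σ m ≤ F m` for `m < k`
(`Forc.const` for the last inequality).
-/

namespace Pool.Agent.MF45

universe u

open Set

variable {ι P : Type u} [LinearOrder ι] [WellFoundedLT ι] {R : Raw ι P} (T : Itn R)

/-- the conditions of the stage `γ` which are below the restriction of some `p' ≤ p` which forces
that `f h` begins with `σ` -/
def Itn.Xs (γ i : ι) (f : Set P → ℕ → ℕ) (p : P) (σ : List ℕ) : Set P :=
  {s | ∃ p', (T.X i).le p' p ∧ (T.X γ).le s (R.res γ p') ∧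
    Forc (T.X i) p' fun h => ∀ m, m < σ.length → f h m = σ.getD m 0}

/-- the next value -/
noncomputable def Itn.nx (γ i : ι) (f : Set P → ℕ → ℕ) (p : P) (h : Set P) (σ : List ℕ) : ℕ :=
  sInf {v | ∃ s ∈ h, s ∈ T.Xs γ i f p (σ ++ [v])}

/-- the list of the first `n` values -/
noncomputable def Itn.st (γ i : ι) (f : Set P → ℕ → ℕ) (p : P) (h : Set P) : ℕ → List ℕ
  | 0 => []
  | n + 1 => Itn.st γ i f p h n ++ [T.nx γ i f p h (Itn.st γ i f p h n)]

theorem Itn.st_succ (γ i : ι) (f : Set P → ℕ → ℕ) (p : P) (h : Set P) (n : ℕ) :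
    T.st γ i f p h (n + 1) = T.st γ i f p h n ++ [T.nx γ i f p h (T.st γ i f p h n)] := rfl

theorem Itn.st_length (γ i : ι) (f : Set P → ℕ → ℕ) (p : P) (h : Set P) (n : ℕ) :
    (T.st γ i f p h n).length = n := by
  induction n with
  | zero => rfl
  | succ n ih => rw [T.st_succ, List.length_append, ih]; rfl

theorem Itn.st_getD (γ i : ι) (f : Set P → ℕ → ℕ) (p : P) (h : Set P) (n : ℕ) :
    ∀ m, m < n → (T.st γ i f p h n).getD m 0 = T.nx γ i f p h (T.st γ i f p h m) := by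
  induction n with
  | zero => intro m hm; omega
  | succ n ih =>
    intro m hm
    rw [T.st_succ]
    rcases Nat.lt_or_ge m n with h1 | h1
    · rw [List.getD_append _ _ _ _ (by rw [T.st_length]; exact h1)]
      exact ih m h1
    · have h2 : m = n := by omega
      subst h2
      rw [List.getD_append_right _ _ _ _ (by rw [T.st_length]), T.st_length, Nat.sub_self]
      rfl

theorem Itn.ms_nx (γ i : ι) (f : Set P → ℕ → ℕ) (p : P) (σ : List ℕ) :
    Ms (T.X γ) fun h => T.nx γ i f p h σ :=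
  ms_sInf fun _ => Dec.meet _

theorem Itn.dv_st (γ i : ι) (f : Set P → ℕ → ℕ) (p : P) (n : ℕ) :
    Dv (T.X γ) fun h => T.st γ i f p h n := by
  induction n with
  | zero => exact Dv.const []
  | succ n ih =>
    intro τ
    exact ih.subst (Q := fun σ h => σ ++ [T.nx γ i f p h σ] = τ) (C := univ) countable_univ
      (fun _ => trivial) fun σ _ => (T.ms_nx γ i f p σ).dec (A := {v | σ ++ [v] = τ})
      MeasurableSet.of_discrete

theorem Itn.ms_fs (γ i : ι) (f : Set P → ℕ → ℕ) (p : P) :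
    Ms (T.X γ) fun h n => T.nx γ i f p h (T.st γ i f p h n) := by
  refine ms_pi.2 fun n => ms_countable.2 fun a => ?_
  exact (T.dv_st γ i f p n).subst (Q := fun σ h => T.nx γ i f p h σ = a) (C := univ)
    countable_univ (fun _ => trivial) fun σ _ => ms_countable.1 (T.ms_nx γ i f p σ) a

theorem Itn.xs_step {γ i : ι} (hγ : γ ≤ i) {f : Set P → ℕ → ℕ}
    (hf : Ms (T.X i) f) {p : P} (s : P) (σ : List ℕ) :
    Forc (T.X γ) s fun h => (∃ t ∈ h, t ∈ T.Xs γ i f p σ) →
      ∃ v, ∃ t ∈ h, t ∈ T.Xs γ i f p (σ ++ [v]) := by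
  refine Forc.loc fun s' hs' => ?_
  obtain ⟨s2, h2, h3 | h3⟩ := Dec.meet (X := T.X γ) (T.Xs γ i f p σ) s' ((T.X γ).left hs')
  · refine ⟨s2, h2, ?_⟩
    have h4 : Forc (T.X γ) s2 fun h => ∃ t ∈ h, t ∈ ⋃ v, T.Xs γ i f p (σ ++ [v]) := by
      refine Forc.meet fun s3 h5 => ?_
      obtain ⟨g, hg, hg1, t, ht, htX⟩ := (h3.mono h5).exists_fil ((T.X γ).left h5)
      obtain ⟨r, -, hr1, hr2⟩ := hg.dir hg1 ht
      obtain ⟨p', hp', htp', hF⟩ := htX
      have h6 : (T.X γ).le r (R.res γ p') := (T.X γ).trans hr2 htp'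
      have h7 := T.glue_le hγ (T.M_left hp') h6
      have h8 := T.res_glue h6
      obtain ⟨q, hq, a, ha⟩ := (ms_pi.1 hf σ.length).decide ((T.X i).left h7)
      have h9 : (T.X γ).le (R.res γ q) r := by
        have := T.res_le hq γ
        rwa [h8] at this
      refine ⟨R.res γ q, ?_, (T.X γ).trans h9 hr1⟩
      refine mem_iUnion.2 ⟨a, q, (T.X i).trans hq ((T.X i).trans h7 hp'), (T.X γ).left h9, ?_⟩
      refine ((hF.mono ((T.X i).trans hq h7)).and ha).imp fun h _ _ h10 m hm => ?_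
      rw [List.length_append] at hm
      rcases Nat.lt_or_ge m σ.length with h11 | h11
      · rw [List.getD_append _ _ _ _ h11]
        exact h10.1 m h11
      · have h12 : m = σ.length := by simp at hm; omega
        subst h12
        rw [List.getD_append_right _ _ _ _ le_rfl, Nat.sub_self]
        exact h10.2
    refine h4.imp fun h _ _ h5 _ => ?_
    obtain ⟨t, ht, h6⟩ := h5
    obtain ⟨v, hv⟩ := mem_iUnion.1 h6
    exact ⟨v, t, ht, hv⟩
  · exact ⟨s2, h2, h3.imp fun h _ _ h4 h5 => absurd h5 h4⟩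

theorem Itn.xs_all {γ i : ι} (hγ : γ ≤ i) {f : Set P → ℕ → ℕ}
    (hf : Ms (T.X i) f) {p : P} (hp : T.M i p) :
    Forc (T.X γ) (R.res γ p) fun h => ∀ n, ∃ t ∈ h, t ∈ T.Xs γ i f p (T.st γ i f p h n) := by
  have h1 : Forc (T.X γ) (R.res γ p) fun h => ∀ σ : List ℕ, (∃ t ∈ h, t ∈ T.Xs γ i f p σ) →
      ∃ v, ∃ t ∈ h, t ∈ T.Xs γ i f p (σ ++ [v]) :=
    Forc.all fun σ => T.xs_step hγ hf (R.res γ p) σ
  refine h1.imp fun h _ hs h2 n => ?_
  induction n with
  | zero =>
    refine ⟨R.res γ p, hs, p, T.le_self.2 hp, T.le_self.2 (T.M_res hp γ), ?_⟩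
    refine Forc.of_all fun g _ _ m hm => ?_
    simp [Itn.st] at hm
  | succ n ih =>
    rw [T.st_succ]
    have h3 : {v | ∃ t ∈ h, t ∈ T.Xs γ i f p (T.st γ i f p h n ++ [v])}.Nonempty := h2 _ ih
    exact Nat.sInf_mem h3

theorem Itn.exists_pr {γ i : ι} (hγ : γ ≤ i) (hB : T.BD γ) {f : Set P → ℕ → ℕ}
    (hf : Ms (T.X i) f) {p : P} (hp : T.M i p) :
    ∃ p', (T.X i).le p' p ∧ ∃ F, T.PR γ i f p' F := by
  obtain ⟨s, hs, F, hF⟩ := hB (fun h n => T.nx γ i f p h (T.st γ i f p h n)) (T.ms_fs γ i f p)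
    (R.res γ p) (T.M_res hp γ)
  have h1 : R.res γ (R.glue γ s p) = s := T.res_glue hs
  refine ⟨R.glue γ s p, T.glue_le hγ hp hs, F, T.M_glue hγ hp hs, fun k s₁ hs₁ => ?_⟩
  rw [h1] at hs₁
  obtain ⟨s₂, hs₂, σ, -, hσ⟩ := (T.dv_st γ i f p k).decide (C := univ) countable_univ
    ((T.X γ).left hs₁) (Forc.of_all fun _ _ _ => trivial)
  have h2 : (T.X γ).le s₂ s := (T.X γ).trans hs₂ hs₁
  have h3 := ((hσ.and (hF.mono h2)).and ((T.xs_all hγ hf hp).mono ((T.X γ).trans h2 hs)))
  obtain ⟨g, hg, hg1, ⟨h4, h5⟩, h6⟩ := h3.exists_fil ((T.X γ).left hs₂)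
  obtain ⟨t, ht, htX⟩ := h6 k
  rw [h4] at htX
  obtain ⟨r, -, hr1, hr2⟩ := hg.dir hg1 ht
  obtain ⟨p', hp', htp', hF'⟩ := htX
  have h7 : (T.X γ).le r (R.res γ p') := (T.X γ).trans hr2 htp'
  have h8 := T.glue_le hγ (T.M_left hp') h7
  have h9 := T.res_glue h7
  have h10 : (T.X γ).le r s := (T.X γ).trans hr1 h2
  refine ⟨R.glue γ r p', T.le_glue hγ ((T.X i).trans h8 hp') hs (by rw [h9]; exact h10),
    by rw [h9]; exact (T.X γ).trans hr1 hs₂, ?_⟩
  refine (hF'.mono h8).imp fun h _ _ h11 m hm => ?_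
  have h12 : σ.length = k := by rw [← h4]; exact T.st_length γ i f p g k
  rw [h11 m (by rw [h12]; exact hm), ← h4, T.st_getD γ i f p g k m hm]
  exact h5 m

end Pool.Agent.MF45
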