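import Pool.Agent.MF45.LimB
import Pool.Agent.MF45.PsC

/-!
# The limit step: the dense sets for the bounding property

Paper proof of `dns_E3`.  Let `s₀` be a condition of the stage `γ` and `s ≤ s₀, res γ p` (otherwise
`s₀ ∈ E3`).  For each `k` let `Q k` be the set of all `a ≤ s` for which there are `w` and `F'` with
`w ≤ p`, `(X γ).le a (res γ w)`, `w` forces `f h m ≤ F m` for all `m < k`, and `PR γ' i f w F'`.
`Q k` is dense below `s`: given `a₀ ≤ s`, `PR γ i f p F` gives `p' ≤ p` with `res γ p' ≤ a₀` which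
forces `f h m ≤ F m` for `m < k`, and `exists_pr` for `γ'` gives `w ≤ p'` and `F'`; take
`a = res γ w`.
Mixing (`exists_mix`) gives a name `G k` for a function such that for all `a` in a maximal
antichain `A k ⊆ Q k`, `a` forces `G k h = F' a`, with `F' a` as above for `a`.  Let
`f₁ h m` be the maximum of the `G k h m` for `k ≤ m`.  By `BD γ` there are `s₁ ≤ s` and `F₂` such that
`s₁` forces `f₁ h m ≤ F₂ m` for all `m`.  Then `A3 .. s₁ F₂`: for `s' ≤ s₁` and `k` let `a ∈ A k`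
be compatible with `s'`, let `s'' ≤ s', a`, and let `w`, `F' = F' a` be as above.  Then
`(X γ).le s'' (res γ w)` and `F' m ≤ F₂ m` for `m ≥ k`, since `s''` forces
`F' m = G k h m ≤ f₁ h m ≤ F₂ m` (`Forc.const`).
`dns_E4`: immediate from the definition of `A3`.
-/

namespace Pool.Agent.MF45

universe u

open Set

variable {ι P : Type u} [LinearOrder ι] [WellFoundedLT ι] {R : Raw ι P} (T : Itn R)

namespace Itn

theorem dns_E3 {γ γ' i : ι} (hγ : γ ≤ i) (hγ' : γ' ≤ i) (hB : T.BD γ) (hB' : T.BD γ')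
    {f : Set P → ℕ → ℕ} (hf : Ms (T.X i) f) {p : P} {F : ℕ → ℕ} (hp : T.PR γ i f p F) :
    Dns (T.X γ) (T.E3 γ γ' i f p F) := by
  classical
  intro s₀ hs₀
  by_cases hc : Comp (T.X γ) s₀ (R.res γ p)
  swap
  · exact ⟨s₀, Or.inr hc, hs₀⟩
  obtain ⟨s, hss₀, hsp⟩ := hc
  let Q : ℕ → Set P := fun k => {a | (T.X γ).le a s ∧ ∃ w F', (T.X i).le w p ∧
    (T.X γ).le a (R.res γ w) ∧ (Forc (T.X i) w fun h => ∀ m, m < k → f h m ≤ F m) ∧
    T.PR γ' i f w F'}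
  have hQ : ∀ k a₀, (T.X γ).le a₀ s → ∃ a ∈ Q k, (T.X γ).le a a₀ := by
    intro k a₀ ha₀
    obtain ⟨p', hp'1, hp'2, hp'3⟩ := hp.2 k a₀ ((T.X γ).trans ha₀ hsp)
    obtain ⟨w, hw, F', hF'⟩ := T.exists_pr hγ' hB' hf (T.M_left hp'1)
    have h1 : (T.X γ).le (R.res γ w) (R.res γ p') := T.res_le hw γ
    have h2 : (T.X γ).le (R.res γ w) a₀ := (T.X γ).trans h1 hp'2
    exact ⟨R.res γ w, ⟨(T.X γ).trans h2 ha₀, w, F', (T.X i).trans hw hp'1, (T.X γ).left h1,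
      hp'3.mono hw, hF'⟩, h2⟩
  have hch : ∀ (k : ℕ) (a : P), ∃ wF : P × (ℕ → ℕ), a ∈ Q k → (T.X i).le wF.1 p ∧
      (T.X γ).le a (R.res γ wF.1) ∧ (Forc (T.X i) wF.1 fun h => ∀ m, m < k → f h m ≤ F m) ∧
      T.PR γ' i f wF.1 wF.2 := by
    intro k a
    by_cases ha : a ∈ Q k
    · obtain ⟨-, w, F', h1⟩ := ha
      exact ⟨(w, F'), fun _ => h1⟩
    · exact ⟨(p, F), fun h => (ha h).elim⟩
  choose W hW using hch
  have hmix := fun k : ℕ => exists_mix (X := T.X γ) (Q k) (fun a _ => (W k a).2)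
    (fun _ : ℕ => (0 : ℕ))
  choose A G hAQ hAle hAmax hAG hGms using hmix
  have hG : ∀ k, Ms (T.X γ) (G k) := fun k => hGms k fun a _ => Ms.const _
  let f₁ : Set P → ℕ → ℕ := fun h m => ∑ k ∈ Finset.range (m + 1), G k h m
  have hf₁ : Ms (T.X γ) f₁ := by
    refine ms_pi.2 fun m => ?_
    let _ := msp (T.X γ)
    exact Finset.measurable_sum _ fun k _ => ms_pi.1 (hG k) m
  obtain ⟨s₁, hs₁, F₂, hF₂⟩ := hB f₁ hf₁ s (T.M_left hsp)
  refine ⟨s₁, Or.inl ⟨F₂, (T.X γ).trans hs₁ hsp, ?_⟩, (T.X γ).trans hs₁ hss₀⟩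
  intro s' hs' k
  obtain ⟨a', ha', ha's'⟩ := hQ k s' ((T.X γ).trans hs' hs₁)
  obtain ⟨a, ha, r, hr1, hr2⟩ := hAmax k a' ha' ((T.X γ).left ha's')
  obtain ⟨w1, w2, w3, w4⟩ := hW k a (hAQ k ha)
  refine ⟨r, (T.X γ).trans hr1 ha's', (W k a).1, (W k a).2, w1, (T.X γ).trans hr2 w2, w3, w4, ?_⟩
  intro m hm
  have h1 : Forc (T.X γ) r fun h => G k h = (W k a).2 := (hAG k a ha).mono hr2
  have h2 : Forc (T.X γ) r fun h => ∀ n, f₁ h n ≤ F₂ n :=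
    hF₂.mono ((T.X γ).trans ((T.X γ).trans hr1 ha's') hs')
  refine Forc.const (X := T.X γ) ((T.X γ).left hr1) ((h1.and h2).imp ?_)
  rintro h - - ⟨h3, h4⟩
  have h5 : G k h m ≤ f₁ h m :=
    Finset.single_le_sum (f := fun k => G k h m) (fun _ _ => Nat.zero_le _)
      (Finset.mem_range.2 (by omega))
  rw [h3] at h5
  exact h5.trans (h4 m)

theorem dns_E4 {γ γ' i : ι} {f : Set P → ℕ → ℕ} {p : P} {F F₂ : ℕ → ℕ} (k : ℕ) :
    Dns (T.X γ) (T.E4 γ γ' i f p F F₂ k) := by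
  intro s₀ hs₀
  by_cases hc : ∃ s', (T.X γ).le s' s₀ ∧ T.A3 γ γ' i f p F s' F₂
  · obtain ⟨s', hs', h3⟩ := hc
    obtain ⟨s'', hs'', w, F', h4⟩ := h3.2 s' ((T.X γ).left hs') k
    exact ⟨s'', Or.inl ⟨w, F', h4⟩, (T.X γ).trans hs'' hs'⟩
  · exact ⟨s₀, Or.inr hc, hs₀⟩

theorem A3.mono {γ γ' i : ι} {f : Set P → ℕ → ℕ} {p : P} {F F₂ : ℕ → ℕ} {s s' : P}
    (h : T.A3 γ γ' i f p F s F₂) (hs : (T.X γ).le s' s) : T.A3 γ γ' i f p F s' F₂ := by
  exact ⟨(T.X γ).trans hs h.1, fun s'' hs'' k => h.2 s'' ((T.X γ).trans hs'' hs) k⟩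

end Itn

end Pool.Agent.MF45
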