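import Pool.Agent.MF45.Sk

/-!
# Existence of countable models

Paper proof.  General closure lemma `exists_closed`: iterate `ω` times.  Apply it to the sum type
`U = ι ⊕ P ⊕ Set P ⊕ (ℕ → ℕ)` (with a convention for the lists of arguments) and to the operation
which gives for a list of arguments the countable set of all values which are needed: the
supports, restrictions, `one`, the least element, `k` with `j < k < i` if there is one, the
predecessor, the sets `E1`, `E2`, `E3`, `E4`, and choices of witnesses (by `Classical.choice`) for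
the existential statements in the clauses of `Good` (for all values of the natural number
parameters and of the pattern `u` in the countable set `⋃ M, Pat M`).
-/

namespace Pool.Agent.MF45

universe u

open Set

/-! ### The closure lemma -/

private def stepc {U : Type u} (F : List U → Set U) (A : Set U) : Set U :=
  A ∪ ⋃ l ∈ {l : List U | ∀ x ∈ l, x ∈ A}, F l

private theorem stepc_countable {U : Type u} {F : List U → Set U} (hF : ∀ l, (F l).Countable)
    {A : Set U} (hA : A.Countable) : (stepc F A).Countable := by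
  refine hA.union (Countable.biUnion ?_ fun l _ => hF l)
  rw [← Set.range_list_map_coe]
  have : Countable A := hA.to_subtype
  exact countable_range _

private theorem subset_stepc {U : Type u} (F : List U → Set U) (A : Set U) : A ⊆ stepc F A :=
  subset_union_left

theorem exists_closed {U : Type u} (F : List U → Set U) (hF : ∀ l, (F l).Countable) {A : Set U}
    (hA : A.Countable) : ∃ N : Set U, A ⊆ N ∧ N.Countable ∧ ∀ l : List U, (∀ x ∈ l, x ∈ N) →
      F l ⊆ N := by
  let B : ℕ → Set U := fun n => Nat.rec A (fun _ C => stepc F C) n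
  have hBc : ∀ n, (B n).Countable := by
    intro n
    induction n with
    | zero => exact hA
    | succ n ih => exact stepc_countable hF ih
  have hBm : Monotone B := monotone_nat_of_le_succ fun n => subset_stepc F (B n)
  refine ⟨⋃ n, B n, subset_iUnion B 0, countable_iUnion hBc, ?_⟩
  intro l hl
  have h1 : ∃ n, ∀ x ∈ l, x ∈ B n := by
    induction l with
    | nil => exact ⟨0, fun x hx => by simp at hx⟩
    | cons a l ih =>
      obtain ⟨n, hn⟩ := ih fun x hx => hl x (List.mem_cons_of_mem _ hx)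
      obtain ⟨m, hm⟩ := mem_iUnion.mp (hl a List.mem_cons_self)
      refine ⟨max n m, fun x hx => ?_⟩
      rcases List.mem_cons.mp hx with rfl | hx
      · exact hBm (le_max_right n m) hm
      · exact hBm (le_max_left n m) (hn x hx)
  obtain ⟨n, hn⟩ := h1
  refine Subset.trans ?_ (subset_iUnion B (n + 1))
  intro x hx
  exact Or.inr (mem_biUnion (show l ∈ {l : List U | ∀ x ∈ l, x ∈ B n} from hn) hx)

/-! ### Witnesses -/

private def wit {α : Type*} (Q : α → Prop) : Set α := {x | ∃ h : ∃ x, Q x, x = h.choose}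

private theorem wit_countable {α : Type*} (Q : α → Prop) : (wit Q).Countable := by
  by_cases h : ∃ x, Q x
  · refine (countable_singleton h.choose).mono ?_
    rintro x ⟨_, rfl⟩
    exact rfl
  · refine countable_empty.mono ?_
    rintro x ⟨h', _⟩
    exact (h h').elim

private theorem exists_wit {α : Type*} {Q : α → Prop} (h : ∃ x, Q x) : ∃ x ∈ wit Q, Q x :=
  ⟨h.choose, ⟨h, rfl⟩, h.choose_spec⟩

private theorem pat_countable (M : ℕ) : (Pat M).Countable := by
  have h : InjOn (fun (u : ℕ → List Bool) (i : Fin M) => u i) (Pat M) := by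
    intro u hu v hv huv
    funext n
    by_cases hn : n < M
    · exact congrFun huv ⟨n, hn⟩
    · rw [hu.2 n (not_lt.mp hn), hv.2 n (not_lt.mp hn)]
  exact countable_of_injective_of_countable_image h (to_countable _)

/-! ### The operations -/

section

variable {ι P : Type u}

private abbrev UU (ι P : Type u) : Type u := ι ⊕ P ⊕ Set P ⊕ (ℕ → ℕ)

private def go : UU ι P → Option ι
  | .inl i => some i
  | _ => none

private def gc : UU ι P → Option P
  | .inr (.inl p) => some p
  | _ => none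

private def gd : UU ι P → Option (Set P)
  | .inr (.inr (.inl D)) => some D
  | _ => none

private def gf : UU ι P → Option (ℕ → ℕ)
  | .inr (.inr (.inr f)) => some f
  | _ => none

private def mk (os : List ι) (cs : List P) (ds : List (Set P)) (fs : List (ℕ → ℕ)) :
    List (UU ι P) :=
  os.map Sum.inl ++ (cs.map (fun p => Sum.inr (Sum.inl p)) ++
    (ds.map (fun D => Sum.inr (Sum.inr (Sum.inl D))) ++
      fs.map (fun f => Sum.inr (Sum.inr (Sum.inr f)))))

section

variable (os : List ι) (cs : List P) (ds : List (Set P)) (fs : List (ℕ → ℕ))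

private theorem go_mk : (mk os cs ds fs).filterMap go = os := by
  simp [mk, go, List.filterMap_append, List.filterMap_map]

private theorem gc_mk : (mk os cs ds fs).filterMap gc = cs := by
  simp [mk, gc, List.filterMap_append, List.filterMap_map]

private theorem gd_mk : (mk os cs ds fs).filterMap gd = ds := by
  simp [mk, gd, List.filterMap_append, List.filterMap_map]

private theorem gf_mk : (mk os cs ds fs).filterMap gf = fs := by
  simp [mk, gf, List.filterMap_append, List.filterMap_map]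

private theorem mem_mk {N : Set (UU ι P)} (ho : ∀ i ∈ os, Sum.inl i ∈ N)
    (hc : ∀ p ∈ cs, Sum.inr (Sum.inl p) ∈ N) (hd : ∀ D ∈ ds, Sum.inr (Sum.inr (Sum.inl D)) ∈ N)
    (hf : ∀ F ∈ fs, Sum.inr (Sum.inr (Sum.inr F)) ∈ N) : ∀ x ∈ mk os cs ds fs, x ∈ N := by
  intro x hx
  simp only [mk, List.mem_append, List.mem_map] at hx
  rcases hx with ⟨i, hi, rfl⟩ | ⟨p, hp, rfl⟩ | ⟨D, hD, rfl⟩ | ⟨F, hF, rfl⟩
  · exact ho i hi
  · exact hc p hp
  · exact hd D hD
  · exact hf F hF

end

end

variable {ι P : Type u} [LinearOrder ι] [WellFoundedLT ι] {R : Raw ι P} (T : Itn R)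

section

variable [Nonempty ι] (f : Set P → ℕ → ℕ) (os : List ι) (cs : List P) (ds : List (Set P))
  (fs : List (ℕ → ℕ))

/-- the entry `n` of a list of coordinates -/
private noncomputable abbrev eo (n : ℕ) : ι := os.getD n (Classical.arbitrary ι)

variable (R) in
/-- the entry `n` of a list of conditions -/
private noncomputable abbrev ec (n : ℕ) : P := cs.getD n R.one

/-- the entry `n` of a list of sets of conditions -/
private abbrev ed (n : ℕ) : Set P := ds.getD n ∅

/-- the entry `n` of a list of functions -/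
private abbrev ef (n : ℕ) : ℕ → ℕ := fs.getD n fun _ => 0

variable (R) in
private noncomputable def Vo : Set ι :=
  R.supp (ec R cs 0) ∪ (wit (fun b : ι => ∀ j, b ≤ j) ∪
    (wit (fun k : ι => eo os 1 < k ∧ k < eo os 0) ∪
      wit (fun b : ι => ∀ j, j < eo os 0 ↔ j ≤ b)))

private noncomputable def Wa (k : ℕ) : Set (P × (ℕ → ℕ)) :=
  wit fun x => T.A4 (eo os 0) (eo os 1) (eo os 2) f (ec R cs 0) (ef fs 0) (ef fs 1) k (ec R cs 1)
    x.1 x.2

private noncomputable def Wp : Set (P × (ℕ → ℕ)) :=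
  wit fun x => (T.X (eo os 1)).le x.1 (ec R cs 0) ∧ T.PR (eo os 0) (eo os 1) f x.1 x.2

private noncomputable def Vc : Set P :=
  {R.res (eo os 0) (ec R cs 0)} ∪ ({R.one} ∪
    ((⋃ M : ℕ, wit fun r' => T.A1 (eo os 0) (eo os 1) (ec R cs 0) M ds (ec R cs 1) r') ∪
    ((⋃ M : ℕ, ⋃ u ∈ Pat M, wit fun r'' => r'' ∈ ed ds 0 ∧
      T.B1 (eo os 0) (eo os 1) M u (ec R cs 0) (ec R cs 1) r'') ∪
    (wit (fun r => r ∈ ed ds 0 ∧ (T.X (eo os 1)).le r (ec R cs 0) ∧
      (T.X (eo os 0)).le (ec R cs 1) (R.res (eo os 0) r)) ∪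
    ((⋃ k : ℕ, Prod.fst '' Wa T f os cs fs k) ∪ Prod.fst '' Wp T f os cs)))))

private noncomputable def Vd : Set (Set P) :=
  {univ} ∪ ((⋃ M : ℕ, {T.E1 (eo os 0) (eo os 1) (ec R cs 0) M ds}) ∪
    ({T.E2 (eo os 0) (eo os 1) (ec R cs 0) (ed ds 0)} ∪
    ({T.E3 (eo os 0) (eo os 1) (eo os 2) f (ec R cs 0) (ef fs 0)} ∪
    (⋃ k : ℕ, {T.E4 (eo os 0) (eo os 1) (eo os 2) f (ec R cs 0) (ef fs 0) (ef fs 1) k}))))

private noncomputable def Vf : Set (ℕ → ℕ) :=
  wit (fun F₂ => T.A3 (eo os 0) (eo os 1) (eo os 2) f (ec R cs 0) (ef fs 0) (ec R cs 1) F₂) ∪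
    ((⋃ k : ℕ, Prod.snd '' Wa T f os cs fs k) ∪ Prod.snd '' Wp T f os cs)

private theorem Vo_countable : (Vo R os cs).Countable :=
  (R.cnt _).union ((wit_countable _).union ((wit_countable _).union (wit_countable _)))

private theorem Vc_countable : (Vc T f os cs ds fs).Countable := by
  refine (countable_singleton _).union ((countable_singleton _).union ((countable_iUnion fun M =>
    wit_countable _).union ((countable_iUnion fun M => (pat_countable M).biUnion fun u _ =>
    wit_countable _).union ((wit_countable _).union ((countable_iUnion fun k => ?_).union ?_)))))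
  · exact (wit_countable _).image _
  · exact (wit_countable _).image _

private theorem Vd_countable : (Vd T f os cs ds fs).Countable :=
  (countable_singleton _).union ((countable_iUnion fun M => countable_singleton _).union
    ((countable_singleton _).union ((countable_singleton _).union
      (countable_iUnion fun k => countable_singleton _))))

private theorem Vf_countable : (Vf T f os cs fs).Countable := by
  refine (wit_countable _).union ((countable_iUnion fun k => ?_).union ?_)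
  · exact (wit_countable _).image _
  · exact (wit_countable _).image _

/-- the values for a list of arguments -/
private noncomputable def Val (l : List (UU ι P)) : Set (UU ι P) :=
  Sum.inl '' Vo R (l.filterMap go) (l.filterMap gc) ∪
    ((fun p => Sum.inr (Sum.inl p)) ''
      Vc T f (l.filterMap go) (l.filterMap gc) (l.filterMap gd) (l.filterMap gf) ∪
    ((fun D => Sum.inr (Sum.inr (Sum.inl D))) ''
      Vd T f (l.filterMap go) (l.filterMap gc) (l.filterMap gd) (l.filterMap gf) ∪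
    (fun F => Sum.inr (Sum.inr (Sum.inr F))) ''
      Vf T f (l.filterMap go) (l.filterMap gc) (l.filterMap gf)))

private theorem Val_countable (l : List (UU ι P)) : (Val T f l).Countable :=
  ((Vo_countable _ _).image _).union (((Vc_countable T f _ _ _ _).image _).union
    (((Vd_countable T f _ _ _ _).image _).union ((Vf_countable T f _ _ _).image _)))

/-- a countable set of coordinates, conditions, sets of conditions, and functions which is closed
under all operations -/
private theorem exists_nd {o₀ : Set ι} (ho : o₀.Countable) {c₀ : Set P} (hc : c₀.Countable)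
    {d₀ : Set (Set P)} (hd : d₀.Countable) : ∃ N : Nd ι P, (o₀ ⊆ N.o ∧ c₀ ⊆ N.c ∧ d₀ ⊆ N.d) ∧
      (N.o.Countable ∧ N.c.Countable ∧ N.d.Countable ∧ N.f.Countable) ∧
      ∀ (os : List ι) (cs : List P) (ds : List (Set P)) (fs : List (ℕ → ℕ)),
        (∀ i ∈ os, i ∈ N.o) → (∀ p ∈ cs, p ∈ N.c) → (∀ D ∈ ds, D ∈ N.d) → (∀ F ∈ fs, F ∈ N.f) →
        Vo R os cs ⊆ N.o ∧ Vc T f os cs ds fs ⊆ N.c ∧ Vd T f os cs ds fs ⊆ N.d ∧
          Vf T f os cs fs ⊆ N.f := by
  obtain ⟨N, hN, hNc, hNF⟩ := exists_closed (U := UU ι P) (Val T f) (Val_countable T f)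
    (A := Sum.inl '' o₀ ∪ ((fun p => Sum.inr (Sum.inl p)) '' c₀ ∪
      (fun D => Sum.inr (Sum.inr (Sum.inl D))) '' d₀))
    ((ho.image _).union ((hc.image _).union (hd.image _)))
  have i2 : Function.Injective (fun p : P => (Sum.inr (Sum.inl p) : UU ι P)) :=
    fun a b h => by simpa using h
  have i3 : Function.Injective (fun D : Set P => (Sum.inr (Sum.inr (Sum.inl D)) : UU ι P)) :=
    fun a b h => by simpa using h
  have i4 : Function.Injective (fun F : ℕ → ℕ => (Sum.inr (Sum.inr (Sum.inr F)) : UU ι P)) :=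
    fun a b h => by simpa using h
  refine ⟨⟨{i | Sum.inl i ∈ N}, {p | Sum.inr (Sum.inl p) ∈ N},
    {D | Sum.inr (Sum.inr (Sum.inl D)) ∈ N}, {F | Sum.inr (Sum.inr (Sum.inr F)) ∈ N}⟩,
    ⟨?_, ?_, ?_⟩, ⟨?_, ?_, ?_, ?_⟩, ?_⟩
  · exact fun i hi => hN (Or.inl ⟨i, hi, rfl⟩)
  · exact fun i hi => hN (Or.inr (Or.inl ⟨i, hi, rfl⟩))
  · exact fun i hi => hN (Or.inr (Or.inr ⟨i, hi, rfl⟩))
  · exact hNc.preimage Sum.inl_injective
  · exact hNc.preimage i2
  · exact hNc.preimage i3
  · exact hNc.preimage i4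
  · intro os cs ds fs h1 h2 h3 h4
    have h := hNF (mk os cs ds fs) (mem_mk os cs ds fs h1 h2 h3 h4)
    rw [Val, go_mk, gc_mk, gd_mk, gf_mk] at h
    refine ⟨?_, ?_, ?_, ?_⟩
    · exact fun i hi => h (Or.inl ⟨i, hi, rfl⟩)
    · exact fun i hi => h (Or.inr (Or.inl ⟨i, hi, rfl⟩))
    · exact fun i hi => h (Or.inr (Or.inr (Or.inl ⟨i, hi, rfl⟩)))
    · exact fun i hi => h (Or.inr (Or.inr (Or.inr ⟨i, hi, rfl⟩)))

end

theorem Itn.exists_good [Nonempty ι] (f : Set P → ℕ → ℕ) {o₀ : Set ι} (ho : o₀.Countable)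
    {c₀ : Set P} (hc : c₀.Countable) {d₀ : Set (Set P)} (hd : d₀.Countable) :
    ∃ N : Nd ι P, T.Good f N ∧ o₀ ⊆ N.o ∧ c₀ ⊆ N.c ∧ d₀ ⊆ N.d := by
  obtain ⟨N, h0, ⟨hco, hcc, hcd, hcf⟩, hcl⟩ := exists_nd T f ho hc hd
  refine ⟨N, ?_, h0⟩
  have n1 : ∀ {α : Type u} {A : Set α}, ∀ x ∈ ([] : List α), x ∈ A := by simp
  have n0 : ∀ {α : Type} {A : Set α}, ∀ x ∈ ([] : List α), x ∈ A := by simp
  refine
    { co := hco, cc := hcc, cd := hcd, cf := hcf
      supp := ?_, res := ?_, one := ?_, univ := ?_, bot := ?_, up := ?_, pred := ?_, e1 := ?_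
      a1 := ?_, b1 := ?_, e2 := ?_, a2 := ?_, e3 := ?_, a3 := ?_, e4 := ?_, a4 := ?_, pr := ?_ }
  · intro p hp
    have h := (hcl [] [p] [] [] n1 (by simpa using hp) n1 n0).1
    exact fun i hi => h (Or.inl hi)
  · intro p i hp hi
    have h := (hcl [i] [p] [] [] (by simpa using hi) (by simpa using hp) n1 n0).2.1
    exact h (Or.inl rfl)
  · exact (hcl [] [] [] [] n1 n1 n1 n0).2.1 (Or.inr (Or.inl rfl))
  · exact (hcl [] [] [] [] n1 n1 n1 n0).2.2.1 (Or.inl rfl)
  · have h := (hcl [] [] [] [] n1 n1 n1 n0).1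
    obtain ⟨b, hb⟩ : ∃ b : ι, ∀ j, b ≤ j := by
      obtain ⟨b, -, hb⟩ := WellFounded.has_min (wellFounded_lt (α := ι)) Set.univ
        ⟨Classical.arbitrary ι, trivial⟩
      exact ⟨b, fun j => not_lt.mp (hb j trivial)⟩
    obtain ⟨b', hb', hb2⟩ := exists_wit (Q := fun b : ι => ∀ j, b ≤ j) ⟨b, hb⟩
    exact ⟨b', h (Or.inr (Or.inl hb')), hb2⟩
  · intro i j hi hj hk
    have h := (hcl [i, j] [] [] [] (by simp [hi, hj]) n1 n1 n0).1
    obtain ⟨k, hk, hk2⟩ := exists_wit hk
    exact ⟨k, h (Or.inr (Or.inr (Or.inl hk))), hk2⟩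
  · intro i β hi hb
    have h := (hcl [i] [] [] [] (by simpa using hi) n1 n1 n0).1
    obtain ⟨b, hb', hb2⟩ := exists_wit (Q := fun b : ι => ∀ j, j < i ↔ j ≤ b) ⟨β, hb⟩
    have e : b = β := le_antisymm ((hb b).1 ((hb2 b).2 le_rfl)) ((hb2 β).1 ((hb β).2 le_rfl))
    rw [← e]
    exact h (Or.inr (Or.inr (Or.inr hb')))
  · intro β i r M Ds hβ hi hr hD
    have h := (hcl [β, i] [r] Ds [] (by simp [hβ, hi]) (by simpa using hr) hD n0).2.2.1
    exact h (Or.inr (Or.inl (mem_iUnion.mpr ⟨M, rfl⟩)))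
  · intro β i r M Ds s hβ hi hr hD hs hx
    have h := (hcl [β, i] [r, s] Ds [] (by simp [hβ, hi]) (by simp [hr, hs]) hD n0).2.1
    obtain ⟨x, hx, hx2⟩ := exists_wit hx
    exact ⟨x, h (Or.inr (Or.inr (Or.inl (mem_iUnion.mpr ⟨M, hx⟩)))), hx2⟩
  · intro β i M u s r' D hβ hi hu hs hr hD hx
    have h := (hcl [β, i] [s, r'] [D] [] (by simp [hβ, hi]) (by simp [hr, hs]) (by simpa using hD)
      n0).2.1
    obtain ⟨x, hx, hx2⟩ := exists_wit hx
    exact ⟨x, h (Or.inr (Or.inr (Or.inr (Or.inl (mem_iUnion.mpr ⟨M, mem_biUnion hu hx⟩))))), hx2⟩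
  · intro γ i p D hγ hi hp hD
    have h := (hcl [γ, i] [p] [D] [] (by simp [hγ, hi]) (by simpa using hp) (by simpa using hD)
      n0).2.2.1
    exact h (Or.inr (Or.inr (Or.inl rfl)))
  · intro γ i p D s hγ hi hp hD hs hx
    have h := (hcl [γ, i] [p, s] [D] [] (by simp [hγ, hi]) (by simp [hp, hs])
      (by simpa using hD) n0).2.1
    obtain ⟨x, hx, hx2⟩ := exists_wit hx
    exact ⟨x, h (Or.inr (Or.inr (Or.inr (Or.inr (Or.inl hx))))), hx2⟩
  · intro γ γ' i p F hγ hγ' hi hp hF
    have h := (hcl [γ, γ', i] [p] [] [F] (by simp [hγ, hγ', hi]) (by simpa using hp) n1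
      (by simpa using hF)).2.2.1
    exact h (Or.inr (Or.inr (Or.inr (Or.inl rfl))))
  · intro γ γ' i p F s hγ hγ' hi hp hF hs hx
    have h := (hcl [γ, γ', i] [p, s] [] [F] (by simp [hγ, hγ', hi]) (by simp [hp, hs]) n1
      (by simpa using hF)).2.2.2
    obtain ⟨x, hx, hx2⟩ := exists_wit hx
    exact ⟨x, h (Or.inl hx), hx2⟩
  · intro γ γ' i p F F₂ k hγ hγ' hi hp hF hF₂
    have h := (hcl [γ, γ', i] [p] [] [F, F₂] (by simp [hγ, hγ', hi]) (by simpa using hp) n1
      (by simp [hF, hF₂])).2.2.1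
    exact h (Or.inr (Or.inr (Or.inr (Or.inr (mem_iUnion.mpr ⟨k, rfl⟩)))))
  · intro γ γ' i p F F₂ k s hγ hγ' hi hp hF hF₂ hs hx
    obtain ⟨-, h1, -, h2⟩ := hcl [γ, γ', i] [p, s] [] [F, F₂] (by simp [hγ, hγ', hi])
      (by simp [hp, hs]) n1 (by simp [hF, hF₂])
    obtain ⟨w, F', hx⟩ := hx
    obtain ⟨x, hx, hx2⟩ := exists_wit
      (Q := fun x : P × (ℕ → ℕ) => T.A4 γ γ' i f p F F₂ k s x.1 x.2) ⟨(w, F'), hx⟩
    exact ⟨x.1, h1 (Or.inr (Or.inr (Or.inr (Or.inr (Or.inr (Or.inl (mem_iUnion.mpr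
      ⟨k, mem_image_of_mem _ hx⟩))))))), x.2, h2 (Or.inr (Or.inl (mem_iUnion.mpr
      ⟨k, mem_image_of_mem _ hx⟩))), hx2⟩
  · intro γ i p hγ hi hp hx
    obtain ⟨-, h1, -, h2⟩ := hcl [γ, i] [p] [] [] (by simp [hγ, hi]) (by simpa using hp) n1 n0
    obtain ⟨w, hw, F', hx⟩ := hx
    obtain ⟨x, hx, hx2, hx3⟩ := exists_wit
      (Q := fun x : P × (ℕ → ℕ) => (T.X i).le x.1 p ∧ T.PR γ i f x.1 x.2) ⟨(w, F'), hw, hx⟩
    exact ⟨x.1, h1 (Or.inr (Or.inr (Or.inr (Or.inr (Or.inr (Or.inr (mem_image_of_mem _ hx))))))),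
      hx2, x.2, h2 (Or.inr (Or.inr (mem_image_of_mem _ hx))), hx3⟩

end Pool.Agent.MF45
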