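import Pool.Agent.MF45.LimA
import Pool.Agent.MF45.LimC
import Pool.Agent.MF45.SkA

/-!
# The limit step: the bounding property

Paper proof of `lim_bd`.  Let `f` be a name at the limit stage `i` and `p₀` a condition.  Let `N` be
good for `f` (`exists_good`) with `i ∈ N.o`, `p₀ ∈ N.c`.  Let `b ∈ N.o` be the least element of `ι`.
By `exists_pr` for `b` and `Good.pr` there are `p₁ ∈ N.c`, `p₁ ≤ p₀` and `F₀ ∈ N.f` with
`PR b i f p₁ F₀`.  Let `g` eventually dominate all (countably many) functions in `N.f`, and let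
`G m = max (g m) (F₀ m)`.  Enumerate `N.o ∩ Iio i` as `(o n)`.  By recursion construct
`(γ n, q n, π n, Φ n, κ n)` with `γ 0 = b`, `q 0 = one` (which is generic for the stage `b`, see
`gen_one`), `π 0 = p₁`, `Φ 0 = F₀`, `κ 0 = 0`, such that
`γ n ∈ N.o`, `γ n < i`, `Gen N (γ n) (q n)`, `π n`, `Φ n`, `κ n` are functions of `h` which are names
with countably many values (`Dv (X (γ n))`) in `{p ∈ N.c | T.M i p}`, `N.f`, `ℕ`, and `q n` forces
`St (γ n) (π n h) (Φ n h) (κ n h)` and `res (γ n) (π n h) ∈ h` and `n ≤ κ n h`, where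
`St γ p F k` says: `PR γ i f p F`, `F m ≤ G m` for all `m ≥ k`, and `p` forces `f h m ≤ G m` for all
`m < k`.
Step: let `γ = γ n` and let `γ' ∈ N.o` with `γ ≤ γ' < i` and `o n < γ'`.  Claim: `q n` forces: for
all `p ∈ N.c`, `F ∈ N.f` and `k` with `St γ p F k` and `res γ p ∈ h` there are
`(w, F', k')` in `N.c × N.f × ℕ` with `k' ≥ n + 1`, `St γ' w F' k'`, `w ≤ p` and `res γ w ∈ h`.
Proof of the claim: fix `p`, `F`, `k`.  By genericity, `dns_E3` and `Good.a3`, there are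
`s ∈ h ∩ N.c` and `F₂ ∈ N.f` with `A3 .. s F₂` (as `res γ p ∈ h`, `s` is compatible with it).  Let
`k' ≥ k, n + 1` be such that `F₂ m ≤ g m` for all `m ≥ k'`.  By genericity, `dns_E4` and `Good.a4`
there are `s' ∈ h ∩ N.c` and `w ∈ N.c`, `F' ∈ N.f` with `A4 .. k' s' w F'` (the second
alternative in `E4` fails, since `s` and `s'` have a common extension in `h`, to which `A3` passes).
Then `res γ w ∈ h`, and `w` forces `f h m ≤ F m ≤ G m` for `k ≤ m < k'`, `f h m ≤ G m` for `m < k`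
(as `w ≤ p`), and `F' m ≤ F₂ m ≤ G m` for `m ≥ k'`.
Take the first such triple (`exists_least` for the triples), as a name at the stage `γ`, apply
`IL N γ'` to `q n` and the name `res γ' (w h)`, which gives `q (n + 1)`, and compose the names with
`tr γ`.
Let `q'` be the union of the `q n`.  As in `LimA`, `q'` forces `π n (tr (γ n) h) ∈ h` for all `n`
(`mem_of_names` in `LimA` style; prove it here again if needed), so `f h m ≤ G m` for all
`m < κ n`, hence for all `m`; and `q' ≤ p₁ ≤ p₀` by `sep`.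
-/

namespace Pool.Agent.MF45

universe u

open Set

variable {ι P : Type u} [LinearOrder ι] [WellFoundedLT ι] {R : Raw ι P} (T : Itn R)

/-- dependent choice -/
private theorem md_seq {S : Type*} {Inv : S → Prop} {Rel : ℕ → S → S → Prop} {x₀ : S}
    (h₀ : Inv x₀) (h : ∀ n x, Inv x → ∃ x', Inv x' ∧ Rel n x x') :
    ∃ s : ℕ → S, s 0 = x₀ ∧ (∀ n, Inv (s n)) ∧ ∀ n, Rel n (s n) (s (n + 1)) := by
  have : Nonempty S := ⟨x₀⟩
  choose! g hg1 hg2 using h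
  let s : ℕ → S := fun n => Nat.rec x₀ (fun n x => g n x) n
  have hs : ∀ n, Inv (s n) := by
    intro n
    induction n with
    | zero => exact h₀
    | succ n ih => exact hg1 n _ ih
  exact ⟨s, rfl, hs, fun n => hg2 n _ (hs n)⟩

/-- countably many functions are eventually dominated by one -/
private theorem md_dom {S : Set (ℕ → ℕ)} (hS : S.Countable) :
    ∃ g : ℕ → ℕ, ∀ F ∈ S, ∃ k, ∀ m, k ≤ m → F m ≤ g m := by
  rcases S.eq_empty_or_nonempty with rfl | hne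
  · exact ⟨0, fun F hF => hF.elim⟩
  obtain ⟨e, rfl⟩ := hS.exists_eq_range hne
  refine ⟨fun m => (Finset.range (m + 1)).sup fun n => e n m, ?_⟩
  rintro _ ⟨n, rfl⟩
  exact ⟨n, fun m hm => Finset.le_sup (f := fun n => e n m) (Finset.mem_range.mpr (by omega))⟩

/-- the inductive statement of the limit step -/
private def MDSt (i : ι) (f : Set P → ℕ → ℕ) (G : ℕ → ℕ) (γ : ι) (w : P × (ℕ → ℕ) × ℕ) :
    Prop :=
  T.PR γ i f w.1 w.2.1 ∧ (∀ m, w.2.2 ≤ m → w.2.1 m ≤ G m) ∧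
    Forc (T.X i) w.1 fun h => ∀ m, m < w.2.2 → f h m ≤ G m

/-- the possible values in the limit step -/
private def MDC (N : Nd ι P) (i : ι) : Set (P × (ℕ → ℕ) × ℕ) :=
  {w | w.1 ∈ N.c ∧ T.M i w.1 ∧ w.2.1 ∈ N.f}

omit [WellFoundedLT ι] in
private theorem md_cnt {f : Set P → ℕ → ℕ} {N : Nd ι P} (hN : T.Good f N) (i : ι) :
    (MDC T N i).Countable := by
  have h1 : (N.c ×ˢ (N.f ×ˢ (univ : Set ℕ))).Countable :=
    hN.cc.prod (hN.cf.prod (to_countable _))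
  refine h1.mono ?_
  rintro ⟨p, F, k⟩ ⟨h2, _, h3⟩
  exact ⟨h2, h3, mem_univ _⟩

/-- the step of the construction -/
private theorem md_claim {i : ι} {f : Set P → ℕ → ℕ} {N : Nd ι P} (hN : T.Good f N)
    (hi : i ∈ N.o) (bd : ∀ j, j < i → T.BD j) (hf : Ms (T.X i) f) {g G : ℕ → ℕ}
    (hg : ∀ F ∈ N.f, ∃ k, ∀ m, k ≤ m → F m ≤ g m) (hG : ∀ m, g m ≤ G m) {γ γ' : ι}
    (hγ : γ ∈ N.o) (hγ' : γ' ∈ N.o) (hγi : γ < i) (hγi' : γ' < i) {q : P}
    (hq : T.Gen N γ q) (n : ℕ) :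
    Forc (T.X γ) q fun h => ∀ w ∈ MDC T N i, MDSt T i f G γ w → R.res γ w.1 ∈ h →
      ∃ w' ∈ MDC T N i, (n + 1 ≤ w'.2.2 ∧ MDSt T i f G γ' w' ∧ (T.X i).le w'.1 w.1) ∧
        R.res γ w'.1 ∈ h := by
  refine Forc.substC (md_cnt T hN i) ?_
  rintro ⟨p, F, k⟩ ⟨hp, hpM, hF⟩
  by_cases hSt : MDSt T i f G γ (p, F, k)
  swap
  · exact Forc.of_all fun _ _ _ h => (hSt h).elim
  obtain ⟨hPR, hFG, hfp⟩ := hSt
  simp only at hPR hFG hfp hp hpM hF
  have h3 := hq.2 _ (hN.e3 hγ hγ' hi hp hF)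
    (T.dns_E3 hγi.le hγi'.le (bd γ hγi) (bd γ' hγi') hf hPR)
  have h4 : Forc (T.X γ) q fun h => ∀ F₂ ∈ N.f, ∀ k : ℕ, ∃ s ∈ h,
      s ∈ T.E4 γ γ' i f p F F₂ k ∧ s ∈ N.c := by
    refine Forc.substC hN.cf fun F₂ hF₂ => Forc.all fun k => ?_
    exact hq.2 _ (hN.e4 k hγ hγ' hi hp hF hF₂) (T.dns_E4 k)
  refine (h3.and h4).imp ?_
  rintro h hh _ ⟨⟨s, hs, hsE, hsN⟩, h5⟩ - hres
  simp only at hres
  rcases hsE with hsE | hsE
  swap
  · obtain ⟨r, _, hr1, hr2⟩ := hh.dir hs hres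
    exact (hsE ⟨r, hr1, hr2⟩).elim
  obtain ⟨F₂, hF₂, hA3⟩ := hN.a3 hγ hγ' hi hp hF hsN hsE
  obtain ⟨k₀, hk₀⟩ := hg F₂ hF₂
  obtain ⟨k', hk'1, hk'2, hk'3⟩ : ∃ k', k ≤ k' ∧ n + 1 ≤ k' ∧ k₀ ≤ k' :=
    ⟨k + (n + 1) + k₀, by omega, by omega, by omega⟩
  obtain ⟨s', hs', hsE', hsN'⟩ := h5 F₂ hF₂ k'
  rcases hsE' with hsE' | hsE'
  swap
  · obtain ⟨r, _, hr1, hr2⟩ := hh.dir hs hs'
    exact (hsE' ⟨r, hr2, Itn.A3.mono T hA3 hr1⟩).elim
  obtain ⟨w, hw, F', hF', hA4⟩ := hN.a4 hγ hγ' hi hp hF hF₂ hsN' hsE'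
  obtain ⟨hwp, hsw, hfw, hPR', hF'2⟩ := hA4
  refine ⟨(w, F', k'), ⟨hw, T.M_left hwp, hF'⟩, ⟨hk'2, ⟨hPR', ?_, ?_⟩, hwp⟩, hh.up hs' hsw⟩
  · intro m hm
    simp only at hm ⊢
    exact (hF'2 m hm).trans ((hk₀ m (hk'3.trans hm)).trans (hG m))
  · refine ((hfp.mono hwp).and hfw).imp ?_
    rintro h' _ _ ⟨h6, h7⟩ m hm
    simp only at hm
    by_cases hmk : m < k
    · exact h6 m hmk
    · exact (h7 m hm).trans (hFG m (not_lt.mp hmk))

namespace Itn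

theorem gen_one {f : Set P → ℕ → ℕ} {N : Nd ι P} (hN : T.Good f N) {b : ι}
    (hb : ∀ j, b ≤ j) : T.Gen N b R.one := by
  refine ⟨T.M_one b, fun D _ hD => ?_⟩
  obtain ⟨q, hqD, hq⟩ := hD R.one (T.le_self.mpr (T.M_one b))
  have h1 : R.supp q = ∅ := by
    refine eq_empty_of_subset_empty fun j hj => ?_
    exact (not_lt.mpr (hb j)) (T.M_supp (T.M_left hq) hj)
  have h2 : q = R.one := R.eq_one h1
  rw [h2] at hqD
  exact (Forc.self R.one).imp fun h _ hs _ => ⟨R.one, hs, hqD, hN.one⟩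

theorem lim_bd {i : ι} (hlim : ∀ j, j < i → ∃ k, j < k ∧ k < i) (hb : ∃ j, j < i)
    (il : ∀ (f : Set P → ℕ → ℕ) (N : Nd ι P), T.Good f N → ∀ j ∈ N.o, j < i → T.IL N j)
    (bd : ∀ j, j < i → T.BD j) : T.BD i := by
  classical
  intro f hf p₀ hp₀
  obtain ⟨j₀, hj₀⟩ := hb
  have : Nonempty ι := ⟨j₀⟩
  obtain ⟨N, hN, hNo, hNc, -⟩ := T.exists_good f (countable_singleton i)
    (countable_singleton p₀) (countable_empty (α := Set P))
  have hi : i ∈ N.o := hNo (mem_singleton i)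
  have hp₀N : p₀ ∈ N.c := hNc (mem_singleton p₀)
  obtain ⟨b, hbN, hb⟩ := hN.bot
  have hbi : b < i := lt_of_le_of_lt (hb j₀) hj₀
  obtain ⟨p₁, hp₁, hp₁₀, F₀, hF₀, hPR₀⟩ :=
    hN.pr hbN hi hp₀N (T.exists_pr hbi.le (bd b hbi) hf hp₀)
  obtain ⟨g, hg⟩ := md_dom hN.cf
  obtain ⟨G, hG1, hG2⟩ : ∃ G : ℕ → ℕ, (∀ m, g m ≤ G m) ∧ ∀ m, F₀ m ≤ G m :=
    ⟨fun m => max (g m) (F₀ m), fun m => le_max_left _ _, fun m => le_max_right _ _⟩
  -- an enumeration of the coordinates below `i`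
  obtain ⟨o, ho⟩ : ∃ o : ℕ → ι, N.o ∩ Iio i = range o :=
    (hN.co.mono inter_subset_left).exists_eq_range ⟨b, hbN, hbi⟩
  have hoN : ∀ n, o n ∈ N.o ∧ o n < i := by
    intro n
    have h1 : o n ∈ N.o ∩ Iio i := by
      rw [ho]
      exact mem_range_self n
    exact h1
  have hC := md_cnt T hN i
  -- the recursion
  let Inv : ι × P × (Set P → P × (ℕ → ℕ) × ℕ) → Prop := fun x =>
    x.1 ∈ N.o ∧ x.1 < i ∧ T.Gen N x.1 x.2.1 ∧ Dv (T.X x.1) x.2.2 ∧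
      (∀ h, x.2.2 h ∈ MDC T N i) ∧ Forc (T.X x.1) x.2.1 fun h =>
        MDSt T i f G x.1 (x.2.2 h) ∧ R.res x.1 (x.2.2 h).1 ∈ h
  let Rel : ℕ → ι × P × (Set P → P × (ℕ → ℕ) × ℕ) → ι × P × (Set P → P × (ℕ → ℕ) × ℕ) →
      Prop := fun n x x' =>
    x.1 ≤ x'.1 ∧ o n < x'.1 ∧ R.res x.1 x'.2.1 = x.2.1 ∧ Forc (T.X x'.1) x'.2.1 fun h =>
      n + 1 ≤ (x'.2.2 h).2.2 ∧ (T.X i).le (x'.2.2 h).1 (x.2.2 (R.tr x.1 h)).1
  have hM₁ : T.M i p₁ := T.M_left hp₁₀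
  have hinit : Inv (b, R.one, fun _ => (p₁, F₀, 0)) := by
    refine ⟨hbN, hbi, T.gen_one hN hb, Dv.const _, fun _ => ⟨hp₁, hM₁, hF₀⟩, ?_⟩
    refine (Forc.self R.one).imp ?_
    intro h hh hs _
    refine ⟨⟨hPR₀, fun m _ => hG2 m, Forc.of_all fun _ _ _ m hm => (Nat.not_lt_zero m hm).elim⟩,
      ?_⟩
    have h1 : R.res b p₁ = R.one := by
      refine R.eq_one (eq_empty_of_subset_empty fun j hj => ?_)
      rw [R.supp_res] at hj
      exact not_lt.mpr (hb j) hj.2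
    simp only
    rw [h1]
    exact hs
  have hstep : ∀ n x, Inv x → ∃ x', Inv x' ∧ Rel n x x' := by
    rintro n ⟨γ, q, π⟩ ⟨hγN, hγi, hq, hπD, hπC, hπF⟩
    simp only at hγN hγi hq hπD hπC hπF
    obtain ⟨γ', hγ'N, hγγ', hoγ', hγ'i⟩ : ∃ γ' ∈ N.o, γ ≤ γ' ∧ o n < γ' ∧ γ' < i := by
      rcases le_total γ (o n) with h1 | h1
      · obtain ⟨k, hk, h2, h3⟩ := hN.up hi (hoN n).1 (hlim (o n) (hoN n).2)
        exact ⟨k, hk, h1.trans h2.le, h2, h3⟩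
      · obtain ⟨k, hk, h2, h3⟩ := hN.up hi hγN (hlim γ hγi)
        exact ⟨k, hk, h2.le, lt_of_le_of_lt h1 h2, h3⟩
    have hcl := md_claim T hN hi bd hf hg hG1 hγN hγ'N hγi hγ'i hq n
    obtain ⟨π', hπ'D, hπ'C, hπ'R⟩ := exists_least hC hπC hπD
      (R := fun h w' => (n + 1 ≤ w'.2.2 ∧ MDSt T i f G γ' w' ∧ (T.X i).le w'.1 (π h).1) ∧
        R.res γ w'.1 ∈ h) (by
        intro w' _
        refine Dec.and ?_ (Dec.mem _)
        exact hπD.subst (Q := fun a _ => n + 1 ≤ w'.2.2 ∧ MDSt T i f G γ' w' ∧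
          (T.X i).le w'.1 a.1) hC hπC fun a _ => Dec.const _)
    have hR : Forc (T.X γ) q fun h => (n + 1 ≤ (π' h).2.2 ∧ MDSt T i f G γ' (π' h) ∧
        (T.X i).le (π' h).1 (π h).1) ∧ R.res γ (π' h).1 ∈ h := by
      refine (hcl.and hπF).imp ?_
      rintro h _ _ ⟨h1, h2, h3⟩
      exact hπ'R h (h1 (π h) (hπC h) h2 h3)
    obtain ⟨q', hq', hresq, hq'F⟩ := il f N hN γ' hγ'N hγ'i γ hγN hγγ' q hq
      (fun h => R.res γ' (π' h).1)
      (fun h => ⟨hN.res (hπ'C h).1 hγ'N, T.M_res (hπ'C h).2.1 γ'⟩)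
      (hπ'D.map hC hπ'C fun w => R.res γ' w.1)
      (hR.imp fun h _ _ h1 => by
        rw [R.res_res_of_le hγγ']
        exact h1.2)
    have hR' : Forc (T.X γ') q' fun h => (n + 1 ≤ (π' (R.tr γ h)).2.2 ∧
        MDSt T i f G γ' (π' (R.tr γ h)) ∧ (T.X i).le (π' (R.tr γ h)).1 (π (R.tr γ h)).1) ∧
        R.res γ (π' (R.tr γ h)).1 ∈ R.tr γ h := by
      refine T.forc_up' hγγ' hq'.1 (φ := fun h => (n + 1 ≤ (π' h).2.2 ∧
        MDSt T i f G γ' (π' h) ∧ (T.X i).le (π' h).1 (π h).1) ∧ R.res γ (π' h).1 ∈ h) ?_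
      rw [hresq]
      exact hR
    refine ⟨(γ', q', fun h => π' (R.tr γ h)), ⟨hγ'N, hγ'i, hq', T.dv_up hγγ' hπ'D,
      fun h => hπ'C _, ?_⟩, hγγ', hoγ', hresq, ?_⟩
    · exact (hR'.and hq'F).imp fun h _ _ h1 => ⟨h1.1.1.2.1, h1.2⟩
    · exact hR'.imp fun h _ _ h1 => ⟨h1.1.1, h1.1.2.2⟩
  obtain ⟨s, hs0, hsI, hsR⟩ := md_seq hinit hstep
  have hmono : Monotone fun n => (s n).1 := monotone_nat_of_le_succ fun n => (hsR n).1
  obtain ⟨q', hq'M, hq'res, -⟩ := T.exists_union hmono (fun n => (hsI n).2.1.le)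
    (fun n => (hsI n).2.2.1.1) (fun n => (hsR n).2.2.1)
  let Qn : ℕ → Set P → P × (ℕ → ℕ) × ℕ := fun n h => (s n).2.2 (R.tr (s n).1 h)
  have hQC : ∀ n h, Qn n h ∈ MDC T N i := fun n h => (hsI n).2.2.2.2.1 _
  have hQD : ∀ n, Dv (T.X i) (Qn n) := fun n => T.dv_up (hsI n).2.1.le (hsI n).2.2.2.1
  have hA : ∀ n, Forc (T.X i) q' fun h => MDSt T i f G (s n).1 (Qn n h) ∧
      R.res (s n).1 (Qn n h).1 ∈ R.tr (s n).1 h := by
    intro n
    refine T.forc_up' (hsI n).2.1.le hq'M (φ := fun h => MDSt T i f G (s n).1 ((s n).2.2 h) ∧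
      R.res (s n).1 ((s n).2.2 h).1 ∈ h) ?_
    rw [hq'res]
    exact (hsI n).2.2.2.2.2
  have hB : ∀ n, Forc (T.X i) q' fun h => n + 1 ≤ (Qn (n + 1) h).2.2 ∧
      (T.X i).le (Qn (n + 1) h).1 (Qn n h).1 := by
    intro n
    have h1 : Forc (T.X i) q' fun h => n + 1 ≤ ((s (n + 1)).2.2 (R.tr (s (n + 1)).1 h)).2.2 ∧
        (T.X i).le ((s (n + 1)).2.2 (R.tr (s (n + 1)).1 h)).1
          ((s n).2.2 (R.tr (s n).1 (R.tr (s (n + 1)).1 h))).1 := by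
      refine T.forc_up' (hsI (n + 1)).2.1.le hq'M
        (φ := fun h => n + 1 ≤ ((s (n + 1)).2.2 h).2.2 ∧
          (T.X i).le ((s (n + 1)).2.2 h).1 ((s n).2.2 (R.tr (s n).1 h)).1) ?_
      rw [hq'res]
      exact (hsR n).2.2.2
    refine h1.imp fun h _ _ h2 => ?_
    rw [R.tr_tr_of_le (hsR n).1] at h2
    exact h2
  have hAB := (Forc.all hA).and (Forc.all hB)
  -- the conditions are in the filter
  have hmem : ∀ n, Forc (T.X i) q' fun h => (Qn n h).1 ∈ h := by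
    intro n
    refine Forc.loc fun r hr => ?_
    obtain ⟨r', hr', a, haC, ha⟩ := (hQD n).decide hC (T.X i |>.left hr)
      (Forc.of_all fun h _ _ => hQC n h)
    refine ⟨r', hr', ?_⟩
    have hMr' : T.M i r' := T.M_left hr'
    have h1 : ∀ m, n ≤ m → (T.X i).le r' (R.res (s m).1 a.1) := by
      intro m hm
      refine T.sep hMr' (T.M_mono (hsI m).2.1.le (T.M_res haC.2.1 _)) ?_
      refine ((hAB.mono (T.X i |>.trans hr' hr)).and ha).imp ?_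
      rintro h hh _ ⟨⟨h2, h3⟩, h4⟩
      have h5 : ∀ m, n ≤ m → (T.X i).le (Qn m h).1 (Qn n h).1 := by
        intro m hm
        induction m, hm using Nat.le_induction with
        | base => exact T.le_self.mpr (hQC n h).2.1
        | succ m _ ih => exact (T.X i).trans (h3 m).2 ih
      have h6 : (T.X i).le (R.res (s m).1 (Qn m h).1) (R.res (s m).1 a.1) := by
        rw [← h4]
        exact T.le_mono (hsI m).2.1.le (T.res_le (h5 m hm) _)
      exact hh.up (h2 m).2.1 h6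
    have h2 : (T.X i).le r' a.1 := by
      refine T.le_of_cover hMr' haC.2.1 fun j hj => ?_
      have hjN : j ∈ N.o ∩ Iio i := ⟨hN.supp haC.1 hj, T.M_supp haC.2.1 hj⟩
      rw [ho] at hjN
      obtain ⟨m₀, rfl⟩ := hjN
      have h3 : o m₀ < (s (max n (m₀ + 1))).1 :=
        lt_of_lt_of_le (hsR m₀).2.1 (hmono (le_max_right _ _))
      refine ⟨_, h3, ?_⟩
      have h4 := T.res_le (h1 (max n (m₀ + 1)) (le_max_left _ _)) (s (max n (m₀ + 1))).1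
      rw [R.res_res_of_le le_rfl] at h4
      exact h4
    refine ha.imp fun h hh hs h3 => ?_
    rw [h3]
    exact hh.up hs h2
  -- what the conditions force is true
  have htrue : Forc (T.X i) q' fun h => ∀ w ∈ MDC T N i,
      (Forc (T.X i) w.1 fun h => ∀ m, m < w.2.2 → f h m ≤ G m) → w.1 ∈ h →
      ∀ m, m < w.2.2 → f h m ≤ G m := by
    refine Forc.substC hC fun w _ => ?_
    by_cases hw : Forc (T.X i) w.1 fun h => ∀ m, m < w.2.2 → f h m ≤ G m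
    · exact (forc_imp_of hw).imp fun h _ _ h1 _ => h1
    · exact Forc.of_all fun _ _ _ h1 => (hw h1).elim
  refine ⟨q', ?_, G, ?_⟩
  · have h1 : Forc (T.X i) q' fun h => p₁ ∈ h := by
      refine (hmem 0).imp fun h _ _ h2 => ?_
      have h3 : (Qn 0 h).1 = p₁ := by
        show ((s 0).2.2 (R.tr (s 0).1 h)).1 = p₁
        rw [hs0]
      rw [← h3]
      exact h2
    exact (T.X i).trans (T.sep hq'M hM₁ h1) hp₁₀
  · refine ((hAB.and (Forc.all hmem)).and htrue).imp ?_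
    rintro h _ _ ⟨⟨⟨h1, h2⟩, h3⟩, h4⟩ m
    exact h4 (Qn (m + 1) h) (hQC _ _) (h1 (m + 1)).1.2.2 (h3 (m + 1)) m
      (lt_of_lt_of_le (Nat.lt_succ_self m) (h2 m).1)

end Itn

end Pool.Agent.MF45
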