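import Pool.Agent.MF45.Suc

/-!
# The iteration theorem

Paper proof.  By well-founded induction on `i` both statements hold.  `IL`: let `γ ≤ i`.  If
`γ = i` take `q' = q` (`res i (π h) = π h`).  If `i` has a predecessor `β` (`∀ j, j < i ↔ j ≤ β`), so
`β ∈ N.o` by `Good.pred` and `γ ≤ β`, apply `IL N β` to the name `res β (π h)`, and then `ip` to
the name `π (tr γ h)` at the stage `β` (`Raw.tr_tr_of_le`, `Raw.res_res_of_le`).  If `i` has no
predecessor and `γ < i`, use `lim_il`.  `BD`: `bot_bd`, `suc_bd`, `lim_bd`.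
-/

namespace Pool.Agent.MF45

universe u

open Set

variable {ι P : Type u} [LinearOrder ι] [WellFoundedLT ι] {R : Raw ι P} (T : Itn R)

omit [WellFoundedLT ι] in
private theorem mfm_lim {i : ι} (hβ : ¬ ∃ β, ∀ j, j < i ↔ j ≤ β) :
    ∀ j, j < i → ∃ k, j < k ∧ k < i := by
  intro j hj
  by_contra hc
  refine hβ ⟨j, fun l => ⟨fun hl => ?_, fun hl => lt_of_le_of_lt hl hj⟩⟩
  by_contra hjl
  exact hc ⟨l, not_le.1 hjl, hl⟩

theorem Itn.main (i : ι) : T.BD i ∧ ∀ (f : Set P → ℕ → ℕ) (N : Nd ι P), T.Good f N →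
    i ∈ N.o → T.IL N i := by
  induction i using WellFoundedLT.induction with
  | ind i ih =>
    constructor
    · by_cases hb : ∀ j, ¬ j < i
      · exact T.bot_bd hb
      · by_cases hβ : ∃ β, ∀ j, j < i ↔ j ≤ β
        · obtain ⟨β, hβ⟩ := hβ
          have hβi : β < i := (hβ β).2 le_rfl
          exact T.suc_bd hβ (fun f N hN hβN => (ih β hβi).2 f N hN hβN) (ih β hβi).1
        · refine T.lim_bd (mfm_lim hβ) ?_ (fun f N hN j hj hji => (ih j hji).2 f N hN hj)
            (fun j hj => (ih j hj).1)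
          by_contra hc
          exact hb fun j hj => hc ⟨j, hj⟩
    · intro f N hN hi
      by_cases hβ : ∃ β, ∀ j, j < i ↔ j ≤ β
      · obtain ⟨β, hβ⟩ := hβ
        have hβi : β < i := (hβ β).2 le_rfl
        have hβN : β ∈ N.o := hN.pred hi hβ
        intro γ hγ hγi q hq π hπ hd hf
        rcases hγi.eq_or_lt with h1 | h1
        · subst h1
          refine ⟨q, hq, T.res_self hq.1, hf.imp fun h hh _ h2 => ?_⟩
          rw [T.res_self (hπ h).2] at h2
          rw [T.tr_fil hh]
          exact h2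
        · have hγβ : γ ≤ β := (hβ γ).1 h1
          obtain ⟨q₁, hq₁, hr₁, hf₁⟩ := (ih β hβi).2 f N hN hβN γ hγ hγβ q hq
            (fun h => R.res β (π h)) (fun h => ⟨hN.res (hπ h).1 hβN, T.M_res (hπ h).2 β⟩)
            (hd.map hN.cc (fun h => (hπ h).1) (fun p => R.res β p))
            (hf.imp fun h _ _ h2 => by
              rw [R.res_res_of_le hγβ]
              exact h2)
          obtain ⟨q', hq', hr', hf', -⟩ := T.ip hN hβN hi hβ hq₁ (π := fun h => π (R.tr γ h))
            (fun h => hπ _) (T.dv_up hγβ hd) hf₁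
          refine ⟨q', hq', ?_, hf'.imp fun h _ _ h2 => ?_⟩
          · rw [← R.res_res_of_le hγβ, hr', hr₁]
          · rw [R.tr_tr_of_le hγβ] at h2
            exact h2
      · exact T.lim_il hN hi (mfm_lim hβ) fun j hj hji => (ih j hji).2 f N hN hj

theorem Itn.bd (i : ι) : T.BD i := (T.main i).1

/-- generic conditions below a given condition of `N` -/
theorem Itn.exists_gen {f : Set P → ℕ → ℕ} {N : Nd ι P} (hN : T.Good f N) {i : ι}
    (hi : i ∈ N.o) {p : P} (hp : p ∈ N.c) (hpi : T.M i p) :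
    ∃ q, T.Gen N i q ∧ (T.X i).le q p := by
  obtain ⟨b, hbN, hb⟩ := hN.bot
  have h1 : R.res b p = R.one := by
    refine R.eq_one ?_
    have h2 := T.M_supp (T.M_res hpi b)
    refine Set.eq_empty_iff_forall_notMem.2 fun j hj => ?_
    exact absurd (h2 hj) (not_lt.2 (hb j))
  obtain ⟨q, hq, -, hf⟩ := (T.main i).2 f N hN hi b hbN (hb i) R.one (T.gen_one hN hb)
    (fun _ => p) (fun _ => ⟨hp, hpi⟩) (Dv.const p) (by
      rw [h1]
      exact Forc.self _)
  exact ⟨q, hq, T.sep hq.1 hpi hf⟩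

end Pool.Agent.MF45
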