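import Pool.Agent.MF45.Pst

/-!
# The forcing relation

Paper proofs.  `rs` is the lemma of Rasiowa and Sikorski: build `s = p 0 ≥ p 1 ≥ ...` with
`p (n + 1) ∈ D n` and let `h` be the set of all `q` with `X.le (p n) q` for some `n`.
`Forc.loc`: let `A` be a maximal set of pairwise incompatible conditions `a ≤ s` with
`Forc X a φ` (`zorn_subset`), with dense sets `D a n`; let `E n` be the set of all conditions `t`
with `t ≤ a`, `t ∈ D a n` for some `a ∈ A`, or incompatible with `s`.  `E n` is dense: a condition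
`p` compatible with `s` has an extension `≤ s`, hence one which forces `φ`, which is compatible
with some `a ∈ A`.  If a filter `h` containing `s` meets all `E n`, in `t n ≤ a n`, then all `a n`
are in `h` and so equal to one `a`.  `Forc.meet`: the dense set of all conditions in `D` or
incompatible with `s`; together with `Forc.loc` (or directly, with the set of all
conditions which are below an element of `D`, or incompatible with `s`).
-/

namespace Pool.Agent.MF45

universe u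

variable {P : Type u} {X : Pst P}

theorem Fil.le_self {h : Set P} (hh : Fil X h) {p : P} (hp : p ∈ h) : X.le p p := by
  obtain ⟨r, _, h1, _⟩ := hh.dir hp hp
  exact X.right h1

theorem rs {s : P} (hs : X.le s s) {D : ℕ → Set P} (hD : ∀ n, Dns X (D n)) :
    ∃ h, Fil X h ∧ (∀ n, ∃ p ∈ h, p ∈ D n) ∧ s ∈ h := by
  classical
  choose g hg1 hg2 using fun n (p : P) (hp : X.le p p) => hD n p hp
  let seq : ℕ → {p : P // X.le p p} := fun n => Nat.rec ⟨s, hs⟩
    (fun n p => ⟨g n p.1 p.2, X.left (hg2 n p.1 p.2)⟩) n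
  have step : ∀ n, X.le (seq (n + 1)).1 (seq n).1 := fun n => hg2 n _ _
  have mem : ∀ n, (seq (n + 1)).1 ∈ D n := fun n => hg1 n _ _
  have anti : ∀ m n, m ≤ n → X.le (seq n).1 (seq m).1 := by
    intro m n hmn
    induction n, hmn using Nat.le_induction with
    | base => exact (seq m).2
    | succ k _ ih => exact X.trans (step k) ih
  refine ⟨{q | ∃ n, X.le (seq n).1 q}, ⟨⟨s, 0, hs⟩, ?_, ?_⟩, ?_, ⟨0, hs⟩⟩
  · rintro p q ⟨n, hn⟩ hpq
    exact ⟨n, X.trans hn hpq⟩
  · rintro p q ⟨n, hn⟩ ⟨m, hm⟩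
    exact ⟨(seq (max n m)).1, ⟨max n m, (seq (max n m)).2⟩,
      X.trans (anti _ _ (le_max_left n m)) hn, X.trans (anti _ _ (le_max_right n m)) hm⟩
  · intro n
    exact ⟨(seq (n + 1)).1, ⟨n + 1, (seq (n + 1)).2⟩, mem n⟩

theorem Forc.of_all {s : P} {φ : Set P → Prop} (h : ∀ h, Fil X h → s ∈ h → φ h) :
    Forc X s φ := by
  exact ⟨fun _ => Set.univ, fun _ p hp => ⟨p, trivial, hp⟩, fun h' hh _ hsh => h h' hh hsh⟩

theorem Forc.mono {s s' : P} {φ : Set P → Prop} (hs : X.le s' s) (h : Forc X s φ) :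
    Forc X s' φ := by
  obtain ⟨D, hD, h1⟩ := h
  exact ⟨D, hD, fun h' hh hm hsh => h1 h' hh hm (hh.up hsh hs)⟩

theorem Forc.imp {s : P} {φ ψ : Set P → Prop} (h : Forc X s φ)
    (h' : ∀ h, Fil X h → s ∈ h → φ h → ψ h) : Forc X s ψ := by
  obtain ⟨D, hD, h1⟩ := h
  exact ⟨D, hD, fun k hk hm hsk => h' k hk hsk (h1 k hk hm hsk)⟩

theorem Forc.all {ι : Sort*} [Countable ι] {s : P} {φ : ι → Set P → Prop}
    (h : ∀ i, Forc X s (φ i)) : Forc X s fun h => ∀ i, φ i h := by
  classical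
  rcases isEmpty_or_nonempty ι with hι | hι
  · exact Forc.of_all fun h' _ _ i => hι.elim i
  · obtain ⟨f, hf⟩ := exists_surjective_nat ι
    choose D hD h1 using h
    refine ⟨fun n => D (f n.unpair.1) n.unpair.2, fun n => hD _ _, ?_⟩
    intro k hk hm hsk i
    obtain ⟨a, rfl⟩ := hf i
    refine h1 (f a) k hk (fun n => ?_) hsk
    have := hm (Nat.pair a n)
    simpa using this

theorem Forc.and {s : P} {φ ψ : Set P → Prop} (h : Forc X s φ) (h' : Forc X s ψ) :
    Forc X s fun h => φ h ∧ ψ h := by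
  have h1 : ∀ b : Bool, Forc X s (fun k => if b = true then φ k else ψ k) := by
    intro b
    cases b
    · simpa using h'
    · simpa using h
  refine (Forc.all h1).imp fun k _ _ hk => ⟨?_, ?_⟩
  · simpa using hk true
  · simpa using hk false

theorem Forc.mp {s : P} {φ ψ : Set P → Prop} (h : Forc X s φ)
    (h' : Forc X s fun h => φ h → ψ h) : Forc X s ψ := by
  exact (h.and h').imp fun k _ _ hk => hk.2 hk.1

theorem Forc.not_false {s : P} (hs : X.le s s) (h : Forc X s fun _ => False) : False := by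
  obtain ⟨D, hD, h1⟩ := h
  obtain ⟨k, hk, hm, hsk⟩ := rs hs hD
  exact h1 k hk hm hsk

theorem Forc.const {s : P} (hs : X.le s s) {p : Prop} (h : Forc X s fun _ => p) : p := by
  obtain ⟨D, hD, h1⟩ := h
  obtain ⟨k, hk, hm, hsk⟩ := rs hs hD
  exact h1 k hk hm hsk

/-- something which is not a condition forces everything -/
theorem Forc.of_not {s : P} (hs : ¬ X.le s s) (φ : Set P → Prop) : Forc X s φ := by
  exact Forc.of_all fun k hk hsk => (hs (hk.le_self hsk)).elim

/-- what is forced by densely many extensions is forced -/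
theorem Forc.loc {s : P} {φ : Set P → Prop}
    (h : ∀ s', X.le s' s → ∃ s'', X.le s'' s' ∧ Forc X s'' φ) : Forc X s φ := by
  classical
  let S : Set (Set P) := {A | (∀ a ∈ A, X.le a s ∧ Forc X a φ) ∧
    ∀ a ∈ A, ∀ b ∈ A, Comp X a b → a = b}
  obtain ⟨A, hA⟩ : ∃ A, Maximal (· ∈ S) A := by
    apply zorn_subset
    intro c hc hchain
    refine ⟨⋃₀ c, ⟨?_, ?_⟩, fun t ht => Set.subset_sUnion_of_mem ht⟩
    · rintro a ⟨t, ht, hat⟩
      exact (hc ht).1 a hat
    · rintro a ⟨t, ht, hat⟩ b ⟨t', ht', hbt'⟩ hab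
      rcases hchain.total ht ht' with h1 | h1
      · exact (hc ht').2 a (h1 hat) b hbt' hab
      · exact (hc ht).2 a hat b (h1 hbt') hab
  have hmax : ∀ q, X.le q s → Forc X q φ → ∃ a ∈ A, Comp X q a := by
    intro q hq hqf
    by_contra hcon
    push Not at hcon
    have h1 : insert q A ∈ S := by
      refine ⟨?_, ?_⟩
      · rintro a (rfl | ha)
        · exact ⟨hq, hqf⟩
        · exact hA.1.1 a ha
      · rintro a (rfl | ha) b (rfl | hb) hab
        · rfl
        · exact (hcon b hb hab).elim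
        · exact (hcon a ha (by obtain ⟨r, h2, h3⟩ := hab; exact ⟨r, h3, h2⟩)).elim
        · exact hA.1.2 a ha b hb hab
    have h2 : q ∈ A := hA.2 h1 (Set.subset_insert q A) (Set.mem_insert q A)
    exact hcon q h2 ⟨q, X.left hq, X.left hq⟩
  have hex : ∀ a, ∃ D : ℕ → Set P, a ∈ A → (∀ n, Dns X (D n)) ∧
      ∀ h, Fil X h → (∀ n, ∃ p ∈ h, p ∈ D n) → a ∈ h → φ h := by
    intro a
    by_cases ha : a ∈ A
    · obtain ⟨D, hD⟩ := (hA.1.1 a ha).2
      exact ⟨D, fun _ => hD⟩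
    · exact ⟨fun _ => ∅, fun h' => (ha h').elim⟩
  choose D hD using hex
  refine ⟨fun n => {t | ¬ Comp X t s ∨ ∃ a ∈ A, X.le t a ∧ t ∈ D a n}, ?_, ?_⟩
  · intro n p hp
    by_cases hps : Comp X p s
    · obtain ⟨r, hr1, hr2⟩ := hps
      obtain ⟨q, hq1, hq2⟩ := h r hr2
      obtain ⟨a, ha, r', h3, h4⟩ := hmax q (X.trans hq1 hr2) hq2
      obtain ⟨t, ht1, ht2⟩ := (hD a ha).1 n r' (X.left h3)
      exact ⟨t, Or.inr ⟨a, ha, X.trans ht2 h4, ht1⟩,
        X.trans (X.trans (X.trans ht2 h3) hq1) hr1⟩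
    · exact ⟨p, Or.inl hps, hp⟩
  · intro k hk hm hsk
    have h5 : ∀ n, ∃ a ∈ A, a ∈ k ∧ ∃ t ∈ k, t ∈ D a n := by
      intro n
      obtain ⟨t, htk, ht⟩ := hm n
      rcases ht with ht | ⟨a, ha, hta, htD⟩
      · obtain ⟨r, _, hr1, hr2⟩ := hk.dir htk hsk
        exact (ht ⟨r, hr1, hr2⟩).elim
      · exact ⟨a, ha, hk.up htk hta, t, htk, htD⟩
    obtain ⟨a, ha, hak, _⟩ := h5 0
    refine (hD a ha).2 k hk (fun n => ?_) hak
    obtain ⟨b, hb, hbk, t, htk, htD⟩ := h5 n
    obtain ⟨r, _, hr1, hr2⟩ := hk.dir hak hbk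
    have : a = b := hA.1.2 a ha b hb ⟨r, hr1, hr2⟩
    subst this
    exact ⟨t, htk, htD⟩

/-- generic filters meet sets which are dense below a member -/
theorem Forc.meet {s : P} {D : Set P} (h : ∀ s', X.le s' s → ∃ s'' ∈ D, X.le s'' s') :
    Forc X s fun h => ∃ p ∈ h, p ∈ D := by
  refine ⟨fun _ => {t | (∃ d ∈ D, X.le t d) ∨ ¬ Comp X t s}, ?_, ?_⟩
  · intro _ p hp
    by_cases hps : Comp X p s
    · obtain ⟨r, hr1, hr2⟩ := hps
      obtain ⟨q, hq1, hq2⟩ := h r hr2
      exact ⟨q, Or.inl ⟨q, hq1, X.left hq2⟩, X.trans hq2 hr1⟩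
    · exact ⟨p, Or.inr hps, hp⟩
  · intro k hk hm hsk
    obtain ⟨t, htk, ht⟩ := hm 0
    rcases ht with ⟨d, hd, htd⟩ | ht
    · exact ⟨d, hk.up htk htd, hd⟩
    · obtain ⟨r, _, hr1, hr2⟩ := hk.dir htk hsk
      exact (ht ⟨r, hr1, hr2⟩).elim

theorem Forc.self (s : P) : Forc X s fun h => s ∈ h := by
  exact Forc.of_all fun _ _ hsk => hsk

theorem Forc.mem_of_le {s p : P} (h : X.le s p) : Forc X s fun h => p ∈ h := by
  exact Forc.of_all fun _ hk hsk => hk.up hsk h

theorem Forc.not_mem {s p : P} (h : ¬ Comp X s p) : Forc X s fun h => p ∉ h := by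
  refine Forc.of_all fun k hk hsk hpk => ?_
  obtain ⟨r, _, hr1, hr2⟩ := hk.dir hsk hpk
  exact h ⟨r, hr1, hr2⟩

/-- a condition which forces that `p` is in the filter is compatible with `p` -/
theorem Forc.comp {s p : P} (hs : X.le s s) (h : Forc X s fun h => p ∈ h) :
    ∃ r, X.le r s ∧ X.le r p := by
  obtain ⟨D, hD, h1⟩ := h
  obtain ⟨k, hk, hm, hsk⟩ := rs hs hD
  obtain ⟨r, _, hr1, hr2⟩ := hk.dir hsk (h1 k hk hm hsk)
  exact ⟨r, hr1, hr2⟩

/-- a statement is forced, if every extension has an extension on which it is not refuted -/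
theorem Forc.exists_fil {s : P} (hs : X.le s s) {φ : Set P → Prop} (h : Forc X s φ) :
    ∃ h, Fil X h ∧ s ∈ h ∧ φ h := by
  obtain ⟨D, hD, h1⟩ := h
  obtain ⟨k, hk, hm, hsk⟩ := rs hs hD
  exact ⟨k, hk, hsk, h1 k hk hm hsk⟩

end Pool.Agent.MF45
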