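import Pool.Agent.MF45.PsA

/-!
# Densely decided statements and measurable names

Paper proofs.  `Dec.all`: let `p` be a condition.  If some `q ≤ p` forces `¬ φ i` for some `i`, it
decides the conjunction.  Otherwise, since `φ i` is densely decided, densely many extensions of
`p` force `φ i`, so `p` forces `φ i` (`Forc.loc`), for all `i`, and `p` forces the conjunction
(`Forc.all`).  `Dec.meet`: a condition compatible with an element of `D` has an extension which
forces `h ∩ D ≠ ∅`; a condition which is incompatible with all elements of `D` forces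
`h ∩ D = ∅`.  The densely decided sets of filters are a σ-algebra `msp X`; the names for elements
of `α` are the measurable functions `x : Set P → α`.
-/

namespace Pool.Agent.MF45

universe u

variable {P : Type u} {X : Pst P}

theorem Dec.not {φ : Set P → Prop} (h : Dec X φ) : Dec X fun h => ¬ φ h := by
  intro p hp
  obtain ⟨q, hq, h1 | h1⟩ := h p hp
  · exact ⟨q, hq, Or.inr (h1.imp fun _ _ _ h2 h3 => h3 h2)⟩
  · exact ⟨q, hq, Or.inl h1⟩

theorem Dec.all {ι : Sort*} [Countable ι] {φ : ι → Set P → Prop} (h : ∀ i, Dec X (φ i)) :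
    Dec X fun h => ∀ i, φ i h := by
  intro p hp
  by_cases hc : ∃ q, X.le q p ∧ ∃ i, Forc X q fun h => ¬ φ i h
  · obtain ⟨q, hq, i, h1⟩ := hc
    exact ⟨q, hq, Or.inr (h1.imp fun _ _ _ h2 h3 => h2 (h3 i))⟩
  · push Not at hc
    refine ⟨p, hp, Or.inl (Forc.all fun i => Forc.loc fun s' hs' => ?_)⟩
    obtain ⟨q, hq, h1 | h1⟩ := h i s' (X.left hs')
    · exact ⟨q, hq, h1⟩
    · exact absurd h1 (hc q (X.trans hq hs') i)

theorem Dec.ex {ι : Sort*} [Countable ι] {φ : ι → Set P → Prop} (h : ∀ i, Dec X (φ i)) :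
    Dec X fun h => ∃ i, φ i h := by
  have h1 := (Dec.all fun i => (h i).not).not
  have h2 : (fun h => ∃ i, φ i h) = fun h => ¬ ∀ i, ¬ φ i h := by
    funext g
    exact propext ⟨fun ⟨i, hi⟩ hn => hn i hi, fun hn => not_forall_not.1 hn⟩
  rw [h2]
  exact h1

theorem Dec.and {φ ψ : Set P → Prop} (h : Dec X φ) (h' : Dec X ψ) :
    Dec X fun h => φ h ∧ ψ h := by
  intro p hp
  obtain ⟨q, hq, h1 | h1⟩ := h p hp
  · obtain ⟨r, hr, h2 | h2⟩ := h' q (X.left hq)
    · exact ⟨r, X.trans hr hq, Or.inl ((h1.mono hr).and h2)⟩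
    · exact ⟨r, X.trans hr hq, Or.inr (h2.imp fun _ _ _ h3 h4 => h3 h4.2)⟩
  · exact ⟨q, hq, Or.inr (h1.imp fun _ _ _ h3 h4 => h3 h4.1)⟩

theorem Dec.or {φ ψ : Set P → Prop} (h : Dec X φ) (h' : Dec X ψ) :
    Dec X fun h => φ h ∨ ψ h := by
  have h1 := (h.not.and h'.not).not
  have h2 : (fun h => φ h ∨ ψ h) = fun h => ¬ (¬ φ h ∧ ¬ ψ h) := by
    funext g
    exact propext (by tauto)
  rw [h2]
  exact h1

theorem Dec.imp {φ ψ : Set P → Prop} (h : Dec X φ) (h' : Dec X ψ) :
    Dec X fun h => φ h → ψ h := by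
  have h1 := h.not.or h'
  have h2 : (fun h => φ h → ψ h) = fun h => ¬ φ h ∨ ψ h := by
    funext g
    exact propext (by tauto)
  rw [h2]
  exact h1

theorem Dec.const (p : Prop) : Dec X fun _ => p := by
  intro q hq
  by_cases hp : p
  · exact ⟨q, hq, Or.inl (Forc.of_all fun _ _ _ => hp)⟩
  · exact ⟨q, hq, Or.inr (Forc.of_all fun _ _ _ => hp)⟩

theorem Dec.congr {φ ψ : Set P → Prop} (h : Dec X φ) (h' : ∀ h, Fil X h → (φ h ↔ ψ h)) :
    Dec X ψ := by
  intro p hp
  obtain ⟨q, hq, h1 | h1⟩ := h p hp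
  · exact ⟨q, hq, Or.inl (h1.imp fun g hg _ h2 => (h' g hg).1 h2)⟩
  · exact ⟨q, hq, Or.inr (h1.imp fun g hg _ h2 h3 => h2 ((h' g hg).2 h3))⟩

theorem Dec.mem (p : P) : Dec X fun h => p ∈ h := by
  intro s hs
  by_cases hc : Comp X s p
  · obtain ⟨r, hr, hr'⟩ := hc
    exact ⟨r, hr, Or.inl (Forc.mem_of_le hr')⟩
  · exact ⟨s, hs, Or.inr (Forc.not_mem hc)⟩

theorem Dec.meet (D : Set P) : Dec X fun h => ∃ p ∈ h, p ∈ D := by
  intro s hs
  by_cases hc : ∃ d ∈ D, Comp X s d
  · obtain ⟨d, hd, r, hr, hr'⟩ := hc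
    exact ⟨r, hr, Or.inl ((Forc.mem_of_le hr').imp fun _ _ _ h1 => ⟨d, h1, hd⟩)⟩
  · refine ⟨s, hs, Or.inr (Forc.of_all ?_)⟩
    rintro g hg hsg ⟨p, hp, hpD⟩
    obtain ⟨r, -, h1, h2⟩ := hg.dir hsg hp
    exact hc ⟨p, hpD, r, h1, h2⟩

/-- a statement which is densely decided below densely many conditions -/
theorem Dec.loc {φ : Set P → Prop} (h : ∀ p, X.le p p → ∃ q, X.le q p ∧
    ((∃ ψ, Dec X ψ ∧ Forc X q fun h => (φ h ↔ ψ h)))) : Dec X φ := by
  intro p hp
  obtain ⟨q, hq, ψ, hψ, h1⟩ := h p hp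
  obtain ⟨r, hr, h2 | h2⟩ := hψ q (X.left hq)
  · exact ⟨r, X.trans hr hq, Or.inl (((h1.mono hr).and h2).imp fun _ _ _ h3 => h3.1.2 h3.2)⟩
  · exact ⟨r, X.trans hr hq,
      Or.inr (((h1.mono hr).and h2).imp fun _ _ _ h3 h4 => h3.2 (h3.1.1 h4))⟩

/-- a statement which is not forced is refuted by an extension -/
theorem Dec.neg {φ : Set P → Prop} (h : Dec X φ) {s : P} (hs : ¬ Forc X s φ) :
    ∃ s', X.le s' s ∧ Forc X s' fun h => ¬ φ h := by
  by_contra hc
  push Not at hc
  refine hs (Forc.loc fun s' hs' => ?_)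
  obtain ⟨q, hq, h1 | h1⟩ := h s' (X.left hs')
  · exact ⟨q, hq, h1⟩
  · exact absurd h1 (hc q (X.trans hq hs'))

/-- a statement which no extension refutes is forced -/
theorem Dec.forc {φ : Set P → Prop} (h : Dec X φ) {s : P}
    (hs : ∀ s', X.le s' s → ¬ Forc X s' fun h => ¬ φ h) : Forc X s φ := by
  by_contra hc
  obtain ⟨s', h1, h2⟩ := h.neg hc
  exact hs s' h1 h2

/-- one of countably many statements is decided -/
theorem Forc.decide {ι : Sort*} [Countable ι] {φ : ι → Set P → Prop} (hd : ∀ i, Dec X (φ i))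
    {s : P} (hs : X.le s s) (h : Forc X s fun h => ∃ i, φ i h) :
    ∃ s', X.le s' s ∧ ∃ i, Forc X s' (φ i) := by
  by_contra hc
  push Not at hc
  have h1 : ∀ i, Forc X s fun h => ¬ φ i h := by
    intro i
    refine Forc.loc fun s' hs' => ?_
    obtain ⟨q, hq, h2 | h2⟩ := hd i s' (X.left hs')
    · exact absurd h2 (hc q (X.trans hq hs') i)
    · exact ⟨q, hq, h2⟩
  exact Forc.not_false hs ((h.and (Forc.all h1)).imp fun _ _ _ ⟨⟨i, hi⟩, h4⟩ => h4 i hi)

/-- the σ-algebra of densely decided sets -/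
@[instance_reducible]
def msp (X : Pst P) : MeasurableSpace (Set P) where
  MeasurableSet' A := Dec X fun h => h ∈ A
  measurableSet_empty := Dec.const False
  measurableSet_compl := fun _ h => h.not
  measurableSet_iUnion := by
    intro f hf
    have h2 : (fun h => h ∈ ⋃ i, f i) = fun h => ∃ i, h ∈ f i := by
      funext g
      exact propext Set.mem_iUnion
    rw [h2]
    exact Dec.ex hf

/-- `x` is a name -/
def Ms {α : Type*} [MeasurableSpace α] (X : Pst P) (x : Set P → α) : Prop :=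
  @Measurable _ _ (msp X) _ x

section

variable {α β : Type*} [MeasurableSpace α] [MeasurableSpace β]

theorem Ms.dec {x : Set P → α} (hx : Ms X x) {A : Set α} (hA : MeasurableSet A) :
    Dec X fun h => x h ∈ A := by
  exact hx hA

theorem ms_iff {x : Set P → α} : Ms X x ↔ ∀ A : Set α, MeasurableSet A →
    Dec X fun h => x h ∈ A := by
  exact ⟨fun h A hA => h hA, fun h A hA => h A hA⟩

theorem Ms.comp {f : α → β} (hf : Measurable f) {x : Set P → α} (hx : Ms X x) :
    Ms X fun h => f (x h) := by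
  exact @Measurable.comp _ _ _ (msp X) _ _ _ _ hf hx

theorem Ms.prod {x : Set P → α} {y : Set P → β} (hx : Ms X x) (hy : Ms X y) :
    Ms X fun h => (x h, y h) := by
  let _ := msp X
  exact Measurable.prodMk hx hy

theorem ms_pi {x : Set P → ℕ → α} : Ms X x ↔ ∀ n, Ms X fun h => x h n := by
  let _ := msp X
  exact measurable_pi_iff

theorem Ms.const (a : α) : Ms X fun _ => a := by
  let _ := msp X
  exact measurable_const

theorem ms_countable [Countable α] [MeasurableSingletonClass α] {x : Set P → α} :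
    Ms X x ↔ ∀ a, Dec X fun h => x h = a := by
  refine ⟨fun h a => h.dec (measurableSet_singleton a), fun h => ?_⟩
  let _ := msp X
  exact measurable_to_countable' h

theorem Ms.ite {φ : Set P → Prop} (hφ : Dec X φ) {x y : Set P → α} (hx : Ms X x)
    (hy : Ms X y) : Ms X fun h => open Classical in if φ h then x h else y h := by
  let _ := msp X
  exact Measurable.ite hφ hx hy

theorem Ms.eq [Countable α] [MeasurableSingletonClass α] {x y : Set P → α} (hx : Ms X x)
    (hy : Ms X y) : Dec X fun h => x h = y h := by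
  have h1 : Dec X fun h => ∃ a, x h = a ∧ y h = a :=
    Dec.ex fun a => (ms_countable.1 hx a).and (ms_countable.1 hy a)
  exact h1.congr fun h _ => ⟨fun ⟨a, ha, hb⟩ => ha.trans hb.symm, fun h2 => ⟨_, rfl, h2.symm⟩⟩

/-- a function which agrees with names below densely many conditions is a name -/
theorem Ms.loc {x : Set P → α} (h : ∀ p, X.le p p → ∃ q, X.le q p ∧
    ∃ y : Set P → α, Ms X y ∧ Forc X q fun h => x h = y h) : Ms X x := by
  refine ms_iff.2 fun A hA => Dec.loc fun p hp => ?_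
  obtain ⟨q, hq, y, hy, h1⟩ := h p hp
  refine ⟨q, hq, fun h => y h ∈ A, hy.dec hA, h1.imp fun g _ _ h2 => ?_⟩
  rw [h2]

/-- the least number with a property -/
theorem ms_sInf {R : Set P → ℕ → Prop} (h : ∀ k, Dec X fun h => R h k) :
    Ms X fun h => sInf {k | R h k} := by
  refine ms_countable.2 fun a => ?_
  have h1 : Dec X fun h => (R h a ∧ ∀ j, j < a → ¬ R h j) ∨ (a = 0 ∧ ∀ k, ¬ R h k) :=
    ((h a).and (Dec.all fun j => (Dec.const (j < a)).imp (h j).not)).or
      ((Dec.const (a = 0)).and (Dec.all fun k => (h k).not))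
  refine h1.congr fun g _ => ?_
  rcases Set.eq_empty_or_nonempty {k | R g k} with he | hne
  · have h2 : ∀ k, ¬ R g k := fun k hk => by
      have : k ∈ ({k | R g k} : Set ℕ) := hk
      rw [he] at this
      exact this
    rw [he, Nat.sInf_empty]
    constructor
    · rintro (⟨h3, -⟩ | ⟨h3, -⟩)
      · exact absurd h3 (h2 a)
      · exact h3.symm
    · intro h3
      exact Or.inr ⟨h3.symm, h2⟩
  · constructor
    · rintro (⟨h3, h4⟩ | ⟨-, h4⟩)
      · refine le_antisymm (Nat.sInf_le h3) ?_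
        by_contra hlt
        exact h4 _ (not_le.1 hlt) (Nat.sInf_mem hne)
      · obtain ⟨k, hk⟩ := hne
        exact absurd hk (h4 k)
    · intro h3
      left
      rw [← h3]
      exact ⟨Nat.sInf_mem hne, fun j hj => Nat.notMem_of_lt_sInf hj⟩

/-- names with countably many values are decided -/
theorem Ms.decide [Countable α] [MeasurableSingletonClass α] {x : Set P → α} (hx : Ms X x)
    {s : P} (hs : X.le s s) : ∃ s', X.le s' s ∧ ∃ a, Forc X s' fun h => x h = a := by
  exact Forc.decide (fun a => ms_countable.1 hx a) hs (Forc.of_all fun g _ _ => ⟨x g, rfl⟩)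

end

/-- `π` is a name for an element of the ground model, with countably many values -/
def Dv {α : Type*} (X : Pst P) (π : Set P → α) : Prop := ∀ r, Dec X fun h => π h = r

theorem Dv.const {α : Type*} (a : α) : Dv X fun _ => a := by
  exact fun r => Dec.const (a = r)

/-- a name with values in a countable set is decided -/
theorem Dv.decide {α : Type*} {π : Set P → α} (hπ : Dv X π) {C : Set α} (hC : C.Countable)
    {s : P} (hs : X.le s s) (h : Forc X s fun h => π h ∈ C) :
    ∃ s', X.le s' s ∧ ∃ a ∈ C, Forc X s' fun h => π h = a := by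
  have := hC.to_subtype
  obtain ⟨s', h1, a, h2⟩ := Forc.decide (ι := C) (φ := fun a h => π h = a)
    (fun a => hπ a) hs (h.imp fun g _ _ h3 => ⟨⟨π g, h3⟩, rfl⟩)
  exact ⟨s', h1, a, a.2, h2⟩

/-- substitution of a name with countably many values -/
theorem Dv.subst {α : Type*} {π : Set P → α} (hπ : Dv X π) {C : Set α} (hC : C.Countable)
    (hv : ∀ h, π h ∈ C) {Q : α → Set P → Prop} (hQ : ∀ a ∈ C, Dec X (Q a)) :
    Dec X fun h => Q (π h) h := by
  have := hC.to_subtype
  have h1 : Dec X fun h => ∃ a : C, π h = a ∧ Q a h :=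
    Dec.ex fun a => (hπ a).and (hQ a a.2)
  refine h1.congr fun g _ => ⟨?_, fun h2 => ⟨⟨π g, hv g⟩, rfl, h2⟩⟩
  rintro ⟨a, ha, h2⟩
  rw [ha]
  exact h2

theorem Dv.ms {α β : Type*} [MeasurableSpace β] {π : Set P → α} (hπ : Dv X π) {C : Set α}
    (hC : C.Countable) (hv : ∀ h, π h ∈ C) {x : α → Set P → β} (hx : ∀ a ∈ C, Ms X (x a)) :
    Ms X fun h => x (π h) h := by
  exact ms_iff.2 fun A hA => hπ.subst (Q := fun a h => x a h ∈ A) hC hv
    fun a ha => (hx a ha).dec hA

theorem Dv.map {α β : Type*} {π : Set P → α} (hπ : Dv X π) {C : Set α}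
    (hC : C.Countable) (hv : ∀ h, π h ∈ C) (f : α → β) : Dv X fun h => f (π h) := by
  exact fun r => hπ.subst (Q := fun a _ => f a = r) hC hv fun a _ => Dec.const _

theorem Forc.substC {α : Type*} {s : P} {C : Set α} (hC : C.Countable)
    {Q : α → Set P → Prop} (h : ∀ a ∈ C, Forc X s (Q a)) :
    Forc X s fun h => ∀ a ∈ C, Q a h := by
  have := hC.to_subtype
  exact (Forc.all fun a : C => h a a.2).imp fun g _ _ h2 a ha => h2 ⟨a, ha⟩

end Pool.Agent.MF45
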