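import Mathlib

/-!
# Forcing with sufficiently generic filters

`Forc X s φ` says: there are countably many dense sets such that `φ h` holds for all filters `h`
which meet them and contain `s`.
-/

namespace Pool.Agent.MF45

universe u v

/-- a preorder, given by its relation `le q p` (`q` is stronger than `p`); the conditions are
the `p` with `le p p` -/
structure Pst (P : Type u) where
  /-- the order -/
  le : P → P → Prop
  left : ∀ {q p}, le q p → le q q
  right : ∀ {q p}, le q p → le p p
  trans : ∀ {r q p}, le r q → le q p → le r p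

/-- filters -/
structure Fil {P : Type u} (X : Pst P) (h : Set P) : Prop where
  ne : h.Nonempty
  up : ∀ {p q}, p ∈ h → X.le p q → q ∈ h
  dir : ∀ {p q}, p ∈ h → q ∈ h → ∃ r ∈ h, X.le r p ∧ X.le r q

section

variable {P : Type u} (X : Pst P)

/-- dense sets -/
def Dns (D : Set P) : Prop := ∀ p, X.le p p → ∃ q ∈ D, X.le q p

/-- `s` forces `φ` -/
def Forc (s : P) (φ : Set P → Prop) : Prop :=
  ∃ D : ℕ → Set P, (∀ n, Dns X (D n)) ∧
    ∀ h, Fil X h → (∀ n, ∃ p ∈ h, p ∈ D n) → s ∈ h → φ h

/-- `φ` is densely decided -/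
def Dec (φ : Set P → Prop) : Prop :=
  ∀ p, X.le p p → ∃ q, X.le q p ∧ (Forc X q φ ∨ Forc X q fun h => ¬ φ h)

/-- `p` and `q` are compatible -/
def Comp (p q : P) : Prop := ∃ r, X.le r p ∧ X.le r q

end

end Pool.Agent.MF45
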