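import Mathlib

/-!
# Closure ordinals

Paper proof.  Define `G : Ordinal → Ordinal` by well-founded recursion such that `G` is strictly
increasing, `j₀ < G 0`, and for `β < α` and all `j ≤ G β`, `g j < G α` and `G β < G α`.  (For
instance `G α = max (j₀ + 1) (⨆ β : Iio α, ⨆ j : Iic (G β), succ (max (G β) (g j)))`; the
suprema exist since the index types are small.)  Let `i` be the supremum of `G α` over
`α < ω₁` (`Ordinal.omega 1` or the type of any uncountable regular cardinal, for instance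
`(Cardinal.aleph 1).ord`).  A countable
subset of `Iio i` is bounded by `G α` for some `α < ω₁`, since countable sets of countable ordinals
are bounded below `ω₁`.
-/

namespace Pool.Agent.MF45

open Set

/-- The auxiliary increasing function. -/
private noncomputable def cloG (g : Ordinal.{0} → Ordinal.{0}) (j₀ : Ordinal.{0}) :
    Ordinal.{0} → Ordinal.{0}
  | α => max (Order.succ j₀) (⨆ β : Iio α,
      Order.succ (max (cloG g j₀ β.1) (⨆ j : Iic (cloG g j₀ β.1), g j.1)))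
termination_by α => α
decreasing_by exact β.2

private lemma cloG_base (g : Ordinal.{0} → Ordinal.{0}) (j₀ α : Ordinal.{0}) :
    j₀ < cloG g j₀ α := by
  rw [cloG]
  exact lt_of_lt_of_le (Order.lt_succ j₀) (le_max_left _ _)

private lemma cloG_step (g : Ordinal.{0} → Ordinal.{0}) (j₀ : Ordinal.{0}) {β α : Ordinal.{0}}
    (h : β < α) : max (cloG g j₀ β) (⨆ j : Iic (cloG g j₀ β), g j.1) < cloG g j₀ α := by
  have h1 : cloG g j₀ α = max (Order.succ j₀) (⨆ β : Iio α,
      Order.succ (max (cloG g j₀ β.1) (⨆ j : Iic (cloG g j₀ β.1), g j.1))) := by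
    rw [cloG]
  rw [h1]
  have hb : BddAbove (Set.range fun β : Iio α =>
      Order.succ (max (cloG g j₀ β.1) (⨆ j : Iic (cloG g j₀ β.1), g j.1))) :=
    Ordinal.bddAbove_of_small
  have h2 := le_ciSup hb (⟨β, h⟩ : Iio α)
  exact lt_of_lt_of_le (Order.lt_succ _) (le_trans h2 (le_max_right _ _))

private lemma cloG_lt (g : Ordinal.{0} → Ordinal.{0}) (j₀ : Ordinal.{0}) {β α : Ordinal.{0}}
    (h : β < α) : cloG g j₀ β < cloG g j₀ α :=
  lt_of_le_of_lt (le_max_left _ _) (cloG_step g j₀ h)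

private lemma cloG_g (g : Ordinal.{0} → Ordinal.{0}) (j₀ : Ordinal.{0}) {β α : Ordinal.{0}}
    (h : β < α) {j : Ordinal.{0}} (hj : j ≤ cloG g j₀ β) : g j < cloG g j₀ α := by
  have hb : BddAbove (Set.range fun j : Iic (cloG g j₀ β) => g j.1) :=
    Ordinal.bddAbove_of_small
  have h2 := le_ciSup hb (⟨j, hj⟩ : Iic (cloG g j₀ β))
  exact lt_of_le_of_lt (le_trans h2 (le_max_right _ _)) (cloG_step g j₀ h)

theorem exists_clo (g : Ordinal.{0} → Ordinal.{0}) (j₀ : Ordinal.{0}) : ∃ i : Ordinal.{0},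
    j₀ < i ∧ (∀ j, j < i → g j < i) ∧
      ∀ S : Set Ordinal.{0}, S.Countable → S ⊆ Iio i → ∃ k, k < i ∧ S ⊆ Iio k := by
  have hω : (0 : Ordinal.{0}) < Ordinal.omega 1 :=
    lt_of_le_of_lt bot_le Ordinal.omega0_lt_omega_one
  have hsucc : ∀ α : Ordinal.{0}, α < Ordinal.omega 1 → Order.succ α < Ordinal.omega 1 :=
    fun α h => (Cardinal.isSuccLimit_omega 1).succ_lt h
  have hb : BddAbove (Set.range fun α : Iio (Ordinal.omega.{0} 1) => cloG g j₀ α.1) :=
    Ordinal.bddAbove_of_small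
  have hlt : ∀ α : Ordinal.{0}, α < Ordinal.omega 1 →
      cloG g j₀ α < ⨆ α : Iio (Ordinal.omega.{0} 1), cloG g j₀ α.1 := by
    intro α h
    exact lt_of_lt_of_le (cloG_lt g j₀ (Order.lt_succ α))
      (le_ciSup hb (⟨Order.succ α, hsucc α h⟩ : Iio (Ordinal.omega.{0} 1)))
  have hne : Nonempty (Iio (Ordinal.omega.{0} 1)) := ⟨⟨0, hω⟩⟩
  have hex : ∀ j, j < (⨆ α : Iio (Ordinal.omega.{0} 1), cloG g j₀ α.1) →
      ∃ α : Ordinal.{0}, α < Ordinal.omega 1 ∧ j < cloG g j₀ α := by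
    intro j hj
    obtain ⟨α, hα⟩ := exists_lt_of_lt_ciSup hj
    exact ⟨α.1, α.2, hα⟩
  refine ⟨⨆ α : Iio (Ordinal.omega.{0} 1), cloG g j₀ α.1, ?_, ?_, ?_⟩
  · exact (cloG_base g j₀ 0).trans (hlt 0 hω)
  · intro j hj
    obtain ⟨α, hα, hjα⟩ := hex j hj
    exact (cloG_g g j₀ (Order.lt_succ α) hjα.le).trans (hlt _ (hsucc α hα))
  · intro S hS hSi
    have hS' : Countable S := hS.to_subtype
    choose a ha1 ha2 using fun s : S => hex s.1 (hSi s.2)
    have hsup : (⨆ s : S, a s) < Ordinal.omega 1 := Ordinal.iSup_lt_omega_one ha1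
    refine ⟨cloG g j₀ (⨆ s : S, a s), hlt _ hsup, ?_⟩
    intro s hs
    have hba : BddAbove (Set.range a) := by
      refine ⟨Ordinal.omega 1, ?_⟩
      rintro _ ⟨t, rfl⟩
      exact (ha1 t).le
    have h1 : a ⟨s, hs⟩ ≤ ⨆ s : S, a s := le_ciSup hba ⟨s, hs⟩
    have h2 : cloG g j₀ (a ⟨s, hs⟩) ≤ cloG g j₀ (⨆ s : S, a s) := by
      rcases h1.lt_or_eq with h | h
      · exact (cloG_lt g j₀ h).le
      · rw [h]
    exact lt_of_lt_of_le (ha2 ⟨s, hs⟩) h2

end Pool.Agent.MF45
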