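import Pool.Agent.MF45.Main

/-!
# Reals appear at earlier stages

Paper proof.  Let `D n` be the set of all `r` of the stage `i` such that for some `v` the condition
`r` forces `y h n = v`; it is dense (`Ms.decide`).  Let `N` be good (`exists_good`, for the function
`fun _ _ => 0`) with `i ∈ N.o`, `p ∈ N.c`, `D n ∈ N.d`, and let `q ≤ p` be generic for `i`
(`exists_gen`).  The set `(N.o ∩ Iio i) ∪ supp q` is countable and contained in `Iio i`, so there
is `k < i` with all its elements below `k`.  So `q` is a condition of the stage `k`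
(`M_of_supp`), and so are all conditions `r ∈ N.c` of the stage `i` (`Good.supp`).  Let
`y' h n = true` iff there is `r ∈ h` with `r ∈ N.c`, `T.M i r`, such that `r` forces (at the stage `i`)
`y h n = true`.  `y'` depends only on `tr k h`, and is a name at the stage `k` (`Dec.meet`).
For almost all `h` containing `q`, for all `n` there is `r ∈ h ∩ D n ∩ N.c`, and `h` satisfies what
the (countably many) `r ∈ h ∩ N.c` force (`forc_imp_of`), so `y h n = y' h n`.
-/

namespace Pool.Agent.MF45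

universe u

open Set

variable {ι P : Type u} [LinearOrder ι] [WellFoundedLT ι] {R : Raw ι P} (T : Itn R)

theorem Itn.local_name {i : ι}
    (hi : ∀ S : Set ι, S.Countable → S ⊆ Iio i → ∃ k, k < i ∧ S ⊆ Iio k)
    {y : Set P → ℕ → Bool} (hy : Ms (T.X i) y) {p : P} (hp : T.M i p) :
    ∃ q, (T.X i).le q p ∧ ∃ k, k < i ∧ T.M k q ∧ ∃ y' : Set P → ℕ → Bool, Ms (T.X k) y' ∧
      (∀ h, y' (R.tr k h) = y' h) ∧ Forc (T.X i) q fun h => y h = y' h := by
  classical
  have : Nonempty ι := ⟨i⟩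
  let D : ℕ → Set P := fun n => {r | T.M i r ∧ ∃ v, Forc (T.X i) r fun h => y h n = v}
  have hD : ∀ n, Dns (T.X i) (D n) := by
    intro n s hs
    obtain ⟨s', hs', v, hv⟩ := (ms_pi.1 hy n).decide hs
    exact ⟨s', ⟨T.M_left hs', v, hv⟩, hs'⟩
  obtain ⟨N, hN, hoN, hcN, hdN⟩ := T.exists_good (fun _ _ => 0) (countable_singleton i)
    (countable_singleton p) (countable_range D)
  obtain ⟨q, hq, hqp⟩ := T.exists_gen hN (hoN rfl) (hcN rfl) hp
  obtain ⟨k, hki, hk⟩ := hi ((N.o ∩ Iio i) ∪ R.supp q)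
    ((hN.co.mono inter_subset_left).union (R.cnt q))
    (union_subset inter_subset_right (T.M_supp hq.1))
  let A : ℕ → Set P := fun n =>
    {r | r ∈ N.c ∧ T.M i r ∧ Forc (T.X i) r fun h => y h n = true}
  have hA : ∀ n, ∀ r ∈ A n, R.supp r ⊆ Iio k := fun n r hr j hj =>
    hk (Or.inl ⟨hN.supp hr.1 hj, T.M_supp hr.2.1 hj⟩)
  let y' : Set P → ℕ → Bool := fun h n => decide (∃ r ∈ h, r ∈ A n)
  have hy' : ∀ h n, y' h n = true ↔ ∃ r ∈ h, r ∈ A n := fun h n => decide_eq_true_iff
  refine ⟨q, hqp, k, hki, T.M_of_supp hq.1 fun j hj => hk (Or.inr hj), y', ?_, ?_, ?_⟩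
  · refine ms_pi.2 fun n => ms_countable.2 fun a => ?_
    have h1 : Dec (T.X k) fun h => y' h n = true :=
      (Dec.meet (A n)).congr fun h _ => (hy' h n).symm
    cases a
    · exact h1.not.congr fun h _ => Bool.not_eq_true _ ▸ Iff.rfl
    · exact h1
  · intro h
    funext n
    rw [Bool.eq_iff_iff, hy', hy']
    exact ⟨fun ⟨r, hr, hr'⟩ => ⟨r, hr.1, hr'⟩, fun ⟨r, hr, hr'⟩ => ⟨r, ⟨hr, hA n r hr'⟩, hr'⟩⟩
  · have h1 : ∀ n, Forc (T.X i) q fun h => ∃ r ∈ h, r ∈ D n ∧ r ∈ N.c := fun n =>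
      hq.2 (D n) (hdN ⟨n, rfl⟩) (hD n)
    have h2 : ∀ n, Forc (T.X i) q fun h => ∀ r ∈ N.c, ∀ v : Bool,
        Forc (T.X i) r (fun h => y h n = v) → r ∈ h → y h n = v := by
      intro n
      refine Forc.substC hN.cc fun r _ => Forc.all fun v => ?_
      by_cases hv : Forc (T.X i) r fun h => y h n = v
      · exact (forc_imp_of hv).imp fun h _ _ h3 _ => h3
      · exact Forc.of_all fun h _ _ h3 => absurd h3 hv
    refine (Forc.all fun n => (h1 n).and (h2 n)).imp fun h _ _ h3 => funext fun n => ?_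
    obtain ⟨⟨r, hr, ⟨hM, v, hv⟩, hrN⟩, h5⟩ := h3 n
    have h6 : y h n = v := h5 r hrN v hv hr
    cases v
    · rw [h6]
      by_contra hc
      have h7 : y' h n = true := by
        cases h8 : y' h n
        · exact absurd h8.symm hc
        · rfl
      obtain ⟨r', hr', hr'A⟩ := (hy' h n).1 h7
      have h8 := h5 r' hr'A.1 true hr'A.2.2 hr'
      rw [h6] at h8
      exact Bool.false_ne_true h8
    · rw [h6]
      exact ((hy' h n).2 ⟨r, hr, hrN, hM, hv⟩).symm

end Pool.Agent.MF45
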