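import Pool.Agent.MF45.RefA
import Pool.Agent.MF45.RefB
import Pool.Agent.MF45.FinB

/-!
# Reflection

Paper proof.  For an ordinal `k` consider all pairs of a condition `s ≤ p₀` of the stage `k` and a
sequence of names at the stage `k` which are in `Fo s`, or a function `g`; these are a small set
(the conditions of the stage `k` are a small set, and names `y` with `y (tr k h) = y h`
correspond to functions on the power set of the small set of conditions with support below `k`).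
For each of them there are `t`, `B` as wanted for some `k'`: by `FoM.pseudo` resp. `FoM.gap` (with
`Itn.bd`) there are `s' ≤ s` and a name `B'` at the stage `⊤`, and by `local_name` for `⊤`
(countable sets of ordinals are bounded) there are `t ≤ s'`, `k'`, and `B` such that `t` forces
`B' h = B h`; use `FoM.up`.  Let `g k` be the supremum of all these `k'` (choose one `k'` for each
task) and apply `exists_clo`, with `j₀` such that `p₀` is a condition of the stage `j₀`.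
-/

namespace Pool.Agent.MF45

open Set

variable {P : Type 1} {R : Raw (WithTop Ordinal.{0}) P} (T : Itn R)

/-- `y` is a name at the stage `k` -/
def Itn.Nam (k : WithTop Ordinal.{0}) (y : Set P → ℕ → Bool) : Prop :=
  Ms (T.X k) y ∧ ∀ h, y (R.tr k h) = y h

/-- the filter `Fo` is reflected at the stage `i` -/
structure Refl (p₀ : P) (Fo : P → (Set P → ℕ → Bool) → Prop) (i : Ordinal.{0}) : Prop where
  mem : ∃ k : Ordinal.{0}, k < i ∧ T.M k p₀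
  uc : ∀ S : Set (WithTop Ordinal.{0}), S.Countable → S ⊆ Iio (i : WithTop Ordinal.{0}) →
    ∃ k : Ordinal.{0}, k < i ∧ S ⊆ Iio (k : WithTop Ordinal.{0})
  ps : ∀ k : Ordinal.{0}, k < i → ∀ s, T.M k s → (T.X ⊤).le s p₀ →
    ∀ y : ℕ → Set P → ℕ → Bool, (∀ n, T.Nam k (y n)) → (∀ n, Fo s (y n)) →
      ∃ k' : Ordinal.{0}, k' < i ∧ ∃ t, T.M k' t ∧ (T.X ⊤).le t s ∧
        ∃ B : Set P → ℕ → Bool, T.Nam k' B ∧ Fo t B ∧
          Forc (T.X ⊤) t fun h => ∀ n, ∃ N, ∀ j, N ≤ j → B h j = true → y n h j = true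
  gp : ∀ k : Ordinal.{0}, k < i → ∀ s, T.M k s → (T.X ⊤).le s p₀ → ∀ g : ℕ → ℕ,
    ∃ k' : Ordinal.{0}, k' < i ∧ ∃ t, T.M k' t ∧ (T.X ⊤).le t s ∧
      ∃ B : Set P → ℕ → Bool, T.Nam k' B ∧ Fo t B ∧
        Forc (T.X ⊤) t fun h => ∀ N, ∃ m, N ≤ m ∧ ∀ n, m ≤ n → n < g m → B h n = false

private theorem refC_top {S : Set (WithTop Ordinal.{0})} (hS : S.Countable)
    (hST : S ⊆ Iio ⊤) : ∃ k : Ordinal.{0}, S ⊆ Iio (k : WithTop Ordinal.{0}) := by
  have h1 : (((↑) : Ordinal.{0} → WithTop Ordinal.{0}) ⁻¹' S).Countable :=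
    hS.preimage WithTop.coe_injective
  have := h1.to_subtype
  obtain ⟨b, hb⟩ : BddAbove (((↑) : Ordinal.{0} → WithTop Ordinal.{0}) ⁻¹' S) :=
    Ordinal.bddAbove_of_small
  refine ⟨Order.succ b, fun x hx => ?_⟩
  have h2 : x < ⊤ := hST hx
  lift x to Ordinal.{0} using h2.ne
  exact WithTop.coe_lt_coe.2 (Order.lt_succ_of_le (hb hx))

private theorem refC_small (R : Raw (WithTop Ordinal.{0}) P) (i : Ordinal.{0})
    (hR : Small.{0} {p : P // R.supp p ⊆ Iio (i : WithTop Ordinal.{0})}) :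
    Small.{0} {Y : Set P → ℕ → Bool // ∀ h, Y (R.tr i h) = Y h} := by
  have := hR
  have : Small.{0} (Set {p : P // R.supp p ⊆ Iio (i : WithTop Ordinal.{0})}) := small_set
  have : Small.{0} (Set {p : P // R.supp p ⊆ Iio (i : WithTop Ordinal.{0})} → ℕ → Bool) :=
    inferInstance
  refine small_of_injective
    (f := fun (Y : {Y : Set P → ℕ → Bool // ∀ h, Y (R.tr i h) = Y h})
      (H : Set {p : P // R.supp p ⊆ Iio (i : WithTop Ordinal.{0})}) =>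
      Y.1 (Subtype.val '' H)) ?_
  intro Y Y' hYY
  apply Subtype.ext
  funext h
  have h1 := congrFun hYY {q | q.1 ∈ h}
  have h2 : (Subtype.val '' {q : {p : P // R.supp p ⊆ Iio (i : WithTop Ordinal.{0})} | q.1 ∈ h})
      = R.tr i h := by
    ext q
    constructor
    · rintro ⟨q', hq', rfl⟩
      exact ⟨hq', q'.2⟩
    · rintro ⟨hq, hq2⟩
      exact ⟨⟨q, hq2⟩, hq, rfl⟩
  simp only [h2] at h1
  rw [← Y.2 h, ← Y'.2 h]
  exact h1

private theorem refC_loc {p₀ : P} {Fo : P → (Set P → ℕ → Bool) → Prop}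
    (H : FoM (T.X ⊤) p₀ Fo) {s : P} (hs : (T.X ⊤).le s p₀) {B : Set P → ℕ → Bool}
    (hB : Fo s B) : ∃ k : Ordinal.{0}, ∃ t, T.M k t ∧ (T.X ⊤).le t s ∧
      ∃ B' : Set P → ℕ → Bool, T.Nam k B' ∧ Fo t B' ∧
        Forc (T.X ⊤) t fun h => B h = B' h := by
  obtain ⟨q, hq, k, hk, hkq, y', hy', hy2, hf⟩ := T.local_name (i := ⊤) (fun S hS hST => by
    obtain ⟨k, hk⟩ := refC_top hS hST
    exact ⟨k, WithTop.coe_lt_top k, hk⟩) (H.ms hs hB) (T.M_left hs)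
  lift k to Ordinal.{0} using hk.ne
  refine ⟨k, q, hkq, hq, y', ⟨hy', hy2⟩, ?_, hf⟩
  have hms : Ms (T.X ⊤) y' := by
    have h1 := T.ms_up (i := ⊤) (j := (k : WithTop Ordinal.{0})) le_top hy'
    have h2 : (fun h => y' (R.tr (k : WithTop Ordinal.{0}) h)) = y' := funext hy2
    rwa [h2] at h1
  refine H.up ((T.X ⊤).trans hq hs) (H.mono hs hq hB) hms (hf.imp fun h _ _ h1 => ?_)
  refine ⟨0, fun n _ hn => ?_⟩
  rw [← h1]
  exact hn

private theorem refC_ps {p₀ : P} {Fo : P → (Set P → ℕ → Bool) → Prop}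
    (H : FoM (T.X ⊤) p₀ Fo) {s : P} (hs : (T.X ⊤).le s p₀) {y : ℕ → Set P → ℕ → Bool}
    (hy : ∀ n, Fo s (y n)) : ∃ k' : Ordinal.{0}, ∃ t, T.M k' t ∧ (T.X ⊤).le t s ∧
        ∃ B : Set P → ℕ → Bool, T.Nam k' B ∧ Fo t B ∧
          Forc (T.X ⊤) t fun h => ∀ n, ∃ N, ∀ j, N ≤ j → B h j = true → y n h j = true := by
  obtain ⟨B, hB, hBf⟩ := H.pseudo hs hy
  obtain ⟨k, t, ht, hts, B', hB', hB'2, hf⟩ := refC_loc T H hs hB
  refine ⟨k, t, ht, hts, B', hB', hB'2, ((hBf.mono hts).and hf).imp ?_⟩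
  rintro h - - ⟨h1, h2⟩ n
  obtain ⟨N, hN⟩ := h1 n
  refine ⟨N, fun j hj hBj => hN j hj ?_⟩
  rw [h2]
  exact hBj

private theorem refC_gp {p₀ : P} {Fo : P → (Set P → ℕ → Bool) → Prop}
    (H : FoM (T.X ⊤) p₀ Fo) {s : P} (hs : (T.X ⊤).le s p₀) (g : ℕ → ℕ) :
    ∃ k' : Ordinal.{0}, ∃ t, T.M k' t ∧ (T.X ⊤).le t s ∧
      ∃ B : Set P → ℕ → Bool, T.Nam k' B ∧ Fo t B ∧
        Forc (T.X ⊤) t fun h => ∀ N, ∃ m, N ≤ m ∧ ∀ n, m ≤ n → n < g m → B h n = false := by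
  obtain ⟨s', hs', B, hB, hBf⟩ := H.gap (fun f hf p hp => T.bd ⊤ f hf p (T.le_self.1 hp)) hs g
  obtain ⟨k, t, ht, hts, B', hB', hB'2, hf⟩ := refC_loc T H ((T.X ⊤).trans hs' hs) hB
  refine ⟨k, t, ht, (T.X ⊤).trans hts hs', B', hB', hB'2, ((hBf.mono hts).and hf).imp ?_⟩
  rintro h - - ⟨h1, h2⟩ N
  obtain ⟨m, hm, hm2⟩ := h1 N
  refine ⟨m, hm, fun n hn hn2 => ?_⟩
  rw [← h2]
  exact hm2 n hn hn2

theorem exists_refl
    (hR : ∀ i : Ordinal.{0}, Small.{0} {p : P // R.supp p ⊆ Iio (i : WithTop Ordinal.{0})})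
    {p₀ : P} {Fo : P → (Set P → ℕ → Bool) → Prop} (hp : T.M ⊤ p₀) (H : FoM (T.X ⊤) p₀ Fo) :
    ∃ i : Ordinal.{0}, Refl T p₀ Fo i := by
  classical
  -- the tasks
  let I : Ordinal.{0} → Type 1 := fun k =>
    {p : P // R.supp p ⊆ Iio (k : WithTop Ordinal.{0})} ×
      ((ℕ → {Y : Set P → ℕ → Bool // ∀ h, Y (R.tr (k : WithTop Ordinal.{0}) h) = Y h}) ×
        (ℕ → ℕ))
  have hI : ∀ k, Small.{0} (I k) := by
    intro k
    have := hR k
    have := refC_small R k (hR k)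
    exact small_prod
  let C1 : ∀ k : Ordinal.{0}, I k → Ordinal.{0} → Prop := fun _ x k' =>
    ∃ t, T.M k' t ∧ (T.X ⊤).le t x.1.1 ∧
        ∃ B : Set P → ℕ → Bool, T.Nam k' B ∧ Fo t B ∧
          Forc (T.X ⊤) t fun h => ∀ n, ∃ N, ∀ j, N ≤ j → B h j = true → (x.2.1 n).1 h j = true
  let C2 : ∀ k : Ordinal.{0}, I k → Ordinal.{0} → Prop := fun _ x k' =>
    ∃ t, T.M k' t ∧ (T.X ⊤).le t x.1.1 ∧
      ∃ B : Set P → ℕ → Bool, T.Nam k' B ∧ Fo t B ∧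
        Forc (T.X ⊤) t fun h => ∀ N, ∃ m, N ≤ m ∧ ∀ n, m ≤ n → n < x.2.2 m → B h n = false
  have hex : ∀ C : Ordinal.{0} → Prop, ∃ k₀, (∃ k', C k') → C k₀ := by
    intro C
    by_cases h : ∃ k', C k'
    · obtain ⟨k', hk'⟩ := h
      exact ⟨k', fun _ => hk'⟩
    · exact ⟨0, fun h' => absurd h' h⟩
  choose f1 hf1 using fun (k : Ordinal.{0}) (x : I k) => hex (C1 k x)
  choose f2 hf2 using fun (k : Ordinal.{0}) (x : I k) => hex (C2 k x)
  have hle : ∀ (k : Ordinal.{0}) (x : I k), f1 k x ≤ ⨆ x : I k, max (f1 k x) (f2 k x) ∧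
      f2 k x ≤ ⨆ x : I k, max (f1 k x) (f2 k x) := by
    intro k x
    have := hI k
    have hb : BddAbove (Set.range fun x : I k => max (f1 k x) (f2 k x)) :=
      Ordinal.bddAbove_of_small
    have h1 := le_ciSup hb x
    exact ⟨(le_max_left _ _).trans h1, (le_max_right _ _).trans h1⟩
  obtain ⟨j₀, hj₀⟩ := refC_top (R.cnt p₀) (T.M_supp hp)
  obtain ⟨i, hi1, hi2, hi3⟩ := exists_clo (fun k => ⨆ x : I k, max (f1 k x) (f2 k x)) j₀
  refine ⟨i, ⟨j₀, hi1, T.M_of_supp hp hj₀⟩, ?_, ?_, ?_⟩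
  · intro S hS hSi
    have h1 : (((↑) : Ordinal.{0} → WithTop Ordinal.{0}) ⁻¹' S).Countable :=
      hS.preimage WithTop.coe_injective
    obtain ⟨k, hk, hk2⟩ := hi3 _ h1 (fun a ha => WithTop.coe_lt_coe.1 (hSi ha))
    refine ⟨k, hk, fun x hx => ?_⟩
    have h2 : x < (i : WithTop Ordinal.{0}) := hSi hx
    lift x to Ordinal.{0} using (lt_of_lt_of_le h2 le_top).ne
    exact WithTop.coe_lt_coe.2 (hk2 hx)
  · intro k hk s hs hsp y hy hFo
    let x : I k := (⟨s, T.M_supp hs⟩, (fun n => ⟨y n, (hy n).2⟩), fun _ => 0)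
    exact ⟨f1 k x, lt_of_le_of_lt (hle k x).1 (hi2 k hk), hf1 k x (refC_ps T H hsp hFo)⟩
  · intro k hk s hs hsp g
    let x : I k := (⟨s, T.M_supp hs⟩, (fun n => ⟨fun _ _ => true, fun _ => rfl⟩), g)
    exact ⟨f2 k x, lt_of_le_of_lt (hle k x).2 (hi2 k hk), hf2 k x (refC_gp T H hsp g)⟩

/-- the label at a reflecting stage -/
def lab (p₀ : P) (Fo : P → (Set P → ℕ → Bool) → Prop) (i : Ordinal.{0}) :
    Set (P × (Set P → ℕ → Bool)) :=
  {t | ∃ k : Ordinal.{0}, k < i ∧ T.M k t.1 ∧ (T.X ⊤).le t.1 p₀ ∧ T.Nam k t.2 ∧ Fo t.1 t.2}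

end Pool.Agent.MF45
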