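import Pool.Agent.MF45.ItD

/-!
# Countable models: definitions

`Nd` is a countable set of coordinates, conditions, sets of conditions, and functions.  `Good`
says that it is closed under the constructions which are used in the iteration theorem.
-/

namespace Pool.Agent.MF45

universe u

open Set

/-- a candidate for a countable model -/
structure Nd (ι P : Type u) where
  /-- coordinates -/
  o : Set ι
  /-- conditions -/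
  c : Set P
  /-- sets of conditions -/
  d : Set (Set P)
  /-- functions -/
  f : Set (ℕ → ℕ)

variable {ι P : Type u} [LinearOrder ι] [WellFoundedLT ι] {R : Raw ι P} (T : Itn R)

namespace Itn

/-- `r''` is a condition of the stage `i` such that `s ≤ res β r''` forces that the code of `r'` at
`β`, updated by `u`, is below the code of `r''` -/
def B1 (β i : ι) (M : ℕ) (u : ℕ → List Bool) (s r' r'' : P) : Prop :=
  T.M i r'' ∧ (T.X β).le s (R.res β r'') ∧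
    Forc (T.X β) s fun h => Pt (Upd M u (R.cv r' β h)) ⊆ Pt (R.cv r'' β h)

/-- `r'` is the next condition after `r` in a fusion at the coordinate `β` -/
def A1 (β i : ι) (r : P) (M : ℕ) (Ds : List (Set P)) (s r' : P) : Prop :=
  T.M i r' ∧ (T.X β).le s (R.res β r') ∧
    (Forc (T.X β) s fun h => M ≤ (R.cv r' β h 0).e ∧ Cone M (R.cv r' β h) ∧
      Tl M (R.cv r' β h) (R.cv r β h)) ∧
    ∀ u ∈ Pat M, ∀ D ∈ Ds, ∃ r'' ∈ D, T.B1 β i M u s r' r''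

/-- a dense set for fusions -/
def E1 (β i : ι) (r : P) (M : ℕ) (Ds : List (Set P)) : Set P :=
  {s | (∃ r', T.A1 β i r M Ds s r') ∨ ¬ Comp (T.X β) s (R.res β r)}

/-- a dense set for limits -/
def E2 (γ i : ι) (p : P) (D : Set P) : Set P :=
  {s | (∃ r ∈ D, (T.X i).le r p ∧ (T.X γ).le s (R.res γ r)) ∨ ¬ Comp (T.X γ) s (R.res γ p)}

/-- for each `k`, it is forced at the stage `γ` that there is an extension `p'` of `p`, with its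
restriction in the generic filter, which forces `f m ≤ F m` for all `m < k` -/
def PR (γ i : ι) (f : Set P → ℕ → ℕ) (p : P) (F : ℕ → ℕ) : Prop :=
  T.M i p ∧ ∀ (k : ℕ) (s : P), (T.X γ).le s (R.res γ p) → ∃ p', (T.X i).le p' p ∧
    (T.X γ).le (R.res γ p') s ∧ Forc (T.X i) p' fun h => ∀ m, m < k → f h m ≤ F m

/-- `w` is a next condition after `p`, with `PR` at the stage `γ'` for `F'`, where `F'` is
bounded by `F₂` from `k` on -/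
def A4 (γ γ' i : ι) (f : Set P → ℕ → ℕ) (p : P) (F F₂ : ℕ → ℕ) (k : ℕ) (s w : P)
    (F' : ℕ → ℕ) : Prop :=
  (T.X i).le w p ∧ (T.X γ).le s (R.res γ w) ∧
    (Forc (T.X i) w fun h => ∀ m, m < k → f h m ≤ F m) ∧ T.PR γ' i f w F' ∧
    ∀ m, k ≤ m → F' m ≤ F₂ m

/-- `F₂` is a uniform bound for all `k` -/
def A3 (γ γ' i : ι) (f : Set P → ℕ → ℕ) (p : P) (F : ℕ → ℕ) (s : P) (F₂ : ℕ → ℕ) : Prop :=
  (T.X γ).le s (R.res γ p) ∧ ∀ s', (T.X γ).le s' s → ∀ k, ∃ s'', (T.X γ).le s'' s' ∧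
    ∃ w F', T.A4 γ γ' i f p F F₂ k s'' w F'

/-- a dense set for the choice of `F₂` -/
def E3 (γ γ' i : ι) (f : Set P → ℕ → ℕ) (p : P) (F : ℕ → ℕ) : Set P :=
  {s | (∃ F₂, T.A3 γ γ' i f p F s F₂) ∨ ¬ Comp (T.X γ) s (R.res γ p)}

/-- a dense set for the choice of the next condition -/
def E4 (γ γ' i : ι) (f : Set P → ℕ → ℕ) (p : P) (F F₂ : ℕ → ℕ) (k : ℕ) : Set P :=
  {s | (∃ w F', T.A4 γ γ' i f p F F₂ k s w F') ∨
    ¬ ∃ s', (T.X γ).le s' s ∧ T.A3 γ γ' i f p F s' F₂}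

/-- closure properties of a countable model -/
structure Good (f : Set P → ℕ → ℕ) (N : Nd ι P) : Prop where
  co : N.o.Countable
  cc : N.c.Countable
  cd : N.d.Countable
  cf : N.f.Countable
  supp : ∀ {p}, p ∈ N.c → R.supp p ⊆ N.o
  res : ∀ {p i}, p ∈ N.c → i ∈ N.o → R.res i p ∈ N.c
  one : R.one ∈ N.c
  univ : (univ : Set P) ∈ N.d
  bot : ∃ b ∈ N.o, ∀ j, b ≤ j
  up : ∀ {i j}, i ∈ N.o → j ∈ N.o → (∃ k, j < k ∧ k < i) → ∃ k ∈ N.o, j < k ∧ k < i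
  pred : ∀ {i β}, i ∈ N.o → (∀ j, j < i ↔ j ≤ β) → β ∈ N.o
  e1 : ∀ {β i r} (M : ℕ) {Ds : List (Set P)}, β ∈ N.o → i ∈ N.o → r ∈ N.c →
    (∀ D ∈ Ds, D ∈ N.d) → T.E1 β i r M Ds ∈ N.d
  a1 : ∀ {β i r} {M : ℕ} {Ds : List (Set P)} {s}, β ∈ N.o → i ∈ N.o → r ∈ N.c →
    (∀ D ∈ Ds, D ∈ N.d) → s ∈ N.c → (∃ r', T.A1 β i r M Ds s r') →
    ∃ r' ∈ N.c, T.A1 β i r M Ds s r'
  b1 : ∀ {β i} {M : ℕ} {u s r' D}, β ∈ N.o → i ∈ N.o → u ∈ Pat M → s ∈ N.c → r' ∈ N.c →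
    D ∈ N.d → (∃ r'' ∈ D, T.B1 β i M u s r' r'') → ∃ r'' ∈ N.c, r'' ∈ D ∧ T.B1 β i M u s r' r''
  e2 : ∀ {γ i p D}, γ ∈ N.o → i ∈ N.o → p ∈ N.c → D ∈ N.d → T.E2 γ i p D ∈ N.d
  a2 : ∀ {γ i p D s}, γ ∈ N.o → i ∈ N.o → p ∈ N.c → D ∈ N.d → s ∈ N.c →
    (∃ r ∈ D, (T.X i).le r p ∧ (T.X γ).le s (R.res γ r)) →
    ∃ r ∈ N.c, r ∈ D ∧ (T.X i).le r p ∧ (T.X γ).le s (R.res γ r)
  e3 : ∀ {γ γ' i p F}, γ ∈ N.o → γ' ∈ N.o → i ∈ N.o → p ∈ N.c → F ∈ N.f →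
    T.E3 γ γ' i f p F ∈ N.d
  a3 : ∀ {γ γ' i p F s}, γ ∈ N.o → γ' ∈ N.o → i ∈ N.o → p ∈ N.c → F ∈ N.f → s ∈ N.c →
    (∃ F₂, T.A3 γ γ' i f p F s F₂) → ∃ F₂ ∈ N.f, T.A3 γ γ' i f p F s F₂
  e4 : ∀ {γ γ' i p F F₂} (k : ℕ), γ ∈ N.o → γ' ∈ N.o → i ∈ N.o → p ∈ N.c → F ∈ N.f →
    F₂ ∈ N.f → T.E4 γ γ' i f p F F₂ k ∈ N.d
  a4 : ∀ {γ γ' i p F F₂} {k : ℕ} {s}, γ ∈ N.o → γ' ∈ N.o → i ∈ N.o → p ∈ N.c → F ∈ N.f →
    F₂ ∈ N.f → s ∈ N.c → (∃ w F', T.A4 γ γ' i f p F F₂ k s w F') →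
    ∃ w ∈ N.c, ∃ F' ∈ N.f, T.A4 γ γ' i f p F F₂ k s w F'
  pr : ∀ {γ i p}, γ ∈ N.o → i ∈ N.o → p ∈ N.c →
    (∃ p', (T.X i).le p' p ∧ ∃ F, T.PR γ i f p' F) →
    ∃ p' ∈ N.c, (T.X i).le p' p ∧ ∃ F ∈ N.f, T.PR γ i f p' F

/-- `q` is generic over `N` for the stage `i` -/
def Gen (N : Nd ι P) (i : ι) (q : P) : Prop :=
  T.M i q ∧ ∀ D ∈ N.d, Dns (T.X i) D → Forc (T.X i) q fun h => ∃ p ∈ h, p ∈ D ∧ p ∈ N.c

/-- the iteration lemma for the stage `i` -/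
def IL (N : Nd ι P) (i : ι) : Prop :=
  ∀ γ ∈ N.o, γ ≤ i → ∀ q, T.Gen N γ q → ∀ π : Set P → P, (∀ h, π h ∈ N.c ∧ T.M i (π h)) →
    Dv (T.X γ) π → (Forc (T.X γ) q fun h => R.res γ (π h) ∈ h) →
    ∃ q', T.Gen N i q' ∧ R.res γ q' = q ∧ Forc (T.X i) q' fun h => π (R.tr γ h) ∈ h

/-- the stage `i` is bounding -/
def BD (i : ι) : Prop :=
  ∀ f : Set P → ℕ → ℕ, Ms (T.X i) f → ∀ p, T.M i p → ∃ q, (T.X i).le q p ∧
    ∃ F : ℕ → ℕ, Forc (T.X i) q fun h => ∀ n, f h n ≤ F n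

end Itn

end Pool.Agent.MF45
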