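import Pool.Agent.MF45.IpF
import Pool.Agent.MF45.LimD

/-!
# The bounding property at the first stage and at successor stages

Paper proofs.  `bot_bd`: if `Iio i` is empty, then `one` is the only condition of the stage `i`
(`Raw.eq_one`), so it decides all values of the name `f`.
`suc_bd`: let `i = β + 1`, let `f` be a name at the stage `i` and `p₀` a condition.  Let `D m` be the
dense set of all `p` of the stage `i` which decide `f h m` (`Ms.decide`), and let `N` be good with
`β, i ∈ N.o`, `p₀ ∈ N.c` and `D m ∈ N.d` for all `m`.  By `IL N β` for the least element `b`,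
`gen_one` and the constant name `res β p₀` there is `q` with `Gen N β q` which forces
`res β p₀ ∈ h` (at the stage `β`).  By `ip` with the constant name `p₀` there is `q'` with
`res β q' = q`, `q' ≤ p₀` (`sep`) and sets `B m h`.  Let `f₁ h m` be the maximum of the values of
`f _ m` which are forced by the (finitely many) elements of `B m h`; it is a name at the stage
`β`.  By `BD β` there are `s ≤ q` and `F` such that `s` forces `f₁ h m ≤ F m` for all `m`.  Then
`glue β s q' ≤ p₀` forces `f h m ≤ F m` for all `m`: almost every `h` contains an element `p` of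
`B m (tr β h)`, and `p` forces the value of `f _ m` (the elements of `N.c` are countably many, so
almost every `h` satisfies what its members from `N.c` force, `forc_imp_of`).
-/

namespace Pool.Agent.MF45

universe u

open Set

variable {ι P : Type u} [LinearOrder ι] [WellFoundedLT ι] {R : Raw ι P} (T : Itn R)

namespace Itn

theorem bot_bd {i : ι} (hi : ∀ j, ¬ j < i) : T.BD i := by
  intro f hf p hp
  have hone : ∀ q, T.M i q → q = R.one := by
    intro q hq
    apply R.eq_one
    apply Set.eq_empty_of_forall_notMem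
    intro j hj
    exact hi j (T.M_supp hq hj)
  have h1 : ∀ n, ∃ a, Forc (T.X i) p fun h => f h n = a := by
    intro n
    obtain ⟨s', hs', a, ha⟩ := (ms_pi.1 hf n).decide (T.le_self.2 hp)
    refine ⟨a, ?_⟩
    have h2 : s' = p := (hone s' (T.M_left hs')).trans (hone p hp).symm
    rwa [h2] at ha
  choose F hF using h1
  exact ⟨p, T.le_self.2 hp, F, (Forc.all hF).imp fun h _ _ h2 n => (h2 n).le⟩

private theorem dns_dec {i : ι} {f : Set P → ℕ → ℕ} (hf : Ms (T.X i) f) (m : ℕ) :
    Dns (T.X i) {p | T.M i p ∧ ∃ v, Forc (T.X i) p fun h => f h m = v} := by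
  intro p hp
  obtain ⟨s', hs', a, ha⟩ := (ms_pi.1 hf m).decide hp
  exact ⟨s', ⟨T.M_left hs', a, ha⟩, hs'⟩

theorem suc_bd {β i : ι} (hβ : ∀ j, j < i ↔ j ≤ β)
    (il : ∀ (f : Set P → ℕ → ℕ) (N : Nd ι P), T.Good f N → β ∈ N.o → T.IL N β)
    (bd : T.BD β) : T.BD i := by
  classical
  intro f hf p₀ hp₀
  have hβi : β ≤ i := ((hβ β).2 le_rfl).le
  have : Nonempty ι := ⟨i⟩
  let D : ℕ → Set P := fun m => {p | T.M i p ∧ ∃ v, Forc (T.X i) p fun h => f h m = v}
  obtain ⟨N, hN, ho, hc, hd⟩ := T.exists_good f (o₀ := {β, i}) (by simp)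
    (c₀ := {p₀}) (by simp) (d₀ := Set.range D) (countable_range D)
  have hβN : β ∈ N.o := ho (by simp)
  have hiN : i ∈ N.o := ho (by simp)
  have hpN : p₀ ∈ N.c := hc (by simp)
  have hDN : ∀ m, D m ∈ N.d := fun m => hd ⟨m, rfl⟩
  obtain ⟨b, hbN, hb⟩ := hN.bot
  have hg := T.gen_one hN hb
  -- a generic condition at the stage `β`
  have hres : R.res b (R.res β p₀) = R.one := by
    apply R.eq_one
    apply Set.eq_empty_of_forall_notMem
    intro j hj
    rw [R.supp_res] at hj
    exact absurd hj.2 (not_lt.2 (hb j))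
  obtain ⟨q, hq, -, hq2⟩ := il f N hN hβN b hbN (hb β) R.one hg (fun _ => R.res β p₀)
    (fun _ => ⟨hN.res hpN hβN, T.M_res hp₀ β⟩) (Dv.const _) (by
      rw [hres]
      exact Forc.self _)
  obtain ⟨q', hq', hqr, hq3, hq4⟩ := T.ip hN hβN hiN hβ hq (π := fun _ => p₀)
    (fun _ => ⟨hpN, hp₀⟩) (Dv.const _) hq2
  have hle : (T.X i).le q' p₀ := T.sep hq'.1 hp₀ hq3
  choose B hB1 hB2 hB3 using fun m => hq4 (D m) (hDN m) (dns_dec T hf m)
  -- the values
  let val : ℕ → P → ℕ := fun m p =>
    if H : ∃ v, Forc (T.X i) p fun h => f h m = v then H.choose else 0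
  have hval : ∀ m p, p ∈ D m → Forc (T.X i) p fun h => f h m = val m p := by
    intro m p hp
    have H : ∃ v, Forc (T.X i) p fun h => f h m = v := hp.2
    have h1 : val m p = H.choose := dif_pos H
    rw [h1]
    exact H.choose_spec
  let f₁ : Set P → ℕ → ℕ := fun h m => sInf {k | ∀ p : N.c, (p : P) ∈ B m h → val m p ≤ k}
  have hcc : Countable N.c := hN.cc.to_subtype
  have hf₁ : Ms (T.X β) f₁ := by
    refine ms_pi.2 fun m => ?_
    exact ms_sInf (R := fun h k => ∀ p : N.c, (p : P) ∈ B m h → val m p ≤ k) fun k =>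
      Dec.all fun p => (hB2 m p).imp (Dec.const _)
  have hf₁' : ∀ m h p, p ∈ B m h → val m p ≤ f₁ h m := by
    intro m h p hp
    have hne : {k | ∀ p : N.c, (p : P) ∈ B m h → val m p ≤ k}.Nonempty := by
      obtain ⟨K, hK⟩ := ((hB1 m h).1.image (val m)).bddAbove
      exact ⟨K, fun p' hp' => hK ⟨p', hp', rfl⟩⟩
    exact Nat.sInf_mem hne ⟨p, ((hB1 m h).2 hp).2⟩ hp
  obtain ⟨s, hs, F, hF⟩ := bd f₁ hf₁ q hq.1
  have hs' : (T.X β).le s (R.res β q') := by
    rw [hqr]
    exact hs
  have hr1 := T.glue_le hβi hq'.1 hs'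
  have hr2 : R.res β (R.glue β s q') = s := T.res_glue hs'
  refine ⟨R.glue β s q', (T.X i).trans hr1 hle, F, ?_⟩
  have k1 : Forc (T.X i) (R.glue β s q') fun h => ∀ n, f₁ (R.tr β h) n ≤ F n := by
    refine T.forc_up' hβi (T.M_left hr1) (φ := fun h => ∀ n, f₁ h n ≤ F n) ?_
    rw [hr2]
    exact hF
  have k2 : Forc (T.X i) (R.glue β s q') fun h => ∀ m, ∃ p ∈ h, p ∈ B m (R.tr β h) :=
    Forc.all fun m => (hB3 m).mono hr1
  have k3 : Forc (T.X i) (R.glue β s q') fun h => ∀ (m : ℕ) (p : N.c), (p : P) ∈ D m →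
      (p : P) ∈ h → f h m = val m p := by
    refine Forc.all fun m => Forc.all fun p => ?_
    by_cases hp : (p : P) ∈ D m
    · exact (forc_imp_of (hval m p hp)).imp fun h _ _ h1 _ => h1
    · exact Forc.of_all fun h _ _ h1 => absurd h1 hp
  refine ((k1.and k2).and k3).imp ?_
  rintro h - - ⟨⟨h1, h2⟩, h3⟩ n
  obtain ⟨p, hp, hpB⟩ := h2 n
  have h4 := (hB1 n (R.tr β h)).2 hpB
  rw [h3 n ⟨p, h4.2⟩ h4.1 hp]
  exact (hf₁' n _ p hpB).trans (h1 n)

end Itn

end Pool.Agent.MF45
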