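import Pool.Agent.BVU.Fc
import Pool.Agent.MF45.PsB
import Pool.Agent.MF45.Defs

/-!
# Translation: names of reals

`Cn X` is the preordered set of conditions of `X`, `RO (Cn X)` its complete Boolean algebra of
regular open sets.  `bval X φ` is the Boolean value of the densely decided statement `φ`, and
`rl X y` is the name of the subset of `ω` given by the name `y`.

Paper proofs.  `forc_bval` : by `BVU.forc_below`, `BVU.Forc s (bval X φ)` says that densely below
`s` there are conditions below some `s'` with `Forc X s' φ`; use `Forc.mono` and `Forc.loc`.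
`fc_nat_all`: by `BVU.chk_all` (quantification over the check set `onT UN = chk on`, see `onT`).
`fc_nat_ex`: by `BVU.Fc.name` a witness has a name `x`, and by `BVU.Fc.chk` it is decided.
`fc_mem_rl`: `memv (on n) (rl X y)` is the Boolean value `bval X (y h n = true)` (`BVU.memv_mk`,
`BVU.eqv_on`).  `exists_rl`: let `y h n = true` iff some `p ∈ h` satisfies `Fc p (on n ∈ z)`; it is
a name by `Dec.meet`, and `Forc X s (y h n = true)` iff `Fc s (on n ∈ z)`
(`Forc.loc`, `BVU.Fc.dense`); then use extensionality and `fc_nat_all`.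
-/

namespace Pool.Agent.MF45

universe u

open Classical
open Pool.Agent.BVU (BSet RO GG Fc Md nm In RpP on onT UN nn fnN)

/-- the conditions of `X` -/
def Cn {P : Type u} (X : Pst P) : Type u := {p : P // X.le p p}

/-- the condition `s` -/
def cn {P : Type u} {X : Pst P} (s : P) (hs : X.le s s) : Cn X := ⟨s, hs⟩

instance {P : Type u} (X : Pst P) : Preorder (Cn X) where
  le q p := X.le q.1 p.1
  le_refl p := p.2
  le_trans _ _ _ h h' := X.trans h h'

variable {P : Type u} (X : Pst P)

/-- the Boolean value of `φ` -/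
noncomputable def bval (φ : Set P → Prop) : RO (Cn X) := BVU.below {s : Cn X | Forc X s.1 φ}

/-- the name of the subset of `ω` given by `y` -/
noncomputable def rl (y : Set P → ℕ → Bool) : BSet (RO (Cn X)) :=
  .mk UN.{u} (fun n => on n) fun n => bval X fun h => y h n.down = true

/-- the name of the natural number `n` -/
noncomputable def nt (n : ℕ) : BSet (RO (Cn X)) := on (nn.{u} n)

/-- the name of `ω` -/
noncomputable def om : BSet (RO (Cn X)) := onT UN.{u}

variable {X}

theorem forc_bval {φ : Set P → Prop} {s : Cn X} : BVU.Forc s (bval X φ) ↔ Forc X s.1 φ := by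
  rw [bval, BVU.forc_below]
  constructor
  · intro h
    refine Forc.loc fun s' hs' => ?_
    obtain ⟨r, hr, t, ht, hrt⟩ := h (cn s' (X.left hs')) hs'
    have ht' : Forc X t.1 φ := ht
    exact ⟨r.1, hr, ht'.mono hrt⟩
  · intro h q hq
    exact ⟨q, le_rfl, q, h.mono hq, le_rfl⟩

private theorem tra_fc_val {c : RO (Cn X)} {s : Cn X} :
    Fc s (fun G => G.1.U c) ↔ BVU.Forc s c := by
  constructor
  · intro h
    exact BVU.pt_le_iff.1 (BVU.le_of_pt le_top h)
  · intro h F hF
    exact F.1.mono (BVU.pt_le_iff.2 h) hF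

theorem fc_bval {φ : Set P → Prop} {s : Cn X} :
    Fc s (fun G => G.1.U (bval X φ)) ↔ Forc X s.1 φ := by
  rw [tra_fc_val, forc_bval]

theorem nt_mem (n : ℕ) (G : GG (Cn X)) : In G (nm G (nt X n)) (nm G (om X)) := by
  exact BVU.E_onT (nn n) G.1

theorem nt_lt {m n : ℕ} {G : GG (Cn X)} : In G (nm G (nt X m)) (nm G (nt X n)) ↔ m < n := by
  exact BVU.E_on_iff (x := nn m) (y := nn n) G.1

theorem nt_inj {m n : ℕ} {G : GG (Cn X)} : nm G (nt X m) = nm G (nt X n) ↔ m = n := by
  rw [BVU.nm_eq, nt, nt, BVU.eqv_on, BVU.UF.tv_iff, BVU.nn_inj]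

private theorem tra_rp_ex {A : ℕ → GG (Cn X) → Prop} (hA : ∀ m, RpP (A m)) (n : ℕ) :
    RpP fun G => ∃ m, m < n ∧ A m G := by
  induction n with
  | zero =>
    refine (RpP.const False).congr fun G => ?_
    constructor
    · intro h
      exact h.elim
    · rintro ⟨m, hm, _⟩
      exact Nat.not_lt_zero m hm
  | succ n ih =>
    refine (ih.or (hA n)).congr fun G => ?_
    constructor
    · rintro (⟨m, hm, h⟩ | h)
      · exact ⟨m, hm.trans (Nat.lt_succ_self n), h⟩
      · exact ⟨n, Nat.lt_succ_self n, h⟩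
    · rintro ⟨m, hm, h⟩
      rcases (Nat.lt_succ_iff_lt_or_eq.mp hm) with h1 | h1
      · exact Or.inl ⟨m, h1, h⟩
      · subst h1
        exact Or.inr h

/-- the elements of a natural number -/
theorem mem_nt {n : ℕ} {G : GG (Cn X)} {x : Md G} (hx : In G x (nm G (nt X n))) :
    ∃ m, m < n ∧ x = nm G (nt X m) := by
  have hx' : In G x (nm G (BVU.chk fun y : Set.Iio (nn.{u} n) => on y.1)) := by
    rw [← BVU.on_def]
    exact hx
  refine BVU.chk_all (fun y : Set.Iio (nn.{u} n) => on y.1) (RpP.const True)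
    (P := fun G x => ∃ m, m < n ∧ x = nm G (nt X m))
    (fun y => tra_rp_ex (fun m => BVU.RpP.eq y (nt X m)) n)
    (fun F _ a => ⟨a.1.down, a.2, rfl⟩) G trivial x hx'

theorem fc_nat_all {A : ∀ G : GG (Cn X), Md G → Prop} (hA : ∀ y, RpP fun G => A G (nm G y))
    {s : Cn X} (h : ∀ n, Fc s fun G => A G (nm G (nt X n))) :
    Fc s fun G => ∀ x, In G x (nm G (om X)) → A G x := by
  intro F hF x hx
  exact BVU.chk_all (fun a : UN.{u} => on a) (BVU.RpP.val (BVU.pt s)) (P := A) hA
    (fun F hF a => h a.down F hF) F hF x hx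

theorem fc_nat_ex {A : ∀ G : GG (Cn X), Md G → Prop} (hA : ∀ y, RpP fun G => A G (nm G y))
    {s : Cn X} (h : Fc s fun G => ∃ x, In G x (nm G (om X)) ∧ A G x) :
    ∀ s' ≤ s, ∃ s'' ≤ s', ∃ n, Fc s'' fun G => A G (nm G (nt X n)) := by
  intro s' hs'
  obtain ⟨y, hy⟩ := BVU.Fc.name (A := fun G x => In G x (nm G (om X)) ∧ A G x)
    (fun y => (BVU.RpP.mem _ _).and (hA y)) h
  have h1 : Fc s' fun G => In G (nm G y) (nm G (BVU.chk fun a : UN.{u} => on a)) :=
    fun F hF => (hy.mono hs' F hF).1
  obtain ⟨r, hr, a, ha⟩ := BVU.Fc.chk h1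
  refine ⟨r, hr, a.down, fun F hF => ?_⟩
  have h2 := (hy.mono (hr.trans hs') F hF).2
  have h3 : nm F y = nm F (on a) := ha F hF
  rw [h3] at h2
  exact h2

private theorem tra_memv_rl (y : Set P → ℕ → Bool) (n : ℕ) :
    BVU.memv (nt X n) (rl X y) = bval X fun h => y h n = true := by
  rw [rl, BVU.memv_mk, nt]
  refine le_antisymm (iSup_le fun a => ?_) ?_
  · rw [BVU.eqv_on]
    by_cases h : nn.{u} n = a
    · rw [← h]
      exact inf_le_left
    · rw [BVU.tv_false h, inf_bot_eq]
      exact bot_le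
  · refine le_iSup_of_le (nn.{u} n) ?_
    rw [BVU.eqv_refl, inf_top_eq]
    exact le_rfl

theorem mem_rl {y : Set P → ℕ → Bool} {n : ℕ} {G : GG (Cn X)} :
    In G (nm G (nt X n)) (nm G (rl X y)) ↔ G.1.U (bval X fun h => y h n = true) := by
  rw [BVU.In_nm, tra_memv_rl]

theorem fc_mem_rl {y : Set P → ℕ → Bool} {n : ℕ} {s : Cn X} :
    Fc s (fun G => In G (nm G (nt X n)) (nm G (rl X y))) ↔ Forc X s.1 fun h => y h n = true := by
  rw [← fc_bval]
  constructor
  · intro h F hF
    exact mem_rl.1 (h F hF)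
  · intro h F hF
    exact mem_rl.2 (h F hF)

private theorem tra_dec {y : Set P → ℕ → Bool} (hy : Ms X y) (n : ℕ) (b : Bool) :
    Dec X fun h => y h n = b := ms_countable.1 (ms_pi.1 hy n) b

theorem fc_not_mem_rl {y : Set P → ℕ → Bool} (hy : Ms X y) {n : ℕ} {s : Cn X} :
    Fc s (fun G => ¬ In G (nm G (nt X n)) (nm G (rl X y))) ↔
      Forc X s.1 fun h => y h n = false := by
  constructor
  · intro h
    refine (tra_dec hy n false).forc fun s' hs' h' => ?_
    have h1 : Forc X (cn s' (X.left hs')).1 fun h => y h n = true :=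
      h'.imp fun _ _ _ h2 => by simpa using h2
    have h2 := fc_mem_rl.2 h1
    have h3 := h.mono (r := cn s' (X.left hs')) hs'
    exact BVU.Fc.false fun F hF => h3 F hF (h2 F hF)
  · intro h
    refine BVU.Fc.not (BVU.RpP.mem _ _) fun r hr h' => ?_
    have h1 := fc_mem_rl.1 h'
    have h2 : Forc X r.1 fun h => y h n = false := h.mono hr
    refine Forc.not_false r.2 ((h1.and h2).imp fun _ _ _ h3 => ?_)
    rw [h3.1] at h3
    exact Bool.noConfusion h3.2

theorem rl_sub (y : Set P → ℕ → Bool) (G : GG (Cn X)) :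
    Sub (In G) (nm G (rl X y)) (nm G (om X)) := by
  intro z hz
  obtain ⟨z, rfl⟩ := BVU.exists_nm z
  have h : BVU.memv z (rl X y) ≤ BVU.memv z (om X) := by
    rw [rl, BVU.memv_mk]
    show _ ≤ BVU.memv z (BVU.chk fun a : UN.{u} => on a)
    rw [BVU.memv_chk]
    exact iSup_mono fun a => inf_le_right
  exact G.1.mono h hz

/-- subsets of `ω` with the same elements are equal -/
private theorem tra_ext {G : GG (Cn X)} {x y : Md G} (h : ∀ z, In G z x ↔ In G z y) : x = y :=
  (BVU.zfc_nm G).ext x y h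

/-- all names of subsets of `ω` are given by names of the form `rl X y` -/
theorem exists_rl (z : BSet (RO (Cn X))) : ∃ y : Set P → ℕ → Bool, Ms X y ∧ ∀ s : Cn X,
    (Fc s fun G => Sub (In G) (nm G z) (nm G (om X))) → Fc s fun G => nm G z = nm G (rl X y) := by
  let D : ℕ → Set P := fun n =>
    {p | ∃ hp : X.le p p, Fc (cn p hp) fun G => In G (nm G (nt X n)) (nm G z)}
  let y : Set P → ℕ → Bool := fun h n => decide (∃ p ∈ h, p ∈ D n)
  have hyt : ∀ h n, y h n = true ↔ ∃ p ∈ h, p ∈ D n := fun h n => decide_eq_true_iff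
  have hyM : Ms X y := by
    refine ms_pi.2 fun n => ms_countable.2 fun b => ?_
    cases b
    · refine (Dec.meet (D n)).not.congr fun h _ => ?_
      rw [← hyt, Bool.not_eq_true]
    · exact (Dec.meet (D n)).congr fun h _ => (hyt h n).symm
  have hmem : ∀ n, BVU.memv (nt X n) z = bval X fun h => y h n = true := by
    intro n
    have key : ∀ p : Cn X, BVU.Forc p (BVU.memv (nt X n) z) ↔
        BVU.Forc p (bval X fun h => y h n = true) := by
      intro p
      rw [forc_bval, ← tra_fc_val]
      constructor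
      · intro h
        exact Forc.of_all fun g _ hpg => (hyt g n).2 ⟨p.1, hpg, p.2, h⟩
      · intro h
        refine BVU.Fc.dense (BVU.RpP.val _) fun r hr => ?_
        obtain ⟨g, hg, hrg, h1⟩ := Forc.exists_fil r.2 (h.mono hr)
        obtain ⟨q, hq, hqX, hqF⟩ := (hyt g n).1 h1
        obtain ⟨t, _, htr, htq⟩ := hg.dir hrg hq
        exact ⟨cn t (X.left htr), htr, hqF.mono (r := cn t (X.left htr)) htq⟩
    exact le_antisymm (BVU.forc_le_iff.2 fun p => (key p).1) (BVU.forc_le_iff.2 fun p => (key p).2)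
  have hiff : ∀ n (G : GG (Cn X)),
      In G (nm G (nt X n)) (nm G z) ↔ In G (nm G (nt X n)) (nm G (rl X y)) := by
    intro n G
    rw [mem_rl, BVU.In_nm, hmem]
  refine ⟨y, hyM, fun s hs => ?_⟩
  have h1 : Fc s fun G => ∀ x, In G x (nm G (om X)) →
      (In G x (nm G z) ↔ In G x (nm G (rl X y))) :=
    fc_nat_all (A := fun G x => (In G x (nm G z) ↔ In G x (nm G (rl X y))))
      (fun w => (BVU.RpP.mem _ _).iff (BVU.RpP.mem _ _)) fun n F _ => hiff n F
  intro F hF
  refine tra_ext fun w => ?_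
  constructor
  · intro hw
    exact (h1 F hF w (hs F hF w hw)).1 hw
  · intro hw
    exact (h1 F hF w (rl_sub y F w hw)).2 hw

/-- inclusion -/
theorem fc_sub_rl {y y' : Set P → ℕ → Bool} (hy : Ms X y) (hy' : Ms X y') {s : Cn X} :
    Fc s (fun G => Sub (In G) (nm G (rl X y)) (nm G (rl X y'))) ↔
      Forc X s.1 fun h => ∀ n, y h n = true → y' h n = true := by
  constructor
  · intro h
    refine Forc.all fun n => ?_
    refine ((tra_dec hy n true).imp (tra_dec hy' n true)).forc fun s' hs' h' => ?_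
    have h1 : Forc X (cn s' (X.left hs')).1 fun h => y h n = true :=
      h'.imp fun _ _ _ h2 => by
        by_contra h3
        exact h2 fun h4 => (h3 h4).elim
    have h2 : Forc X (cn s' (X.left hs')).1 fun h => y' h n = false :=
      h'.imp fun _ _ _ h2 => by
        by_contra h3
        exact h2 fun _ => by simpa using h3
    have h3 := fc_mem_rl.2 h1
    have h4 := (fc_not_mem_rl hy').2 h2
    have h5 := h.mono (r := cn s' (X.left hs')) hs'
    exact BVU.Fc.false fun F hF => h4 F hF (h5 F hF _ (h3 F hF))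
  · intro h
    have h1 : Fc s fun G => ∀ x, In G x (nm G (om X)) →
        (In G x (nm G (rl X y)) → In G x (nm G (rl X y'))) :=
      fc_nat_all (A := fun G x => In G x (nm G (rl X y)) → In G x (nm G (rl X y')))
        (fun w => (BVU.RpP.mem _ _).imp (BVU.RpP.mem _ _)) fun n =>
          BVU.Fc.imp (BVU.RpP.mem _ _) (BVU.RpP.mem _ _) fun r hr h2 =>
            fc_mem_rl.2 (((fc_mem_rl.1 h2).and (h.mono hr)).imp fun _ _ _ h3 => h3.2 n h3.1)
    intro F hF w hw
    exact h1 F hF w (rl_sub y F w hw) hw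

/-- subsets of `ω` with the same elements are equal -/
theorem ext_om {G : GG (Cn X)} {x y : Md G} (h : ∀ z, In G z x ↔ In G z y) : x = y :=
  tra_ext h

end Pool.Agent.MF45
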