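import Pool.Agent.MF45.TrA
import Pool.Agent.MF45.FinA

/-!
# Translation: the filter

`Hy F₀ X₀ p` says that `p` forces that `F₀` is a filter, `X₀` is its coideal, and `X₀` is Menger.
`FoN F₀ s y` says that `s` forces that the subset of `ω` given by `y` is in `F₀`.

Paper proofs.  Each clause translates the corresponding clause of `IsFilter`: for `up`, if
`s` forces `∃ N, ∀ n ≥ N, y h n → y' h n`, by `Fc.dense` decide `N`; the set of all `n ≥ N` is in `F₀`
by `cofin`, and its intersection with `y` by `inter` (this intersection is `rl` of a name),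
and it is contained in `y'` (`fc_sub_rl`, `mono`).  `loc` : `Fc.dense`.  `ne` : from `∃ n, E n A` by
`fc_nat_ex`.  `pos_iff` : use `exists_rl` for elements of `F₀`, and `fc_nat_ex`; in the direction
from left to right, for a name `B` and `s' ≤ s` which forces `B ∈ F₀` we have `B = rl X y'` below
`s'`, and `FoN F₀ s' y'`.
-/

namespace Pool.Agent.MF45

universe u

open Classical
open Pool.Agent.BVU (BSet RO GG Fc Md nm In RpP on onT UN nn fnN)

variable {P : Type u} {X : Pst P}

/-- `F₀` is a filter whose coideal `X₀` is Menger -/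
structure Hy (F₀ X₀ : BSet (RO (Cn X))) (p : Cn X) : Prop where
  fil : Fc p fun G => IsFilter (In G) (nm G (om X)) (nm G F₀)
  co : Fc p fun G => IsCoideal (In G) (nm G (om X)) (nm G F₀) (nm G X₀)
  mg : Fc p fun G => Menger (In G) (nm G (om X)) (nm G X₀)

/-- `s` forces that `y` is in `F₀` -/
def FoN (F₀ : BSet (RO (Cn X))) (s : P) (y : Set P → ℕ → Bool) : Prop :=
  Ms X y ∧ ∀ hs : X.le s s, Fc (cn s hs) fun G => In G (nm G (rl X y)) (nm G F₀)

variable {F₀ X₀ : BSet (RO (Cn X))} {p : Cn X}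

theorem foN_mono {s s' : P} {y : Set P → ℕ → Bool} (hs : X.le s' s) (h : FoN F₀ s y) :
    FoN F₀ s' y := by
  refine ⟨h.1, fun hs' => ?_⟩
  exact Fc.mono (h.2 (X.right hs)) (show cn s' hs' ≤ cn s (X.right hs) from hs)

theorem foN_loc {s : P} {y : Set P → ℕ → Bool} (hy : Ms X y)
    (h : ∀ s', X.le s' s → ∃ s'', X.le s'' s' ∧ FoN F₀ s'' y) : FoN F₀ s y := by
  refine ⟨hy, fun hs => Fc.dense (RpP.mem _ _) fun r hr => ?_⟩
  obtain ⟨s'', h1, h2⟩ := h r.1 hr
  exact ⟨cn s'' (X.left h1), h1, h2.2 (X.left h1)⟩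

private theorem trb_dec {y : Set P → ℕ → Bool} (hy : Ms X y) (n : ℕ) :
    Dec X fun h => y h n = true := ms_countable.1 (ms_pi.1 hy n) true

private theorem trb_and {y y' : Set P → ℕ → Bool} (hy : Ms X y) (hy' : Ms X y') :
    Ms X fun h n => y h n && y' h n := by
  refine ms_pi.2 fun n => ?_
  exact Ms.comp (f := fun b : Bool × Bool => b.1 && b.2) (measurable_of_countable _)
    ((ms_pi.1 hy n).prod (ms_pi.1 hy' n))

private theorem trb_inter {y y' : Set P → ℕ → Bool} (s : Cn X) :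
    Fc s fun G => ∀ x, In G x (nm G (rl X fun h n => y h n && y' h n)) ↔
      (In G x (nm G (rl X y)) ∧ In G x (nm G (rl X y'))) := by
  have h1 : Fc s fun G => ∀ x, In G x (nm G (om X)) →
      (In G x (nm G (rl X fun h n => y h n && y' h n)) ↔
        (In G x (nm G (rl X y)) ∧ In G x (nm G (rl X y')))) := by
    refine fc_nat_all (A := fun G x => (In G x (nm G (rl X fun h n => y h n && y' h n)) ↔
        (In G x (nm G (rl X y)) ∧ In G x (nm G (rl X y')))))
      (fun z => (RpP.mem _ _).iff ((RpP.mem _ _).and (RpP.mem _ _))) fun n => ?_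
    have h2 : Fc s fun G => In G (nm G (nt X n)) (nm G (rl X fun h n => y h n && y' h n)) →
        (In G (nm G (nt X n)) (nm G (rl X y)) ∧ In G (nm G (nt X n)) (nm G (rl X y'))) := by
      refine Fc.imp (RpP.mem _ _) ((RpP.mem _ _).and (RpP.mem _ _)) fun r _ hr => ?_
      have h3 := fc_mem_rl.1 hr
      have h4 : Fc r fun G => In G (nm G (nt X n)) (nm G (rl X y)) :=
        fc_mem_rl.2 (h3.imp fun h _ _ h5 => by
          rw [Bool.and_eq_true] at h5
          exact h5.1)
      have h5 : Fc r fun G => In G (nm G (nt X n)) (nm G (rl X y')) :=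
        fc_mem_rl.2 (h3.imp fun h _ _ h5 => by
          rw [Bool.and_eq_true] at h5
          exact h5.2)
      exact fun G hG => ⟨h4 G hG, h5 G hG⟩
    have h3 : Fc s fun G => (In G (nm G (nt X n)) (nm G (rl X y)) ∧
        In G (nm G (nt X n)) (nm G (rl X y'))) →
        In G (nm G (nt X n)) (nm G (rl X fun h n => y h n && y' h n)) := by
      refine Fc.imp ((RpP.mem _ _).and (RpP.mem _ _)) (RpP.mem _ _) fun r _ hr => ?_
      have h4 : Forc X r.1 fun h => y h n = true := fc_mem_rl.1 fun G hG => (hr G hG).1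
      have h5 : Forc X r.1 fun h => y' h n = true := fc_mem_rl.1 fun G hG => (hr G hG).2
      exact fc_mem_rl.2 ((h4.and h5).imp fun h _ _ h6 => by
        rw [Bool.and_eq_true]
        exact h6)
    exact fun G hG => ⟨h2 G hG, h3 G hG⟩
  intro G hG x
  constructor
  · intro hx
    exact (h1 G hG x (rl_sub _ G x hx)).1 hx
  · intro hx
    exact (h1 G hG x (rl_sub _ G x hx.1)).2 hx

private theorem trb_cofin (H : Hy F₀ X₀ p) (N : ℕ) {s : Cn X} (hs : s ≤ p) :
    Fc s fun G => In G (nm G (rl X fun _ n => decide (N ≤ n))) (nm G F₀) := by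
  have h1 : Fc s fun G => ∀ x, In G x (nm G (om X)) →
      (¬ In G x (nm G (nt X N)) → In G x (nm G (rl X fun _ n => decide (N ≤ n)))) := by
    refine fc_nat_all (A := fun G x => (¬ In G x (nm G (nt X N)) →
        In G x (nm G (rl X fun _ n => decide (N ≤ n)))))
      (fun z => (RpP.mem _ _).not.imp (RpP.mem _ _)) fun n => ?_
    by_cases hn : N ≤ n
    · have h2 : Fc s fun G => In G (nm G (nt X n)) (nm G (rl X fun _ n => decide (N ≤ n))) :=
        fc_mem_rl.2 (Forc.of_all fun h _ _ => by simp [hn])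
      exact fun G hG _ => h2 G hG
    · exact fun G _ h2 => absurd (nt_lt.2 (not_le.1 hn)) h2
  intro G hG
  exact (H.fil.mono hs G hG).cofin _ _ (rl_sub _ G) (nt_mem N G) (h1 G hG)

theorem Hy.univ (H : Hy F₀ X₀ p) {s : P} (hs : X.le s p.1) : FoN F₀ s fun _ _ => true := by
  refine ⟨Ms.const _, fun hs' => ?_⟩
  have h1 := trb_cofin H 0 (s := cn s hs') hs
  have h2 : (fun (_ : Set P) (n : ℕ) => decide (0 ≤ n)) = fun _ _ => true := by
    funext _ n
    simp
  rw [h2] at h1
  exact h1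

private theorem trb_hinter (H : Hy F₀ X₀ p) {s : P} {y y' : Set P → ℕ → Bool} (hs : X.le s p.1)
    (hy : FoN F₀ s y) (hy' : FoN F₀ s y') : FoN F₀ s fun h n => y h n && y' h n := by
  refine ⟨trb_and hy.1 hy'.1, fun hs' G hG => ?_⟩
  exact (H.fil.mono (r := cn s hs') hs G hG).inter _ _ _ (hy.2 hs' G hG) (hy'.2 hs' G hG)
    (trb_inter (cn s hs') G hG)

theorem Hy.up (H : Hy F₀ X₀ p) {s : P} {y y' : Set P → ℕ → Bool} (hs : X.le s p.1)
    (hy : FoN F₀ s y) (hy' : Ms X y')
    (h : Forc X s fun h => ∃ N, ∀ n, N ≤ n → y h n = true → y' h n = true) : FoN F₀ s y' := by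
  refine foN_loc hy' fun s' hs' => ?_
  have hd : ∀ N, Dec X fun h => ∀ n, N ≤ n → y h n = true → y' h n = true := fun N =>
    Dec.all fun n => (Dec.const (N ≤ n)).imp ((trb_dec hy.1 n).imp (trb_dec hy' n))
  obtain ⟨s'', h1, N, h2⟩ := Forc.decide hd (X.left hs') (h.mono hs')
  have h3 : X.le s'' p.1 := X.trans h1 (X.trans hs' hs)
  have h4 : FoN F₀ s'' fun _ n => decide (N ≤ n) :=
    ⟨Ms.const _, fun hs2 => trb_cofin H N (s := cn s'' hs2) h3⟩
  have h5 := trb_hinter H h3 (foN_mono (X.trans h1 hs') hy) h4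
  refine ⟨s'', h1, hy', fun hs2 => ?_⟩
  have h6 : Fc (cn s'' hs2) fun G => Sub (In G) (nm G (rl X fun h n => y h n && decide (N ≤ n)))
      (nm G (rl X y')) := by
    refine (fc_sub_rl h5.1 hy').2 (h2.imp fun h _ _ h7 n h8 => ?_)
    rw [Bool.and_eq_true, decide_eq_true_eq] at h8
    exact h7 n h8.2 h8.1
  intro G hG
  exact (H.fil.mono (r := cn s'' hs2) h3 G hG).mono _ _ (h5.2 hs2 G hG) (h6 G hG) (rl_sub _ G)

theorem Hy.inter (H : Hy F₀ X₀ p) {s : P} {y y' : Set P → ℕ → Bool} (hs : X.le s p.1)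
    (hy : FoN F₀ s y) (hy' : FoN F₀ s y') : FoN F₀ s fun h n => y h n && y' h n := by
  exact trb_hinter H hs hy hy'

theorem Hy.ne (H : Hy F₀ X₀ p) {s : P} {y : Set P → ℕ → Bool} (hs : X.le s p.1)
    (hy : FoN F₀ s y) : Forc X s fun h => ∃ n, y h n = true := by
  have h1 : Fc (cn s (X.left hs)) fun G => ∃ x, In G x (nm G (om X)) ∧
      In G x (nm G (rl X y)) := by
    intro G hG
    obtain ⟨x, hx⟩ := (H.fil.mono (r := cn s (X.left hs)) hs G hG).ne _ (hy.2 (X.left hs) G hG)
    exact ⟨x, rl_sub _ G x hx, hx⟩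
  refine Forc.loc fun s' hs' => ?_
  obtain ⟨s'', h2, n, h3⟩ := fc_nat_ex (A := fun G x => In G x (nm G (rl X y)))
    (fun z => RpP.mem _ _) h1 (cn s' (X.left hs')) hs'
  exact ⟨s''.1, h2, (fc_mem_rl.1 h3).imp fun h _ _ h4 => ⟨n, h4⟩⟩

theorem Hy.pos_iff (H : Hy F₀ X₀ p) {s : Cn X} (hs : X.le s.1 p.1) {y : Set P → ℕ → Bool}
    (hy : Ms X y) : Pos X (FoN F₀) s.1 y ↔ Fc s fun G => In G (nm G (rl X y)) (nm G X₀) := by
  constructor
  · intro hp
    have h1 : Fc s fun G => ∀ B, In G B (nm G F₀) → ∃ n, In G n (nm G (rl X y)) ∧ In G n B := by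
      refine Fc.all (A := fun G B => In G B (nm G F₀) →
        ∃ n, In G n (nm G (rl X y)) ∧ In G n B) fun B => ?_
      refine Fc.imp (RpP.mem _ _) (RpP.ex (P := fun G n => In G n (nm G (rl X y)) ∧
        In G n (nm G B)) fun z => (RpP.mem _ _).and (RpP.mem _ _)) fun r hr hB => ?_
      have hrp : r ≤ p := X.trans hr hs
      obtain ⟨y', hy', h2⟩ := exists_rl B
      have h3 := h2 r fun G hG => (H.fil.mono hrp G hG).sub _ (hB G hG)
      have h4 : FoN F₀ r.1 y' := ⟨hy', fun _ G hG => by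
        have h5 : In G (nm G B) (nm G F₀) := hB G hG
        have h6 : nm G B = nm G (rl X y') := h3 G hG
        rw [h6] at h5
        exact h5⟩
      have h5 := hp.2 r.1 y' hr h4
      refine Fc.dense (RpP.ex (P := fun G n => In G n (nm G (rl X y)) ∧
        In G n (nm G B)) fun z => (RpP.mem _ _).and (RpP.mem _ _)) fun r' hr' => ?_
      obtain ⟨s'', h6, n, h7⟩ := Forc.decide (X := X) (φ := fun n h => y h n = true ∧ y' h n = true)
        (fun n => (trb_dec hy n).and (trb_dec hy' n)) r'.2 (h5.mono hr')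
      have h8 : cn s'' (X.left h6) ≤ r := X.trans h6 hr'
      refine ⟨cn s'' (X.left h6), h6, ?_⟩
      have h9 : Fc (cn s'' (X.left h6)) fun G => In G (nm G (nt X n)) (nm G (rl X y)) :=
        fc_mem_rl.2 (h7.imp fun h _ _ h10 => h10.1)
      have h10 : Fc (cn s'' (X.left h6)) fun G => In G (nm G (nt X n)) (nm G (rl X y')) :=
        fc_mem_rl.2 (h7.imp fun h _ _ h10 => h10.2)
      intro G hG
      refine ⟨nm G (nt X n), h9 G hG, ?_⟩
      have h11 : nm G B = nm G (rl X y') := h3.mono h8 G hG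
      rw [h11]
      exact h10 G hG
    intro G hG
    exact (H.co.mono (r := s) hs G hG _).2 ⟨rl_sub _ G, h1 G hG⟩
  · intro hp
    refine ⟨hy, fun s' y' hs' hy' => ?_⟩
    have h1 : Fc (cn s' (X.left hs')) fun G => ∃ x, In G x (nm G (om X)) ∧
        (In G x (nm G (rl X y)) ∧ In G x (nm G (rl X y'))) := by
      intro G hG
      have h2 := (H.co.mono (r := cn s' (X.left hs')) (X.trans hs' hs) G hG _).1
        (hp.mono (r := cn s' (X.left hs')) hs' G hG)
      obtain ⟨x, hx, hx'⟩ := h2.2 _ (hy'.2 (X.left hs') G hG)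
      exact ⟨x, rl_sub _ G x hx, hx, hx'⟩
    refine Forc.loc fun t ht => ?_
    obtain ⟨s'', h2, n, h3⟩ := fc_nat_ex (A := fun G x => In G x (nm G (rl X y)) ∧
      In G x (nm G (rl X y'))) (fun z => (RpP.mem _ _).and (RpP.mem _ _)) h1
      (cn t (X.left ht)) ht
    have h4 : Forc X s''.1 fun h => y h n = true := fc_mem_rl.1 fun G hG => (h3 G hG).1
    have h5 : Forc X s''.1 fun h => y' h n = true := fc_mem_rl.1 fun G hG => (h3 G hG).2
    exact ⟨s''.1, h2, (h4.and h5).imp fun h _ _ h6 => ⟨n, h6⟩⟩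

end Pool.Agent.MF45
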