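import Pool.Agent.MF45.TrB

/-!
# Translation: the open covers

Paper proofs.  `exists_uN`: by separation `BVU.exists_sepP` in `X₀`; a finite disjunction of
propositions with a Boolean value has a Boolean value.  `uN_open`: for `x` in `u n m` the natural
number `m` works, since the elements of `nt X m` are the `nt X j`, `j < m` (`mem_nt`).
`mem_uN`: for `t = rl X y` the set `a` is determined by `t`: it is the set of all `j < m` such that
`G.1.U (bval X (y h j = true))`; so the right hand side is the ultrafilter membership of the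
Boolean value of `W h n m (fs (y h) m)` (a finite disjunction over the possible values `a` of
`fs (y h) m`).
`cover` : let `s ≤ p` and let the hypothesis of `FoM.menger` hold; for names `z` of elements of
`X₀`, `z = rl X y` with `y` positive (`exists_rl`, `Hy.pos_iff`), so for each `n` densely some `m`
satisfies `W h n m (fs (y h) m)`, and `rl X y ∈ u n m`.
-/

namespace Pool.Agent.MF45

universe u

open Classical
open Pool.Agent.BVU (BSet RO GG Fc Md nm In RpP on onT UN nn fnN chk)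

variable {P : Type u} {X : Pst P}

/-- the sets `u n m` consist of the `t` in `X₀` with `W n m (t ∩ m)` -/
def IsU (X₀ : BSet (RO (Cn X))) (W : Set P → ℕ → ℕ → Finset ℕ → Prop)
    (u : ℕ → ℕ → BSet (RO (Cn X))) : Prop :=
  ∀ (n m : ℕ) (G : GG (Cn X)) (t : Md G), In G t (nm G (u n m)) ↔ In G t (nm G X₀) ∧
    ∃ a ∈ (Finset.range m).powerset, G.1.U (bval X fun h => W h n m a) ∧
      ∀ j, j < m → (In G (nm G (nt X j)) t ↔ j ∈ a)

private theorem rp_exFin {ι : Type} (s : Finset ι) {Q : ι → GG (Cn X) → Prop}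
    (h : ∀ a, RpP (Q a)) : RpP fun F : GG (Cn X) => ∃ a ∈ s, Q a F := by
  induction s using Finset.induction_on with
  | empty => exact (RpP.const False).congr fun F => by simp
  | insert a s ha ih =>
    refine ((h a).or ih).congr fun F => ?_
    simp only [Finset.mem_insert, exists_eq_or_imp]

private theorem rp_allLt (m : ℕ) {Q : ℕ → GG (Cn X) → Prop}
    (h : ∀ j, RpP (Q j)) : RpP fun F : GG (Cn X) => ∀ j, j < m → Q j F := by
  induction m with
  | zero => exact (RpP.const True).congr fun F => by simp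
  | succ m ih =>
    refine (ih.and (h m)).congr fun F => ?_
    constructor
    · rintro ⟨h1, h2⟩ j hj
      rcases Nat.lt_succ_iff_lt_or_eq.1 hj with h3 | h3
      · exact h1 j h3
      · rw [h3]
        exact h2
    · intro h1
      exact ⟨fun j hj => h1 j (Nat.lt_succ_of_lt hj), h1 m (Nat.lt_succ_self m)⟩

private theorem rp_openIn (w x c : BSet (RO (Cn X))) :
    RpP fun G : GG (Cn X) => OpenIn (In G) (nm G w) (nm G x) (nm G c) := by
  have h1 : RpP fun G : GG (Cn X) => ∀ z, In G z (nm G c) → In G z (nm G x) :=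
    RpP.all fun z => (RpP.mem z c).imp (RpP.mem z x)
  have h2 : ∀ a n y : BSet (RO (Cn X)), RpP fun G : GG (Cn X) => ∀ m, In G m (nm G n) →
      (In G m (nm G a) ↔ In G m (nm G y)) := fun a n y =>
    RpP.all fun m => (RpP.mem m n).imp ((RpP.mem m a).iff (RpP.mem m y))
  have h3 : RpP fun G : GG (Cn X) => ∀ a, In G a (nm G c) → ∃ n, In G n (nm G w) ∧ ∀ y,
      In G y (nm G x) → (∀ m, In G m n → (In G m a ↔ In G m y)) → In G y (nm G c) :=
    RpP.all fun a => (RpP.mem a c).imp (RpP.ex fun n => (RpP.mem n w).and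
      (RpP.all fun y => (RpP.mem y x).imp ((h2 a n y).imp (RpP.mem y c))))
  exact h1.and h3

private theorem rp_openCover (w x c : BSet (RO (Cn X))) :
    RpP fun G : GG (Cn X) => OpenCover (In G) (nm G w) (nm G x) (nm G c) := by
  have h1 : RpP fun G : GG (Cn X) => ∀ U, In G U (nm G c) →
      OpenIn (In G) (nm G w) (nm G x) U :=
    RpP.all fun U => (RpP.mem U c).imp (rp_openIn w x U)
  have h2 : RpP fun G : GG (Cn X) => ∀ a, In G a (nm G x) → ∃ U, In G U (nm G c) ∧ In G a U :=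
    RpP.all fun a => (RpP.mem a x).imp (RpP.ex fun U => (RpP.mem U c).and (RpP.mem a U))
  exact h1.and h2

private theorem dec_tt {y : Set P → ℕ → Bool} (hy : Ms X y) (n : ℕ) :
    Dec X fun h => y h n = true := ms_countable.1 (ms_pi.1 hy n) true

private theorem mem_fs {y : ℕ → Bool} {m j : ℕ} : j ∈ fs y m ↔ j < m ∧ y j = true := by
  rw [fs, Finset.mem_filter, Finset.mem_range]

private theorem fs_eq_iff {y : ℕ → Bool} {m : ℕ} {a : Finset ℕ} :
    fs y m = a ↔ (a ⊆ Finset.range m) ∧ ∀ j, j < m → (y j = true ↔ j ∈ a) := by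
  constructor
  · rintro rfl
    exact ⟨Finset.filter_subset _ _, fun j hj => by rw [mem_fs]; exact ⟨fun h => ⟨hj, h⟩, fun h => h.2⟩⟩
  · rintro ⟨h1, h2⟩
    ext j
    rw [mem_fs]
    constructor
    · rintro ⟨h3, h4⟩
      exact (h2 j h3).1 h4
    · intro h3
      have h4 := Finset.mem_range.1 (h1 h3)
      exact ⟨h4, (h2 j h4).2 h3⟩

private theorem dec_fs {y : Set P → ℕ → Bool} (hy : Ms X y) (m : ℕ) (a : Finset ℕ) :
    Dec X fun h => fs (y h) m = a := by
  have h1 : Dec X fun h => (a ⊆ Finset.range m) ∧ ∀ j, (j < m → (y h j = true ↔ j ∈ a)) := by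
    refine (Dec.const _).and (Dec.all fun j => (Dec.const (j < m)).imp ?_)
    by_cases hj : j ∈ a
    · exact (dec_tt hy j).congr fun h _ => by simp [hj]
    · exact (dec_tt hy j).not.congr fun h _ => by simp [hj]
  exact h1.congr fun h _ => fs_eq_iff.symm

private theorem dec_W {W : Set P → ℕ → ℕ → Finset ℕ → Prop}
    (hW : ∀ n m a, Dec X fun h => W h n m a) {y : Set P → ℕ → Bool} (hy : Ms X y) (n m : ℕ) :
    Dec X fun h => W h n m (fs (y h) m) := by
  have h1 : Dec X fun h => ∃ a : Finset ℕ, fs (y h) m = a ∧ W h n m a :=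
    Dec.ex fun a => (dec_fs hy m a).and (hW n m a)
  refine h1.congr fun h _ => ⟨?_, fun h2 => ⟨_, rfl, h2⟩⟩
  rintro ⟨a, rfl, h2⟩
  exact h2

private theorem decide_fs {y : Set P → ℕ → Bool} (hy : Ms X y) (m : ℕ) {s : P}
    (hs : X.le s s) : ∃ s', X.le s' s ∧ ∃ a : Finset ℕ, Forc X s' fun h => fs (y h) m = a :=
  Forc.decide (fun a => dec_fs hy m a) hs (Forc.of_all fun _ _ _ => ⟨_, rfl⟩)

/-- the elements below `m` of the name, when they are decided -/
private theorem fs_mem {y : Set P → ℕ → Bool} (hy : Ms X y) {m : ℕ} {s : Cn X} {a : Finset ℕ}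
    (h : Forc X s.1 fun h => fs (y h) m = a) : a ⊆ Finset.range m ∧
      Fc s fun G => ∀ j, j < m → (In G (nm G (nt X j)) (nm G (rl X y)) ↔ j ∈ a) := by
  have h0 : Forc X s.1 fun _ => a ⊆ Finset.range m := h.imp fun _ _ _ h2 => (fs_eq_iff.1 h2).1
  refine ⟨h0.const s.2, fun G hG j hj => ?_⟩
  by_cases hja : j ∈ a
  · have h1 : Fc s fun G => In G (nm G (nt X j)) (nm G (rl X y)) :=
      fc_mem_rl.2 (h.imp fun _ _ _ h2 => ((fs_eq_iff.1 h2).2 j hj).2 hja)
    exact ⟨fun _ => hja, fun _ => h1 G hG⟩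
  · have h1 : Fc s fun G => ¬ In G (nm G (nt X j)) (nm G (rl X y)) :=
      (fc_not_mem_rl hy).2 (h.imp fun _ _ _ h2 => by
        rw [← Bool.not_eq_true]
        exact fun h3 => hja (((fs_eq_iff.1 h2).2 j hj).1 h3))
    exact ⟨fun h2 => absurd h2 (h1 G hG), fun h2 => absurd h2 hja⟩

theorem exists_uN (X₀ : BSet (RO (Cn X))) (W : Set P → ℕ → ℕ → Finset ℕ → Prop) :
    ∃ u : ℕ → ℕ → BSet (RO (Cn X)), IsU X₀ W u := by
  have hex : ∀ n m, ∃ u : BSet (RO (Cn X)), ∀ (G : GG (Cn X)) (t : Md G),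
      In G t (nm G u) ↔ In G t (nm G X₀) ∧ ∃ a ∈ (Finset.range m).powerset,
        G.1.U (bval X fun h => W h n m a) ∧
          ∀ j, j < m → (In G (nm G (nt X j)) t ↔ j ∈ a) := by
    intro n m
    refine BVU.exists_sepP X₀ (P := fun G t => ∃ a ∈ (Finset.range m).powerset,
      G.1.U (bval X fun h => W h n m a) ∧ ∀ j, j < m → (In G (nm G (nt X j)) t ↔ j ∈ a))
      fun y => ?_
    exact rp_exFin _ fun a => (RpP.val _).and (rp_allLt m fun j =>
      (RpP.mem _ _).iff (RpP.const _))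
  choose u hu using hex
  exact ⟨u, fun n m G t => hu n m G t⟩

theorem uN_open {X₀ : BSet (RO (Cn X))} {W : Set P → ℕ → ℕ → Finset ℕ → Prop}
    {u : ℕ → ℕ → BSet (RO (Cn X))} (hu : IsU X₀ W u) (n m : ℕ) (G : GG (Cn X)) :
    OpenIn (In G) (nm G (om X)) (nm G X₀) (nm G (u n m)) := by
  refine ⟨fun z hz => ((hu n m G z).1 hz).1, fun x hx => ?_⟩
  obtain ⟨-, a, ha, haW, haj⟩ := (hu n m G x).1 hx
  refine ⟨nm G (nt X m), nt_mem m G, fun y hy hxy => (hu n m G y).2 ⟨hy, a, ha, haW, ?_⟩⟩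
  intro j hj
  rw [← hxy _ (nt_lt.2 hj)]
  exact haj j hj

theorem fc_mem_uN {X₀ : BSet (RO (Cn X))} {W : Set P → ℕ → ℕ → Finset ℕ → Prop}
    (hW : ∀ n m a, Dec X fun h => W h n m a)
    {u : ℕ → ℕ → BSet (RO (Cn X))} (hu : IsU X₀ W u) {y : Set P → ℕ → Bool} (hy : Ms X y)
    (n m : ℕ) {s : Cn X} (hs : Fc s fun G => In G (nm G (rl X y)) (nm G X₀)) :
    Fc s (fun G => In G (nm G (rl X y)) (nm G (u n m))) ↔
      Forc X s.1 fun h => W h n m (fs (y h) m) := by
  constructor
  · intro h1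
    refine Forc.loc fun s' hs' => ?_
    obtain ⟨s'', hs'', a, ha⟩ := decide_fs hy m (X.left hs')
    refine ⟨s'', hs'', ?_⟩
    have hle : cn s'' (X.left hs'') ≤ s := X.trans hs'' hs'
    obtain ⟨ha1, ha2⟩ := fs_mem (s := cn s'' (X.left hs'')) hy ha
    have h2 : Fc (cn s'' (X.left hs'')) fun G => G.1.U (bval X fun h => W h n m a) := by
      intro G hG
      obtain ⟨-, b, hb, hbW, hbj⟩ := (hu n m G _).1 (h1.mono hle G hG)
      have hab : b = a := by
        have hb1 := Finset.mem_powerset.1 hb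
        ext j
        constructor
        · intro hj
          have hjm := Finset.mem_range.1 (hb1 hj)
          exact (ha2 G hG j hjm).1 ((hbj j hjm).2 hj)
        · intro hj
          have hjm := Finset.mem_range.1 (ha1 hj)
          exact (hbj j hjm).1 ((ha2 G hG j hjm).2 hj)
      rw [← hab]
      exact hbW
    refine ((fc_bval.1 h2).and ha).imp ?_
    rintro h - - ⟨h3, h4⟩
    rw [h4]
    exact h3
  · intro h1
    refine Fc.dense (RpP.mem _ _) fun r hr => ?_
    obtain ⟨s'', hs'', a, ha⟩ := decide_fs hy m r.2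
    refine ⟨cn s'' (X.left hs''), hs'', fun G hG => ?_⟩
    have hle : cn s'' (X.left hs'') ≤ s := X.trans hs'' hr
    obtain ⟨ha1, ha2⟩ := fs_mem (s := cn s'' (X.left hs'')) hy ha
    refine (hu n m G _).2 ⟨hs.mono hle G hG, a, Finset.mem_powerset.2 ha1, ?_, ha2 G hG⟩
    have h2 : Forc X s'' fun h => W h n m a := by
      refine ((h1.mono hle).and ha).imp ?_
      rintro h - - ⟨h3, h4⟩
      rw [h4] at h3
      exact h3
    exact (fc_bval (s := cn s'' (X.left hs''))).2 h2 G hG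

/-- the name of the sequence of the covers `{u n m | m}` -/
noncomputable def cvs (u : ℕ → ℕ → BSet (RO (Cn X))) : BSet (RO (Cn X)) :=
  fnN (fun n : UN.{u} => on n) fun n : UN.{u} => chk fun m : UN.{u} => u n.down m.down

theorem funOn_cvs (u : ℕ → ℕ → BSet (RO (Cn X))) (G : GG (Cn X)) :
    BVM.FunOn (In G) (nm G (cvs u)) (nm G (om X)) := by
  exact BVU.funOn_fnN BVU.disc_on G

theorem rel_cvs {u : ℕ → ℕ → BSet (RO (Cn X))} {G : GG (Cn X)} {n : ℕ} {C : Md G} :
    BVM.Rel (In G) (nm G (cvs u)) (nm G (nt X n)) C ↔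
      C = nm G (chk fun m : UN.{u} => u n m.down) := by
  exact BVU.rel_fnN BVU.disc_on G (nn.{u} n) C



private theorem cover_aux {u : ℕ → ℕ → BSet (RO (Cn X))} {X₀ : BSet (RO (Cn X))}
    {W : Set P → ℕ → ℕ → Finset ℕ → Prop} (hu : IsU X₀ W u) (n : ℕ) (G : GG (Cn X)) :
    ∀ U, In G U (nm G (chk fun m : UN.{u} => u n m.down)) →
      OpenIn (In G) (nm G (om X)) (nm G X₀) U := by
  intro U hU
  exact BVU.chk_all (fun m : UN.{u} => u n m.down) (D := fun _ => True) (RpP.const True)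
    (P := fun G U => OpenIn (In G) (nm G (om X)) (nm G X₀) U)
    (fun y => rp_openIn _ _ _) (fun F _ m => uN_open hu n m.down F) G trivial U hU

private theorem cover_aux2 {F₀ X₀ : BSet (RO (Cn X))} {p : Cn X} (H : Hy F₀ X₀ p)
    {W : Set P → ℕ → ℕ → Finset ℕ → Prop} (hW : ∀ n m a, Dec X fun h => W h n m a)
    {u : ℕ → ℕ → BSet (RO (Cn X))} (hu : IsU X₀ W u) {s : Cn X} (hs : X.le s.1 p.1)
    (h : ∀ (s' : P) (y : Set P → ℕ → Bool), X.le s' s.1 → Pos X (FoN F₀) s' y →
      Forc X s' fun h => ∀ n, ∃ m, W h n m (fs (y h) m)) (n : ℕ) :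
    Fc s fun G => ∀ x, In G x (nm G X₀) → ∃ U,
        In G U (nm G (chk fun m : UN.{u} => u n m.down)) ∧ In G x U := by
  refine Fc.all (A := fun G x => In G x (nm G X₀) → ∃ U,
    In G U (nm G (chk fun m : UN.{u} => u n m.down)) ∧ In G x U) fun z => ?_
  have hB : RpP fun G : GG (Cn X) => ∃ U,
      In G U (nm G (chk fun m : UN.{u} => u n m.down)) ∧ In G (nm G z) U :=
    RpP.ex fun U => (RpP.mem _ _).and (RpP.mem _ _)
  refine Fc.imp (RpP.mem _ _) hB fun r hr hz => ?_
  have hrp : X.le r.1 p.1 := X.trans hr hs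
  have hsub : Fc r fun G => Sub (In G) (nm G z) (nm G (om X)) := fun G hG =>
    ((H.co.mono (r := r) hrp G hG (nm G z)).1 (hz G hG)).1
  obtain ⟨y, hy, hyz⟩ := exists_rl (X := X) z
  have hzy := hyz r hsub
  have hry : Fc r fun G => In G (nm G (rl X y)) (nm G X₀) := fun G hG => by
    have h5 : In G (nm G z) (nm G X₀) := hz G hG
    rw [hzy G hG] at h5
    exact h5
  have hpos : Pos X (FoN F₀) r.1 y := (H.pos_iff hrp hy).2 hry
  have hf := h r.1 y hr hpos
  refine Fc.dense hB fun r' hr' => ?_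
  have hf' : Forc X r'.1 fun h => ∃ m, W h n m (fs (y h) m) :=
    (hf.mono hr').imp fun _ _ _ h2 => h2 n
  obtain ⟨r2, hr2, m, hm⟩ := Forc.decide (fun m => dec_W hW hy n m) r'.2 hf'
  have hle : cn r2 (X.left hr2) ≤ r := X.trans hr2 hr'
  have h2 := (fc_mem_uN hW hu hy n m (s := cn r2 (X.left hr2)) (hry.mono hle)).2 hm
  refine ⟨cn r2 (X.left hr2), hr2, fun G hG => ?_⟩
  have h3 := h2 G hG
  refine ⟨nm G (u n m), ?_, ?_⟩
  · exact BVU.In_chk (fun m : UN.{u} => u n m.down) (nn.{u} m) G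
  · have h4 : nm G z = nm G (rl X y) := hzy.mono hle G hG
    rw [h4]
    exact h3

private theorem fn_dom {Y : Type u} {x y : Y → BSet (RO (Cn X))} {G : GG (Cn X)} {a z : Md G}
    (h : BVM.Rel (In G) (nm G (fnN x y)) a z) : In G a (nm G (BVU.chk x)) :=
  (BVU.relN_dom (nm := x) (nm' := y) (R := fun a a' => BVU.tv (a = a')) (F := G.1) h).1

private theorem cvs_dom {u : ℕ → ℕ → BSet (RO (Cn X))} {G : GG (Cn X)} {a z : Md G}
    (h : BVM.Rel (In G) (nm G (cvs u)) a z) : In G a (nm G (om X)) :=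
  fn_dom h

theorem cover {F₀ X₀ : BSet (RO (Cn X))} {p : Cn X} (H : Hy F₀ X₀ p)
    {W : Set P → ℕ → ℕ → Finset ℕ → Prop} (hW : ∀ n m a, Dec X fun h => W h n m a)
    {u : ℕ → ℕ → BSet (RO (Cn X))} (hu : IsU X₀ W u) {s : Cn X} (hs : X.le s.1 p.1)
    (h : ∀ (s' : P) (y : Set P → ℕ → Bool), X.le s' s.1 → Pos X (FoN F₀) s' y →
      Forc X s' fun h => ∀ n, ∃ m, W h n m (fs (y h) m)) :
    Fc s fun G => ∀ n C, BVM.Rel (In G) (nm G (cvs u)) n C →
      OpenCover (In G) (nm G (om X)) (nm G X₀) C := by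
  have hA : ∀ y : BSet (RO (Cn X)), RpP fun G : GG (Cn X) => ∀ C,
      BVM.Rel (In G) (nm G (cvs u)) (nm G y) C → OpenCover (In G) (nm G (om X)) (nm G X₀) C :=
    fun y => RpP.all fun c => (RpP.rel _ _ _).imp (rp_openCover _ _ _)
  have key : ∀ n : ℕ, Fc s fun G => ∀ C, BVM.Rel (In G) (nm G (cvs u)) (nm G (nt X n)) C →
      OpenCover (In G) (nm G (om X)) (nm G X₀) C := by
    intro n G hG C hC
    rw [rel_cvs.1 hC]
    exact ⟨cover_aux hu n G, cover_aux2 H hW hu hs h n G hG⟩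
  have h2 := fc_nat_all (A := fun G x => ∀ C, BVM.Rel (In G) (nm G (cvs u)) x C →
    OpenCover (In G) (nm G (om X)) (nm G X₀) C) hA key
  intro G hG n C hC
  exact h2 G hG n (cvs_dom hC) C hC

end Pool.Agent.MF45
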