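import Pool.Agent.MF45.TrC

/-!
# Translation: bounds for finite subsets of the covers

`Qb u t n k G` says that all elements of the finite sets `t(n)` are among `u n 0, ..., u n k`.

Paper proof of `exists_bound`.  Write `C n` for the name `chk (fun m => u n m)`.
Let `s' ≤ s` and `n` be given.  Below `s'` the function `t` has a value at
`n` with a name `V` (`Fc.name`), which is a subset of `C n` and finite: there are (names for)
`k₀ ∈ ω` and a relation `f` such that each element of `V` is `f(i)` for some `i ∈ k₀`, and `f` is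
single valued (`CardLE`).  By `Fc.chk` (for `om X = chk on`) a condition
`s₁ ≤ s'` decides `k₀ = nt X j`.  For each `i < j` a further extension decides
a number `m i` such that each element of `V` which is related to `nt X i` by `f` is equal to
`u n (m i)` (if there is such an element it has a name, and it is in `C n`, so by `Fc.chk` densely
equal to some `u n m`; otherwise any `m i` works): first decide whether there is such an
element, `fc_decide`.  After finitely many steps we have `s₂` and the bound `k` = the maximum of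
the `m i`.
`exists_g`: let `g h n` be the least `k` such that some `q ∈ h` satisfies `Fc q (Qb u t n k)` (a name by
`Dec.meet` and `ms_sInf`).
-/

namespace Pool.Agent.MF45

universe u

open Classical
open Pool.Agent.BVU (BSet RO GG Fc Md nm In RpP on onT UN nn fnN chk)

variable {P : Type u} {X : Pst P}

/-- all elements of `t(n)` are among the sets `u n m`, `m ≤ k` -/
def Qb (u : ℕ → ℕ → BSet (RO (Cn X))) (t : BSet (RO (Cn X))) (n k : ℕ) (G : GG (Cn X)) : Prop :=
  ∀ V, BVM.Rel (In G) (nm G t) (nm G (nt X n)) V → ∀ U, In G U V → ∃ m ∈ Finset.range (k + 1),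
    U = nm G (u n m)

private theorem trD_rp_exF {ι : Type*} (S : Finset ι) {A : ι → GG (Cn X) → Prop}
    (hA : ∀ i, RpP (A i)) : RpP fun G => ∃ i ∈ S, A i G := by
  induction S using Finset.induction_on with
  | empty => exact (RpP.const False).congr fun G => by simp
  | insert a S _ ih =>
    refine ((hA a).or ih).congr fun G => ?_
    constructor
    · rintro (h | ⟨i, hi, h⟩)
      · exact ⟨a, Finset.mem_insert_self a S, h⟩
      · exact ⟨i, Finset.mem_insert_of_mem hi, h⟩
    · rintro ⟨i, hi, h⟩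
      rcases Finset.mem_insert.1 hi with rfl | hi
      · exact Or.inl h
      · exact Or.inr ⟨i, hi, h⟩

theorem rp_Qb (u : ℕ → ℕ → BSet (RO (Cn X))) (t : BSet (RO (Cn X))) (n k : ℕ) :
    RpP (Qb u t n k) := by
  unfold Qb
  refine RpP.all (P := fun G V => BVM.Rel (In G) (nm G t) (nm G (nt X n)) V → ∀ U, In G U V →
    ∃ m ∈ Finset.range (k + 1), U = nm G (u n m)) fun V => (RpP.rel _ _ _).imp ?_
  refine RpP.all (P := fun G U => In G U (nm G V) →
    ∃ m ∈ Finset.range (k + 1), U = nm G (u n m)) fun U => (RpP.mem U V).imp ?_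
  exact trD_rp_exF _ fun m => RpP.eq U (u n m)

private theorem trD_rp_cardLE (V K : BSet (RO (Cn X))) :
    RpP fun G : GG (Cn X) => BVM.CardLE (In G) (nm G V) (nm G K) := by
  unfold BVM.CardLE
  refine RpP.ex fun f => RpP.and ?_ ?_
  · refine RpP.all (P := fun G x => ∀ y y', BVM.Rel (In G) (nm G f) x y →
      BVM.Rel (In G) (nm G f) x y' → y' = y) fun x => ?_
    refine RpP.all (P := fun G y => ∀ y', BVM.Rel (In G) (nm G f) (nm G x) y →
      BVM.Rel (In G) (nm G f) (nm G x) y' → y' = y) fun y => ?_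
    refine RpP.all (P := fun G y' => BVM.Rel (In G) (nm G f) (nm G x) (nm G y) →
      BVM.Rel (In G) (nm G f) (nm G x) y' → y' = nm G y) fun y' => ?_
    exact (RpP.rel _ _ _).imp ((RpP.rel _ _ _).imp (RpP.eq _ _))
  · refine RpP.all (P := fun G y => In G y (nm G V) → ∃ x, In G x (nm G K) ∧
      BVM.Rel (In G) (nm G f) x y) fun y => (RpP.mem _ _).imp ?_
    exact RpP.ex (P := fun G x => In G x (nm G K) ∧ BVM.Rel (In G) (nm G f) x (nm G y))
      fun x => (RpP.mem _ _).and (RpP.rel _ _ _)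

theorem exists_bound {u : ℕ → ℕ → BSet (RO (Cn X))} {t : BSet (RO (Cn X))} {s : Cn X}
    (hf : Fc s fun G => BVM.FunOn (In G) (nm G t) (nm G (om X)))
    (h : Fc s fun G => ∀ n C V, BVM.Rel (In G) (nm G (cvs u)) n C → BVM.Rel (In G) (nm G t) n V →
      Sub (In G) V C ∧ Finite (In G) (nm G (om X)) V) (n : ℕ) :
    ∀ s' ≤ s, ∃ s'' ≤ s', ∃ k, Fc s'' (Qb u t n k) := by
  intro s' hs'
  -- a name of the value of `t` at `n`
  obtain ⟨V, hV⟩ := Fc.name (q := s')
    (A := fun G V => BVM.Rel (In G) (nm G t) (nm G (nt X n)) V ∧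
      ∀ V', BVM.Rel (In G) (nm G t) (nm G (nt X n)) V' → V' = V)
    (fun V => (RpP.rel _ _ _).and (RpP.all (P := fun G V' =>
      BVM.Rel (In G) (nm G t) (nm G (nt X n)) V' → V' = nm G V)
      fun V' => (RpP.rel _ _ _).imp (RpP.eq _ _)))
    (fun G hG => (hf.mono hs' G hG).2 _ (nt_mem n G))
  have hC : Fc s' fun G => Sub (In G) (nm G V) (nm G (BVU.chk fun m : UN.{u} => u n m.down)) ∧
      Finite (In G) (nm G (om X)) (nm G V) := fun G hG =>
    h.mono hs' G hG _ _ _ (rel_cvs.2 rfl) (hV G hG).1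
  -- it has at most `j` elements
  obtain ⟨s₁, hs₁, j, hj⟩ := fc_nat_ex (s := s')
    (A := fun G x => BVM.CardLE (In G) (nm G V) x) (fun K => trD_rp_cardLE V K)
    (fun G hG => (hC G hG).2) s' le_rfl
  obtain ⟨f, hff⟩ := Fc.name (q := s₁)
    (A := fun G f => (∀ x y y', BVM.Rel (In G) f x y → BVM.Rel (In G) f x y' → y' = y) ∧
      ∀ y, In G y (nm G V) → ∃ x, In G x (nm G (nt X j)) ∧ BVM.Rel (In G) f x y)
    (fun f => by
      refine RpP.and ?_ ?_
      · refine RpP.all (P := fun G x => ∀ y y', BVM.Rel (In G) (nm G f) x y →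
          BVM.Rel (In G) (nm G f) x y' → y' = y) fun x => ?_
        refine RpP.all (P := fun G y => ∀ y', BVM.Rel (In G) (nm G f) (nm G x) y →
          BVM.Rel (In G) (nm G f) (nm G x) y' → y' = y) fun y => ?_
        refine RpP.all (P := fun G y' => BVM.Rel (In G) (nm G f) (nm G x) (nm G y) →
          BVM.Rel (In G) (nm G f) (nm G x) y' → y' = nm G y) fun y' => ?_
        exact (RpP.rel _ _ _).imp ((RpP.rel _ _ _).imp (RpP.eq _ _))
      · refine RpP.all (P := fun G y => In G y (nm G V) → ∃ x, In G x (nm G (nt X j)) ∧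
          BVM.Rel (In G) (nm G f) x y) fun y => (RpP.mem _ _).imp ?_
        exact RpP.ex (P := fun G x => In G x (nm G (nt X j)) ∧
          BVM.Rel (In G) (nm G f) x (nm G y)) fun x => (RpP.mem _ _).and (RpP.rel _ _ _))
    hj
  -- the values of `f` at `0, ..., i - 1`
  have key : ∀ i : ℕ, ∃ s₂ ≤ s₁, ∃ k : ℕ, Fc s₂ fun G => ∀ l < i, ∀ U, In G U (nm G V) →
      BVM.Rel (In G) (nm G f) (nm G (nt X l)) U → ∃ m ∈ Finset.range (k + 1),
        U = nm G (u n m) := by
    intro i
    induction i with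
    | zero => exact ⟨s₁, le_rfl, 0, fun G _ l hl => absurd hl (Nat.not_lt_zero l)⟩
    | succ i ih =>
      obtain ⟨s₂, hs₂, k, hk⟩ := ih
      have hRp : ∀ U, RpP fun G : GG (Cn X) => In G (nm G U) (nm G V) ∧
          BVM.Rel (In G) (nm G f) (nm G (nt X i)) (nm G U) :=
        fun U => (RpP.mem _ _).and (RpP.rel _ _ _)
      obtain ⟨r, hr, hr' | hr'⟩ := BVU.fc_decide (RpP.ex (P := fun G U => In G U (nm G V) ∧
          BVM.Rel (In G) (nm G f) (nm G (nt X i)) U) hRp) s₂
      · obtain ⟨W, hW⟩ := Fc.name (q := r) (A := fun G U => In G U (nm G V) ∧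
          BVM.Rel (In G) (nm G f) (nm G (nt X i)) U) hRp hr'
        have hrs' : r ≤ s' := hr.trans (hs₂.trans hs₁)
        obtain ⟨r₁, hr₁, a, ha⟩ := Fc.chk (q := r) (x := fun m : UN.{u} => u n m.down) (y := W)
          (fun G hG => (hC.mono hrs' G hG).1 _ (hW G hG).1)
        refine ⟨r₁, hr₁.trans (hr.trans hs₂), max k a.down, fun G hG l hl U hU hRU => ?_⟩
        rcases Nat.lt_succ_iff_lt_or_eq.1 hl with hl | rfl
        · obtain ⟨m, hm, hUm⟩ := hk.mono (hr₁.trans hr) G hG l hl U hU hRU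
          refine ⟨m, ?_, hUm⟩
          rw [Finset.mem_range] at hm ⊢
          omega
        · refine ⟨a.down, ?_, ?_⟩
          · rw [Finset.mem_range]
            omega
          · have h1 := (hff.mono (hr₁.trans (hr.trans hs₂)) G hG).1 _ _ _
              (hW.mono hr₁ G hG).2 hRU
            rw [h1]
            exact ha G hG
      · refine ⟨r, hr.trans hs₂, k, fun G hG l hl U hU hRU => ?_⟩
        rcases Nat.lt_succ_iff_lt_or_eq.1 hl with hl | rfl
        · exact hk.mono hr G hG l hl U hU hRU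
        · exact absurd ⟨U, hU, hRU⟩ (hr' G hG)
  obtain ⟨s₂, hs₂, k, hk⟩ := key j
  refine ⟨s₂, hs₂.trans hs₁, k, fun G hG V' hV' U hU => ?_⟩
  have h1 : V' = nm G V := (hV.mono (hs₂.trans hs₁) G hG).2 V' hV'
  rw [h1] at hU
  obtain ⟨x, hx, hxU⟩ := (hff.mono hs₂ G hG).2 U hU
  obtain ⟨l, hl, rfl⟩ := mem_nt hx
  exact hk G hG l hl U hU hxU

theorem exists_g {u : ℕ → ℕ → BSet (RO (Cn X))} {t : BSet (RO (Cn X))} {s : Cn X}
    (h : ∀ n, ∀ s' ≤ s, ∃ s'' ≤ s', ∃ k, Fc s'' (Qb u t n k)) :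
    ∃ g : Set P → ℕ → ℕ, Ms X g ∧ ∀ (s' : Cn X) (n k : ℕ), s' ≤ s →
      (Forc X s'.1 fun h => g h n = k) → Fc s' (Qb u t n k) := by
  let D : ℕ → ℕ → Set P := fun n k => {q | ∃ hq : X.le q q, Fc (cn q hq) (Qb u t n k)}
  refine ⟨fun h n => sInf {k | ∃ q ∈ h, q ∈ D n k}, ?_, ?_⟩
  · refine ms_pi.2 fun n => ?_
    exact ms_sInf (R := fun h k => ∃ q ∈ h, q ∈ D n k) fun k => Dec.meet (D n k)
  · intro s' n k hs' hF
    refine Fc.dense (rp_Qb u t n k) fun r hr => ?_
    obtain ⟨r', hr', k', hk'⟩ := h n r (hr.trans hs')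
    have hrs : X.le r'.1 s'.1 := hr'.trans hr
    obtain ⟨g, hg, hrg, hgk⟩ := Forc.exists_fil r'.2 (hF.mono hrs)
    have hne : ({k | ∃ q ∈ g, q ∈ D n k} : Set ℕ).Nonempty := ⟨k', r'.1, hrg, r'.2, hk'⟩
    have hmem := Nat.sInf_mem hne
    rw [show sInf {k | ∃ q ∈ g, q ∈ D n k} = k from hgk] at hmem
    obtain ⟨q, hq, hqq, hqk⟩ := hmem
    obtain ⟨p, -, hp1, hp2⟩ := hg.dir hq hrg
    refine ⟨cn p (X.left hp1), ?_, ?_⟩
    · exact X.trans hp2 hr'
    · exact hqk.mono (show cn p (X.left hp1) ≤ cn q hqq from hp1)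

end Pool.Agent.MF45
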