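import Pool.Agent.MF45.TrD

/-!
# Translation: the Menger property

Paper proof of `foM_of_hy`, clause `menger`.  Let `W` and `s` be given; take `u` by `exists_uN`; by
`cover` and the Menger property below `s` there is a name `t` of a sequence of finite subsets
of the covers which covers `X₀` (`Fc.name`).  Take `g` by `exists_bound` and `exists_g`.  Let `y` be
positive below `s' ≤ s`.  Then `s'` forces `rl X y ∈ X₀` (`Hy.pos_iff`), so it forces that there are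
`n`, `V`, `U` with `t(n) = V`, `U ∈ V`, `rl X y ∈ U`; here `n ∈ ω` (since `t` is a function on `ω`).
Densely below `s'` some `s₁` decides `n` (`fc_nat_ex`) and `g h n = k` (`Ms.decide`), and by
`Qb` and `Fc.or` (finitely many cases) some `s₂ ≤ s₁` decides `m ≤ k` with `rl X y ∈ u n m`.  By
`fc_mem_uN`, `s₂` forces `W h n m (fs (y h) m)` and `m ≤ g h n`.  Use `Forc.loc`.
-/

namespace Pool.Agent.MF45

universe u

open Classical
open Pool.Agent.BVU (BSet RO GG Fc Md nm In RpP on onT UN nn fnN chk)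

variable {P : Type u} {X : Pst P}

private theorem rp_funOn (f d : BSet (RO (Cn X))) :
    RpP fun G : GG (Cn X) => BVM.FunOn (In G) (nm G f) (nm G d) := by
  refine RpP.and ?_ ?_
  · exact RpP.all fun z => (RpP.mem _ _).imp
      (RpP.ex fun x => RpP.ex fun y => (RpP.mem _ _).and (RpP.opair _ _ _))
  · exact RpP.all fun x => (RpP.mem _ _).imp (RpP.ex fun y => (RpP.rel _ _ _).and
      (RpP.all fun y' => (RpP.rel _ _ _).imp (RpP.eq _ _)))

private theorem rp_finite (w V : BSet (RO (Cn X))) :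
    RpP fun G : GG (Cn X) => Finite (In G) (nm G w) (nm G V) := by
  refine RpP.ex fun k => (RpP.mem _ _).and (RpP.ex fun f => RpP.and ?_ ?_)
  · exact RpP.all fun x => RpP.all fun y => RpP.all fun y' => (RpP.rel _ _ _).imp
      ((RpP.rel _ _ _).imp (RpP.eq _ _))
  · exact RpP.all fun y => (RpP.mem _ _).imp (RpP.ex fun x => (RpP.mem _ _).and (RpP.rel _ _ _))

private theorem rp_sub (x y : BSet (RO (Cn X))) :
    RpP fun G : GG (Cn X) => Sub (In G) (nm G x) (nm G y) :=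
  RpP.all fun _ => (RpP.mem _ _).imp (RpP.mem _ _)

private theorem fc_fin {A : ℕ → GG (Cn X) → Prop} (hA : ∀ m, RpP (A m)) (k : ℕ) {q : Cn X}
    (h : Fc q fun G => ∃ m ∈ Finset.range (k + 1), A m G) : ∃ r ≤ q, ∃ m, m ≤ k ∧ Fc r (A m) := by
  induction k generalizing q with
  | zero =>
    refine ⟨q, le_rfl, 0, le_rfl, fun G hG => ?_⟩
    obtain ⟨m, hm, h1⟩ := h G hG
    rw [Finset.mem_range] at hm
    have h2 : m = 0 := by omega
    rw [h2] at h1
    exact h1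
  | succ k ih =>
    have h1 : Fc q fun G => A (k + 1) G ∨ ∃ m ∈ Finset.range (k + 1), A m G := by
      intro G hG
      obtain ⟨m, hm, h1⟩ := h G hG
      rw [Finset.mem_range] at hm
      by_cases h2 : m = k + 1
      · left
        rw [← h2]
        exact h1
      · exact Or.inr ⟨m, Finset.mem_range.2 (by omega), h1⟩
    obtain ⟨r, hr, h2 | h2⟩ := Fc.or (hA (k + 1)) h1
    · exact ⟨r, hr, k + 1, le_rfl, h2⟩
    · obtain ⟨r', hr', m, hm, h3⟩ := ih h2
      exact ⟨r', hr'.trans hr, m, by omega, h3⟩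

theorem foM_of_hy {F₀ X₀ : BSet (RO (Cn X))} {p : Cn X} (H : Hy F₀ X₀ p) :
    FoM X p.1 (FoN F₀) := by
  refine ⟨fun _ hy => hy.1, fun _ hs' hy => foN_mono hs' hy, fun _ hy h => foN_loc hy h,
    fun hs => H.univ hs, fun hs hy hy' h => H.up hs hy hy' h, fun hs hy hy' => H.inter hs hy hy',
    fun hs hy => H.ne hs hy, ?_⟩
  intro W hW s hs hcov
  obtain ⟨u, hu⟩ := exists_uN X₀ W
  obtain ⟨σ, hσ⟩ : ∃ σ : Cn X, σ.1 = s := ⟨cn s (X.left hs), rfl⟩
  subst hσ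
  have hc := cover H hW hu (s := σ) hs (fun s' y hs' hy => hcov s' y hs' hy)
  have hm : Fc σ fun G => ∃ t, BVM.FunOn (In G) t (nm G (om X)) ∧
      (∀ n C V, BVM.Rel (In G) (nm G (cvs u)) n C → BVM.Rel (In G) t n V →
        Sub (In G) V C ∧ Finite (In G) (nm G (om X)) V) ∧
      ∀ x, In G x (nm G X₀) → ∃ n V U, BVM.Rel (In G) t n V ∧ In G U V ∧ In G x U := by
    intro G hG
    have h1 : Menger (In G) (nm G (om X)) (nm G X₀) := H.mg.mono (show σ ≤ p from hs) G hG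
    exact h1 (nm G (cvs u)) (funOn_cvs u G) (hc G hG)
  obtain ⟨t, ht⟩ := Fc.name (fun y => (rp_funOn y _).and ((RpP.all fun n => RpP.all fun C =>
    RpP.all fun V => (RpP.rel _ _ _).imp ((RpP.rel _ _ _).imp ((rp_sub _ _).and
      (rp_finite _ _)))).and (RpP.all fun x => (RpP.mem _ _).imp (RpP.ex fun n =>
        RpP.ex fun V => RpP.ex fun U => (RpP.rel _ _ _).and ((RpP.mem _ _).and
          (RpP.mem _ _)))))) hm
  obtain ⟨g, hg, hg'⟩ := exists_g (u := u) (t := t) (s := σ)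
    (exists_bound (fun G hG => (ht G hG).1) fun G hG => (ht G hG).2.1)
  refine ⟨g, hg, fun s' y hs' hy => Forc.loc fun s₁ hs₁ => ?_⟩
  obtain ⟨τ, hτ⟩ : ∃ τ : Cn X, τ.1 = s₁ := ⟨cn s₁ (X.left hs₁), rfl⟩
  subst hτ
  have hτσ : τ ≤ σ := X.trans hs₁ hs'
  have hτp : X.le τ.1 p.1 := X.trans hτσ hs
  have h1 : Fc τ fun G => In G (nm G (rl X y)) (nm G X₀) :=
    (H.pos_iff hτp hy.1).1 (FoM.pos_mono hs₁ hy)
  -- the number `n`
  have h2 : Fc τ fun G => ∃ x, In G x (nm G (om X)) ∧ ∃ V U, BVM.Rel (In G) (nm G t) x V ∧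
      In G U V ∧ In G (nm G (rl X y)) U := by
    intro G hG
    have h3 := ht.mono hτσ G hG
    obtain ⟨n, V, U, h4, h5, h6⟩ := h3.2.2 _ (h1 G hG)
    refine ⟨n, ?_, V, U, h4, h5, h6⟩
    obtain ⟨z, hz1, hz2⟩ := h4
    obtain ⟨x, y', hx, hz3⟩ := h3.1.1 z hz2
    rw [(BVU.OPair.inj hz1 hz3).1]
    exact hx
  obtain ⟨ρ, hρ, n, h3⟩ := fc_nat_ex (fun x => RpP.ex fun V => RpP.ex fun U =>
    (RpP.rel _ _ _).and ((RpP.mem _ _).and (RpP.mem _ _))) h2 τ le_rfl
  -- the number `k`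
  obtain ⟨s₂, hs₂, k, hk⟩ := (ms_pi.1 hg n).decide ρ.2
  obtain ⟨μ, hμ⟩ : ∃ μ : Cn X, μ.1 = s₂ := ⟨cn s₂ (X.left hs₂), rfl⟩
  subst hμ
  have hμρ : μ ≤ ρ := hs₂
  have hμτ : μ ≤ τ := hμρ.trans hρ
  have h4 : Fc μ (Qb u t n k) := hg' μ n k (hμτ.trans hτσ) hk
  have h5 : Fc μ fun G => ∃ m ∈ Finset.range (k + 1), In G (nm G (rl X y)) (nm G (u n m)) := by
    intro G hG
    obtain ⟨V, U, h6, h7, h8⟩ := h3.mono hμρ G hG
    obtain ⟨m, hm, h9⟩ := h4 G hG V h6 U h7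
    refine ⟨m, hm, ?_⟩
    rw [← h9]
    exact h8
  obtain ⟨ν, hν, m, hmk, h6⟩ := fc_fin (fun m => RpP.mem _ _) k h5
  have h7 : Forc X ν.1 fun h => W h n m (fs (y h) m) :=
    (fc_mem_uN hW hu hy.1 n m (h1.mono (hν.trans hμτ))).1 h6
  refine ⟨ν.1, X.trans hν (X.trans hs₂ hρ), (h7.and (Forc.mono hν hk)).imp ?_⟩
  rintro h - - ⟨h8, h9⟩
  exact ⟨n, m, by rw [h9]; exact hmk, h8⟩

end Pool.Agent.MF45
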