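import Pool.Agent.MF45.TrE

/-!
# Translation: the model

Paper proof.  `IsFilter`, `IsCoideal` and `Menger` have Boolean values (closure properties of
`RpP`; `mk_iff_of_inductive_prop` for the structure `IsFilter`).  Let `X` be a forcing notion with
a condition `p` and without `FoM`.  Let `G` be an ultrafilter (`BVU.exists_gg`) and suppose that
in `Md G` there are `F`, `C` with `IsFilter`, `IsCoideal` and `Menger`.  They have names `F₀`, `X₀`,
and the Boolean value of the conjunction is not zero as it is in `G`, so some condition `p₀`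
forces it (`BVU.gg_not` : if no condition forces it then it fails in all `G`).  So `Hy F₀ X₀ p₀`
and `foM_of_hy`, contradiction.
-/

namespace Pool.Agent.MF45

universe u

open Classical
open Pool.Agent.BVU (BSet RO GG Fc Md nm In RpP on onT UN nn fnN chk)
open Pool.Agent.BVM (ZFC Omega)

variable {P : Type u} {X : Pst P}

private theorem trf_sub (x y : BSet (RO (Cn X))) :
    RpP fun G : GG (Cn X) => Sub (In G) (nm G x) (nm G y) := by
  unfold Sub
  exact BVU.RpP.all fun _ => (BVU.RpP.mem _ _).imp (BVU.RpP.mem _ _)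

private theorem trf_cardLE (x y : BSet (RO (Cn X))) :
    RpP fun G : GG (Cn X) => BVM.CardLE (In G) (nm G x) (nm G y) := by
  unfold BVM.CardLE
  repeat' (first
    | exact BVU.RpP.rel _ _ _ | exact BVU.RpP.mem _ _ | exact BVU.RpP.eq _ _
    | refine BVU.RpP.and ?_ ?_ | refine BVU.RpP.ex fun _ => ?_ | refine BVU.RpP.all fun _ => ?_
    | refine BVU.RpP.imp ?_ ?_)

private theorem trf_funOn (x y : BSet (RO (Cn X))) :
    RpP fun G : GG (Cn X) => BVM.FunOn (In G) (nm G x) (nm G y) := by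
  unfold BVM.FunOn
  repeat' (first
    | exact BVU.RpP.rel _ _ _ | exact BVU.RpP.mem _ _ | exact BVU.RpP.eq _ _
    | exact BVU.RpP.opair _ _ _
    | refine BVU.RpP.and ?_ ?_ | refine BVU.RpP.ex fun _ => ?_ | refine BVU.RpP.all fun _ => ?_
    | refine BVU.RpP.imp ?_ ?_)

private theorem trf_finite (w x : BSet (RO (Cn X))) :
    RpP fun G : GG (Cn X) => MF45.Finite (In G) (nm G w) (nm G x) := by
  unfold MF45.Finite
  exact BVU.RpP.ex fun _ => (BVU.RpP.mem _ _).and (trf_cardLE _ _)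

private theorem trf_openIn (w C U : BSet (RO (Cn X))) :
    RpP fun G : GG (Cn X) => OpenIn (In G) (nm G w) (nm G C) (nm G U) := by
  unfold OpenIn
  repeat' (first
    | exact BVU.RpP.mem _ _ | exact trf_sub _ _
    | refine BVU.RpP.and ?_ ?_ | refine BVU.RpP.ex fun _ => ?_ | refine BVU.RpP.all fun _ => ?_
    | refine BVU.RpP.iff ?_ ?_
    | refine BVU.RpP.imp ?_ ?_)

private theorem trf_openCover (w C U : BSet (RO (Cn X))) :
    RpP fun G : GG (Cn X) => OpenCover (In G) (nm G w) (nm G C) (nm G U) := by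
  unfold OpenCover
  repeat' (first
    | exact BVU.RpP.mem _ _ | exact trf_openIn _ _ _
    | refine BVU.RpP.and ?_ ?_ | refine BVU.RpP.ex fun _ => ?_ | refine BVU.RpP.all fun _ => ?_
    | refine BVU.RpP.imp ?_ ?_)

theorem rp_isFilter (w F : BSet (RO (Cn X))) :
    RpP fun G : GG (Cn X) => IsFilter (In G) (nm G w) (nm G F) := by
  have h1 : RpP fun G : GG (Cn X) => ∀ A, In G A (nm G F) → Sub (In G) A (nm G w) :=
    BVU.RpP.all fun _ => (BVU.RpP.mem _ _).imp (trf_sub _ _)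
  have h2 : RpP fun G : GG (Cn X) => ∀ A B C, In G A (nm G F) → In G B (nm G F) →
      (∀ n, In G n C ↔ (In G n A ∧ In G n B)) → In G C (nm G F) :=
    BVU.RpP.all fun _ => BVU.RpP.all fun _ => BVU.RpP.all fun _ => (BVU.RpP.mem _ _).imp
      ((BVU.RpP.mem _ _).imp ((BVU.RpP.all fun _ => (BVU.RpP.mem _ _).iff
        ((BVU.RpP.mem _ _).and (BVU.RpP.mem _ _))).imp (BVU.RpP.mem _ _)))
  have h3 : RpP fun G : GG (Cn X) => ∀ A B, In G A (nm G F) → Sub (In G) A B →
      Sub (In G) B (nm G w) → In G B (nm G F) :=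
    BVU.RpP.all fun _ => BVU.RpP.all fun _ => (BVU.RpP.mem _ _).imp
      ((trf_sub _ _).imp ((trf_sub _ _).imp (BVU.RpP.mem _ _)))
  have h4 : RpP fun G : GG (Cn X) => ∀ A, In G A (nm G F) → ∃ n, In G n A :=
    BVU.RpP.all fun _ => (BVU.RpP.mem _ _).imp (BVU.RpP.ex fun _ => BVU.RpP.mem _ _)
  have h5 : RpP fun G : GG (Cn X) => ∀ A n, Sub (In G) A (nm G w) → In G n (nm G w) →
      (∀ m, In G m (nm G w) → ¬ In G m n → In G m A) → In G A (nm G F) :=
    BVU.RpP.all fun _ => BVU.RpP.all fun _ => (trf_sub _ _).imp ((BVU.RpP.mem _ _).imp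
      ((BVU.RpP.all fun _ => (BVU.RpP.mem _ _).imp ((BVU.RpP.mem _ _).not.imp
        (BVU.RpP.mem _ _))).imp (BVU.RpP.mem _ _)))
  exact (h1.and (h2.and (h3.and (h4.and h5)))).congr fun G =>
    ⟨fun h => ⟨h.1, h.2.1, h.2.2.1, h.2.2.2.1, h.2.2.2.2⟩,
      fun h => ⟨h.sub, h.inter, h.mono, h.ne, h.cofin⟩⟩

theorem rp_isCoideal (w F C : BSet (RO (Cn X))) :
    RpP fun G : GG (Cn X) => IsCoideal (In G) (nm G w) (nm G F) (nm G C) := by
  unfold IsCoideal
  repeat' (first
    | exact BVU.RpP.mem _ _ | exact trf_sub _ _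
    | refine BVU.RpP.iff ?_ ?_
    | refine BVU.RpP.and ?_ ?_ | refine BVU.RpP.ex fun _ => ?_ | refine BVU.RpP.all fun _ => ?_
    | refine BVU.RpP.imp ?_ ?_)

theorem rp_menger (w C : BSet (RO (Cn X))) :
    RpP fun G : GG (Cn X) => Menger (In G) (nm G w) (nm G C) := by
  unfold Menger
  repeat' (first
    | exact BVU.RpP.mem _ _ | exact BVU.RpP.rel _ _ _ | exact trf_sub _ _ | exact trf_funOn _ _
    | exact trf_finite _ _ | exact trf_openCover _ _ _
    | refine BVU.RpP.and ?_ ?_ | refine BVU.RpP.ex fun _ => ?_ | refine BVU.RpP.all fun _ => ?_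
    | refine BVU.RpP.imp ?_ ?_)

theorem exists_model_of (hX : ∃ p, X.le p p)
    (h : ∀ (p₀ : P) (Fo : P → (Set P → ℕ → Bool) → Prop), X.le p₀ p₀ → ¬ FoM X p₀ Fo) :
    ∃ (M : Type (u + 1)) (E : M → M → Prop), ZFC E ∧ ∃ w, Omega E w ∧
      ∀ F C, IsFilter E w F → IsCoideal E w F C → ¬ Menger E w C := by
  obtain ⟨p, hp⟩ := hX
  obtain ⟨G, -⟩ := BVU.exists_gg (cn p hp)
  refine ⟨Md G, In G, BVU.zfc_nm G, nm G (om X), BVU.omega_nm G, fun F C h1 h2 h3 => ?_⟩
  obtain ⟨F₀, rfl⟩ := BVU.exists_nm F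
  obtain ⟨X₀, rfl⟩ := BVU.exists_nm C
  refine BVU.gg_not ((rp_isFilter (om X) F₀).and ((rp_isCoideal (om X) F₀ X₀).and
    (rp_menger (om X) X₀))) (fun q hq => ?_) G ⟨h1, h2, h3⟩
  have H : Hy F₀ X₀ q :=
    ⟨fun G hG => (hq G hG).1, fun G hG => (hq G hG).2.1, fun G hG => (hq G hG).2.2⟩
  exact h q.1 (FoN F₀) q.2 (foM_of_hy H)

end Pool.Agent.MF45
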